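import Pool.Agent.Lib.MP_391708_nt.TF.Spec
import Pool.Agent.Lib.MP_391708_nt.T4.BrA

/-!
# Theorem T1a: basic lemmas on the form and on `Gam`
-/

set_option autoImplicit false

namespace Pool.Agent.Lib.MP391708.TF

open Finset Filter Topology
open Pool.Agent.Lib.MP391708.Eqd (V cross pairs res)
open scoped Classical

section form

variable [Aa] [Frm]

omit [Frm] in
lemma aa_pos : 0 < aa := Aa.ha

omit [Frm] in
lemma aa_posZ : (0 : ℤ) < (aa : ℤ) := by exact_mod_cast Aa.ha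

omit [Frm] in
lemma aa_oneZ : (1 : ℤ) ≤ (aa : ℤ) := aa_posZ

lemma A_pos : 0 < Frm.A := Frm.hA

lemma C_pos : 0 < Frm.C := by
  have h1 := Frm.det
  have h2 := Frm.hA
  have h3 := aa_posZ
  by_contra h
  push Not at h
  nlinarith [sq_nonneg Frm.B]

/-- `F(v) F(w) = B(v,w)² + a (cross v w)²` -/
lemma nsq_mul (v w : V) : nsq v * nsq w = dot v w ^ 2 + aa * cross v w ^ 2 := by
  rw [← Frm.det]
  simp only [nsq, dot, cross]
  ring

lemma A_mul_nsq (v : V) : Frm.A * nsq v = (Frm.A * v.1 + Frm.B * v.2) ^ 2 + aa * v.2 ^ 2 := by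
  rw [← Frm.det]
  simp only [nsq]
  ring

lemma C_mul_nsq (v : V) : Frm.C * nsq v = (Frm.B * v.1 + Frm.C * v.2) ^ 2 + aa * v.1 ^ 2 := by
  rw [← Frm.det]
  simp only [nsq]
  ring

lemma nsq_nonneg (v : V) : 0 ≤ nsq v := by
  have h1 := A_mul_nsq v
  have h2 := A_pos
  have h3 := aa_posZ
  by_contra h
  push Not at h
  nlinarith [sq_nonneg (Frm.A * v.1 + Frm.B * v.2), sq_nonneg v.2]

lemma nsq_pos {v : V} (hv : v ≠ 0) : 0 < nsq v := by
  rcases (nsq_nonneg v).lt_or_eq with h | h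
  · exact h
  · exfalso
    apply hv
    have h1 := A_mul_nsq v
    have h2 := C_mul_nsq v
    have h3 := aa_posZ
    rw [← h, mul_zero] at h1 h2
    have e2 : v.2 = 0 := by
      by_contra hne
      have : 0 < v.2 ^ 2 := by positivity
      nlinarith [sq_nonneg (Frm.A * v.1 + Frm.B * v.2)]
    have e1 : v.1 = 0 := by
      by_contra hne
      have : 0 < v.1 ^ 2 := by positivity
      nlinarith [sq_nonneg (Frm.B * v.1 + Frm.C * v.2)]
    exact Prod.ext e1 e2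

lemma nsq_neg (v : V) : nsq (-v) = nsq v := by
  simp only [nsq, Prod.fst_neg, Prod.snd_neg]; ring

lemma dot_comm (v w : V) : dot v w = dot w v := by
  simp only [dot]; ring

lemma dot_self (v : V) : dot v v = nsq v := by
  simp only [dot, nsq]; ring

omit [Aa] [Frm] in
lemma cross_ne {v w : V} (h : cross v w = -1) : v ≠ 0 ∧ w ≠ 0 := by
  constructor
  · rintro rfl; simp [cross] at h
  · rintro rfl; simp [cross] at h

lemma nsq_pos_of_cross {v w : V} (h : cross v w = -1) : 1 ≤ nsq v ∧ 1 ≤ nsq w := by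
  obtain ⟨h1, h2⟩ := cross_ne h
  exact ⟨nsq_pos h1, nsq_pos h2⟩

/-- the coordinates are bounded by the value of the form -/
lemma sq_le_nsq (v : V) : v.1 ^ 2 ≤ (Frm.A + Frm.C) * nsq v ∧ v.2 ^ 2 ≤ (Frm.A + Frm.C) * nsq v := by
  have h1 := A_mul_nsq v
  have h2 := C_mul_nsq v
  have h3 := aa_oneZ
  have h4 := nsq_nonneg v
  have h5 := A_pos
  have h6 := C_pos
  constructor
  · nlinarith [sq_nonneg (Frm.B * v.1 + Frm.C * v.2), sq_nonneg v.1]
  · nlinarith [sq_nonneg (Frm.A * v.1 + Frm.B * v.2), sq_nonneg v.2]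

lemma mem_box_of {M : ℕ} {v : V} (h : (Frm.A + Frm.C) * nsq v ≤ M) :
    v ∈ Pool.Agent.Lib.MP391708.Eqd.box M := by
  have key : ∀ a : ℤ, a ^ 2 ≤ M → -(M : ℤ) ≤ a ∧ a ≤ M := by
    intro a ha
    constructor
    · nlinarith [sq_nonneg (a + 1), sq_nonneg a]
    · nlinarith [sq_nonneg (a - 1), sq_nonneg a]
  obtain ⟨h1, h2⟩ := sq_le_nsq v
  unfold Pool.Agent.Lib.MP391708.Eqd.box
  rw [Finset.mem_product, Finset.mem_Icc, Finset.mem_Icc]
  exact ⟨key _ (h1.trans h), key _ (h2.trans h)⟩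

lemma mem_pairs_of {M : ℕ} {x : VV} (hc : cross x.1 x.2 = -1)
    (hd : (Frm.A + Frm.C) * (dot x.1 x.2 ^ 2 + aa) ≤ M) : x ∈ pairs 1 M := by
  have h1 := nsq_mul x.1 x.2
  rw [hc] at h1
  have h2 := nsq_pos_of_cross hc
  have h5 := A_pos
  have h6 := C_pos
  have e1 : nsq x.1 ≤ dot x.1 x.2 ^ 2 + aa := by nlinarith
  have e2 : nsq x.2 ≤ dot x.1 x.2 ^ 2 + aa := by nlinarith
  rw [pairs, Finset.mem_filter, Finset.mem_product]
  refine ⟨⟨mem_box_of ?_, mem_box_of ?_⟩, by rw [hc]; rfl⟩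
  · exact (mul_le_mul_of_nonneg_left e1 (by linarith)).trans hd
  · exact (mul_le_mul_of_nonneg_left e2 (by linarith)).trans hd

lemma bF_cast : (bF : ℤ) = (Frm.A + Frm.C) * (aa + 4) + 10 := by
  have h5 := A_pos
  have h6 := C_pos
  unfold bF
  push_cast
  rw [abs_of_pos (by linarith : 0 < Frm.A + Frm.C)]

/-- **membership in `Gam`** -/
lemma mem_Gam {N : ℕ} {al be : ℝ} {x : VV} : x ∈ Gam N al be ↔
    cross x.1 x.2 = -1 ∧ (N : ℤ) < mm x ∧ mm x ≤ 2 * N ∧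
    al * (mm x : ℝ) < (dd x : ℝ) ∧ (dd x : ℝ) ≤ be * (mm x : ℝ) := by
  unfold Gam
  rw [Finset.mem_filter]
  constructor
  · rintro ⟨h1, h2⟩
    rw [pairs, Finset.mem_filter] at h1
    exact ⟨by simpa using h1.2, h2⟩
  · rintro ⟨h1, h2⟩
    refine ⟨mem_pairs_of h1 ?_, h2⟩
    have h3 := h2.1
    have h4 := h2.2.1
    unfold mm at h3 h4
    have h5 : (0 : ℤ) ≤ N := Int.natCast_nonneg N
    have h6 := A_pos
    have h7 := C_pos
    have h8 := aa_posZ
    push_cast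
    rw [bF_cast]
    have e1 : dot x.1 x.2 ^ 2 ≤ 4 * (N : ℤ) ^ 2 := by nlinarith
    have e2 : dot x.1 x.2 ^ 2 + aa ≤ ((aa : ℤ) + 4) * ((N : ℤ) + 1) ^ 2 := by
      have e3 : ((aa : ℤ) + 4) * ((N : ℤ) + 1) ^ 2 =
          aa * ((N : ℤ) + 1) ^ 2 + 4 * (N : ℤ) ^ 2 + 8 * N + 4 := by ring
      have e4 : (aa : ℤ) * 1 ≤ aa * ((N : ℤ) + 1) ^ 2 :=
        mul_le_mul_of_nonneg_left (by nlinarith) h8.le
      rw [e3]
      linarith
    calc (Frm.A + Frm.C) * (dot x.1 x.2 ^ 2 + aa) ≤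
        (Frm.A + Frm.C) * (((aa : ℤ) + 4) * ((N : ℤ) + 1) ^ 2) :=
          mul_le_mul_of_nonneg_left e2 (by linarith)
      _ ≤ ((Frm.A + Frm.C) * (aa + 4) + 10) * ((N : ℤ) + 1) ^ 2 := by
          have : 0 ≤ 10 * ((N : ℤ) + 1) ^ 2 := by positivity
          linarith [this, (by ring : ((Frm.A + Frm.C) * ((aa : ℤ) + 4) + 10) * ((N : ℤ) + 1) ^ 2 =
            (Frm.A + Frm.C) * (((aa : ℤ) + 4) * ((N : ℤ) + 1) ^ 2) + 10 * ((N : ℤ) + 1) ^ 2)]

/-- `d e = M² + a` -/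
lemma dd_mul_ee {x : VV} (h : cross x.1 x.2 = -1) : dd x * ee x = mm x ^ 2 + aa := by
  have h1 := nsq_mul x.1 x.2
  rw [h] at h1
  unfold dd ee mm
  rw [h1]; ring

lemma dd_pos {x : VV} (h : cross x.1 x.2 = -1) : 0 < dd x := (nsq_pos_of_cross h).1

lemma ee_pos {x : VV} (h : cross x.1 x.2 = -1) : 0 < ee x := (nsq_pos_of_cross h).2

/-- the value at `s v + t w` -/
lemma qf_eq (x : VV) (s t : ℤ) :
    qf x s t = nsq (s * x.1.1 + t * x.2.1, s * x.1.2 + t * x.2.2) := by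
  simp only [qf, dd, mm, ee, nsq, dot]
  ring

lemma Gam_split {N : ℕ} {al be ga : ℝ} (h1 : al ≤ ga) (h2 : ga ≤ be) :
    Gam N al be = Gam N al ga ∪ Gam N ga be ∧ Disjoint (Gam N al ga) (Gam N ga be) := by
  constructor
  · ext x
    rw [Finset.mem_union, mem_Gam, mem_Gam, mem_Gam]
    constructor
    · rintro ⟨a, b, c, d, e⟩
      rcases le_or_gt (dd x : ℝ) (ga * (mm x : ℝ)) with h | h
      · exact Or.inl ⟨a, b, c, d, h⟩
      · exact Or.inr ⟨a, b, c, h, e⟩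
    · rintro (⟨a, b, c, d, e⟩ | ⟨a, b, c, d, e⟩)
      · have : (0 : ℝ) < (mm x : ℝ) := by
          have : (0 : ℤ) < mm x := lt_of_le_of_lt (Int.natCast_nonneg N) b
          exact_mod_cast this
        exact ⟨a, b, c, d, e.trans (by nlinarith)⟩
      · have : (0 : ℝ) < (mm x : ℝ) := by
          have : (0 : ℤ) < mm x := lt_of_le_of_lt (Int.natCast_nonneg N) b
          exact_mod_cast this
        exact ⟨a, b, c, lt_of_le_of_lt (by nlinarith) d, e⟩
  · rw [Finset.disjoint_left]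
    intro x hx hx'
    rw [mem_Gam] at hx hx'
    linarith [hx.2.2.2.2, hx'.2.2.2.1]

end form

end Pool.Agent.Lib.MP391708.TF
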