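import Pool.Agent.Lib.MP_391708_nt.TF.Defs

/-!
# Theorem T1a: the interface statements between the groups (a-form of `T4/Spec.lean`)

`C, D ⟶ SpecEQ, SpecFL, SpecCMP` (for every form `F`);  `E ⟶ SpecPHI, SpecPHU`;  `G ⟶ SpecNG`;
`J ⟶ SpecNU`;  `H ⟶ SpecAA`;  `I ⟶ SpecBB`;  `A ⟶ SpecA`;  S (seeds) `⟶ SpecSEED`;
`K ⟶` final theorem.  The statements about relations only (`SpecPHI, SpecPHU, SpecNG, SpecBB,
SpecA1, SpecA2, SpecA3, SpecT1`) depend on `a` only; in the proofs of `SpecNG` and `SpecBB` (groups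
G and I) a divisor `d` of `M² + a` is `dd x` for a pair `x` of one of finitely many forms
(`SpecCLS`), and `SpecFL, SpecCMP, ...` are used for each of them.
-/

set_option autoImplicit false

namespace Pool.Agent.Lib.MP391708.TF

open Finset Filter Topology
open Pool.Agent.Lib.MP391708.Eqd (V cross pairs)
open scoped Classical

noncomputable section

/-! ## Classes of forms -/

/-- the forms `L i` represent all pairs `(M, d)` with `d ∣ M² + a` -/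
def Cls [Aa] {k : ℕ} (L : Fin k → Frm) : Prop :=
  ∀ M d : ℤ, 0 < d → d ∣ M ^ 2 + aa →
    ∃ (i : Fin k) (x : VV), cross x.1 x.2 = -1 ∧ @mm _ (L i) x = M ∧ @dd _ (L i) x = d

/-- **CLS** (reduction theory, `TA/Red.lean`) -/
def SpecCLS [Aa] : Prop := ∃ (k : ℕ) (L : Fin k → Frm), Cls L

/-- at most `C` pairs `x` over `(M, d)` (the automorphisms of `F`) -/
def SpecAUT [Aa] [Frm] : Prop :=
  ∃ C : ℕ, 0 < C ∧ ∀ (S : Finset VV) (M d : ℤ), 0 < d →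
    (∀ x ∈ S, cross x.1 x.2 = -1 ∧ mm x = M ∧ dd x = d) → S.card ≤ C

/-! ## C, D: counting -/

/-- `#Γ ≤ C N` for a window of bounded ratio, and `#Γ ≥ c N` for the critical window -/
def SpecCNT [Aa] [Frm] : Prop :=
  (∃ C : ℝ, 0 < C ∧ ∀ (N : ℕ) (α β : ℝ), 1 ≤ N → 0 < α → β ≤ 100 * α →
    ((Gam N α β).card : ℝ) ≤ C * N) ∧
  ∃ c : ℝ, 0 < c ∧ ∀ᶠ N : ℕ in atTop, c * N ≤ ((Gam N 1 3).card : ℝ)

/-- equidistribution modulo `m ≤ N ^ c` -/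
def SpecEQ [Aa] [Frm] : Prop :=
  ∃ c : ℝ, 0 < c ∧ ∀ᶠ N : ℕ in atTop, ∀ (m : ℕ) (F : VV → ℝ) (α β : ℝ), 0 < m →
    (m : ℝ) ≤ (N : ℝ) ^ c → Per m F → (∀ x, 0 ≤ F x) → (∀ x, F x ≤ 1) →
    (N : ℝ) ^ (-c) ≤ α → α < β → β ≤ 20 →
    |∑ x ∈ Gam N α β, F x - ((Gam N α β).card : ℝ) * mean m F| ≤ (N : ℝ) ^ (1 - c)

/-- fundamental lemma: products of local functions, two-sided; the range `(N₁, 2 N₁]` of `M` may
differ from `(N, 2 N]` by a bounded factor -/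
def SpecFL [Aa] [Frm] : Prop :=
  ∃ c : ℝ, 0 < c ∧ ∀ (κ : ℕ) (ε : ℝ), 0 < ε → Good (fun p => ∀ᶠ N : ℕ in atTop,
    ∀ (N₁ m : ℕ) (w F : VV → ℝ) (f : ℕ → VV → ℝ) (α β : ℝ), N ≤ 4 * N₁ → N₁ ≤ 8 * N →
    0 < m → (m : ℝ) ≤ ML p N →
    Loc (PP p N) κ m w F f → (N : ℝ) ^ (-c) ≤ α → α < β → β ≤ 20 →
    |∑ x ∈ Gam N₁ α β, w x - ((Gam N₁ α β).card : ℝ) * mean m F *
        ∏ l ∈ (PP p N).filter (fun l => ¬ l ∣ m), (1 - mean l (fun x => 1 - f l x))| ≤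
      ε * (((Gam N₁ α β).card : ℝ) * mean m F *
        ∏ l ∈ (PP p N).filter (fun l => ¬ l ∣ m), (1 - mean l (fun x => 1 - f l x))) +
      (N : ℝ) ^ (1 - c))

/-- comparison lemma: conditions at the primes `≥ z` are independent of local weights -/
def SpecCMP [Aa] [Frm] : Prop :=
  ∃ c : ℝ, 0 < c ∧ ∀ (κ : ℕ) (ε : ℝ), 0 < ε → Good (fun p => ∀ᶠ N : ℕ in atTop,
    ∀ (N₁ m : ℕ) (w F : VV → ℝ) (f : ℕ → VV → ℝ) (α β : ℝ) (H₁ H₂ : ℕ) (s₁ t₁ s₂ t₂ : ℤ),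
    N ≤ 4 * N₁ → N₁ ≤ 8 * N →
    0 < m → (m : ℝ) ≤ ML p N → Loc (PP p N) κ m w F f →
    (N : ℝ) ^ (-c) ≤ α → α < β → β ≤ 20 →
    Rgh p N H₁ → Rgh p N H₂ → (H₁ : ℝ) ≤ ML p N → (H₂ : ℝ) ≤ ML p N →
    Nat.Coprime H₁ m → Nat.Coprime H₂ m → Nat.Coprime H₁ H₂ → prim H₁ s₁ t₁ → prim H₂ s₂ t₂ →
    (∑ x ∈ Gam N₁ α β, w x * ((if (H₁ : ℤ) ∣ qf x s₁ t₁ then 1 else 0) *
        (if (H₂ : ℤ) ∣ qf x s₂ t₂ then 1 else 0)) ≤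
      (1 + ε) * (dn H₁ * dn H₂) * ∑ x ∈ Gam N₁ α β, w x + (N : ℝ) ^ (1 - c)) ∧
    ((1 - ε) * dn H₁ * ∑ x ∈ Gam N₁ α β, w x - (N : ℝ) ^ (1 - c) ≤
      ∑ x ∈ Gam N₁ α β, w x * (if (H₁ : ℤ) ∣ qf x s₁ t₁ then 1 else 0)))

/-! ## E: the sums over `(D, X)` -/

/-- **PHI** (role 1, all weights `1/6`): asymptotic formula with an explicit constant -/
def SpecPHI [Aa] : Prop :=
  ∀ ε : ℝ, 0 < ε → ∃ δ : ℝ, 0 < δ ∧ Good (fun p => ∀ᶠ N : ℕ in atTop, ∀ M G P Q : ℕ,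
    Adm p N M G P Q → ∑ l ∈ (PP p N).filter (fun l => l ∣ M ^ 2 + aa), 1 / (l : ℝ) ≤ δ →
    |∑ t ∈ S1 p N M G P Q, (t.2 : ℝ) / G * vh p N (1 / 6) (1 / 6) (1 / 6) (M, G, P, Q, t) -
        cE * kp p N (5 / 2)| ≤ ε * kp p N (5 / 2))

/-- **PHU** (all weights): upper bounds, also with a condition at a sieving prime `q`;
`C` depends only on the weights (and `a`) -/
def SpecPHU [Aa] : Prop :=
  ∀ al bT bR : ℝ, 0 < al → al ≤ 1 → 0 < bT → bT ≤ 1 → 0 < bR → bR ≤ 1 →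
  ∃ C : ℝ, 0 < C ∧ Good (fun p => ∀ᶠ N : ℕ in atTop, ∀ M G P Q : ℕ, Adm p N M G P Q →
    (∑ t ∈ S2 p N M G P Q, vh p N al bT bR (M, G, P, Q, t) ≤ kpU p N M (3 - al - bT - bR) C) ∧
    ∀ q ∈ PP p N,
      (∑ t ∈ (S2 p N M G P Q).filter (fun t => ¬ q ∣ M ^ 2 + aa ∧
          ((q : ℤ) ^ 2 ∣ F1 (M, G, P, Q, t) ∨ (q : ℤ) ^ 2 ∣ F2 (M, G, P, Q, t) ∨
            (¬ q ∣ t.2 ∧ (q : ℤ) ∣ F1 (M, G, P, Q, t) ∧ (q : ℤ) ∣ F2 (M, G, P, Q, t)))),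
        vh p N al bT bR (M, G, P, Q, t) ≤ kpU p N M (3 - al - bT - bR) C / (q : ℝ) ^ 2) ∧
      (∑ t ∈ (S2 p N M G P Q).filter (fun t =>
          (q : ℤ) ∣ t.2 * F1 (M, G, P, Q, t) * F2 (M, G, P, Q, t)),
        vh p N al bT bR (M, G, P, Q, t) ≤ kpU p N M (3 - al - bT - bR) C / q))

/-! ## G: coincidences -/

/-- **NG** -/
def SpecNG [Aa] : Prop :=
  Good (fun p => ∀ᶠ N : ℕ in atTop, ((NGp p N).card : ℝ) ≤ N * zz p N ^ (-(1 / 2) : ℝ))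

/-! ## J: the number of critical divisors -/

/-- **NU** -/
def SpecNU [Aa] [Frm] : Prop :=
  ∀ ε : ℝ, 0 < ε → Good (fun p => ∃ K' : ℝ, 0 < K' ∧ ∀ᶠ N : ℕ in atTop,
    (((Gam N 1 3).filter (fun x => K' * 2 ^ om p N ((mm x).natAbs ^ 2 + aa) / Real.log (zz p N) <
      (((Gam N 1 3).filter (fun y => mm y = mm x)).card : ℝ))).card : ℝ) ≤
        ε * ((Gam N 1 3).card : ℝ))

/-! ## H: first and second moment in the critical window -/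

/-- **AA** -/
def SpecAA [Aa] [Frm] : Prop :=
  ∀ ε e₁ : ℝ, 0 < ε → 0 < e₁ → Good (fun p => ∃ C : ℝ, 0 < C ∧ ∀ᶠ N : ℕ in atTop,
    ∃ Zf : VV → Rl → ℝ, (∀ x r, 0 ≤ Zf x r) ∧ (∀ x r, Zf x r ≤ C * WC p N r) ∧
      (∀ x r, Zf x r ≠ 0 → x ∈ Gam N 1 3 ∧ r ∈ RP p e₁ N ∧ (rM r : ℤ) = mm x) ∧
      (1 - ε) * ((Gam N 1 3).card : ℝ) ≤ ∑ x ∈ Gam N 1 3, ∑ r ∈ RP p e₁ N, Zf x r ∧
      ∑ x ∈ Gam N 1 3, (∑ r ∈ RP p e₁ N, Zf x r) ^ 2 ≤ (1 + ε) * ((Gam N 1 3).card : ℝ))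

/-! ## I: the bound for the other vertices -/

/-- **BB** -/
def SpecBB [Aa] : Prop :=
  ∀ c : Wts, c.ok → Good (fun p => ∃ C : ℝ, 0 < C ∧ ∀ᶠ N : ℕ in atTop,
    ∑ M ∈ range (8 * N + 1),
      (∑ r ∈ (RG p N).filter (fun r => rM r = M ∧ UW p N c r ≤ 1), UW p N c r) ^ 2 ≤ C * N)

/-! ## A: relations -/

/-- **A1**: the relation of the signs -/
def SpecA1 [Aa] : Prop :=
  ∀ e₁ : ℝ, Good (fun p => ∀ᶠ N : ℕ in atTop, ∀ r ∈ RP p e₁ N,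
    lam (rM r ^ 2 + aa) * lam ((M2 r).natAbs ^ 2 + aa) * lam ((M3 r).natAbs ^ 2 + aa) *
      lam ((M4 r).natAbs ^ 2 + aa) = 1)

/-- **A2**: the roles -/
def SpecA2 [Aa] : Prop :=
  ∀ e₁ : ℝ, 0 < e₁ → Good (fun p => ∀ᶠ N : ℕ in atTop, RP p e₁ N ⊆ RG p N ∧
    ∀ ρ ∈ [role2, role3, role4], Set.InjOn ρ (RP p e₁ N : Set Rl) ∧
      ∀ r ∈ RP p e₁ N, ρ r ∈ RG p N)

/-- **A3**: the weights -/
def SpecA3 [Aa] : Prop :=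
  ∃ e₀ : ℝ, 0 < e₀ ∧ ∀ e₁ : ℝ, 0 < e₁ → e₁ ≤ e₀ → Good (fun p => ∃ C : ℝ, 0 < C ∧
    ∀ᶠ N : ℕ in atTop, ∀ r ∈ RP p e₁ N,
      WC p N r ≤ Real.exp (-(S0 p N / 20)) ∧
      ∀ t ∈ [(role2, w2), (role3, w3), (role4, w4)], UW p N t.2 (t.1 r) ≤ 1 ∧
        WC p N r * 2 ^ om p N (rM r ^ 2 + aa) / Real.log (zz p N) ≤ C * UW p N t.2 (t.1 r))

/-! ## S: the seeds -/

/-- **SEED** (from group S): for both signs, at some scale in `[N/B, N]`, a positive proportion of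
the critical pairs -/
def SpecSEED [Aa] [Frm] : Prop :=
  ∃ c : ℝ, 0 < c ∧ ∃ B : ℕ, 0 < B ∧ ∀ᶠ N : ℕ in atTop, ∀ e : ℤ, (e = 1 ∨ e = -1) →
    ∃ N₁ : ℕ, N ≤ B * N₁ ∧ N₁ ≤ N ∧
      c * N₁ ≤ (((Gam N₁ 1 3).filter (fun x => lam ((mm x).natAbs ^ 2 + aa) = e)).card : ℝ)

/-! ## K: the theorem -/

/-- **Theorem T1a** for squarefree `a` -/
def SpecT1 [Aa] : Prop :=
  ∃ c : ℝ, 0 < c ∧ ∀ᶠ N : ℕ in atTop,
    c * N ≤ (((Icc 1 N).filter (fun n => lam (n ^ 2 + aa) = 1)).card : ℝ) ∧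
    c * N ≤ (((Icc 1 N).filter (fun n => lam (n ^ 2 + aa) = -1)).card : ℝ)

/-- **K** (assembly; port of `Kasm`, with `SpecSEED` in place of `SpecSGN`, AA and NU used with
`ε = ε(c)` at the scale `N₁ ≤ N / 8`) -/
def SpecK [Aa] [Frm] : Prop :=
  SpecCNT → SpecNU → SpecAA → SpecBB → SpecA1 → SpecA2 → SpecA3 → SpecSEED → SpecT1

end

end Pool.Agent.Lib.MP391708.TF
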