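import Pool.Agent.Lib.MP_391708_nt.TF.BasF
import Pool.Agent.Lib.MP_391708_nt.TA.Red

/-!
# Theorem T1a: finitely many forms represent all pairs `(M, d)` (CLS); automorphisms (AUT)
-/

set_option autoImplicit false

namespace Pool.Agent.Lib.MP391708.TF

open Finset
open Pool.Agent.Lib.MP391708.Eqd (V cross pairs)

/-- **CLS** -/
theorem specCLS [Aa] : SpecCLS := by
  classical
  have hred : ∀ t : TA.Red.reds (aa : ℤ), TA.Red.IsRed (aa : ℤ) t.1.1 t.1.2.1 t.1.2.2 := by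
    intro t
    have := t.2
    unfold TA.Red.reds at this
    exact (mem_filter.1 this).2
  let F : TA.Red.reds (aa : ℤ) → Frm := fun t =>
    { A := t.1.1, B := t.1.2.1, C := t.1.2.2, hA := (hred t).1, det := (hred t).2.2.2 }
  have hm : ∀ (t : TA.Red.reds (aa : ℤ)) (x : VV), @mm _ (F t) x = t.1.1 * (x.1.1 * x.2.1) +
      t.1.2.1 * (x.1.1 * x.2.2 + x.1.2 * x.2.1) + t.1.2.2 * (x.1.2 * x.2.2) := fun _ _ => rfl
  have hd' : ∀ (t : TA.Red.reds (aa : ℤ)) (x : VV), @dd _ (F t) x = t.1.1 * x.1.1 ^ 2 +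
      2 * t.1.2.1 * x.1.1 * x.1.2 + t.1.2.2 * x.1.2 ^ 2 := fun _ _ => rfl
  refine ⟨(TA.Red.reds (aa : ℤ)).card, fun i => F ((TA.Red.reds (aa : ℤ)).equivFin.symm i), ?_⟩
  intro M d hd hdvd
  obtain ⟨W, hW⟩ := hdvd
  obtain ⟨A, B, C, h1, v, w, h2, h3, h4, h5⟩ := TA.Red.exists_red (aa : ℤ) aa_posZ d.toNat d M W
    le_rfl hd (by rw [← hW]; ring)
  have h1' : TA.Red.IsRed (aa : ℤ) A (-B) C := by
    obtain ⟨a1, a2, a3, a4⟩ := h1
    exact ⟨a1, by rwa [abs_neg], a3, by rw [← a4]; ring⟩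
  refine ⟨(TA.Red.reds (aa : ℤ)).equivFin ⟨(A, -B, C), TA.Red.mem_reds h1'⟩,
    ((v.1, -v.2), (w.1, -w.2)), ?_, ?_, ?_⟩
  · simp only [cross]; linarith
  · rw [hm, Equiv.symm_apply_apply, ← h4]
    simp only [TA.Red.bil]
    ring
  · rw [hd', Equiv.symm_apply_apply, ← h3]
    simp only [TA.Red.q]
    ring

/-- **AUT** -/
theorem specAUT [Aa] [Frm] : SpecAUT := by
  classical
  set M0 : ℕ := ((Frm.A + Frm.C) * (Frm.A + Frm.C)).toNat with hM0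
  have hA := A_pos
  have hC := C_pos
  have hM : ((M0 : ℕ) : ℤ) = (Frm.A + Frm.C) * (Frm.A + Frm.C) := by
    rw [hM0, Int.toNat_of_nonneg (by positivity)]
  refine ⟨(Eqd.box M0 ×ˢ Eqd.box M0).card + 1, by omega, fun S M d hd hS => ?_⟩
  rcases S.eq_empty_or_nonempty with rfl | ⟨x₀, hx₀⟩
  · simp
  obtain ⟨c0, m0, d0⟩ := hS x₀ hx₀
  have hE : ∀ x ∈ S, ee x = ee x₀ := by
    intro x hx
    obtain ⟨c1, m1, d1⟩ := hS x hx
    have e1 := dd_mul_ee c1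
    have e0 := dd_mul_ee c0
    rw [m1, d1] at e1
    rw [m0, d0] at e0
    exact mul_left_cancel₀ hd.ne' (e1.trans e0.symm)
  let g : VV → V × V := fun x =>
    ((-x₀.2.2 * x.1.1 + x₀.1.2 * x.2.1, -x₀.2.2 * x.1.2 + x₀.1.2 * x.2.2),
      (x₀.2.1 * x.1.1 + (-x₀.1.1) * x.2.1, x₀.2.1 * x.1.2 + (-x₀.1.1) * x.2.2))
  have hq : ∀ x ∈ S, ∀ s t : ℤ, nsq (s * x.1.1 + t * x.2.1, s * x.1.2 + t * x.2.2) =
      nsq (s * x₀.1.1 + t * x₀.2.1, s * x₀.1.2 + t * x₀.2.2) := by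
    intro x hx s t
    rw [← qf_eq, ← qf_eq, qf, qf, hE x hx, (hS x hx).2.1, (hS x hx).2.2, m0, d0]
  have hcr : x₀.1.1 * x₀.2.2 - x₀.1.2 * x₀.2.1 = -1 := c0
  have h1 : ∀ x ∈ S, nsq (g x).1 = Frm.A := by
    intro x hx
    simp only [g]
    rw [hq x hx]
    have e1 : -x₀.2.2 * x₀.1.1 + x₀.1.2 * x₀.2.1 = 1 := by linarith
    have e2 : -x₀.2.2 * x₀.1.2 + x₀.1.2 * x₀.2.2 = 0 := by ring
    rw [e1, e2]
    simp [nsq]
  have h2 : ∀ x ∈ S, nsq (g x).2 = Frm.C := by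
    intro x hx
    simp only [g]
    rw [hq x hx]
    have e1 : x₀.2.1 * x₀.1.1 + (-x₀.1.1) * x₀.2.1 = 0 := by ring
    have e2 : x₀.2.1 * x₀.1.2 + (-x₀.1.1) * x₀.2.2 = 1 := by linarith
    rw [e1, e2]
    simp [nsq]
  have hmem : ∀ x ∈ S, g x ∈ Eqd.box M0 ×ˢ Eqd.box M0 := by
    intro x hx
    rw [mem_product]
    constructor
    · apply mem_box_of
      rw [h1 x hx, hM]
      nlinarith
    · apply mem_box_of
      rw [h2 x hx, hM]
      nlinarith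
  have hinj : Set.InjOn g (S : Set VV) := by
    intro x _ y _ hxy
    simp only [g, Prod.mk.injEq] at hxy
    obtain ⟨⟨a1, a2⟩, a3, a4⟩ := hxy
    refine Prod.ext (Prod.ext ?_ ?_) (Prod.ext ?_ ?_)
    · linear_combination x₀.1.1 * a1 + x₀.1.2 * a3 + (x.1.1 - y.1.1) * hcr
    · linear_combination x₀.1.1 * a2 + x₀.1.2 * a4 + (x.1.2 - y.1.2) * hcr
    · linear_combination x₀.2.1 * a1 + x₀.2.2 * a3 + (x.2.1 - y.2.1) * hcr
    · linear_combination x₀.2.1 * a2 + x₀.2.2 * a4 + (x.2.2 - y.2.2) * hcr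
  have := card_le_card_of_injOn g hmem hinj
  omega

end Pool.Agent.Lib.MP391708.TF
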