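import Pool.Agent.Lib.MP_391708_nt.SG.Spec
import Pool.Agent.Lib.MP_391708_nt.TF.Spec

/-!
# T1a: the bridge from group S to `TF`: the critical pairs `SG.G1` are in `Gam N 1 3`
(the seeds: `TF/SeedG.lean`)
-/

set_option autoImplicit false

namespace Pool.Agent.Lib.MP391708.TF

open Finset Filter Topology
open Pool.Agent.Lib.MP391708.Eqd (V cross pairs)
open scoped Classical

noncomputable section

/-- the form of group S as an instance -/
@[reducible] def frmOf [Aa] (F : SG.Fm) (hA : 0 < F.A) (h : F.a = (aa : ℤ)) : Frm :=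
  ⟨F.A, F.B, F.C, hA, h⟩

namespace SeedBr

variable [Aa]

lemma nsq_eq (F : SG.Fm) (hA : 0 < F.A) (h : F.a = (aa : ℤ)) (v : V) :
    @nsq _ (frmOf F hA h) v = F.q v := rfl

lemma dot_eq (F : SG.Fm) (hA : 0 < F.A) (h : F.a = (aa : ℤ)) (v w : V) :
    @dot _ (frmOf F hA h) v w = F.b v w := by
  show F.A * (v.1 * w.1) + F.B * (v.1 * w.2 + v.2 * w.1) + F.C * (v.2 * w.2) = F.b v w
  unfold SG.Fm.b
  ring

lemma C_pos (F : SG.Fm) (hA : 0 < F.A) (h : F.a = (aa : ℤ)) : 0 < F.C := by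
  have h1 : F.A * F.C = F.B ^ 2 + (aa : ℤ) := by
    have := h
    unfold SG.Fm.a at this
    linarith
  have h2 : (0 : ℤ) < aa := by
    have := Aa.ha
    unfold aa
    exact_mod_cast this
  have h3 : 0 < F.A * F.C := by rw [h1]; positivity
  exact (pos_iff_pos_of_mul_pos h3).1 hA

lemma sub (F : SG.Fm) (hA : 0 < F.A) (h : F.a = (aa : ℤ)) (N : ℕ) :
    SG.G1 F N ⊆ @Gam _ (frmOf F hA h) N 1 3 := by
  intro x hx
  unfold SG.G1 at hx
  rw [mem_filter, mem_product] at hx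
  obtain ⟨⟨h1, h2⟩, h3, h4, h5, h6, h7⟩ := hx
  have hC := C_pos F hA h
  have hna : F.a.natAbs = aa := by rw [h]; exact Int.natAbs_natCast _
  rw [hna] at h1 h2
  have hbF : @bF _ (frmOf F hA h) = (F.A + F.C).natAbs * (aa + 4) + 10 := rfl
  have hAC : (((F.A + F.C).natAbs : ℕ) : ℤ) = F.A + F.C := by
    rw [Int.natCast_natAbs]; exact abs_of_pos (by linarith)
  have hbox : ∀ v : V, v ∈ SG.bx F (6 * N + aa) → v ∈ Eqd.box (@bF _ (frmOf F hA h) * (N + 1) ^ 2) := by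
    intro v hv
    unfold SG.bx at hv
    rw [mem_product, mem_Icc, mem_Icc] at hv
    rw [Eqd.mem_box, hbF]
    push_cast [hAC] at hv ⊢
    have hs : (0 : ℤ) < F.A + F.C := by linarith
    have ha : (0 : ℤ) ≤ aa := Int.natCast_nonneg _
    have hN : (0 : ℤ) ≤ N := Int.natCast_nonneg _
    have hle : (F.A + F.C) * (6 * (N : ℤ) + aa) ≤
        ((F.A + F.C) * ((aa : ℤ) + 4) + 10) * ((N : ℤ) + 1) ^ 2 := by
      have h8 : 6 * (N : ℤ) + aa ≤ ((aa : ℤ) + 4) * ((N : ℤ) + 1) ^ 2 := by nlinarith [mul_nonneg ha hN, sq_nonneg (N : ℤ), mul_nonneg ha (sq_nonneg (N : ℤ))]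
      have h9 := mul_le_mul_of_nonneg_left h8 hs.le
      nlinarith [sq_nonneg ((N : ℤ) + 1)]
    exact ⟨abs_le.2 ⟨by linarith [hv.1.1], by linarith [hv.1.2]⟩,
      abs_le.2 ⟨by linarith [hv.2.1], by linarith [hv.2.2]⟩⟩
  unfold Gam
  rw [mem_filter, Eqd.mem_pairs]
  have hmm : @mm _ (frmOf F hA h) x = F.b x.1 x.2 := dot_eq F hA h _ _
  have hdd : @dd _ (frmOf F hA h) x = F.q x.1 := rfl
  rw [hmm, hdd]
  refine ⟨⟨⟨hbox _ h1, hbox _ h2⟩, by rw [h3]; norm_num⟩, h4, h5, ?_, ?_⟩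
  · rw [one_mul]; exact_mod_cast h6
  · exact_mod_cast h7

end SeedBr

end

end Pool.Agent.Lib.MP391708.TF
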