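import Pool.Agent.Lib.MP_391708_nt.TF.Spec
import Pool.Agent.Lib.MP_391708_nt.TF.Basic
import Pool.Agent.Lib.MP_391708_nt.TF.SeedBr
import Pool.Agent.Lib.MP_391708_nt.SG.LOW

/-!
# Theorem T1a: the base measure `Gam`, upper and lower bound (`SpecCNT`), for every form

Upper bound: for fixed `v` the vectors `w` with `cross v w = -1` are `w₀ + t v`, so there are at most
`N / F(v) + 1` of them with `N < B(v, w) ≤ 2 N`; if `α > 1` the roles of `v` and `w` are exchanged.
Lower bound: `SG/LOW.lean`.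
-/

set_option autoImplicit false
set_option linter.unusedVariables false

namespace Pool.Agent.Lib.MP391708.TF

open Finset Filter Topology
open Pool.Agent.Lib.MP391708.Eqd (V cross pairs)
open scoped Classical

namespace GamM

variable [Aa] [Frm]

/-! ## Counting -/

/-- the number of vectors with `F(v) ≤ X` -/
theorem card_vec {S : Finset V} {X : ℕ} (hX : 1 ≤ X) (h : ∀ v ∈ S, nsq v ≤ X) :
    (S.card : ℤ) ≤ 9 * (Frm.A + Frm.C) * X := by
  have hAC : (0 : ℤ) < Frm.A + Frm.C := add_pos Bs.hA Bs.hC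
  obtain ⟨T, hT⟩ : ∃ T : ℕ, (T : ℤ) = (Frm.A + Frm.C) * X :=
    ⟨((Frm.A + Frm.C) * X).toNat, Int.toNat_of_nonneg (by positivity)⟩
  have hT1 : 1 ≤ T := by
    have h1 : (0 : ℤ) < T := by
      rw [hT]
      have : (0 : ℤ) < X := by exact_mod_cast hX
      positivity
    exact_mod_cast h1
  set K : ℕ := Nat.sqrt T with hK
  have hK1 : 1 ≤ K := by rw [hK, Nat.le_sqrt']; simpa using hT1
  have hK2 : K ^ 2 ≤ T := Nat.sqrt_le' T
  have hb : ∀ t : ℤ, t ^ 2 ≤ T → -(K : ℤ) ≤ t ∧ t ≤ K := by
    intro t ht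
    rw [← abs_le]
    have h1 : t.natAbs ^ 2 ≤ T := by
      have : ((t.natAbs ^ 2 : ℕ) : ℤ) ≤ T := by
        push_cast
        rw [sq_abs]
        exact ht
      exact_mod_cast this
    have h2 : t.natAbs ≤ K := by rw [hK, Nat.le_sqrt']; exact h1
    rw [Int.abs_eq_natAbs]
    exact_mod_cast h2
  have hsub : S ⊆ Icc (-(K : ℤ)) K ×ˢ Icc (-(K : ℤ)) K := by
    intro v hv
    have h1 := h v hv
    have h2 := Bs.sq_add_sq_le v
    have h3 : (Frm.A + Frm.C) * nsq v ≤ T := by
      rw [hT]
      exact mul_le_mul_of_nonneg_left h1 hAC.le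
    rw [mem_product, mem_Icc, mem_Icc]
    exact ⟨hb _ (by nlinarith [sq_nonneg v.2]), hb _ (by nlinarith [sq_nonneg v.1])⟩
  have hc : S.card ≤ (2 * K + 1) ^ 2 := by
    refine (card_le_card hsub).trans ?_
    rw [card_product, Int.card_Icc]
    have : ((K : ℤ) + 1 - -(K : ℤ)).toNat = 2 * K + 1 := by omega
    rw [this, sq]
  have h4 : (2 * K + 1) ^ 2 ≤ 9 * T := by nlinarith
  calc (S.card : ℤ) ≤ (((2 * K + 1) ^ 2 : ℕ) : ℤ) := by exact_mod_cast hc
    _ ≤ ((9 * T : ℕ) : ℤ) := by exact_mod_cast h4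
    _ = 9 * (Frm.A + Frm.C) * X := by push_cast; rw [hT]; ring

omit [Aa] [Frm] in
lemma cross_swap (v w : V) : cross w v = -cross v w := by
  unfold cross; ring

/-- `B(v, w) cross(v, w') - B(v, w') cross(v, w) = F(v) cross(w, w')` -/
lemma dot_cross (v w w' : V) :
    dot v w * cross v w' - dot v w' * cross v w = nsq v * cross w w' := by
  unfold dot cross nsq
  ring

lemma eq_of_dot_cross {v w w' : V} (hv : 0 < nsq v) (h1 : dot v w = dot v w')
    (h2 : cross v w = cross v w') : w = w' := by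
  have e1 : nsq v * (w.1 - w'.1) = 0 := by
    have : nsq v * (w.1 - w'.1) = v.1 * (dot v w - dot v w') -
        (Frm.B * v.1 + Frm.C * v.2) * (cross v w - cross v w') := by
      unfold dot cross nsq
      ring
    rw [this, h1, h2]
    ring
  have e2 : nsq v * (w.2 - w'.2) = 0 := by
    have : nsq v * (w.2 - w'.2) = v.2 * (dot v w - dot v w') +
        (Frm.A * v.1 + Frm.B * v.2) * (cross v w - cross v w') := by
      unfold dot cross nsq
      ring
    rw [this, h1, h2]
    ring
  have f1 : w.1 - w'.1 = 0 := by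
    rcases mul_eq_zero.1 e1 with h | h
    · omega
    · exact h
  have f2 : w.2 - w'.2 = 0 := by
    rcases mul_eq_zero.1 e2 with h | h
    · omega
    · exact h
  exact Prod.ext (by omega) (by omega)

/-- for fixed `v` there are at most `N / F(v) + 1` vectors `w` with `cross v w = c = ± 1`,
`N < B(v, w) ≤ 2 N` -/
theorem card_fib {v : V} (hv : 0 < nsq v) {c : ℤ} (hc : c ^ 2 = 1) {N : ℕ} {T : Finset V}
    (hT : ∀ w ∈ T, cross v w = c ∧ (N : ℤ) < dot v w ∧ dot v w ≤ 2 * N) :
    (T.card : ℝ) ≤ N / (nsq v : ℝ) + 1 := by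
  obtain ⟨d, hd⟩ : ∃ d : ℕ, (d : ℤ) = nsq v := ⟨(nsq v).toNat, Int.toNat_of_nonneg hv.le⟩
  have hd0 : 0 < d := by
    have : (0 : ℤ) < d := by rw [hd]; exact hv
    exact_mod_cast this
  have hcard : T.card ≤ (range (N / d + 1)).card := by
    refine card_le_card_of_injOn (fun w => (dot v w - N - 1).toNat / d) ?_ ?_
    · intro w hw
      rw [mem_coe] at hw
      obtain ⟨-, h1, h2⟩ := hT w hw
      rw [mem_coe, mem_range]
      have h3 : (dot v w - N - 1).toNat ≤ N := by omega
      exact Nat.lt_succ_of_le (Nat.div_le_div_right h3)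
    · intro w hw w' hw' hq
      rw [mem_coe] at hw hw'
      obtain ⟨c1, h1, h2⟩ := hT w hw
      obtain ⟨c2, h3, h4⟩ := hT w' hw'
      have hq' : (dot v w - N - 1).toNat / d = (dot v w' - N - 1).toNat / d := hq
      have e1 : (d : ℤ) ∣ dot v w - dot v w' := by
        have e2 := dot_cross v w w'
        rw [c1, c2] at e2
        rw [hd]
        refine ⟨c * cross w w', ?_⟩
        have : dot v w - dot v w' = c * (dot v w * c - dot v w' * c) := by
          linear_combination (-(dot v w) + dot v w') * hc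
        rw [this, e2]
        ring
      have e3 : dot v w = dot v w' := by
        have a1 : (((dot v w - N - 1).toNat : ℕ) : ℤ) = dot v w - N - 1 :=
          Int.toNat_of_nonneg (by omega)
        have a2 : (((dot v w' - N - 1).toNat : ℕ) : ℤ) = dot v w' - N - 1 :=
          Int.toNat_of_nonneg (by omega)
        have a3 : (dot v w - N - 1).toNat % d = (dot v w' - N - 1).toNat % d := by
          have : (d : ℤ) ∣ (((dot v w' - N - 1).toNat : ℕ) : ℤ) -
              (((dot v w - N - 1).toNat : ℕ) : ℤ) := by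
            rw [a1, a2]
            have : dot v w' - N - 1 - (dot v w - N - 1) = -(dot v w - dot v w') := by ring
            rw [this]
            exact (dvd_neg).2 e1
          exact (Nat.modEq_iff_dvd).2 this
        have a4 : (dot v w - N - 1).toNat = (dot v w' - N - 1).toNat := by
          rw [← Nat.div_add_mod (dot v w - N - 1).toNat d,
            ← Nat.div_add_mod (dot v w' - N - 1).toNat d, hq', a3]
        have a5 : dot v w - N - 1 = dot v w' - N - 1 := by rw [← a1, ← a2, a4]
        linarith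
      exact eq_of_dot_cross hv e3 (by rw [c1, c2])
  rw [card_range] at hcard
  have h5 : (T.card : ℝ) ≤ ((N / d : ℕ) : ℝ) + 1 := by exact_mod_cast hcard
  refine h5.trans ?_
  have h6 : ((N / d : ℕ) : ℝ) ≤ (N : ℝ) / (d : ℝ) := Nat.cast_div_le
  have h7 : (d : ℝ) = (nsq v : ℝ) := by rw [← hd]; simp
  rw [← h7]
  linarith

/-- a double count -/
theorem card_le_fst {S : Finset VV} {B : ℝ} {X : ℕ} (π : VV → V) (hX : 1 ≤ X)
    (h1 : ∀ x ∈ S, nsq (π x) ≤ X) (h2 : ∀ v, ((S.filter (fun x => π x = v)).card : ℝ) ≤ B) :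
    (S.card : ℝ) ≤ 9 * (Frm.A + Frm.C : ℝ) * X * B := by
  have e1 : (S.card : ℝ) = ∑ v ∈ S.image π, ((S.filter (fun x => π x = v)).card : ℝ) := by
    rw [card_eq_sum_card_image π S]
    push_cast
    rfl
  have hB : 0 ≤ B := le_trans (Nat.cast_nonneg _) (h2 0)
  have e2 : (((S.image π).card : ℤ) : ℝ) ≤ ((9 * (Frm.A + Frm.C) * X : ℤ) : ℝ) := by
    have := card_vec (S := S.image π) hX (by
      intro v hv
      obtain ⟨x, hx, rfl⟩ := mem_image.1 hv
      exact h1 x hx)
    exact_mod_cast this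
  push_cast at e2
  calc (S.card : ℝ) = ∑ v ∈ S.image π, ((S.filter (fun x => π x = v)).card : ℝ) := e1
    _ ≤ ∑ v ∈ S.image π, B := sum_le_sum fun v _ => h2 v
    _ = ((S.image π).card : ℝ) * B := by rw [sum_const, nsmul_eq_mul]
    _ ≤ 9 * (Frm.A + Frm.C : ℝ) * X * B := mul_le_mul_of_nonneg_right e2 hB

theorem card_le : ∃ C : ℝ, 0 < C ∧ ∀ (N : ℕ) (α β : ℝ), 1 ≤ N → 0 < α → β ≤ 100 * α →
    ((Gam N α β).card : ℝ) ≤ C * N := by
  have hAC : (0 : ℝ) < (Frm.A + Frm.C : ℝ) := by
    have : (0 : ℤ) < Frm.A + Frm.C := add_pos Bs.hA Bs.hC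
    exact_mod_cast this
  have ha := Bs.aa_pos_real
  refine ⟨4000 * (Frm.A + Frm.C : ℝ) * (2 + aa), by positivity, fun N α β hN hα hβ => ?_⟩
  have hN1 : (1 : ℝ) ≤ N := by exact_mod_cast hN
  rcases (Gam N α β).eq_empty_or_nonempty with he | ⟨x₀, hx₀⟩
  · rw [he, card_empty, Nat.cast_zero]
    positivity
  -- the facts about one element
  have hel : ∀ x ∈ Gam N α β, (0 : ℝ) < (nsq x.1 : ℝ) ∧ (0 : ℝ) < (nsq x.2 : ℝ) ∧
      α * N < (nsq x.1 : ℝ) ∧ (nsq x.1 : ℝ) ≤ 200 * α * N ∧
      (N : ℝ) ≤ 100 * α * (nsq x.2 : ℝ) ∧ α * (nsq x.2 : ℝ) ≤ (2 + aa) * N := by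
    intro x hx
    rw [Bs.mem_Gam] at hx
    obtain ⟨c1, m1, m2, a1, a2⟩ := hx
    have p1 : (0 : ℝ) < (nsq x.1 : ℝ) := by exact_mod_cast (Bs.dd_pos c1)
    have p2 : (0 : ℝ) < (nsq x.2 : ℝ) := by exact_mod_cast (Bs.ee_pos c1)
    have p3 : (nsq x.1 : ℝ) * (nsq x.2 : ℝ) = (mm x : ℝ) ^ 2 + aa := by
      exact_mod_cast (Bs.dd_mul_ee c1)
    have a1' : α * (mm x : ℝ) < (nsq x.1 : ℝ) := a1
    have a2' : (nsq x.1 : ℝ) ≤ β * (mm x : ℝ) := a2
    have m1' : (N : ℝ) < (mm x : ℝ) := by exact_mod_cast m1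
    have m2' : (mm x : ℝ) ≤ 2 * N := by exact_mod_cast m2
    set d : ℝ := (nsq x.1 : ℝ)
    set e : ℝ := (nsq x.2 : ℝ)
    set M : ℝ := (mm x : ℝ)
    have hM0 : 0 < M := by linarith
    have b2 : d ≤ 100 * α * M := a2'.trans (mul_le_mul_of_nonneg_right hβ hM0.le)
    refine ⟨p1, p2, ?_, ?_, ?_, ?_⟩
    · nlinarith
    · nlinarith
    · -- `M² < d e ≤ 100 α M e`
      have h1 : M * M < 100 * α * e * M := by
        calc M * M < d * e := by rw [p3]; nlinarith
          _ ≤ 100 * α * M * e := mul_le_mul_of_nonneg_right b2 p2.le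
          _ = 100 * α * e * M := by ring
      have h2 := lt_of_mul_lt_mul_right h1 hM0.le
      linarith
    · -- `α M e < d e = M² + a`
      have h1 : α * e * M ≤ ((2 + aa) * N) * M := by
        calc α * e * M = (α * M) * e := by ring
          _ ≤ d * e := mul_le_mul_of_nonneg_right a1'.le p2.le
          _ = M ^ 2 + aa := p3
          _ ≤ (2 * N) * M + aa * (N * M) := by nlinarith [mul_le_mul m1'.le hN1 zero_le_one hM0.le]
          _ = ((2 + aa) * N) * M := by ring
      exact le_of_mul_le_mul_right h1 hM0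
  obtain ⟨q1, q2, q3, q4, q5, q6⟩ := hel x₀ hx₀
  rcases le_or_gt α 1 with hα1 | hα1
  · -- `d` is the smaller one
    set X : ℕ := ⌊200 * α * N⌋₊ with hX
    have hd1 : (1 : ℝ) ≤ (nsq x₀.1 : ℝ) := by
      have : (0 : ℤ) < nsq x₀.1 := by exact_mod_cast q1
      exact_mod_cast this
    have hX1 : 1 ≤ X := by
      rw [hX, Nat.one_le_floor_iff]
      linarith
    have hXr : (X : ℝ) ≤ 200 * α * N := Nat.floor_le (by positivity)
    have key := card_le_fst (S := Gam N α β) (B := 2 / α) (X := X) (fun x => x.1) hX1 (by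
        intro x hx
        obtain ⟨r1, r2, r3, r4, r5, r6⟩ := hel x hx
        have h1 : (0 : ℤ) < nsq x.1 := by exact_mod_cast r1
        obtain ⟨d, hd⟩ : ∃ d : ℕ, (d : ℤ) = nsq x.1 := ⟨(nsq x.1).toNat, Int.toNat_of_nonneg h1.le⟩
        have h2 : (d : ℝ) = (nsq x.1 : ℝ) := by rw [← hd]; simp
        show nsq x.1 ≤ X
        rw [← hd]
        have : d ≤ X := by
          rw [hX]
          exact Nat.le_floor (by rw [h2]; exact r4)
        exact_mod_cast this) (by
        intro v
        rcases ((Gam N α β).filter (fun x => x.1 = v)).eq_empty_or_nonempty with he | ⟨x₁, hx₁⟩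
        · rw [he, card_empty, Nat.cast_zero]
          positivity
        have hx₁' := (mem_filter.1 hx₁)
        obtain ⟨r1, r2, r3, r4, r5, r6⟩ := hel x₁ hx₁'.1
        rw [hx₁'.2] at r1 r3
        have hinj : ((Gam N α β).filter (fun x => x.1 = v)).card =
            (((Gam N α β).filter (fun x => x.1 = v)).image (fun x => x.2)).card := by
          refine (card_image_of_injOn ?_).symm
          intro x hx y hy hxy
          have hx' := (mem_filter.1 (mem_coe.1 hx)).2
          have hy' := (mem_filter.1 (mem_coe.1 hy)).2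
          exact Prod.ext (by rw [hx', hy']) hxy
        rw [hinj]
        have hv0 : 0 < nsq v := by exact_mod_cast r1
        have h3 := card_fib hv0 (c := -1) (by norm_num) (N := N)
          (T := ((Gam N α β).filter (fun x => x.1 = v)).image (fun x => x.2)) (by
            intro w hw
            obtain ⟨x, hx, rfl⟩ := mem_image.1 hw
            have hx' := mem_filter.1 hx
            have h4 := Bs.mem_Gam.1 hx'.1
            rw [← hx'.2]
            exact ⟨h4.1, h4.2.1, h4.2.2.1⟩)
        refine h3.trans ?_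
        have h5 : (N : ℝ) / (nsq v : ℝ) ≤ 1 / α := by
          rw [div_le_div_iff₀ r1 hα]
          linarith
        have h6 : 1 ≤ 1 / α := by rw [le_div_iff₀ hα]; linarith
        have h7 : 2 / α = 1 / α + 1 / α := by ring
        rw [h7]
        linarith)
    refine key.trans ?_
    have h8 : 9 * (Frm.A + Frm.C : ℝ) * X * (2 / α) ≤
        9 * (Frm.A + Frm.C : ℝ) * (200 * α * N) * (2 / α) := by gcongr
    have h9 : 9 * (Frm.A + Frm.C : ℝ) * (200 * α * N) * (2 / α) =
        3600 * (Frm.A + Frm.C : ℝ) * N := by field_simp; ring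
    rw [h9] at h8
    refine h8.trans ?_
    have h10 : 0 < (Frm.A + Frm.C : ℝ) * N := by positivity
    nlinarith [mul_pos h10 ha]
  · -- `e` is the smaller one
    have hα0 : 0 < α := by linarith
    set X : ℕ := ⌊(2 + aa) * N / α⌋₊ with hX
    have hd1 : (1 : ℝ) ≤ (nsq x₀.2 : ℝ) := by
      have : (0 : ℤ) < nsq x₀.2 := by exact_mod_cast q2
      exact_mod_cast this
    have hX1 : 1 ≤ X := by
      rw [hX, Nat.one_le_floor_iff, le_div_iff₀ hα0]
      nlinarith
    have hXr : (X : ℝ) ≤ (2 + aa) * N / α := Nat.floor_le (by positivity)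
    have key := card_le_fst (S := Gam N α β) (B := 101 * α) (X := X) (fun x => x.2) hX1 (by
        intro x hx
        obtain ⟨r1, r2, r3, r4, r5, r6⟩ := hel x hx
        have h1 : (0 : ℤ) < nsq x.2 := by exact_mod_cast r2
        obtain ⟨d, hd⟩ : ∃ d : ℕ, (d : ℤ) = nsq x.2 := ⟨(nsq x.2).toNat, Int.toNat_of_nonneg h1.le⟩
        have h2 : (d : ℝ) = (nsq x.2 : ℝ) := by rw [← hd]; simp
        show nsq x.2 ≤ X
        rw [← hd]
        have : d ≤ X := by
          rw [hX]
          refine Nat.le_floor ?_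
          rw [h2, le_div_iff₀ hα0]
          linarith
        exact_mod_cast this) (by
        intro v
        rcases ((Gam N α β).filter (fun x => x.2 = v)).eq_empty_or_nonempty with he | ⟨x₁, hx₁⟩
        · rw [he, card_empty, Nat.cast_zero]
          positivity
        have hx₁' := (mem_filter.1 hx₁)
        obtain ⟨r1, r2, r3, r4, r5, r6⟩ := hel x₁ hx₁'.1
        rw [hx₁'.2] at r2 r5
        have hinj : ((Gam N α β).filter (fun x => x.2 = v)).card =
            (((Gam N α β).filter (fun x => x.2 = v)).image (fun x => x.1)).card := by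
          refine (card_image_of_injOn ?_).symm
          intro x hx y hy hxy
          have hx' := (mem_filter.1 (mem_coe.1 hx)).2
          have hy' := (mem_filter.1 (mem_coe.1 hy)).2
          exact Prod.ext hxy (by rw [hx', hy'])
        rw [hinj]
        have hv0 : 0 < nsq v := by exact_mod_cast r2
        have h3 := card_fib hv0 (c := 1) (by norm_num) (N := N)
          (T := ((Gam N α β).filter (fun x => x.2 = v)).image (fun x => x.1)) (by
            intro w hw
            obtain ⟨x, hx, rfl⟩ := mem_image.1 hw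
            have hx' := mem_filter.1 hx
            have h4 := Bs.mem_Gam.1 hx'.1
            rw [← hx'.2]
            refine ⟨?_, ?_, ?_⟩
            · show cross x.2 x.1 = 1
              rw [cross_swap, h4.1]
              norm_num
            · show (N : ℤ) < dot x.2 x.1
              rw [Bs.dot_comm]
              exact h4.2.1
            · show dot x.2 x.1 ≤ 2 * N
              rw [Bs.dot_comm]
              exact h4.2.2.1)
        refine h3.trans ?_
        have h5 : (N : ℝ) / (nsq v : ℝ) ≤ 100 * α := by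
          rw [div_le_iff₀ r2]
          linarith
        linarith)
    refine key.trans ?_
    have h8 : 9 * (Frm.A + Frm.C : ℝ) * X * (101 * α) ≤
        9 * (Frm.A + Frm.C : ℝ) * ((2 + aa) * N / α) * (101 * α) := by gcongr
    have h9 : 9 * (Frm.A + Frm.C : ℝ) * ((2 + aa) * N / α) * (101 * α) =
        909 * (Frm.A + Frm.C : ℝ) * (2 + aa) * N := by field_simp; ring
    rw [h9] at h8
    refine h8.trans ?_
    have h10 : 0 < (Frm.A + Frm.C : ℝ) * (2 + aa) * N := by positivity
    nlinarith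

/-- the form of group S -/
def toFm : SG.Fm := ⟨Frm.A, Frm.B, Frm.C⟩

lemma toFm_a : (toFm : SG.Fm).a = (aa : ℤ) := Frm.det

lemma G1_sub (N : ℕ) : SG.G1 toFm N ⊆ Gam N 1 3 := SeedBr.sub toFm Frm.hA toFm_a N

theorem card_ge : ∃ c : ℝ, 0 < c ∧ ∀ᶠ N : ℕ in atTop, c * N ≤ ((Gam N 1 3).card : ℝ) := by
  obtain ⟨c, hc, h⟩ := SG.specLOW toFm ⟨Frm.hA, by rw [toFm_a]; exact Bs.aa_pos_int⟩
  refine ⟨c, hc, ?_⟩
  filter_upwards [h] with N hN
  refine hN.trans ?_
  exact_mod_cast card_le_card ((filter_subset _ _).trans (G1_sub N))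

end GamM

/-- **CNT** -/
theorem specCNT [Aa] [Frm] : SpecCNT := ⟨GamM.card_le, GamM.card_ge⟩

end Pool.Agent.Lib.MP391708.TF
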