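import Pool.Agent.Lib.MP_391708_nt.TF.HBas

/-!
# Group H, module H1a: the algebra of a datum

For `x ∈ Gam N 1 3` and a datum `a` that fits: `|d| = g₁ m₁ n₁ u c`, `|e| = g₂ m₂ n₂ v e'` with `u c`,
`v e'` prime to the sieving primes; then `P = n₁ m₂ c`, `Q = n₂ m₁ e'`.
-/

set_option autoImplicit false
set_option linter.constructorNameAsVariable false
set_option linter.unusedVariables false

namespace Pool.Agent.Lib.MP391708.TF.H

open Finset Filter Topology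
open Pool.Agent.Lib.MP391708.Eqd (V cross pairs)
open scoped Classical

theorem sqf_dvd {s n : ℕ} (hs : Squarefree s) (h : ∀ l : ℕ, l.Prime → l ∣ s → l ∣ n) : s ∣ n := by
  rw [← Nat.prod_primeFactors_of_squarefree hs]
  exact Finset.prod_primes_dvd _ (fun l hl => (Nat.prime_of_mem_primeFactors hl).prime)
    fun l hl => h l (Nat.prime_of_mem_primeFactors hl) (Nat.dvd_of_mem_primeFactors hl)

section
variable [Pool.Agent.Lib.MP391708.TF.Aa] {p : Prm} {N : ℕ} {a : Dt}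

/-- the conditions in `DA` -/
theorem mem_DA (h : a ∈ DA p N) :
    Squarefree (ds a * es a) ∧ (∀ l : ℕ, l.Prime → l ∣ ds a * es a → l ∈ PP p N) ∧
      (ds a : ℝ) ≤ zz p N ^ p.K ∧ (es a : ℝ) ≤ zz p N ^ p.K ∧ du a ∈ Uu p N ∧ dv a ∈ Vv p N := by
  unfold DA at h
  simp only [mem_filter, mem_product] at h
  exact ⟨h.2.1, h.2.2.1, h.2.2.2.1, h.2.2.2.2, h.1.2.2.1, h.1.2.2.2⟩

theorem ds_sqf (h : a ∈ DA p N) : Squarefree (ds a) :=
  (mem_DA h).1.squarefree_of_dvd (Dvd.intro _ rfl)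

theorem es_sqf (h : a ∈ DA p N) : Squarefree (es a) :=
  (mem_DA h).1.squarefree_of_dvd (Dvd.intro_left _ rfl)

theorem ds_ne (h : a ∈ DA p N) : ds a ≠ 0 := (ds_sqf h).ne_zero

theorem es_ne (h : a ∈ DA p N) : es a ≠ 0 := (es_sqf h).ne_zero

theorem ds_es_coprime (h : a ∈ DA p N) : Nat.Coprime (ds a) (es a) :=
  Nat.coprime_of_squarefree_mul (mem_DA h).1

/-- all six numbers are positive -/
theorem pos6 (h : a ∈ DA p N) :
    0 < g1 a ∧ 0 < m1 a ∧ 0 < n1 a ∧ 0 < g2 a ∧ 0 < m2 a ∧ 0 < n2 a := by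
  have h1 := ds_ne h
  have h2 := es_ne h
  unfold ds at h1
  unfold es at h2
  simp only [mul_ne_zero_iff] at h1 h2
  exact ⟨Nat.pos_of_ne_zero h1.1.1, Nat.pos_of_ne_zero h1.1.2, Nat.pos_of_ne_zero h1.2,
    Nat.pos_of_ne_zero h2.1.1, Nat.pos_of_ne_zero h2.1.2, Nat.pos_of_ne_zero h2.2⟩

omit [Pool.Agent.Lib.MP391708.TF.Aa] in
theorem g1_dvd (a : Dt) : g1 a ∣ ds a := by
  unfold ds; rw [mul_assoc]; exact Dvd.intro _ rfl
omit [Pool.Agent.Lib.MP391708.TF.Aa] in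
theorem m1_dvd (a : Dt) : m1 a ∣ ds a := by
  unfold ds; exact Dvd.dvd.mul_right (Dvd.intro_left _ rfl) _
omit [Pool.Agent.Lib.MP391708.TF.Aa] in
theorem n1_dvd (a : Dt) : n1 a ∣ ds a := Dvd.intro_left _ rfl
omit [Pool.Agent.Lib.MP391708.TF.Aa] in
theorem g2_dvd (a : Dt) : g2 a ∣ es a := by
  unfold es; rw [mul_assoc]; exact Dvd.intro _ rfl
omit [Pool.Agent.Lib.MP391708.TF.Aa] in
theorem m2_dvd (a : Dt) : m2 a ∣ es a := by
  unfold es; exact Dvd.dvd.mul_right (Dvd.intro_left _ rfl) _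
omit [Pool.Agent.Lib.MP391708.TF.Aa] in
theorem n2_dvd (a : Dt) : n2 a ∣ es a := Dvd.intro_left _ rfl

theorem du_prime (h : a ∈ DA p N) : (du a).Prime := (mem_Uu.1 (mem_DA h).2.2.2.2.1).2.2.1
theorem dv_prime (h : a ∈ DA p N) : (dv a).Prime := (mem_Vv.1 (mem_DA h).2.2.2.2.2).2.2.1
theorem Y1_le_du (h : a ∈ DA p N) : Y1 p N ≤ du a := (mem_Uu.1 (mem_DA h).2.2.2.2.1).1
theorem du_le_Y2 (h : a ∈ DA p N) : (du a : ℝ) ≤ Y2 p N := (mem_Uu.1 (mem_DA h).2.2.2.2.1).2.1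
theorem Y3_le_dv (h : a ∈ DA p N) : Y3 p N ≤ dv a := (mem_Vv.1 (mem_DA h).2.2.2.2.2).1
theorem dv_le_Y4 (h : a ∈ DA p N) : (dv a : ℝ) ≤ Y4 p N := (mem_Vv.1 (mem_DA h).2.2.2.2.2).2.1

theorem du_mod (h : a ∈ DA p N) : spl (du a) := (mem_Uu.1 (mem_DA h).2.2.2.2.1).2.2.2
theorem dv_mod (h : a ∈ DA p N) : spl (dv a) := (mem_Vv.1 (mem_DA h).2.2.2.2.2).2.2.2

theorem z_le_du (hb : Bas p N) (h : a ∈ DA p N) : zz p N ≤ du a := hb.z_le_Y1.trans (Y1_le_du h)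
theorem z_le_dv (hb : Bas p N) (h : a ∈ DA p N) : zz p N ≤ dv a := hb.z_le_Y3.trans (Y3_le_dv h)

theorem du_lt_dv (hb : Bas p N) (h : a ∈ DA p N) : du a < dv a := by
  have := ((du_le_Y2 h).trans_lt hb.Y2_lt_Y3).trans_le (Y3_le_dv h)
  exact_mod_cast this

theorem not_dvd_du (hb : Bas p N) (h : a ∈ DA p N) {l : ℕ} (hl : l ∈ PP p N) : ¬ l ∣ du a := by
  intro h1
  rw [Nat.prime_dvd_prime_iff_eq (prime_of_mem_PP hl) (du_prime h)] at h1
  have h2 := lt_of_mem_PP hl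
  rw [h1] at h2
  exact absurd h2 (not_lt.2 (z_le_du hb h))

theorem not_dvd_dv (hb : Bas p N) (h : a ∈ DA p N) {l : ℕ} (hl : l ∈ PP p N) : ¬ l ∣ dv a := by
  intro h1
  rw [Nat.prime_dvd_prime_iff_eq (prime_of_mem_PP hl) (dv_prime h)] at h1
  have h2 := lt_of_mem_PP hl
  rw [h1] at h2
  exact absurd h2 (not_lt.2 (z_le_dv hb h))

/-- a number all of whose primes are in `PP` is prime to a number without primes of `PP` -/
theorem coprime_of_PP {s n : ℕ} (hs : ∀ l : ℕ, l.Prime → l ∣ s → l ∈ PP p N)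
    (hn : ∀ l ∈ PP p N, ¬ l ∣ n) : Nat.Coprime s n :=
  Nat.coprime_of_dvd fun l hl h1 h2 => hn l (hs l hl h1) h2

theorem primes_ds (h : a ∈ DA p N) (l : ℕ) (hl : l.Prime) (hd : l ∣ ds a) : l ∈ PP p N :=
  (mem_DA h).2.1 l hl (hd.mul_right _)

theorem primes_es (h : a ∈ DA p N) (l : ℕ) (hl : l.Prime) (hd : l ∣ es a) : l ∈ PP p N :=
  (mem_DA h).2.1 l hl (hd.mul_left _)

/-- decomposition of `n = s q c` -/
theorem dec_aux {s q n : ℕ} (hn : n ≠ 0) (hs : Squarefree s)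
    (hsp : ∀ l : ℕ, l.Prime → l ∣ s → l ∈ PP p N) (hq : q ∣ n) (hqp : ∀ l ∈ PP p N, ¬ l ∣ q)
    (h : ∀ l ∈ PP p N, (l ∣ n ↔ l ∣ s) ∧ ¬ l ^ 2 ∣ n) :
    ∃ c : ℕ, 0 < c ∧ n = s * q * c ∧ ∀ l ∈ PP p N, ¬ l ∣ q * c := by
  have h1 : s ∣ n := sqf_dvd hs fun l hl hd => (h l (hsp l hl hd)).1.2 hd
  have h2 : s * q ∣ n := (coprime_of_PP hsp hqp).mul_dvd_of_dvd_of_dvd h1 hq
  obtain ⟨c, rfl⟩ := h2
  refine ⟨c, Nat.pos_of_ne_zero (right_ne_zero_of_mul hn), rfl, fun l hl hd => ?_⟩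
  obtain ⟨h3, h4⟩ := h l hl
  have h5 : l ∣ s * q * c := by
    rw [mul_assoc]
    exact hd.mul_left _
  have h6 := h3.1 h5
  refine h4 ?_
  rw [mul_assoc, sq]
  exact mul_dvd_mul h6 hd

variable [Pool.Agent.Lib.MP391708.TF.Frm] {x : VV}

/-- `|d| = s u c`, `|e| = s' v e'` -/
theorem fits_dec (hb : Bas p N) (hx : x ∈ Gam N 1 3) (ha : a ∈ DA p N) (hf : fits p N a x) :
    ∃ c e : ℕ, 0 < c ∧ 0 < e ∧ (dd x).natAbs = ds a * du a * c ∧
      (ee x).natAbs = es a * dv a * e ∧ (∀ l ∈ PP p N, ¬ l ∣ du a * c) ∧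
      ∀ l ∈ PP p N, ¬ l ∣ dv a * e := by
  obtain ⟨-, hu, hv, hl⟩ := hf
  have h1 : (dd x).natAbs ≠ 0 := Int.natAbs_ne_zero.2 (dd_pos (mem_Gam hx).1).ne'
  have h2 : (ee x).natAbs ≠ 0 := Int.natAbs_ne_zero.2 (ee_pos (mem_Gam hx).1).ne'
  obtain ⟨c, hc, h3, h4⟩ := dec_aux h1 (ds_sqf ha) (primes_ds ha) (dvd_dd_iff.1 hu)
    (fun l hl => not_dvd_du hb ha hl) fun l hl' =>
      ⟨by rw [← dvd_dd_iff]; exact (hl l hl').1, by rw [← sq_dvd_dd_iff]; exact (hl l hl').2.2.1⟩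
  obtain ⟨e, he, h5, h6⟩ := dec_aux h2 (es_sqf ha) (primes_es ha) (dvd_ee_iff.1 hv)
    (fun l hl => not_dvd_dv hb ha hl) fun l hl' =>
      ⟨by rw [← dvd_ee_iff]; exact (hl l hl').2.1, by rw [← sq_dvd_ee_iff]; exact (hl l hl').2.2.2⟩
  exact ⟨c, e, hc, he, h3, h5, h4, h6⟩

/-- the cofactors `P`, `Q` -/
theorem Pd_eq {c : ℕ} (ha : a ∈ DA p N) (h : (dd x).natAbs = ds a * du a * c) :
    Pd a x = n1 a * m2 a * c := by
  unfold Pd
  rw [h]
  have h0 := pos6 ha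
  have h1 := (du_prime ha).pos
  refine Nat.div_eq_of_eq_mul_right (by have := h0.1; have := h0.2.1; positivity) ?_
  unfold ds
  ring

theorem Qd_eq {e : ℕ} (ha : a ∈ DA p N) (h : (ee x).natAbs = es a * dv a * e) :
    Qd a x = n2 a * m1 a * e := by
  unfold Qd
  rw [h]
  have h0 := pos6 ha
  have h1 := (dv_prime ha).pos
  refine Nat.div_eq_of_eq_mul_right (by have := h0.2.2.2.1; have := h0.2.2.2.2.1; positivity) ?_
  unfold es
  ring

end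

/-! ## Sizes and coprimality -/

theorem le_E_of_dvd_W0 {p : Prm} {l : ℕ} (hl : l.Prime) (h : l ∣ W0 p) : l ≤ p.E := by
  unfold W0 primorial at h
  have h1 := hl.dvd_of_dvd_pow h
  rw [Prime.dvd_finsetProd_iff hl.prime] at h1
  obtain ⟨q, hq, h2⟩ := h1
  rw [mem_filter, mem_range] at hq
  have := Nat.le_of_dvd hq.2.pos h2
  omega

section
variable [Pool.Agent.Lib.MP391708.TF.Aa] {p : Prm} {N : ℕ} {a : Dt}

theorem primes_dG (h : a ∈ DA p N) {l : ℕ} (hl : l.Prime) (hd : l ∣ dG a) :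
    l ∈ PP p N ∨ l = du a ∨ l = dv a := by
  unfold dG at hd
  rcases (hl.dvd_mul).1 hd with h1 | h1
  · rcases (hl.dvd_mul).1 h1 with h2 | h2
    · rcases (hl.dvd_mul).1 h2 with h3 | h3
      · exact Or.inl (primes_ds h l hl (h3.trans (g1_dvd a)))
      · exact Or.inl (primes_es h l hl (h3.trans (g2_dvd a)))
    · exact Or.inr (Or.inl ((Nat.prime_dvd_prime_iff_eq hl (du_prime h)).1 h2))
  · exact Or.inr (Or.inr ((Nat.prime_dvd_prime_iff_eq hl (dv_prime h)).1 h1))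

theorem dG_pos (h : a ∈ DA p N) : 0 < dG a := by
  have h1 := pos6 h
  have h2 := (du_prime h).pos
  have h3 := (dv_prime h).pos
  have := h1.1
  have := h1.2.2.2.1
  unfold dG
  positivity

theorem E_lt_primes_dG (hb : Bas p N) (h : a ∈ DA p N) {l : ℕ} (hl : l.Prime) (hd : l ∣ dG a) :
    p.E < l := by
  have h0 := hb.zE
  rcases primes_dG h hl hd with h1 | h1 | h1
  · exact E_lt_of_mem_PP h1
  · have := z_le_du hb h
    rw [h1]
    have h2 : (p.E : ℝ) < du a := by linarith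
    exact_mod_cast h2
  · have := z_le_dv hb h
    rw [h1]
    have h2 : (p.E : ℝ) < dv a := by linarith
    exact_mod_cast h2

theorem mod4_primes_dG (h : a ∈ DA p N) {l : ℕ} (hl : l.Prime) (hd : l ∣ dG a) : spl l := by
  rcases primes_dG h hl hd with h1 | h1 | h1
  · exact (mem_PP.1 h1).2.2.1
  · rw [h1]; exact du_mod h
  · rw [h1]; exact dv_mod h

theorem dG_coprime_W0 (hb : Bas p N) (h : a ∈ DA p N) : Nat.Coprime (dG a) (W0 p) :=
  Nat.coprime_of_dvd fun l hl h1 h2 =>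
    absurd (le_E_of_dvd_W0 hl h2) (not_le.2 (E_lt_primes_dG hb h hl h1))

theorem g1g2_coprime (h : a ∈ DA p N) : Nat.Coprime (g1 a) (g2 a) :=
  ((ds_es_coprime h).coprime_dvd_left (g1_dvd a)).coprime_dvd_right (g2_dvd a)

theorem primes_g1g2 (h : a ∈ DA p N) (l : ℕ) (hl : l.Prime) (hd : l ∣ g1 a * g2 a) :
    l ∈ PP p N :=
  (mem_DA h).2.1 l hl (hd.trans (mul_dvd_mul (g1_dvd a) (g2_dvd a)))

theorem not_dvd_uv (hb : Bas p N) (h : a ∈ DA p N) (l : ℕ) (hl : l ∈ PP p N) :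
    ¬ l ∣ du a * dv a := by
  intro h1
  rcases ((prime_of_mem_PP hl).dvd_mul).1 h1 with h2 | h2
  · exact not_dvd_du hb h hl h2
  · exact not_dvd_dv hb h hl h2

omit [Pool.Agent.Lib.MP391708.TF.Aa] in
theorem dG_eq (a : Dt) : dG a = g1 a * g2 a * (du a * dv a) := by
  unfold dG
  ring

theorem dG_sqf (hb : Bas p N) (h : a ∈ DA p N) : Squarefree (dG a) := by
  rw [dG_eq, Nat.squarefree_mul (coprime_of_PP (primes_g1g2 h) (not_dvd_uv hb h))]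
  refine ⟨(mem_DA h).1.squarefree_of_dvd (mul_dvd_mul (g1_dvd a) (g2_dvd a)), ?_⟩
  rw [Nat.squarefree_mul ((Nat.coprime_primes (du_prime h) (dv_prime h)).2 (du_lt_dv hb h).ne)]
  exact ⟨(du_prime h).prime.squarefree, (dv_prime h).prime.squarefree⟩

theorem sm_dG (hb : Bas p N) (h : a ∈ DA p N) : sm p N (dG a) = g1 a * g2 a := by
  have h0 := pos6 h
  have h1 := (du_prime h).ne_zero
  have h2 := (dv_prime h).ne_zero
  rw [dG_eq, sm_mul (mul_ne_zero h0.1.ne' h0.2.2.2.1.ne') (mul_ne_zero h1 h2),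
    sm_self (mul_ne_zero h0.1.ne' h0.2.2.2.1.ne') (primes_g1g2 h), sm_one_of (not_dvd_uv hb h),
    mul_one]

/-- each of `g₁, m₁, n₁` is at most `z ^ K` -/
theorem le_ds_of_dvd (h : a ∈ DA p N) {n : ℕ} (hn : n ∣ ds a) : (n : ℝ) ≤ zz p N ^ p.K :=
  (Nat.cast_le.2 (Nat.le_of_dvd (Nat.pos_of_ne_zero (ds_ne h)) hn)).trans (mem_DA h).2.2.1

theorem le_es_of_dvd (h : a ∈ DA p N) {n : ℕ} (hn : n ∣ es a) : (n : ℝ) ≤ zz p N ^ p.K :=
  (Nat.cast_le.2 (Nat.le_of_dvd (Nat.pos_of_ne_zero (es_ne h)) hn)).trans (mem_DA h).2.2.2.1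

theorem dG_ge (hb : Bas p N) (h : a ∈ DA p N) : Y1 p N * Y3 p N ≤ dG a := by
  have h0 := pos6 h
  have h1 : Y1 p N * Y3 p N ≤ du a * dv a :=
    mul_le_mul (Y1_le_du h) (Y3_le_dv h) hb.Y3_pos.le (Nat.cast_nonneg _)
  have h2 : ((du a * dv a : ℕ) : ℝ) ≤ dG a := by
    rw [dG_eq]
    exact Nat.cast_le.2 (Nat.le_mul_of_pos_left _ (Nat.mul_pos h0.1 h0.2.2.2.1))
  push_cast at h2
  linarith

theorem dG_le (hb : Bas p N) (h : a ∈ DA p N) :
    (dG a : ℝ) ≤ zz p N ^ (2 * p.K) * (Y2 p N * Y4 p N) := by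
  rw [dG_eq]
  push_cast
  have h1 := le_ds_of_dvd h (g1_dvd a)
  have h2 := le_es_of_dvd h (g2_dvd a)
  have h3 := du_le_Y2 h
  have h4 := dv_le_Y4 h
  have h5 : (0 : ℝ) ≤ zz p N ^ p.K := pow_nonneg hb.z0.le _
  have h6 := hb.Y2_pos.le
  rw [two_mul, pow_add]
  gcongr

variable [Pool.Agent.Lib.MP391708.TF.Frm] {x : VV}

theorem adm_of (hb : Bas p N) (hx : x ∈ Gam N 1 3) (ha : a ∈ DA p N) (hf : fits p N a x)
    {c e : ℕ} (hc : 0 < c) (he : 0 < e) (hd : (dd x).natAbs = ds a * du a * c)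
    (hG : dG a * Pd a x * Qd a x = Md x ^ 2 + aa) :
    Adm p N (Md x) (dG a) (Pd a x) (Qd a x) := by
  obtain ⟨-, hN1, hN2, hd1, hd2⟩ := mem_Gam hx
  have hM : ((Md x : ℕ) : ℤ) = mm x := Md_cast hx
  have hMR : ((Md x : ℕ) : ℝ) = (mm x : ℝ) := by
    have h := congrArg (Int.cast : ℤ → ℝ) hM
    rwa [Int.cast_natCast] at h
  have hdR : (((dd x).natAbs : ℕ) : ℝ) = (dd x : ℝ) := by
    have h := congrArg (Int.cast : ℤ → ℝ) (dd_cast hx)
    rwa [Int.cast_natCast] at h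
  have h1 : N < Md x := by omega
  have h2 : Md x ≤ 2 * N := by omega
  have h0 := pos6 ha
  have hP := Pd_eq ha hd
  have hz := hb.z1
  have hzK : (1 : ℝ) ≤ zz p N ^ p.K := one_le_pow₀ hz
  have hK4 : zz p N ^ p.K ≤ zz p N ^ (4 * p.K) := hb.zpow_le (by omega)
  -- `P (g₁ m₁ u) = |d| m₂`
  have hPu : (Pd a x : ℝ) * (g1 a * m1 a * du a) = (dd x : ℝ) * m2 a := by
    rw [← hdR, hP, hd]
    unfold ds
    push_cast
    ring
  have hm2 := le_es_of_dvd ha (m2_dvd a)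
  have hgm : ((g1 a * m1 a : ℕ) : ℝ) ≤ zz p N ^ p.K := le_ds_of_dvd ha (Dvd.intro _ rfl)
  push_cast at hgm
  have hg1 : (1 : ℝ) ≤ g1 a := by exact_mod_cast h0.1
  have hm1 : (1 : ℝ) ≤ m1 a := by exact_mod_cast h0.2.1
  have hm2' : (1 : ℝ) ≤ m2 a := by exact_mod_cast h0.2.2.2.2.1
  have hMpos : (0 : ℝ) < (Md x : ℝ) := by
    have : 0 < Md x := by omega
    exact_mod_cast this
  have hdpos : (0 : ℝ) < (dd x : ℝ) := by
    rw [hMR] at hMpos
    linarith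
  have hPpos : (0 : ℝ) ≤ (Pd a x : ℝ) := Nat.cast_nonneg _
  refine ⟨hG, by omega, by omega, dG_coprime_W0 hb ha, hf.1, ?_, ?_, ?_, ?_⟩
  · -- `P Y1 ≤ P g₁ m₁ u = d m₂ ≤ 3 M z ^ K`
    have e1 : (Pd a x : ℝ) * Y1 p N ≤ (Pd a x : ℝ) * (g1 a * m1 a * du a) := by
      refine mul_le_mul_of_nonneg_left ?_ hPpos
      have e2 := Y1_le_du ha
      have e3 : (1 : ℝ) ≤ g1 a * m1 a := one_le_mul_of_one_le_of_one_le hg1 hm1
      have e4 : (0 : ℝ) ≤ du a := Nat.cast_nonneg _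
      nlinarith
    rw [hPu] at e1
    have e5 : (dd x : ℝ) * m2 a ≤ 3 * (Md x : ℝ) * zz p N ^ (4 * p.K) := by
      rw [hMR]
      exact mul_le_mul hd2 (hm2.trans hK4) (by linarith) (by linarith)
    have e6 : (0 : ℝ) ≤ (Md x : ℝ) * zz p N ^ (4 * p.K) :=
      mul_nonneg hMpos.le (pow_nonneg hb.z0.le _)
    nlinarith
  · -- `M < d ≤ d m₂ = P g₁ m₁ u`
    have e1 : (Md x : ℝ) ≤ (Pd a x : ℝ) * (g1 a * m1 a * du a) := by
      rw [hPu, hMR]
      nlinarith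
    have e2 : (g1 a * m1 a * du a : ℝ) ≤ zz p N ^ (4 * p.K) * Y2 p N :=
      mul_le_mul (hgm.trans hK4) (du_le_Y2 ha) (Nat.cast_nonneg _) (pow_nonneg hb.z0.le _)
    have e3 : (Pd a x : ℝ) * (g1 a * m1 a * du a) ≤ Pd a x * (zz p N ^ (4 * p.K) * Y2 p N) :=
      mul_le_mul_of_nonneg_left e2 hPpos
    have e4 : (0 : ℝ) ≤ Pd a x * (zz p N ^ (4 * p.K) * Y2 p N) :=
      mul_nonneg hPpos (mul_nonneg (pow_nonneg hb.z0.le _) hb.Y2_pos.le)
    nlinarith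
  · have e1 := dG_ge hb ha
    have e2 : (0 : ℝ) ≤ dG a := Nat.cast_nonneg _
    linarith
  · have e1 := dG_le hb ha
    have e2 : zz p N ^ (2 * p.K) ≤ zz p N ^ (4 * p.K) := hb.zpow_le (by omega)
    have e3 : 0 < Y2 p N * Y4 p N := mul_pos hb.Y2_pos hb.Y4_pos
    have e4 : zz p N ^ (2 * p.K) * (Y2 p N * Y4 p N) ≤ zz p N ^ (4 * p.K) * (Y2 p N * Y4 p N) :=
      mul_le_mul_of_nonneg_right e2 e3.le
    have e5 : (0 : ℝ) ≤ zz p N ^ (4 * p.K) * (Y2 p N * Y4 p N) :=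
      mul_nonneg (pow_nonneg hb.z0.le _) e3.le
    nlinarith

/-- the two quadratic forms -/
theorem F_forms (hx : x ∈ Gam N 1 3) (ha : a ∈ DA p N) {c e : ℕ}
    (hd : (dd x).natAbs = ds a * du a * c) (he : (ee x).natAbs = es a * dv a * e) (t : ℤ × ℕ) :
    ((m2 a * g1 a * m1 a * du a : ℕ) : ℤ) * F1 (rel a t x) =
        qf x (m2 a * t.1) (-((g1 a * m1 a * du a : ℕ) : ℤ)) ∧
      ((m1 a * g2 a * m2 a * dv a : ℕ) : ℤ) * F2 (rel a t x) =
        qf x ((g2 a * m2 a * dv a : ℕ) : ℤ) (m1 a * D2 (rel a t x)) := by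
  have hM : ((Md x : ℕ) : ℤ) = mm x := Md_cast hx
  have hd' : dd x = (ds a * du a * c : ℕ) := by rw [← hd]; exact (dd_cast hx).symm
  have he' : ee x = (es a * dv a * e : ℕ) := by rw [← he]; exact (ee_cast hx).symm
  have hP := Pd_eq ha hd
  have hQ := Qd_eq ha he
  constructor
  · unfold F1 qf rel rP rD rM rG rQ
    dsimp only
    rw [hM, hP, hQ, hd', he']
    unfold ds es dG
    push_cast
    ring
  · unfold F2 qf
    generalize D2 (rel a t x) = D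
    unfold rel rP rM rG rQ
    dsimp only
    rw [hM, hP, hQ, hd', he']
    unfold ds es dG
    push_cast
    ring

end

/-- **H1a** -/
theorem specH1a [Pool.Agent.Lib.MP391708.TF.Aa] [Pool.Agent.Lib.MP391708.TF.Frm] : SpecH1a := by
  refine good_bas.mono' fun p hp => ?_
  filter_upwards [hp] with N hb x hx a ha hf
  obtain ⟨c, e, hc, he, hd, hee, hc', he'⟩ := fits_dec hb hx ha hf
  have hP := Pd_eq ha hd
  have hQ := Qd_eq ha hee
  have h0 := pos6 ha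
  have hu := (du_prime ha).pos
  have hv := (dv_prime ha).pos
  have hG : dG a * Pd a x * Qd a x = Md x ^ 2 + aa := by
    rw [← abs_mul_abs hx, hP, hQ, hd, hee]
    unfold ds es dG
    ring
  have hsd : sm p N (dd x).natAbs = ds a := by
    rw [hd, mul_assoc, sm_mul (ds_ne ha) (Nat.mul_pos hu hc).ne', sm_self (ds_ne ha) (primes_ds ha),
      sm_one_of hc', mul_one]
  have hse : sm p N (ee x).natAbs = es a := by
    rw [hee, mul_assoc, sm_mul (es_ne ha) (Nat.mul_pos hv he).ne', sm_self (es_ne ha) (primes_es ha),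
      sm_one_of he', mul_one]
  refine ⟨?_, ?_, hG, hsd, hse, ?_, sm_dG hb ha, ?_, ?_, dG_sqf hb ha,
    adm_of hb hx ha hf hc he hd hG, F_forms hx ha hd hee⟩
  · rw [hP, hd]
    unfold ds
    ring
  · rw [hQ, hee]
    unfold es
    ring
  · rw [← abs_mul_abs hx, sm_mul (by rw [hd]; have := ds_ne ha; positivity)
      (by rw [hee]; have := es_ne ha; positivity), hsd, hse]
  · have h1 : m2 a * n1 a ≠ 0 := (Nat.mul_pos h0.2.2.2.2.1 h0.2.2.1).ne'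
    have h2 : Pd a x = m2 a * n1 a * c := by rw [hP]; ring
    rw [h2, sm_mul h1 hc.ne', sm_self h1, sm_one_of fun l hl hd => hc' l hl (hd.mul_left _), mul_one]
    intro l hl hd
    refine (mem_DA ha).2.1 l hl ?_
    rw [mul_comm (ds a)]
    exact hd.trans (mul_dvd_mul (m2_dvd a) (n1_dvd a))
  · have h1 : m1 a * n2 a ≠ 0 := (Nat.mul_pos h0.2.1 h0.2.2.2.2.2).ne'
    have h2 : Qd a x = m1 a * n2 a * e := by rw [hQ]; ring
    rw [h2, sm_mul h1 he.ne', sm_self h1, sm_one_of fun l hl hd => he' l hl (hd.mul_left _), mul_one]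
    intro l hl hd
    exact (mem_DA ha).2.1 l hl (hd.trans (mul_dvd_mul (m1_dvd a) (n2_dvd a)))

end Pool.Agent.Lib.MP391708.TF.H
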