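import Pool.Agent.Lib.MP_391708_nt.TF.H1x
import Pool.Agent.Lib.MP_391708_nt.TF.HBas

/-!
# T1, group H: injectivity and the number of data (`SpecH1b`, `SpecH1c`)
-/

set_option autoImplicit false
set_option linter.unusedSectionVars false

namespace Pool.Agent.Lib.MP391708.TF

variable [Pool.Agent.Lib.MP391708.TF.Aa] [Pool.Agent.Lib.MP391708.TF.Frm]

open Finset Filter Topology
open Pool.Agent.Lib.MP391708.Eqd (V cross pairs)
open scoped Classical

noncomputable section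

namespace H

namespace H1bM

/-- a `Good` statement from one with `Bas` -/
lemma good_of {φ : Prm → ℕ → Prop} (h : ∀ (p : Prm) (N : ℕ), Bas p N → H1aM.Big p N → φ p N) :
    Good (fun p => ∀ᶠ N : ℕ in atTop, φ p N) := by
  refine ⟨0, fun E _ => ⟨1, fun K hK => ⟨1, fun r hr => ⟨1, fun k hk => ⟨1, one_pos,
    fun ζ hζ _ => ?_⟩⟩⟩⟩⟩
  have h1 : Tendsto (fun N : ℕ => (N : ℝ) ^ ζ) atTop atTop :=
    (tendsto_rpow_atTop hζ).comp tendsto_natCast_atTop_atTop
  filter_upwards [h1.eventually_ge_atTop ((E : ℝ) + 2), eventually_ge_atTop 1,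
    h1.eventually_ge_atTop 2, h1.eventually_gt_atTop (E : ℝ)] with N h2 h3 h4 h5
  exact h _ N ⟨hK, hr, hk, h3, h2⟩ ⟨h4, h5, hr, hk⟩

/-- two increasing pairs of primes with the same product are equal -/
lemma pair_eq {u v u' v' : ℕ} (hu : u.Prime) (hu' : u'.Prime) (hv' : v'.Prime)
    (h1 : u < v) (h2 : u' < v') (h : u * v = u' * v') : u = u' ∧ v = v' := by
  have h3 : u ∣ u' * v' := h ▸ dvd_mul_right u v
  rcases hu.dvd_mul.1 h3 with h4 | h4
  · have h5 := (Nat.prime_dvd_prime_iff_eq hu hu').1 h4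
    subst h5
    exact ⟨rfl, Nat.eq_of_mul_eq_mul_left hu.pos h⟩
  · have h5 := (Nat.prime_dvd_prime_iff_eq hu hv').1 h4
    subst h5
    have h6 : v = u' := by
      rw [mul_comm u' u] at h
      exact Nat.eq_of_mul_eq_mul_left hu.pos h
    omega

lemma gcd_part {a b c : ℕ} (h : Nat.Coprime b c) : Nat.gcd (a * b) (a * c) = a := by
  rw [Nat.gcd_mul_left, h, mul_one]

/-- coprimality of two factors of a squarefree product -/
lemma cop_of {s a b : ℕ} (hs : Squarefree s) (h : a * b ∣ s) : Nat.Coprime a b :=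
  Nat.coprime_of_squarefree_mul (hs.squarefree_of_dvd h)

/-- the components of a datum from `ds, es, g₁ g₂, m₂ n₁, m₁ n₂` -/
lemma comps {a : Dt} (hs : Squarefree (ds a * es a)) :
    g1 a = Nat.gcd (ds a) (g1 a * g2 a) ∧ g2 a = Nat.gcd (es a) (g1 a * g2 a) ∧
    n1 a = Nat.gcd (ds a) (m2 a * n1 a) ∧ m2 a = Nat.gcd (es a) (m2 a * n1 a) ∧
    m1 a = Nat.gcd (ds a) (m1 a * n2 a) ∧ n2 a = Nat.gcd (es a) (m1 a * n2 a) := by
  refine ⟨?_, ?_, ?_, ?_, ?_, ?_⟩
  · have h1 : ds a = g1 a * (m1 a * n1 a) := by unfold ds; ring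
    rw [h1, gcd_part]
    exact cop_of hs ⟨g1 a * (m2 a * n2 a), by unfold ds es; ring⟩
  · have h1 : es a = g2 a * (m2 a * n2 a) := by unfold es; ring
    rw [h1, mul_comm (g1 a), gcd_part]
    exact cop_of hs ⟨g2 a * (m1 a * n1 a), by unfold ds es; ring⟩
  · have h1 : ds a = n1 a * (g1 a * m1 a) := by unfold ds; ring
    rw [h1, mul_comm (m2 a), gcd_part]
    exact cop_of hs ⟨n1 a * (g2 a * n2 a), by unfold ds es; ring⟩
  · have h1 : es a = m2 a * (g2 a * n2 a) := by unfold es; ring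
    rw [h1, gcd_part]
    exact cop_of hs ⟨m2 a * (g1 a * m1 a), by unfold ds es; ring⟩
  · have h1 : ds a = m1 a * (g1 a * n1 a) := by unfold ds; ring
    rw [h1, gcd_part]
    exact cop_of hs ⟨m1 a * (g2 a * m2 a), by unfold ds es; ring⟩
  · have h1 : es a = n2 a * (g2 a * m2 a) := by unfold es; ring
    rw [h1, mul_comm (m1 a), gcd_part]
    exact cop_of hs ⟨n2 a * (g1 a * n1 a), by unfold ds es; ring⟩

open H1aM in
/-- injectivity, pointwise -/
theorem inj {p : Prm} {N : ℕ} (hB : Big p N) {x : VV} (hx : x ∈ Gam N 1 3) {a a' : Dt}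
    (ha : a ∈ DA p N) (ha' : a' ∈ DA p N) (hf : fits p N a x) (hf' : fits p N a' x)
    (hG : dG a = dG a') (hP : Pd a x = Pd a' x) (hQ : Qd a x = Qd a' x) : a = a' := by
  obtain ⟨-, -, -, e1, e2, -, e3, e4, e5, -⟩ := pt hB hx ha hf
  obtain ⟨-, -, -, e1', e2', -, e3', e4', e5', -⟩ := pt hB hx ha' hf'
  have F := df hB ha x
  have F' := df hB ha' x
  obtain ⟨c1, c2, c3, c4, c5, c6⟩ := comps F.sq
  obtain ⟨d1, d2, d3, d4, d5, d6⟩ := comps F'.sq
  have k1 : ds a = ds a' := e1.symm.trans e1'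
  have k2 : es a = es a' := e2.symm.trans e2'
  have k3 : g1 a * g2 a = g1 a' * g2 a' := by rw [← e3, ← e3', hG]
  have k4 : m2 a * n1 a = m2 a' * n1 a' := by rw [← e4, ← e4', hP]
  have k5 : m1 a * n2 a = m1 a' * n2 a' := by rw [← e5, ← e5', hQ]
  rw [k1, k3, ← d1] at c1
  rw [k2, k3, ← d2] at c2
  rw [k1, k4, ← d3] at c3
  rw [k2, k4, ← d4] at c4
  rw [k1, k5, ← d5] at c5
  rw [k2, k5, ← d6] at c6
  have k6 : du a * dv a = du a' * dv a' := by
    have h1 : g1 a * g2 a * (du a * dv a) = g1 a * g2 a * (du a' * dv a') := by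
      have h2 : dG a = g1 a * g2 a * (du a * dv a) := by unfold dG; ring
      have h3 : dG a' = g1 a * g2 a * (du a' * dv a') := by
        rw [k3]; unfold dG; ring
      rw [← h2, ← h3, hG]
    exact Nat.eq_of_mul_eq_mul_left (Nat.mul_pos F.g1 F.g2) h1
  obtain ⟨c7, c8⟩ := pair_eq F.uP F'.uP F'.vP F.uv F'.uv k6
  obtain ⟨⟨a1, a2, a3⟩, ⟨a4, a5, a6⟩, a7, a8⟩ := a
  obtain ⟨⟨b1, b2, b3⟩, ⟨b4, b5, b6⟩, b7, b8⟩ := a'
  simp only [g1, g2, m1, m2, n1, n2, du, dv] at c1 c2 c3 c4 c5 c6 c7 c8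
  subst c1 c2 c3 c4 c5 c6 c7 c8
  rfl

end H1bM

open H1bM H1aM in
/-- **H1b** -/
theorem specH1b : SpecH1b := by
  refine good_of fun p N _ hB x hx a ha a' ha' hf hf' t t' h => ?_
  simp only [rel, Prod.mk.injEq] at h
  exact ⟨inj hB hx ha ha' hf hf' h.2.1 h.2.2.1 h.2.2.2.1, h.2.2.2.2⟩

/-! ### the number of data -/

namespace H1bM

variable {p : Prm} {N : ℕ}

lemma prime_dvd_sm {l n : ℕ} (hl : l.Prime) (h : l ∣ sm p N n) : l ∈ PP p N := by
  unfold sm at h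
  obtain ⟨l', h1, h2⟩ := (hl.prime.dvd_finsetProd_iff _).1 h
  have := (Nat.prime_dvd_prime_iff_eq hl (H1aM.mem_PP.1 h1).1).1 (hl.dvd_of_dvd_pow h2)
  rwa [this]

lemma dvd_sm_iff {l n : ℕ} (hl : l ∈ PP p N) (hn : n ≠ 0) : l ∣ sm p N n ↔ l ∣ n := by
  constructor
  · exact fun h => h.trans (H1aM.sm_dvd hn)
  · intro h
    unfold sm
    refine (dvd_pow_self l ?_).trans (Finset.dvd_prod_of_mem _ hl)
    exact ((H1aM.mem_PP.1 hl).1.factorization_pos_of_dvd hn h).ne'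

lemma sq_sm {n : ℕ} (hn : n ≠ 0) (h : ∀ l ∈ PP p N, ¬ l ^ 2 ∣ n) : Squarefree (sm p N n) := by
  rw [Nat.squarefree_iff_prime_squarefree]
  intro l hl h1
  exact h l (prime_dvd_sm hl ((dvd_mul_right l l).trans h1))
    (by rw [sq]; exact h1.trans (H1aM.sm_dvd hn))

/-- the conditions for the existence of a datum -/
structure GX (p : Prm) (N : ℕ) (x : VV) : Prop where
  tm : tame p (Md x ^ 2 + aa)
  sq : Squarefree (sm p N (dd x).natAbs * sm p N (ee x).natAbs)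
  b1 : (sm p N (dd x).natAbs : ℝ) ≤ zz p N ^ p.K
  b2 : (sm p N (ee x).natAbs : ℝ) ≤ zz p N ^ p.K
  nd : ∀ l ∈ PP p N, ¬ (l : ℤ) ^ 2 ∣ dd x ∧ ¬ (l : ℤ) ^ 2 ∣ ee x

open H1aM in
lemma gx_of_fits (hB : Big p N) {x : VV} (hx : x ∈ Gam N 1 3) {a : Dt} (ha : a ∈ DA p N)
    (hf : fits p N a x) : GX p N x := by
  have F := df hB ha x
  obtain ⟨e1, e2, -, -⟩ := parts hB hx ha hf
  refine ⟨hf.1, ?_, ?_, ?_, fun l hl => ⟨(hf.2.2.2 l hl).2.2.1, (hf.2.2.2 l hl).2.2.2⟩⟩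
  · rw [e1, e2]; exact F.sq
  · rw [e1]; exact F.dsz
  · rw [e2]; exact F.esz

open H1aM in
lemma gx_of_typ {x : VV} (hx : x ∈ Gam N 1 3) {δ e₁ : ℝ} (h : typ p N δ e₁ x) : GX p N x := by
  obtain ⟨hM, hd, he, hde, hd0, he0, -⟩ := gam_facts hx
  obtain ⟨h1, h2, -, h4, h5, -⟩ := h
  refine ⟨h5, ?_, h1, h2, fun l hl => ⟨fun h6 => h4 l hl ?_, fun h6 => h4 l hl ?_⟩⟩
  · rw [← H1aM.sm_mul hd0.ne' he0.ne', hde]
    exact sq_sm (by have := aa_pos; omega) h4
  · have h7 : l ^ 2 ∣ (dd x).natAbs := by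
      rw [← Int.natCast_dvd]; exact_mod_cast h6
    show l ^ 2 ∣ Md x ^ 2 + aa
    rw [← hde]; exact h7.mul_right _
  · have h7 : l ^ 2 ∣ (ee x).natAbs := by
      rw [← Int.natCast_dvd]; exact_mod_cast h6
    show l ^ 2 ∣ Md x ^ 2 + aa
    rw [← hde]; exact h7.mul_left _

/-- triples to data -/
def φ (q : (Fin 3 → ℕ) × (Fin 3 → ℕ) × ℕ × ℕ) : Dt :=
  ((q.1 0, q.1 1, q.1 2), (q.2.1 0, q.2.1 1, q.2.1 2), q.2.2.1, q.2.2.2)

lemma φ_inj : Function.Injective φ := by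
  rintro ⟨f, g, u, v⟩ ⟨f', g', u', v'⟩ h
  simp only [φ, Prod.mk.injEq] at h
  obtain ⟨⟨h1, h2, h3⟩, ⟨h4, h5, h6⟩, h7, h8⟩ := h
  have e1 : f = f' := by
    funext i; fin_cases i <;> assumption
  have e2 : g = g' := by
    funext i; fin_cases i <;> assumption
  rw [e1, e2, h7, h8]

/-- the divisors `u` -/
def Ux (p : Prm) (N : ℕ) (x : VV) : Finset ℕ := (Uu p N).filter (fun u => (u : ℤ) ∣ dd x)
def Vx (p : Prm) (N : ℕ) (x : VV) : Finset ℕ := (Vv p N).filter (fun u => (u : ℤ) ∣ ee x)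

open H1aM in
lemma data_eq (hb : Bas p N) (hB : Big p N) {x : VV} (hx : x ∈ Gam N 1 3) (hX : GX p N x) :
    (DA p N).filter (fun a => fits p N a x) =
      (Nat.finMulAntidiag 3 (sm p N (dd x).natAbs) ×ˢ
        Nat.finMulAntidiag 3 (sm p N (ee x).natAbs) ×ˢ Ux p N x ×ˢ Vx p N x).image φ := by
  obtain ⟨hM, hd, he, hde, hd0, he0, -⟩ := gam_facts hx
  ext a
  rw [mem_filter, mem_image]
  constructor
  · rintro ⟨ha, hf⟩
    obtain ⟨e1, e2, -, -⟩ := parts hB hx ha hf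
    refine ⟨(![g1 a, m1 a, n1 a], ![g2 a, m2 a, n2 a], du a, dv a), ?_, rfl⟩
    have ha' := ha
    unfold DA at ha'
    obtain ⟨h1, -⟩ := mem_filter.1 ha'
    have hu : du a ∈ Uu p N := (mem_product.1 (mem_product.1 (mem_product.1 h1).2).2).1
    have hv : dv a ∈ Vv p N := (mem_product.1 (mem_product.1 (mem_product.1 h1).2).2).2
    rw [mem_product, mem_product, mem_product]
    refine ⟨?_, ?_, mem_filter.2 ⟨hu, hf.2.1⟩, mem_filter.2 ⟨hv, hf.2.2.1⟩⟩
    · rw [Nat.mem_finMulAntidiag, e1]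
      refine ⟨?_, e1 ▸ (H1aM.sm_pos p N _).ne'⟩
      simp [Fin.prod_univ_three, ds]
    · rw [Nat.mem_finMulAntidiag, e2]
      refine ⟨?_, e2 ▸ (H1aM.sm_pos p N _).ne'⟩
      simp [Fin.prod_univ_three, es]
  · rintro ⟨⟨f, g, u, v⟩, hq, rfl⟩
    rw [mem_product, mem_product, mem_product] at hq
    obtain ⟨hf, hg, hu, hv⟩ := hq
    simp only at hf hg hu hv
    have hf3 := Nat.finMulAntidiag_three _ hf
    have hg3 := Nat.finMulAntidiag_three _ hg
    have hds : ds (φ (f, g, u, v)) = sm p N (dd x).natAbs := hf3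
    have hes : es (φ (f, g, u, v)) = sm p N (ee x).natAbs := hg3
    have small : ∀ s : ℕ, (s : ℝ) ≤ zz p N ^ p.K → ∀ i : ℕ, 0 < s → i ∣ s →
        i ∈ range (⌈ML p N⌉₊ + 1) := by
      intro s hs i hs0 hi
      rw [mem_range]
      have h1 : (i : ℝ) ≤ ML p N := by
        have : (i : ℝ) ≤ s := by exact_mod_cast Nat.le_of_dvd hs0 hi
        exact this.trans (hs.trans hb.zK_le_ML)
      have h2 : i ≤ ⌈ML p N⌉₊ := by
        have : (i : ℝ) ≤ (⌈ML p N⌉₊ : ℝ) := h1.trans (Nat.le_ceil _)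
        exact_mod_cast this
      omega
    have sf := small _ hX.b1
    have sg := small _ hX.b2
    have p1 := H1aM.sm_pos p N (dd x).natAbs
    have p2 := H1aM.sm_pos p N (ee x).natAbs
    obtain ⟨hu1, hu2⟩ := mem_filter.1 hu
    obtain ⟨hv1, hv2⟩ := mem_filter.1 hv
    constructor
    · unfold DA
      rw [mem_filter]
      refine ⟨?_, ?_, ?_, ?_, ?_⟩
      · simp only [φ, mem_product]
        refine ⟨⟨sf _ p1 (Nat.dvd_of_mem_finMulAntidiag hf 0),
          sf _ p1 (Nat.dvd_of_mem_finMulAntidiag hf 1),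
          sf _ p1 (Nat.dvd_of_mem_finMulAntidiag hf 2)⟩,
          ⟨sg _ p2 (Nat.dvd_of_mem_finMulAntidiag hg 0),
          sg _ p2 (Nat.dvd_of_mem_finMulAntidiag hg 1),
          sg _ p2 (Nat.dvd_of_mem_finMulAntidiag hg 2)⟩, hu1, hv1⟩
      · rw [hds, hes]; exact hX.sq
      · intro l hl h1
        rw [hds, hes] at h1
        rcases hl.dvd_mul.1 h1 with h2 | h2
        · exact prime_dvd_sm hl h2
        · exact prime_dvd_sm hl h2
      · rw [hds]; exact hX.b1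
      · rw [hes]; exact hX.b2
    · refine ⟨hX.tm, hu2, hv2, fun l hl => ⟨?_, ?_, (hX.nd l hl).1, (hX.nd l hl).2⟩⟩
      · rw [hds, dvd_sm_iff hl hd0.ne', Int.natCast_dvd]
      · rw [hes, dvd_sm_iff hl he0.ne', Int.natCast_dvd]

lemma omega_eq (n : ℕ) : ArithmeticFunction.cardDistinctFactors n = n.primeFactors.card := by
  rw [ArithmeticFunction.cardDistinctFactors_apply]
  rfl

open H1aM in
lemma card_data (hb : Bas p N) (hB : Big p N) {x : VV} (hx : x ∈ Gam N 1 3) (hX : GX p N x) :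
    (1 / 3 : ℝ) ^ om p N (Md x ^ 2 + aa) *
      ((DA p N).filter (fun a => fits p N a x)).card = (Ux p N x).card * (Vx p N x).card := by
  obtain ⟨hM, hd, he, hde, hd0, he0, -⟩ := gam_facts hx
  rw [data_eq hb hB hx hX, Finset.card_image_of_injective _ φ_inj, card_product, card_product,
    card_product]
  have s1 : Squarefree (sm p N (dd x).natAbs) := hX.sq.squarefree_of_dvd (dvd_mul_right _ _)
  have s2 : Squarefree (sm p N (ee x).natAbs) := hX.sq.squarefree_of_dvd (dvd_mul_left _ _)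
  rw [Nat.card_finMulAntidiag_of_squarefree s1, Nat.card_finMulAntidiag_of_squarefree s2]
  have hom : om p N (Md x ^ 2 + aa) = ArithmeticFunction.cardDistinctFactors
      (sm p N (dd x).natAbs) + ArithmeticFunction.cardDistinctFactors
      (sm p N (ee x).natAbs) := by
    have hc := Nat.coprime_of_squarefree_mul hX.sq
    rw [← ArithmeticFunction.cardDistinctFactors_mul hc, omega_eq]
    refine om_eq_card hX.sq.ne_zero ?_ ?_
    · intro l hl h1
      rcases hl.dvd_mul.1 h1 with h2 | h2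
      · exact prime_dvd_sm hl h2
      · exact prime_dvd_sm hl h2
    · intro l hl
      rw [← H1aM.sm_mul hd0.ne' he0.ne', hde, dvd_sm_iff hl (by have := aa_pos; omega)]
  rw [hom, pow_add]
  push_cast
  have h3 : ∀ n : ℕ, (1 / 3 : ℝ) ^ n * 3 ^ n = 1 := fun n => by
    rw [← mul_pow]; norm_num
  have e1 := h3 (ArithmeticFunction.cardDistinctFactors (sm p N (dd x).natAbs))
  have e2 := h3 (ArithmeticFunction.cardDistinctFactors (sm p N (ee x).natAbs))
  generalize (1 / 3 : ℝ) ^ ArithmeticFunction.cardDistinctFactors (sm p N (dd x).natAbs) = A at *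
  generalize (3 : ℝ) ^ ArithmeticFunction.cardDistinctFactors (sm p N (dd x).natAbs) = A' at *
  generalize (1 / 3 : ℝ) ^ ArithmeticFunction.cardDistinctFactors (sm p N (ee x).natAbs) = B at *
  generalize (3 : ℝ) ^ ArithmeticFunction.cardDistinctFactors (sm p N (ee x).natAbs) = B' at *
  linear_combination ((Ux p N x).card * (Vx p N x).card * (B * B') : ℝ) * e1 +
    ((Ux p N x).card * (Vx p N x).card : ℝ) * e2

lemma cnt_gen (U : Finset ℕ) (hU : ∀ u ∈ U, 0 < u) (P : ℕ → Prop) [DecidablePred P] :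
    (∑ u ∈ U, if P u then (1 : ℝ) else 0) / (∑ u ∈ U, 2 / (u : ℝ)) * (∑ u ∈ U, 2 / (u : ℝ)) =
      ((U.filter P).card : ℝ) := by
  rw [Finset.card_filter]
  push_cast
  by_cases h : ∑ u ∈ U, 2 / (u : ℝ) = 0
  · have h1 : U = ∅ := by
      by_contra hne
      obtain ⟨u, hu⟩ := Finset.nonempty_iff_ne_empty.2 hne
      have h2 : 0 < ∑ u ∈ U, 2 / (u : ℝ) := by
        refine Finset.sum_pos (fun u hu => ?_) ⟨u, hu⟩
        have : (0 : ℝ) < u := by exact_mod_cast hU u hu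
        positivity
      exact h2.ne' h
    simp [h1]
  · rw [div_mul_cancel₀ _ h]

lemma Tu_eq (x : VV) : Tu p N x * Su p N = ((Ux p N x).card : ℝ) := by
  unfold Tu Su Ux
  exact cnt_gen _ (fun u hu => (H1aM.mem_Uu hu).1.pos) _

lemma Tv_eq (x : VV) : Tv p N x * Sv p N = ((Vx p N x).card : ℝ) := by
  unfold Tv Sv Vx
  exact cnt_gen _ (fun u hu => (H1aM.mem_Vv hu).1.pos) _

end H1bM

open H1bM H1aM in
/-- **H1c** -/
theorem specH1c : SpecH1c := by
  intro δ e₁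
  refine good_of fun p N hb hB x hx => ?_
  rw [Tu_eq, Tv_eq]
  refine ⟨?_, fun ht => card_data hb hB hx (gx_of_typ hx ht)⟩
  by_cases h : ((DA p N).filter (fun a => fits p N a x)).Nonempty
  · obtain ⟨a, ha⟩ := h
    obtain ⟨h1, h2⟩ := mem_filter.1 ha
    exact (card_data hb hB hx (gx_of_fits hB hx h1 h2)).le
  · rw [Finset.not_nonempty_iff_eq_empty.1 h]
    simp only [card_empty, Nat.cast_zero, mul_zero]
    positivity

end H

end

end Pool.Agent.Lib.MP391708.TF
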