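import Pool.Agent.Lib.MP_391708_nt.TF.HBas
import Pool.Agent.Lib.MP_391708_nt.T1.GoodL
import Pool.Agent.Lib.MP_391708_nt.TF.Basic
import Pool.Agent.Lib.MP_391708_nt.TA.LLX

/-!
# Group H: module HA, the assembly (`SpecAA`)
-/

set_option autoImplicit false
set_option linter.constructorNameAsVariable false

namespace Pool.Agent.Lib.MP391708.TF.H

variable [Pool.Agent.Lib.MP391708.TF.Aa] [Pool.Agent.Lib.MP391708.TF.Frm]

open Finset Filter Topology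
open Pool.Agent.Lib.MP391708.Eqd (V cross pairs)
open scoped Classical

attribute [local irreducible] RP rbox TS

namespace HA

/-! ## Positivity -/

theorem rp_nonneg (D : ℕ) : 0 ≤ rp D := (Bs.rp_pos D).le

theorem tilt_nonneg (p : Prm) (N : ℕ) {bT bR : ℝ} (hT : 0 ≤ bT) (hR : 0 ≤ bR) (r : Rl) :
    0 ≤ tilt p N bT bR r := by
  unfold tilt
  refine prod_nonneg fun l _ => mul_nonneg ?_ ?_ <;> split_ifs <;> norm_num <;> assumption

theorem cE_nonneg : 0 ≤ cE := by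
  unfold cE
  have := (TA.specLLX (aa : ℤ) Bs.aa_pos_int.ne' Bs.nsq_chz).1
  linarith

theorem k0_nonneg (p : Prm) (N : ℕ) : 0 ≤ k0 p N := by
  have h1 : 0 ≤ Su p N := by unfold Su; positivity
  have h2 : 0 ≤ Sv p N := by unfold Sv; positivity
  have h3 : 0 ≤ kp p N (5 / 2) := by unfold kp; positivity
  have h4 := cE_nonneg
  unfold k0
  positivity

theorem wt_nonneg (p : Prm) (N : ℕ) {y : ℝ} (hy : 0 ≤ y) (r : Rl) : 0 ≤ wt p N y r := by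
  have h1 := rp_nonneg (rD r).natAbs
  have h2 := tilt_nonneg p N hy hy r
  have h3 := k0_nonneg p N
  unfold wt
  positivity

theorem WC_nonneg (p : Prm) (N : ℕ) (r : Rl) : 0 ≤ WC p N r := by
  have h1 := rp_nonneg (rD r).natAbs
  unfold WC
  positivity

theorem iX_nonneg (r : Rl) : 0 ≤ iX r := by
  unfold iX
  split_ifs <;> norm_num

theorem iX_le_one (r : Rl) : iX r ≤ 1 := by
  unfold iX
  split_ifs <;> norm_num

theorem S0_nonneg (p : Prm) (N : ℕ) : 0 ≤ S0 p N := by unfold S0; positivity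

/-! ## `RP` is monotone in `e₁` -/

theorem RP_mono (p : Prm) (N : ℕ) {e e' : ℝ} (h : e ≤ e') : RP p e N ⊆ RP p e' N := by
  rw [subset_iff]
  intro r hr
  unfold RP at hr ⊢
  rw [mem_filter] at hr ⊢
  obtain ⟨hb, h1, h2, h3, h4, h5, h6, h7, h8, h9, h10, h11, h12, h13, h14, h15, h16, h17, h18, h19,
    h20, h21, h22, h23⟩ := hr
  have hS := S0_nonneg p N
  refine ⟨hb, h1, h2, h3, h4, h5, h6, h7, h8, h9, h10, h11, h12, h13, h14, h15, h16, h17, h18, h19,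
    h20, h21, le_trans ?_ h22, le_trans ?_ h23⟩
  · exact mul_le_mul_of_nonneg_right (by linarith) hS
  · exact mul_le_mul_of_nonneg_right (by linarith) hS

/-! ## The function `Zf` -/

theorem Zf_nonneg (p : Prm) (N : ℕ) (δ e₁ : ℝ) (x : VV) (r : Rl) : 0 ≤ Zf p N δ e₁ x r := by
  unfold Zf
  split_ifs
  · exact wt_nonneg p N (by norm_num) r
  · exact le_rfl

theorem Zf_ne_zero {p : Prm} {N : ℕ} {δ e₁ : ℝ} {x : VV} {r : Rl} (h : Zf p N δ e₁ x r ≠ 0) :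
    x ∈ Gam N 1 3 ∧ r ∈ RP p e₁ N ∧ rM r = Md x := by
  unfold Zf at h
  split_ifs at h with h1
  · exact ⟨h1.1, h1.2.2.1, h1.2.2.2.1⟩
  · exact absurd rfl h

theorem Zf_le {p : Prm} {N : ℕ} {δ e₁ C : ℝ} (hC : 0 < C)
    (h : ∀ r ∈ RP p e₁ N, wt p N (1 / 6) r ≤ C * WC p N r) (x : VV) (r : Rl) :
    Zf p N δ e₁ x r ≤ C * WC p N r := by
  unfold Zf
  split_ifs with h1
  · exact h r h1.2.2.1
  · exact mul_nonneg hC.le (WC_nonneg p N r)

theorem sum_Zf_eq (p : Prm) (N : ℕ) (δ : ℝ) {e e' : ℝ} (h : e ≤ e') (x : VV) :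
    ∑ r ∈ RP p e' N, Zf p N δ e x r = ∑ r ∈ RP p e N, Zf p N δ e x r := by
  symm
  refine sum_subset (RP_mono p N h) fun r _ hr => ?_
  by_contra h0
  exact hr (Zf_ne_zero h0).2.1

/-! ## Splitting -/

theorem Zx_split (p : Prm) (N : ℕ) (y : ℝ) (Ev : Rl → Prop) (x : VV) :
    Zx p N y ev0 x = Zx p N y Ev x + Zx p N y (fun r => ¬ Ev r) x := by
  unfold Zx
  rw [← sum_add_distrib]
  refine sum_congr rfl fun a _ => ?_
  rw [sum_filter_add_sum_filter_not]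
  refine sum_congr ?_ fun _ _ => rfl
  exact filter_true_of_mem fun _ _ => trivial

/-- the relations in `RP` over a typical `x` -/
theorem Zx_le_sum_Zf {p : Prm} {N : ℕ} {δ e₁ : ℝ} {x : VV} (hx : x ∈ Gam N 1 3)
    (hty : typ p N δ e₁ x)
    (hinj : ∀ a ∈ DA p N, ∀ a' ∈ DA p N, fits p N a x → fits p N a' x →
      ∀ t t' : ℤ × ℕ, rel a t x = rel a' t' x → a = a' ∧ t = t') :
    Zx p N (1 / 6) (fun r => r ∈ RP p e₁ N) x ≤ ∑ r ∈ RP p e₁ N, Zf p N δ e₁ x r := by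
  have hnn : ∀ r, 0 ≤ wt p N (1 / 6) r := fun r => wt_nonneg p N (by norm_num) r
  set A : Finset (Dt × (ℤ × ℕ)) := ((DA p N).filter (fun a => fits p N a x)).biUnion
    (fun a => ((TS p N a x).filter (fun t => rel a t x ∈ RP p e₁ N)).image (fun t => (a, t)))
    with hA
  have hmem : ∀ s : Dt × (ℤ × ℕ), s ∈ A ↔ s.1 ∈ DA p N ∧ fits p N s.1 x ∧
      s.2 ∈ TS p N s.1 x ∧ rel s.1 s.2 x ∈ RP p e₁ N := by
    intro s
    rw [hA, mem_biUnion]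
    constructor
    · rintro ⟨a, ha, hs⟩
      rw [mem_image] at hs
      obtain ⟨t, ht, rfl⟩ := hs
      rw [mem_filter] at ha ht
      exact ⟨ha.1, ha.2, ht.1, ht.2⟩
    · rintro ⟨h1, h2, h3, h4⟩
      exact ⟨s.1, mem_filter.2 ⟨h1, h2⟩, mem_image.2 ⟨s.2, mem_filter.2 ⟨h3, h4⟩, rfl⟩⟩
  have h1 : Zx p N (1 / 6) (fun r => r ∈ RP p e₁ N) x =
      ∑ s ∈ A, wt p N (1 / 6) (rel s.1 s.2 x) * iX (rel s.1 s.2 x) := by
    rw [hA, sum_biUnion]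
    · unfold Zx
      refine sum_congr rfl fun a _ => ?_
      rw [sum_image]
      intro t _ t' _ h
      exact (Prod.mk.inj h).2
    · intro a _ a' _ haa
      rw [Function.onFun, disjoint_left]
      intro s hs hs'
      rw [mem_image] at hs hs'
      obtain ⟨t, -, rfl⟩ := hs
      obtain ⟨t', -, h⟩ := hs'
      exact haa (Prod.mk.inj h).1.symm
  have h2 : ∑ s ∈ A, wt p N (1 / 6) (rel s.1 s.2 x) * iX (rel s.1 s.2 x) ≤
      ∑ s ∈ A, wt p N (1 / 6) (rel s.1 s.2 x) := by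
    refine sum_le_sum fun s _ => ?_
    have := mul_le_mul_of_nonneg_left (iX_le_one (rel s.1 s.2 x)) (hnn (rel s.1 s.2 x))
    rwa [mul_one] at this
  have h3 : ∑ s ∈ A, wt p N (1 / 6) (rel s.1 s.2 x) =
      ∑ r ∈ A.image (fun s => rel s.1 s.2 x), wt p N (1 / 6) r := by
    rw [sum_image]
    intro s hs s' hs' h
    have hs := (hmem s).1 (mem_coe.1 hs)
    have hs' := (hmem s').1 (mem_coe.1 hs')
    obtain ⟨h4, h5⟩ := hinj s.1 hs.1 s'.1 hs'.1 hs.2.1 hs'.2.1 s.2 s'.2 h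
    exact Prod.ext h4 h5
  have h4 : ∑ r ∈ A.image (fun s => rel s.1 s.2 x), wt p N (1 / 6) r =
      ∑ r ∈ A.image (fun s => rel s.1 s.2 x), Zf p N δ e₁ x r := by
    refine sum_congr rfl fun r hr => ?_
    rw [mem_image] at hr
    obtain ⟨s, hs, rfl⟩ := hr
    have hs := (hmem s).1 hs
    unfold Zf
    rw [if_pos]
    exact ⟨hx, hty, hs.2.2.2, rfl, s.1, hs.1, hs.2.1, rfl⟩
  have h5 : ∑ r ∈ A.image (fun s => rel s.1 s.2 x), Zf p N δ e₁ x r ≤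
      ∑ r ∈ RP p e₁ N, Zf p N δ e₁ x r := by
    refine sum_le_sum_of_subset_of_nonneg ?_ fun r _ _ => Zf_nonneg p N δ e₁ x r
    intro r hr
    rw [mem_image] at hr
    obtain ⟨s, hs, rfl⟩ := hr
    exact ((hmem s).1 hs).2.2.2
  rw [h1]
  exact h2.trans (h3.trans_le (h4.trans_le h5))

/-- the first moment -/
theorem first {p : Prm} {N : ℕ} {δ e₁ η R : ℝ} (hη1 : η ≤ 1)
    (hC : (1 - η) * ∑ x ∈ Gam N 1 3, Zh p N (1 / 6) ev0 x - R ≤
      ∑ x ∈ Gam N 1 3, Zx p N (1 / 6) ev0 x)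
    (hM : (1 - η) * ((Gam N 1 3).card : ℝ) ≤ ∑ x ∈ Gam N 1 3, Zh p N (1 / 6) ev0 x)
    (hB : ∑ x ∈ (Gam N 1 3).filter (fun x => typ p N δ e₁ x),
      Zx p N (1 / 6) (fun r => r ∉ RP p e₁ N) x ≤ η * ((Gam N 1 3).card : ℝ))
    (hN : ∑ x ∈ (Gam N 1 3).filter (fun x => ¬ typ p N δ e₁ x), Zx p N (1 / 6) ev0 x ≤
      η * ((Gam N 1 3).card : ℝ))
    (hinj : ∀ x ∈ Gam N 1 3, ∀ a ∈ DA p N, ∀ a' ∈ DA p N,
      fits p N a x → fits p N a' x → ∀ t t' : ℤ × ℕ, rel a t x = rel a' t' x → a = a' ∧ t = t')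
    (hR : R ≤ η * ((Gam N 1 3).card : ℝ)) :
    (1 - 5 * η) * ((Gam N 1 3).card : ℝ) ≤
      ∑ x ∈ Gam N 1 3, ∑ r ∈ RP p e₁ N, Zf p N δ e₁ x r := by
  have h1 : ∑ x ∈ Gam N 1 3, Zx p N (1 / 6) ev0 x =
      ∑ x ∈ (Gam N 1 3).filter (fun x => typ p N δ e₁ x),
        Zx p N (1 / 6) (fun r => r ∈ RP p e₁ N) x +
      ∑ x ∈ (Gam N 1 3).filter (fun x => typ p N δ e₁ x),
        Zx p N (1 / 6) (fun r => r ∉ RP p e₁ N) x +
      ∑ x ∈ (Gam N 1 3).filter (fun x => ¬ typ p N δ e₁ x), Zx p N (1 / 6) ev0 x := by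
    rw [← sum_add_distrib, ← sum_filter_add_sum_filter_not (Gam N 1 3)
      (fun x => typ p N δ e₁ x)]
    congr 1
    exact sum_congr rfl fun x _ => Zx_split p N (1 / 6) (fun r => r ∈ RP p e₁ N) x
  have h2 : ∑ x ∈ (Gam N 1 3).filter (fun x => typ p N δ e₁ x),
        Zx p N (1 / 6) (fun r => r ∈ RP p e₁ N) x ≤
      ∑ x ∈ (Gam N 1 3).filter (fun x => typ p N δ e₁ x),
        ∑ r ∈ RP p e₁ N, Zf p N δ e₁ x r := by
    refine sum_le_sum fun x hx => ?_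
    rw [mem_filter] at hx
    exact Zx_le_sum_Zf hx.1 hx.2 (hinj x hx.1)
  have h3 : ∑ x ∈ (Gam N 1 3).filter (fun x => typ p N δ e₁ x),
        ∑ r ∈ RP p e₁ N, Zf p N δ e₁ x r ≤
      ∑ x ∈ Gam N 1 3, ∑ r ∈ RP p e₁ N, Zf p N δ e₁ x r :=
    sum_le_sum_of_subset_of_nonneg (filter_subset _ _) fun x _ _ =>
      sum_nonneg fun r _ => Zf_nonneg p N δ e₁ x r
  have h4 : (1 - η) * ((1 - η) * ((Gam N 1 3).card : ℝ)) ≤
      (1 - η) * ∑ x ∈ Gam N 1 3, Zh p N (1 / 6) ev0 x :=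
    mul_le_mul_of_nonneg_left hM (by linarith)
  have h5 : (0 : ℝ) ≤ ((Gam N 1 3).card : ℝ) := Nat.cast_nonneg _
  nlinarith [mul_nonneg (sq_nonneg η) h5]

/-- the power saving is absorbed -/
theorem absorb (hCNT : SpecCNT) {c η : ℝ} (hc : 0 < c) (hη : 0 < η) :
    ∀ᶠ N : ℕ in atTop, (N : ℝ) ^ (1 - c) ≤ η * ((Gam N 1 3).card : ℝ) := by
  obtain ⟨-, c', hc', h⟩ := hCNT
  have h1 : Tendsto (fun N : ℕ => (N : ℝ) ^ (-c)) atTop (𝓝 0) :=
    (tendsto_rpow_neg_atTop hc).comp tendsto_natCast_atTop_atTop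
  filter_upwards [h, h1.eventually_lt_const (mul_pos hη hc'), eventually_ge_atTop 1]
    with N hN h2 hN1
  have hN0 : (0 : ℝ) < N := by exact_mod_cast hN1
  have h3 : (N : ℝ) ^ (1 - c) = N * (N : ℝ) ^ (-c) := by
    rw [sub_eq_add_neg, Real.rpow_add hN0, Real.rpow_one]
  rw [h3]
  calc (N : ℝ) * (N : ℝ) ^ (-c) ≤ N * (η * c') := mul_le_mul_of_nonneg_left h2.le hN0.le
    _ = η * (c' * N) := by ring
    _ ≤ η * ((Gam N 1 3).card : ℝ) := mul_le_mul_of_nonneg_left hN hη.le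

end HA

/-- **HA**: the assembly of `SpecAA`. -/
theorem specHA : SpecHA := by
  intro h1b hHC hHS hHM hHB hHN hHW hCNT ε e₁ hε he₁
  obtain ⟨c, hc, hC⟩ := hHC
  obtain ⟨e₀, he₀, hS⟩ := hHS
  set e : ℝ := min (min e₁ e₀) (1 / 4) with he
  have he0 : 0 < e := lt_min (lt_min he₁ he₀) (by norm_num)
  have hee₁ : e ≤ e₁ := (min_le_left _ _).trans (min_le_left _ _)
  have hee₀ : e ≤ e₀ := (min_le_left _ _).trans (min_le_right _ _)
  have he2 : e < 1 / 2 := (min_le_right _ _).trans_lt (by norm_num)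
  set η : ℝ := min ε 1 / 8 with hη
  have hη0 : 0 < η := div_pos (lt_min hε one_pos) (by norm_num)
  have hηε : 8 * η ≤ ε := by
    have := min_le_left ε 1
    rw [hη]
    linarith
  have hη1 : 8 * η ≤ 1 := by
    have := min_le_right ε 1
    rw [hη]
    linarith
  have g1 := hC (1 / 6) η 1 (by norm_num) (by norm_num) hη0 one_pos le_rfl
  have g2 := hS η 1 e hη0 he0 hee₀
  have g3 := hHM.1 η hη0
  have g4 := hHB η 1 e hη0 he0 he2
  have g5 := hHN η 1 e hη0 one_pos he0 he2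
  have g6 := hHW e he0
  refine ((((((g1.and g2).and g3).and g4).and g5).and g6).and h1b).mono ?_
  rintro p ⟨⟨⟨⟨⟨⟨f1, f2⟩, f3⟩, f4⟩, f5⟩, C, hC0, f6⟩, f7⟩
  refine ⟨C, hC0, ?_⟩
  filter_upwards [f1, f2, f3, f4, f5, f6, f7, HA.absorb hCNT hc hη0]
    with N k1 k2 k3 k4 k5 k6 k7 k8
  have hcard : (0 : ℝ) ≤ ((Gam N 1 3).card : ℝ) := Nat.cast_nonneg _
  refine ⟨Zf p N 1 e, HA.Zf_nonneg p N 1 e, HA.Zf_le hC0 k6, ?_, ?_, ?_⟩
  · intro x r h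
    obtain ⟨h1, h2, h3⟩ := HA.Zf_ne_zero h
    exact ⟨h1, HA.RP_mono p N hee₁ h2, by rw [h3]; exact Md_cast h1⟩
  · have h1 := HA.first (by linarith) k1.2 k3.1 k4 k5 k7 k8
    calc (1 - ε) * ((Gam N 1 3).card : ℝ) ≤ (1 - 5 * η) * ((Gam N 1 3).card : ℝ) :=
          mul_le_mul_of_nonneg_right (by linarith) hcard
      _ ≤ ∑ x ∈ Gam N 1 3, ∑ r ∈ RP p e N, Zf p N 1 e x r := h1
      _ = ∑ x ∈ Gam N 1 3, ∑ r ∈ RP p e₁ N, Zf p N 1 e x r :=
          sum_congr rfl fun x _ => (HA.sum_Zf_eq p N 1 hee₁ x).symm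
  · have h1 : ∑ x ∈ Gam N 1 3, (∑ r ∈ RP p e₁ N, Zf p N 1 e x r) ^ 2 =
        ∑ x ∈ Gam N 1 3, (∑ r ∈ RP p e N, Zf p N 1 e x r) ^ 2 :=
      sum_congr rfl fun x _ => by rw [HA.sum_Zf_eq p N 1 hee₁ x]
    rw [h1]
    refine k2.trans ?_
    have h2 : (1 + η) * ∑ x ∈ Gam N 1 3, (Zh p N (1 / 6) ev0 x) ^ 2 ≤
        (1 + η) * ((1 + η) * ((Gam N 1 3).card : ℝ)) :=
      mul_le_mul_of_nonneg_left k3.2.1 (by linarith)
    have h3 : (1 + η) * (1 + η) + η ≤ 1 + ε := by nlinarith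
    calc (1 + η) * ∑ x ∈ Gam N 1 3, (Zh p N (1 / 6) ev0 x) ^ 2 + η * ((Gam N 1 3).card : ℝ)
        ≤ (1 + η) * ((1 + η) * ((Gam N 1 3).card : ℝ)) + η * ((Gam N 1 3).card : ℝ) := by
          linarith
      _ = ((1 + η) * (1 + η) + η) * ((Gam N 1 3).card : ℝ) := by ring
      _ ≤ (1 + ε) * ((Gam N 1 3).card : ℝ) := mul_le_mul_of_nonneg_right h3 hcard

end Pool.Agent.Lib.MP391708.TF.H
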