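import Pool.Agent.Lib.MP_391708_nt.T4.Spec
import Pool.Agent.Lib.MP_391708_nt.TA.Chi

/-!
# Theorem T1a: positive proportion of both signs of the Liouville function at `n² + a`: definitions

The a-form of `T4/Defs.lean` and of the definitions of `T4/Spec.lean`.  The determinant `a` is a
class `Aa`, the form `F = A s² + 2 B s t + C t²` of determinant `a` a class `Frm`; write
`variable [Aa] [Frm]` (or only `variable [Aa]`) after `namespace`, then the text of T4 stays.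

CHANGES against T4: `M² + 1 ⟶ M² + aa`;  `l % 4 = 1 ⟶ spl l`;  `nsq, dot ⟶` form `F` and its
bilinear form;  critical window `Gam N 1 2 ⟶ Gam N 1 3`;  `nu M ⟶` the number of critical divisors
`M < d ≤ 3 M` of `M² + aa`;  `π / 2 ⟶ cE = 2 L(1, χ)`;  box of `Gam`.
Everything that does not depend on `a` (`Prm, Good, zz, W0, tame, cls, mean, Loc, Rl, F1, F2, ...`)
is the definition of T4, exported into the namespace `TF`.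
-/

set_option autoImplicit false

namespace Pool.Agent.Lib.MP391708.TF

open Finset Filter Topology
open Pool.Agent.Lib.MP391708.Eqd (V cross pairs)
open scoped Classical

export Pool.Agent.Lib.MP391708.T4 (Prm Good zz Y1 Y2 Y3 Y4 ML W0 ep tame wn dn VV cg cls Per mean
  Loc prim Rl rM rG rP rQ rD rX D2 F1 F2 rT rR M4 M2 M3 role4 role2 role3 rbox Wts lam dbox w2 w3 w4)

noncomputable section

/-! ## The determinant and the form -/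

/-- the determinant `a ≥ 1`, squarefree -/
class Aa where
  a : ℕ
  ha : 0 < a
  sqf : Squarefree a

/-- the determinant -/
def aa [Aa] : ℕ := Aa.a

/-- a positive definite form `A s² + 2 B s t + C t²` of determinant `a` (content allowed) -/
class Frm [Aa] where
  A : ℤ
  B : ℤ
  C : ℤ
  hA : 0 < A
  det : A * C - B ^ 2 = (aa : ℤ)

/-- the form -/
def nsq [Aa] [Frm] (v : V) : ℤ := Frm.A * v.1 ^ 2 + 2 * Frm.B * v.1 * v.2 + Frm.C * v.2 ^ 2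

/-- its bilinear form -/
def dot [Aa] [Frm] (v w : V) : ℤ :=
  Frm.A * (v.1 * w.1) + Frm.B * (v.1 * w.2 + v.2 * w.1) + Frm.C * (v.2 * w.2)

/-- the standard form: `s² + a t²`, or `2 s² + 2 s t + (a + 1)/2 t²` if `a = 3 mod 4` (the norm form
of the maximal order, times `2`) -/
def Std [Aa] [Frm] : Prop :=
  (Frm.A = 1 ∧ Frm.B = 0 ∧ aa % 4 ≠ 3) ∨ (Frm.A = 2 ∧ Frm.B = 1 ∧ aa % 4 = 3)

/-- the split primes: `χ(l) = 1`, `χ = χ_{-4a}` -/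
def spl [Aa] (l : ℕ) : Prop := TA.chz (aa : ℤ) l = 1

/-- the character `χ_{-4a}` -/
def ch [Aa] (l : ℕ) : ℝ := TA.ch (aa : ℤ) l

/-- `∏_{l ∣ D} (1 - χ(l)/l)` -/
def rp [Aa] (D : ℕ) : ℝ := ∏ l ∈ D.primeFactors, (1 - ch l / l)

/-- the constant `2 L(1, χ)` (`π / 2` for `a = 1`) -/
def cE [Aa] : ℝ := 2 * TA.LL (aa : ℤ)

/-! ## Sieving primes -/

/-- the sieving primes: `χ(l) = 1`, `E < l < z` -/
def PP [Aa] (p : Prm) (N : ℕ) : Finset ℕ :=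
  (range ⌈zz p N⌉₊).filter (fun l => l.Prime ∧ spl l ∧ p.E < l)

/-- the part of `n` composed of sieving primes -/
def sm [Aa] (p : Prm) (N : ℕ) (n : ℕ) : ℕ := ∏ l ∈ PP p N, l ^ n.factorization l

/-- the number of sieving primes dividing `n` -/
def om [Aa] (p : Prm) (N : ℕ) (n : ℕ) : ℕ := ((PP p N).filter (fun l => l ∣ n)).card

/-- `e ^ S0 ≍ log z` -/
def S0 [Aa] (p : Prm) (N : ℕ) : ℝ := ∑ l ∈ PP p N, 2 / (l : ℝ)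

/-! ## Unimodular pairs of vectors `x = (v, w)`, `cross v w = -1` -/

/-- `M = B_F(v, w)` -/
def mm [Aa] [Frm] (x : VV) : ℤ := dot x.1 x.2
/-- `d = F(v)` -/
def dd [Aa] [Frm] (x : VV) : ℤ := nsq x.1
/-- `e = F(w)` -/
def ee [Aa] [Frm] (x : VV) : ℤ := nsq x.2

/-- `F(s v + t w)`; for `x` unimodular a quadratic form of determinant `a` -/
def qf [Aa] [Frm] (x : VV) (s t : ℤ) : ℤ := dd x * s ^ 2 + 2 * mm x * s * t + ee x * t ^ 2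

/-- a factor for boxes: all `x` with `cross = -1`, `|mm x| ≤ 2 N` are in `pairs 1 (bF (N + 1)²)` -/
def bF [Aa] [Frm] : ℕ := (Frm.A + Frm.C).natAbs * (aa + 4) + 10

/-- the unimodular pairs with `N < M ≤ 2N`, `α M < d ≤ β M` -/
def Gam [Aa] [Frm] (N : ℕ) (α β : ℝ) : Finset VV :=
  (pairs 1 (bF * (N + 1) ^ 2)).filter (fun x => (N : ℤ) < mm x ∧ mm x ≤ 2 * N ∧
    α * (mm x : ℝ) < (dd x : ℝ) ∧ (dd x : ℝ) ≤ β * (mm x : ℝ))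

/-- squarefree, all prime factors `≥ z`, split -/
def Rgh [Aa] (p : Prm) (N : ℕ) (H : ℕ) : Prop :=
  Squarefree H ∧ ∀ l : ℕ, l.Prime → l ∣ H → zz p N ≤ (l : ℝ) ∧ spl l

/-! ## Relations -/

/-- the relation -/
def IsR [Aa] (r : Rl) : Prop :=
  0 < rG r ∧ 0 < rP r ∧ 0 < rQ r ∧ rD r ≠ 0 ∧ 0 < rX r ∧ rG r * rP r * rQ r = rM r ^ 2 + aa ∧
    rD r ∣ (rX r : ℤ) - rG r ∧ (rX r : ℤ) ∣ F1 r ∧ Nat.Coprime (rG r) (rX r)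

/-- conditions at the primes `≤ E` -/
def small [Aa] (p : Prm) (r : Rl) : Prop :=
  (W0 p : ℤ) ∣ rD r ∧ (W0 p : ℤ) ∣ D2 r ∧ Nat.Coprime (rG r * rX r) (W0 p) ∧
    tame p (rM r ^ 2 + aa)

/-- the general set of relations -/
def RG [Aa] (p : Prm) (N : ℕ) : Finset Rl := (rbox (10000 * (N + 1) ^ 2)).filter (fun r =>
  IsR r ∧ small p r ∧ N ≤ 2 * rM r ∧ rM r ≤ 8 * N ∧
  (rM r : ℤ) ≤ 3 * (|rD r| * rP r) ∧ |rD r| * rP r ≤ 10 * rM r ∧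
  |D2 r| * rQ r * rM r ≤ 10 * ((rM r : ℤ) ^ 2 + aa) ∧
  rX r ≤ 100 * rG r ∧ rG r ≤ 100 * rX r ∧
  Squarefree (rG r) ∧ Squarefree (rX r) ∧ IsCoprime (rD r) (rG r : ℤ) ∧
  (∀ l : ℕ, l.Prime → (l : ℤ) ∣ rD r → l ∣ rQ r → l ≤ p.E) ∧
  (∀ l ∈ PP p N, ¬ l ^ 2 ∣ rM r ^ 2 + aa) ∧
  (sm p N (rM r ^ 2 + aa) : ℝ) ≤ zz p N ^ (4 * p.K) ∧ (sm p N (rX r) : ℝ) ≤ zz p N ^ (4 * p.K) ∧
  Y1 p N / zz p N ^ (4 * p.K) ≤ (|rD r| : ℝ) ∧ (|rD r| : ℝ) ≤ Y2 p N * zz p N ^ (4 * p.K) ∧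
  Y1 p N * Y3 p N ≤ 10 * (rG r : ℝ) ∧
  (rG r : ℝ) ≤ 10 * (Y2 p N * Y4 p N * zz p N ^ (4 * p.K)))

/-- the relations at `M` in the critical window, with all conditions -/
def RP [Aa] (p : Prm) (e₁ : ℝ) (N : ℕ) : Finset Rl := (rbox (10000 * (N + 1) ^ 2)).filter (fun r =>
  IsR r ∧ small p r ∧ N < rM r ∧ rM r ≤ 2 * N ∧
  2 * (rM r : ℤ) < rD r * rP r ∧ rD r * rP r ≤ 3 * (rM r : ℤ) ∧
  (rM r : ℤ) ^ 2 + aa ≤ D2 r * rQ r * rM r ∧ D2 r * rQ r * rM r < 2 * ((rM r : ℤ) ^ 2 + aa) ∧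
  Squarefree (rG r) ∧ Squarefree (rX r) ∧ IsCoprime (rD r) (rG r : ℤ) ∧
  (∀ l : ℕ, l.Prime → (l : ℤ) ∣ rD r → l ∣ rQ r → l ≤ p.E) ∧
  (∃ u v : ℕ, u.Prime ∧ v.Prime ∧ Y1 p N ≤ (u : ℝ) ∧ (u : ℝ) ≤ Y2 p N ∧ Y3 p N ≤ (v : ℝ) ∧
    (v : ℝ) ≤ Y4 p N ∧ rG r = sm p N (rG r) * u * v) ∧
  (∀ l ∈ PP p N, ¬ l ^ 2 ∣ rG r * rP r * rQ r * rX r * rT r * rR r) ∧
  Y1 p N / zz p N ^ (4 * p.K) ≤ (rD r : ℝ) ∧ (rD r : ℝ) ≤ Y2 p N * zz p N ^ (4 * p.K) ∧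
  (sm p N (rX r) : ℝ) ≤ zz p N ^ p.K ∧
  (sm p N (rM r ^ 2 + aa) : ℝ) ≤ zz p N ^ (2 * p.K) ∧
  (sm p N ((M2 r).natAbs ^ 2 + aa) : ℝ) ≤ zz p N ^ (4 * p.K) ∧
  (sm p N ((M3 r).natAbs ^ 2 + aa) : ℝ) ≤ zz p N ^ (4 * p.K) ∧
  (sm p N ((M4 r).natAbs ^ 2 + aa) : ℝ) ≤ zz p N ^ (4 * p.K) ∧
  (2 - e₁) * S0 p N ≤ (om p N (rM r ^ 2 + aa) : ℝ) ∧
  (1 / 2 - e₁) * S0 p N ≤ (om p N (rX r) + om p N (rT r) + om p N (rR r) : ℝ))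

/-- the tilt at the linear forms, over the sieving primes not dividing `(M² + a) X` -/
def tilt [Aa] (p : Prm) (N : ℕ) (bT bR : ℝ) (r : Rl) : ℝ :=
  ∏ l ∈ (PP p N).filter (fun l => ¬ l ∣ (rM r ^ 2 + aa) * rX r),
    (if (l : ℤ) ∣ F1 r then bT else 1) * (if (l : ℤ) ∣ F2 r then bR else 1)

/-- the general weight -/
def UW [Aa] (p : Prm) (N : ℕ) (c : Wts) (r : Rl) : ℝ :=
  Real.exp (c.tau * S0 p N) / rp (rD r).natAbs * c.cG ^ om p N (rG r) * c.cP ^ om p N (rP r) *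
    c.cQ ^ om p N (rQ r) * c.al ^ om p N (rX r) * tilt p N c.bT c.bR r

/-- the weight in the critical window, up to a bounded factor -/
def WC [Aa] (p : Prm) (N : ℕ) (r : Rl) : ℝ :=
  Real.exp (5 / 2 * S0 p N) / rp (rD r).natAbs * (1 / 3 : ℝ) ^ om p N (rM r ^ 2 + aa) *
    (1 / 6 : ℝ) ^ (om p N (rX r) + om p N (rT r) + om p N (rR r))

/-- the weight of `(D, X)` with `X ∣ F₁` replaced by its probability at the primes `≥ z` -/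
def vh [Aa] (p : Prm) (N : ℕ) (al bT bR : ℝ) (r : Rl) : ℝ :=
  1 / rp (rD r).natAbs * al ^ om p N (rX r) * dn (rX r / sm p N (rX r)) *
    (if (sm p N (rX r) : ℤ) ∣ F1 r then 1 else 0) * tilt p N bT bR r

/-- the number of critical divisors -/
def nu [Aa] (M : ℕ) : ℕ := ((M ^ 2 + aa).divisors.filter (fun d => M < d ∧ d ≤ 3 * M)).card

/-! ## The sums over `(D, X)` -/

/-- the sizes of `(M, G, P, Q)` -/
def Adm [Aa] (p : Prm) (N M G P Q : ℕ) : Prop :=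
  G * P * Q = M ^ 2 + aa ∧ N ≤ 2 * M ∧ M ≤ 8 * N ∧ Nat.Coprime G (W0 p) ∧ tame p (M ^ 2 + aa) ∧
  (P : ℝ) * Y1 p N ≤ 10 * M * zz p N ^ (4 * p.K) ∧
  (M : ℝ) ≤ 10 * P * (Y2 p N * zz p N ^ (4 * p.K)) ∧
  Y1 p N * Y3 p N ≤ 10 * (G : ℝ) ∧ (G : ℝ) ≤ 10 * (Y2 p N * Y4 p N * zz p N ^ (4 * p.K))

/-- common conditions on `(D, X)` -/
def DX [Aa] (p : Prm) (M G P Q : ℕ) (t : ℤ × ℕ) : Prop :=
  t.1 ≠ 0 ∧ t.1 ∣ (t.2 : ℤ) - G ∧ (W0 p : ℤ) ∣ t.1 ∧ (W0 p : ℤ) ∣ D2 (M, G, P, Q, t) ∧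
  Nat.Coprime t.2 (W0 p) ∧ Squarefree t.2 ∧ (∀ l : ℕ, l.Prime → l ∣ t.2 → spl l) ∧
  Nat.Coprime G t.2 ∧ IsCoprime t.1 (G : ℤ)

/-- role 1: the `(D, X)` in the critical window -/
def S1 [Aa] (p : Prm) (N M G P Q : ℕ) : Finset (ℤ × ℕ) := (dbox N).filter (fun t =>
  DX p M G P Q t ∧ 2 * (M : ℤ) < t.1 * P ∧ t.1 * P ≤ 3 * (M : ℤ) ∧
  (M : ℤ) ^ 2 + aa ≤ D2 (M, G, P, Q, t) * Q * M ∧
  D2 (M, G, P, Q, t) * Q * M < 2 * ((M : ℤ) ^ 2 + aa) ∧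
  (∀ l ∈ PP p N, (l : ℤ) ∣ t.1 → ¬ l ∣ Q) ∧ (∀ l ∈ PP p N, l ∣ t.2 → ¬ l ∣ M ^ 2 + aa) ∧
  (sm p N t.2 : ℝ) ≤ zz p N ^ p.K)

/-- general: the `(D, X)` in a wide window -/
def S2 [Aa] (p : Prm) (N M G P Q : ℕ) : Finset (ℤ × ℕ) := (dbox N).filter (fun t =>
  DX p M G P Q t ∧ (M : ℤ) ≤ 3 * (|t.1| * P) ∧ |t.1| * P ≤ 10 * (M : ℤ) ∧
  |D2 (M, G, P, Q, t)| * Q * M ≤ 10 * ((M : ℤ) ^ 2 + aa) ∧
  t.2 ≤ 100 * G ∧ G ≤ 100 * t.2 ∧ (∀ l ∈ PP p N, (l : ℤ) ∣ t.1 → ¬ l ∣ Q) ∧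
  (sm p N t.2 : ℝ) ≤ zz p N ^ (4 * p.K))

/-- the expected size `e^{-τ S0} / W₀²` -/
def kp [Aa] (p : Prm) (N : ℕ) (τ : ℝ) : ℝ := Real.exp (-(τ * S0 p N)) / (W0 p : ℝ) ^ 2

/-- the right side of PHU -/
def kpU [Aa] (p : Prm) (N M : ℕ) (τ C : ℝ) : ℝ :=
  C * kp p N τ * ∏ l ∈ (PP p N).filter (fun l => l ∣ M ^ 2 + aa), (1 + C / l)

/-- the nongeneric pairs of relations with `P / P'` small -/
def NGp [Aa] (p : Prm) (N : ℕ) : Finset (Rl × Rl) := (RG p N ×ˢ RG p N).filter (fun t =>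
  rM t.1 = rM t.2 ∧ t.1 ≠ t.2 ∧ ep p (rP t.1) = ep p (rP t.2) ∧
  (∃ n n' : ℕ, 0 < n ∧ 0 < n' ∧ (n : ℝ) ≤ Y2 p N * zz p N ^ (4 * p.K) ∧
    (n' : ℝ) ≤ Y2 p N * zz p N ^ (4 * p.K) ∧ rP t.1 * n = rP t.2 * n') ∧
  ∃ l : ℕ, l.Prime ∧ zz p N ≤ (l : ℝ) ∧
    ((l ∣ rX t.1 ∧ l ∣ rX t.2 * rG t.2) ∨ (l ∣ rX t.2 ∧ l ∣ rX t.1 * rG t.1)))

end

end Pool.Agent.Lib.MP391708.TF
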