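import Pool.Agent.Lib.MP_391708_nt.TF.HBd
import Pool.Agent.Lib.MP_391708_nt.TF.HN
import Pool.Agent.Lib.MP_391708_nt.TF1.RelB

/-!
# T1a, group H, module HB: the relations over typical `x` that are not in `RP`
-/

set_option autoImplicit false
set_option linter.constructorNameAsVariable false

namespace Pool.Agent.Lib.MP391708.TF

variable [Pool.Agent.Lib.MP391708.TF.Aa] [Pool.Agent.Lib.MP391708.TF.Frm]

open Finset Filter Topology
open Pool.Agent.Lib.MP391708.Eqd (V cross pairs)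
open scoped Classical

noncomputable section

namespace H

namespace HBm

open HNm

attribute [local irreducible] dbox rbox

/-! ### relations from data -/

lemma isR_rel {p : Prm} {N : ℕ} {x : VV} {a : Dt} {t : ℤ × ℕ}
    (hG : dG a * Pd a x * Qd a x = Md x ^ 2 + aa) (ht : t ∈ TS p N a x)
    (hX : (rX (rel a t x) : ℤ) ∣ F1 (rel a t x)) : IsR (rel a t x) := by
  unfold TS S1 at ht
  obtain ⟨h1, h2, -, -, -, h3, -, h4, -⟩ := (mem_filter.1 ht).2.1
  have h0 : dG a * Pd a x * Qd a x ≠ 0 := by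
    rw [hG]; have := Aa.ha; positivity
  have h5 := right_ne_zero_of_mul h0
  have h6 := left_ne_zero_of_mul h0
  have h7 := right_ne_zero_of_mul h6
  have h8 := left_ne_zero_of_mul h6
  exact ⟨Nat.pos_of_ne_zero h8, Nat.pos_of_ne_zero h7, Nat.pos_of_ne_zero h5, h1,
    Nat.pos_of_ne_zero h3.ne_zero, hG, h2, hX, h4⟩

/-! ### the tilt -/

lemma card_le_om {p : Prm} {N : ℕ} {r : Rl} {F : ℤ} {T : ℕ} (h : F = rX r * T) :
    (((PP p N).filter (fun l => ¬ l ∣ (rM r ^ 2 + aa) * rX r)).filter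
      (fun l : ℕ => (l : ℤ) ∣ F)).card ≤ om p N T := by
  refine card_le_card fun l hl => ?_
  rw [mem_filter, mem_filter] at hl
  obtain ⟨⟨h1, h2⟩, h3⟩ := hl
  rw [mem_filter]
  refine ⟨h1, ?_⟩
  rw [h] at h3
  have h4 : l ∣ rX r * T := by exact_mod_cast h3
  rcases (pp_prime h1).dvd_mul.1 h4 with h5 | h5
  · exact absurd (h5.mul_left _) h2
  · exact h5

lemma tilt_L {p : Prm} {N : ℕ} {y L : ℝ} (hL0 : 0 < L) (hL1 : L ≤ 1) (hy : 0 < y) {r : Rl}
    (h : IsR r) :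
    L ^ (om p N (rT r) + om p N (rR r)) * tilt p N y y r ≤ tilt p N (L * y) (L * y) r := by
  have e : tilt p N (L * y) (L * y) r =
      (∏ l ∈ (PP p N).filter (fun l => ¬ l ∣ (rM r ^ 2 + aa) * rX r),
        (if (l : ℤ) ∣ F1 r then L else 1)) *
      (∏ l ∈ (PP p N).filter (fun l => ¬ l ∣ (rM r ^ 2 + aa) * rX r),
        (if (l : ℤ) ∣ F2 r then L else 1)) * tilt p N y y r := by
    unfold tilt
    rw [← prod_mul_distrib, ← prod_mul_distrib]
    refine prod_congr rfl fun l _ => ?_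
    split_ifs <;> ring
  have c1 : ∏ l ∈ (PP p N).filter (fun l => ¬ l ∣ (rM r ^ 2 + aa) * rX r),
      (if (l : ℤ) ∣ F1 r then L else 1) =
      L ^ (((PP p N).filter (fun l => ¬ l ∣ (rM r ^ 2 + aa) * rX r)).filter
        (fun l : ℕ => (l : ℤ) ∣ F1 r)).card := by
    rw [← prod_filter, prod_const]
  have c2 : ∏ l ∈ (PP p N).filter (fun l => ¬ l ∣ (rM r ^ 2 + aa) * rX r),
      (if (l : ℤ) ∣ F2 r then L else 1) =
      L ^ (((PP p N).filter (fun l => ¬ l ∣ (rM r ^ 2 + aa) * rX r)).filter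
        (fun l : ℕ => (l : ℤ) ∣ F2 r)).card := by
    rw [← prod_filter, prod_const]
  rw [e, c1, c2, ← pow_add]
  refine mul_le_mul_of_nonneg_right ?_ (tilt_nonneg p N hy.le hy.le r)
  exact pow_le_pow_of_le_one hL0.le hL1
    (add_le_add (card_le_om h.F1_eq) (card_le_om h.F2_eq))

/-- outside `evO` nothing happens; on `evO` the weight is dominated -/
lemma wt_evO {p : Prm} {N : ℕ} {L e₁ : ℝ} (hL0 : 0 < L) (hL1 : L ≤ 1) {r : Rl} (h : IsR r)
    (ho : evO p N e₁ r) :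
    wt p N (1 / 6) r ≤ L ^ (-((1 / 2 - e₁) * S0 p N)) * wt p N (L / 6) r := by
  unfold evO at ho
  have h1 : L ^ (om p N (rX r) + (om p N (rT r) + om p N (rR r))) *
      ((1 / 6 : ℝ) ^ om p N (rX r) * tilt p N (1 / 6) (1 / 6) r) ≤
      (L / 6) ^ om p N (rX r) * tilt p N (L / 6) (L / 6) r := by
    have h2 := tilt_L (p := p) (N := N) (y := 1 / 6) hL0 hL1 (by norm_num) h
    have e1 : L * (1 / 6) = L / 6 := by ring
    rw [e1] at h2
    have e2 : (L / 6) ^ om p N (rX r) = L ^ om p N (rX r) * (1 / 6 : ℝ) ^ om p N (rX r) := by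
      rw [← e1, mul_pow]
    rw [e2, pow_add]
    calc L ^ om p N (rX r) * L ^ (om p N (rT r) + om p N (rR r)) *
        ((1 / 6 : ℝ) ^ om p N (rX r) * tilt p N (1 / 6) (1 / 6) r)
        = L ^ om p N (rX r) * (1 / 6 : ℝ) ^ om p N (rX r) *
          (L ^ (om p N (rT r) + om p N (rR r)) * tilt p N (1 / 6) (1 / 6) r) := by ring
      _ ≤ _ := mul_le_mul_of_nonneg_left h2 (by positivity)
  have h3 : 1 ≤ L ^ (-((1 / 2 - e₁) * S0 p N)) *
      L ^ (om p N (rX r) + (om p N (rT r) + om p N (rR r))) := by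
    rw [← Real.rpow_natCast, ← Real.rpow_add hL0]
    refine Real.one_le_rpow_of_pos_of_le_one_of_nonpos hL0 hL1 ?_
    push_cast
    linarith
  have h4 : 0 ≤ (1 / 6 : ℝ) ^ om p N (rX r) * tilt p N (1 / 6) (1 / 6) r :=
    mul_nonneg (by positivity) (tilt_nonneg p N (by norm_num) (by norm_num) r)
  have h5 : (1 / 6 : ℝ) ^ om p N (rX r) * tilt p N (1 / 6) (1 / 6) r ≤
      L ^ (-((1 / 2 - e₁) * S0 p N)) * ((L / 6) ^ om p N (rX r) * tilt p N (L / 6) (L / 6) r) := by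
    calc (1 / 6 : ℝ) ^ om p N (rX r) * tilt p N (1 / 6) (1 / 6) r
        ≤ (L ^ (-((1 / 2 - e₁) * S0 p N)) *
          L ^ (om p N (rX r) + (om p N (rT r) + om p N (rR r)))) *
          ((1 / 6 : ℝ) ^ om p N (rX r) * tilt p N (1 / 6) (1 / 6) r) :=
        le_mul_of_one_le_left h4 h3
      _ = L ^ (-((1 / 2 - e₁) * S0 p N)) *
          (L ^ (om p N (rX r) + (om p N (rT r) + om p N (rR r))) *
          ((1 / 6 : ℝ) ^ om p N (rX r) * tilt p N (1 / 6) (1 / 6) r)) := by ring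
      _ ≤ _ := mul_le_mul_of_nonneg_left h1 (by positivity)
  have h6 : 0 ≤ (1 / 3 : ℝ) ^ om p N (rM r ^ 2 + aa) / k0 p N * ((rX r : ℝ) / rG r) /
      rp (rD r).natAbs := by
    have := k0_nonneg p N
    have := rp_nonneg (rD r).natAbs
    positivity
  have h7 := mul_le_mul_of_nonneg_left h5 h6
  unfold wt
  calc _ = (1 / 3 : ℝ) ^ om p N (rM r ^ 2 + aa) / k0 p N * ((rX r : ℝ) / rG r) /
      rp (rD r).natAbs * ((1 / 6 : ℝ) ^ om p N (rX r) * tilt p N (1 / 6) (1 / 6) r) := by ring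
    _ ≤ _ := h7
    _ = _ := by ring

/-- Markov for the sieving part -/
lemma log_evS {p : Prm} {N : ℕ} {r : Rl} (hz : 1 ≤ zz p N) (hs : evS p N r) :
    p.K * Real.log (zz p N) ≤ ∑ l ∈ (PP p N).filter (fun l => evL l r), Real.log l := by
  unfold evS at hs
  have h0 : (0 : ℝ) < zz p N ^ p.K := pow_pos (by linarith) _
  have h1 := Real.log_le_log h0 hs.le
  rw [Real.log_pow] at h1
  refine h1.trans (le_of_eq ?_)
  push_cast
  rw [Real.log_prod]
  intro l hl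
  exact_mod_cast (pp_prime (mem_filter.1 hl).1).pos.ne'

/-! ### the sum over the data -/

lemma Zx_eq (p : Prm) (N : ℕ) (y : ℝ) (Ev : Rl → Prop) (x : VV) :
    Zx p N y Ev x = ∑ a ∈ (DA p N).filter (fun a => fits p N a x), ∑ t ∈ TS p N a x,
      if Ev (rel a t x) then wt p N y (rel a t x) * iX (rel a t x) else 0 := by
  unfold Zx
  refine sum_congr rfl fun a _ => ?_
  rw [sum_filter]

lemma sum_Zx (p : Prm) (N : ℕ) (y : ℝ) (c : ℕ → ℝ) (Ev : ℕ → Rl → Prop) (x : VV) :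
    ∑ q ∈ PP p N, c q * Zx p N y (Ev q) x =
      ∑ a ∈ (DA p N).filter (fun a => fits p N a x), ∑ t ∈ TS p N a x, ∑ q ∈ PP p N,
        c q * if Ev q (rel a t x) then wt p N y (rel a t x) * iX (rel a t x) else 0 := by
  simp_rw [Zx_eq, mul_sum]
  rw [sum_comm]
  refine sum_congr rfl fun a _ => ?_
  rw [sum_comm]

lemma term {p : Prm} {N : ℕ} {L e₁ g g' : ℝ} {r : Rl} (hz : 1 < zz p N) (hK : 1 ≤ p.K)
    (hg : 0 ≤ g) (hg' : 0 ≤ g') (hL0 : 0 < L)
    (h : r ∈ RP p e₁ N ∨ evP p N r ∨ evD p r ∨ evS p N r ∨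
      g ≤ L ^ (-((1 / 2 - e₁) * S0 p N)) * g') :
    (if r ∉ RP p e₁ N then g else 0) ≤
      ∑ q ∈ PP p N, 1 * (if evB q r then g else 0) + ∑ q ∈ PP p N, 1 * (if evM q r then g else 0) +
      (if evD p r then g else 0) + 1 / (p.K * Real.log (zz p N)) *
        (∑ q ∈ PP p N, Real.log q * (if evL q r then g else 0)) +
      L ^ (-((1 / 2 - e₁) * S0 p N)) * g' := by
  have hK' : (1 : ℝ) ≤ p.K := by exact_mod_cast hK
  have hl : 0 < Real.log (zz p N) := Real.log_pos hz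
  have a1 : ∀ q : ℕ, 0 ≤ 1 * (if evB q r then g else 0) := fun q => by split_ifs <;> simp [hg]
  have a2 : ∀ q : ℕ, 0 ≤ 1 * (if evM q r then g else 0) := fun q => by split_ifs <;> simp [hg]
  have a3 : 0 ≤ (if evD p r then g else 0) := by split_ifs <;> simp [hg]
  have a4 : ∀ q ∈ PP p N, 0 ≤ Real.log q * (if evL q r then g else 0) := fun q hq =>
    mul_nonneg (Real.log_natCast_nonneg q) (by split_ifs <;> simp [hg])
  have b1 : 0 ≤ ∑ q ∈ PP p N, 1 * (if evB q r then g else 0) := sum_nonneg fun q _ => a1 q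
  have b2 : 0 ≤ ∑ q ∈ PP p N, 1 * (if evM q r then g else 0) := sum_nonneg fun q _ => a2 q
  have b4 : 0 ≤ 1 / (p.K * Real.log (zz p N)) *
        (∑ q ∈ PP p N, Real.log q * (if evL q r then g else 0)) :=
    mul_nonneg (by positivity) (sum_nonneg a4)
  have b5 : 0 ≤ L ^ (-((1 / 2 - e₁) * S0 p N)) * g' := mul_nonneg (by positivity) hg'
  have b0 : (if r ∉ RP p e₁ N then g else 0) ≤ g := by split_ifs <;> simp [hg]
  rcases h with h | ⟨q, hq, h⟩ | h | h | h
  · rw [if_neg (not_not.2 h)]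
    linarith
  · rcases h with h | h
    · have := single_le_sum (fun q _ => a1 q) hq
      rw [if_pos h, one_mul] at this
      linarith
    · have := single_le_sum (fun q _ => a2 q) hq
      rw [if_pos h, one_mul] at this
      linarith
  · rw [if_pos h]
    linarith
  · have h1 := log_evS hz.le h
    have h2 : ∑ q ∈ PP p N, Real.log q * (if evL q r then g else 0) =
        (∑ l ∈ (PP p N).filter (fun l => evL l r), Real.log l) * g := by
      rw [sum_filter, sum_mul]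
      refine sum_congr rfl fun q _ => ?_
      split_ifs <;> ring
    have h3 : g ≤ 1 / (p.K * Real.log (zz p N)) *
        (∑ q ∈ PP p N, Real.log q * (if evL q r then g else 0)) := by
      rw [h2, one_div, ← mul_assoc]
      refine le_mul_of_one_le_left hg ?_
      rw [inv_mul_eq_div, one_le_div (by positivity)]
      exact h1
    linarith
  · linarith

/-- pointwise bound -/
lemma pointwise {p : Prm} {N : ℕ} {L e₁ δ : ℝ} (hz : 1 < zz p N) (hK : 1 ≤ p.K)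
    (hL0 : 0 < L) (hL1 : L ≤ 1) {x : VV} (hx : typ p N δ e₁ x)
    (hG : ∀ a ∈ DA p N, fits p N a x → dG a * Pd a x * Qd a x = Md x ^ 2 + aa)
    (hB : typ p N δ e₁ x → ∀ a ∈ DA p N, fits p N a x → ∀ t ∈ TS p N a x,
      (rX (rel a t x) : ℤ) ∣ F1 (rel a t x) →
      rel a t x ∈ RP p e₁ N ∨ evP p N (rel a t x) ∨ evD p (rel a t x) ∨ evS p N (rel a t x) ∨
        evO p N e₁ (rel a t x)) :
    Zx p N (1 / 6) (fun r => r ∉ RP p e₁ N) x ≤
      ∑ q ∈ PP p N, 1 * Zx p N (1 / 6) (evB q) x + ∑ q ∈ PP p N, 1 * Zx p N (1 / 6) (evM q) x +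
      Zx p N (1 / 6) (evD p) x + 1 / (p.K * Real.log (zz p N)) *
        (∑ q ∈ PP p N, Real.log q * Zx p N (1 / 6) (evL q) x) +
      L ^ (-((1 / 2 - e₁) * S0 p N)) * Zx p N (L / 6) ev0 x := by
  rw [sum_Zx p N (1 / 6) (fun _ => 1) evB x, sum_Zx p N (1 / 6) (fun _ => 1) evM x,
    sum_Zx p N (1 / 6) (fun q => Real.log q) evL x, Zx_eq, Zx_eq p N (1 / 6) (evD p) x,
    Zx_eq p N (L / 6) ev0 x, mul_sum, mul_sum, ← sum_add_distrib, ← sum_add_distrib,
    ← sum_add_distrib, ← sum_add_distrib]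
  refine sum_le_sum fun a ha => ?_
  rw [mem_filter] at ha
  rw [mul_sum, mul_sum, ← sum_add_distrib, ← sum_add_distrib,
    ← sum_add_distrib, ← sum_add_distrib]
  refine sum_le_sum fun t ht => ?_
  rw [if_pos (show ev0 (rel a t x) from trivial)]
  have n1 : (0 : ℝ) ≤ 1 / 6 := by norm_num
  have n2 : 0 ≤ L / 6 := by positivity
  refine le_trans (le_of_eq ?_) (term (r := rel a t x) (e₁ := e₁) (L := L) hz hK
    (mul_nonneg (wt_nonneg p N n1 (rel a t x)) (iX_nonneg (rel a t x)))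
    (mul_nonneg (wt_nonneg p N n2 (rel a t x)) (iX_nonneg (rel a t x))) hL0 ?_)
  · congr
  by_cases hX : (rX (rel a t x) : ℤ) ∣ F1 (rel a t x)
  · rcases hB hx a ha.1 ha.2 t ht hX with h | h | h | h | h
    · exact Or.inl h
    · exact Or.inr (Or.inl h)
    · exact Or.inr (Or.inr (Or.inl h))
    · exact Or.inr (Or.inr (Or.inr (Or.inl h)))
    · refine Or.inr (Or.inr (Or.inr (Or.inr ?_)))
      have h1 := wt_evO hL0 hL1 (isR_rel (hG a ha.1 ha.2) ht hX) h
      have h2 := mul_le_mul_of_nonneg_right h1 (iX_nonneg (rel a t x))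
      rwa [mul_assoc] at h2
  · refine Or.inr (Or.inr (Or.inr (Or.inr ?_)))
    have : iX (rel a t x) = 0 := by unfold iX; rw [if_neg hX]
    rw [this]
    simp

end HBm

attribute [local irreducible] dbox rbox in
open HNm HBm in
/-- **HB** -/
theorem specHB (hH1a : SpecH1a) (hCNT : SpecCNT) (hHC : SpecHC) (hHM : SpecHM) (hHD : SpecHD)
    (hHB2 : SpecHB2) : SpecHB := by
  intro ε δ e₁ hε he he'
  obtain ⟨c', hc', hcnt⟩ := hCNT.2
  obtain ⟨c, hc, hHC⟩ := hHC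
  obtain ⟨hM1, ⟨C, hC0, hM2⟩, hM3⟩ := hHM
  obtain ⟨L, hL0, hL1, hM3⟩ := hM3 e₁ he he'
  have hA := hHC (1 / 6) 1 1 (by norm_num) (by norm_num) one_pos one_pos le_rfl
  have hB := hHC (L / 6) 1 1 (by positivity) (by linarith) one_pos one_pos le_rfl
  have h1 := hM1 (ε / 16) (by positivity)
  have h3 := hM3 (ε / 16) (by positivity)
  have h4 := small_terms (δ := 1 / 4) (e₁ := 3 / 2 + e₁) hc hc' (by norm_num) hL0 hL1
    (ε := ε / 8) (by positivity) (by linarith)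
  have hD := hHD (ε / 8) (by positivity)
  have hB2 := hHB2 δ e₁ he
  have hKK := T4.Good.large_K (fun _ => ⌈16 * C / ε⌉₊ + 1)
  refine ((((((((((hA.and hB).and h1).and h3).and h4).and hD).and hB2).and hKK).and hM2).and
    hH1a).and (T4.Good.zeta_pos)).mono ?_
  rintro p ⟨⟨⟨⟨⟨⟨⟨⟨⟨⟨hA, hB⟩, h1⟩, h3⟩, h4⟩, hD⟩, hB2⟩, hKK⟩, hM2⟩, hH1a⟩, hζ⟩
  have hzt : Tendsto (fun N : ℕ => zz p N) atTop atTop :=
    (tendsto_rpow_atTop hζ).comp tendsto_natCast_atTop_atTop
  filter_upwards [hA, hB, h1, h3, h4, hcnt, hD, hB2, hM2, hH1a, hzt.eventually_gt_atTop 1]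
    with N hA hB h1 h3 h4 hcnt hD hB2 hM2 hH1a hz
  obtain ⟨hA, -⟩ := hA
  obtain ⟨hB, -⟩ := hB
  obtain ⟨-, -, h1B, h1M, -⟩ := h1
  obtain ⟨h3, -⟩ := h3
  have hK1 : 1 ≤ p.K := by omega
  have hKC : 16 * C / ε ≤ p.K := by
    have h5 : (16 * C / ε) ≤ ⌈16 * C / ε⌉₊ := Nat.le_ceil _
    have h6 : ((⌈16 * C / ε⌉₊ + 1 : ℕ) : ℝ) ≤ p.K := by exact_mod_cast hKK
    push_cast at h6
    linarith
  have hl : 0 < Real.log (zz p N) := Real.log_pos hz
  have hKp : (0 : ℝ) < p.K := by exact_mod_cast hK1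
  have hg0 : (0 : ℝ) ≤ ((Gam N 1 3).card : ℝ) := Nat.cast_nonneg _
  have hN0 : 0 ≤ (N : ℝ) ^ (1 - c) := by positivity
  -- the sum of the pointwise bounds
  have s1 : ∑ x ∈ (Gam N 1 3).filter (fun x => typ p N δ e₁ x),
      Zx p N (1 / 6) (fun r => r ∉ RP p e₁ N) x ≤
      ∑ x ∈ Gam N 1 3,
      (∑ q ∈ PP p N, 1 * Zx p N (1 / 6) (evB q) x + ∑ q ∈ PP p N, 1 * Zx p N (1 / 6) (evM q) x +
      Zx p N (1 / 6) (evD p) x + 1 / (p.K * Real.log (zz p N)) *
        (∑ q ∈ PP p N, Real.log q * Zx p N (1 / 6) (evL q) x) +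
      L ^ (-((1 / 2 - e₁) * S0 p N)) * Zx p N (L / 6) ev0 x) := by
    refine (sum_le_sum fun x hx => ?_).trans (sum_le_sum_of_subset_of_nonneg
      (filter_subset _ _) fun x _ _ => ?_)
    · rw [mem_filter] at hx
      exact pointwise hz hK1 hL0 hL1.le hx.2 (fun a ha hf => (hH1a x hx.1 a ha hf).2.2.1)
        (hB2 x hx.1)
    · have n1 : ∀ Ev, 0 ≤ Zx p N (1 / 6) Ev x := fun Ev => Zx_nonneg p N (by norm_num) _ _
      have n2 : 0 ≤ Zx p N (L / 6) ev0 x := Zx_nonneg p N (by positivity) _ _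
      have n3 : 0 ≤ ∑ q ∈ PP p N, 1 * Zx p N (1 / 6) (evB q) x :=
        sum_nonneg fun q _ => by rw [one_mul]; exact n1 _
      have n4 : 0 ≤ ∑ q ∈ PP p N, 1 * Zx p N (1 / 6) (evM q) x :=
        sum_nonneg fun q _ => by rw [one_mul]; exact n1 _
      have n5 : 0 ≤ ∑ q ∈ PP p N, Real.log q * Zx p N (1 / 6) (evL q) x :=
        sum_nonneg fun q _ => mul_nonneg (Real.log_natCast_nonneg q) (n1 _)
      have n6 := n1 (evD p)
      positivity
  have s2 : ∑ x ∈ Gam N 1 3,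
      (∑ q ∈ PP p N, 1 * Zx p N (1 / 6) (evB q) x + ∑ q ∈ PP p N, 1 * Zx p N (1 / 6) (evM q) x +
      Zx p N (1 / 6) (evD p) x + 1 / (p.K * Real.log (zz p N)) *
        (∑ q ∈ PP p N, Real.log q * Zx p N (1 / 6) (evL q) x) +
      L ^ (-((1 / 2 - e₁) * S0 p N)) * Zx p N (L / 6) ev0 x) =
      ∑ q ∈ PP p N, ∑ x ∈ Gam N 1 3, Zx p N (1 / 6) (evB q) x +
      ∑ q ∈ PP p N, ∑ x ∈ Gam N 1 3, Zx p N (1 / 6) (evM q) x +
      ∑ x ∈ Gam N 1 3, Zx p N (1 / 6) (evD p) x + 1 / (p.K * Real.log (zz p N)) *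
        (∑ q ∈ PP p N, Real.log q * ∑ x ∈ Gam N 1 3, Zx p N (1 / 6) (evL q) x) +
      L ^ (-((1 / 2 - e₁) * S0 p N)) * ∑ x ∈ Gam N 1 3, Zx p N (L / 6) ev0 x := by
    simp only [one_mul]
    rw [sum_add_distrib, sum_add_distrib, sum_add_distrib, sum_add_distrib, ← mul_sum, ← mul_sum,
      sum_comm, sum_comm (s := Gam N 1 3) (t := PP p N) (f := fun x q => Zx p N (1 / 6) (evM q) x)]
    congr 3
    rw [sum_comm]
    refine sum_congr rfl fun q _ => ?_
    rw [mul_sum]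
  have sB : ∑ q ∈ PP p N, ∑ x ∈ Gam N 1 3, Zx p N (1 / 6) (evB q) x ≤
      2 * (ε / 16 * ((Gam N 1 3).card : ℝ)) + (PP p N).card * (N : ℝ) ^ (1 - c) := by
    calc ∑ q ∈ PP p N, ∑ x ∈ Gam N 1 3, Zx p N (1 / 6) (evB q) x
        ≤ ∑ q ∈ PP p N, (2 * (∑ x ∈ Gam N 1 3, Zh p N (1 / 6) (evB q) x) +
            (N : ℝ) ^ (1 - c)) := by
          refine sum_le_sum fun q hq => ?_
          have h := hA (evB q) (Or.inr ⟨q, hq, Or.inl rfl⟩)
          simp only [one_pow, one_mul] at h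
          linarith
      _ = 2 * ∑ q ∈ PP p N, ∑ x ∈ Gam N 1 3, Zh p N (1 / 6) (evB q) x +
            (PP p N).card * (N : ℝ) ^ (1 - c) := by
          rw [sum_add_distrib, ← mul_sum, sum_const, nsmul_eq_mul]
      _ ≤ _ := by linarith
  have sM : ∑ q ∈ PP p N, ∑ x ∈ Gam N 1 3, Zx p N (1 / 6) (evM q) x ≤
      2 * (ε / 16 * ((Gam N 1 3).card : ℝ)) + (PP p N).card * (N : ℝ) ^ (1 - c) := by
    calc ∑ q ∈ PP p N, ∑ x ∈ Gam N 1 3, Zx p N (1 / 6) (evM q) x
        ≤ ∑ q ∈ PP p N, (2 * (∑ x ∈ Gam N 1 3, Zh p N (1 / 6) (evM q) x) +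
            (N : ℝ) ^ (1 - c)) := by
          refine sum_le_sum fun q hq => ?_
          have h := hA (evM q) (Or.inr ⟨q, hq, Or.inr (Or.inr (Or.inl rfl))⟩)
          simp only [one_pow, one_mul] at h
          linarith
      _ = 2 * ∑ q ∈ PP p N, ∑ x ∈ Gam N 1 3, Zh p N (1 / 6) (evM q) x +
            (PP p N).card * (N : ℝ) ^ (1 - c) := by
          rw [sum_add_distrib, ← mul_sum, sum_const, nsmul_eq_mul]
      _ ≤ _ := by linarith
  have sL : 1 / (p.K * Real.log (zz p N)) *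
        (∑ q ∈ PP p N, Real.log q * ∑ x ∈ Gam N 1 3, Zx p N (1 / 6) (evL q) x) ≤
      ε / 8 * ((Gam N 1 3).card : ℝ) + (PP p N).card * (N : ℝ) ^ (1 - c) := by
    have t1 : ∑ q ∈ PP p N, Real.log q * ∑ x ∈ Gam N 1 3, Zx p N (1 / 6) (evL q) x ≤
        2 * (C * Real.log (zz p N) * ((Gam N 1 3).card : ℝ)) +
          Real.log (zz p N) * ((PP p N).card * (N : ℝ) ^ (1 - c)) := by
      calc ∑ q ∈ PP p N, Real.log q * ∑ x ∈ Gam N 1 3, Zx p N (1 / 6) (evL q) x
          ≤ ∑ q ∈ PP p N, (2 * (Real.log q * ∑ x ∈ Gam N 1 3, Zh p N (1 / 6) (evL q) x) +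
              Real.log (zz p N) * (N : ℝ) ^ (1 - c)) := by
            refine sum_le_sum fun q hq => ?_
            have h := hA (evL q) (Or.inr ⟨q, hq, Or.inr (Or.inl rfl)⟩)
            simp only [one_pow, one_mul] at h
            have hq0 : 0 ≤ Real.log q := Real.log_natCast_nonneg q
            have hq1 : Real.log q ≤ Real.log (zz p N) := by
              have h5 := (mem_filter.1 hq).1
              rw [mem_range, Nat.lt_ceil] at h5
              have h6 : (0 : ℝ) < q := by exact_mod_cast (pp_prime hq).pos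
              exact Real.log_le_log h6 h5.le
            have h7 := mul_le_mul_of_nonneg_left h hq0
            have h8 := mul_le_mul_of_nonneg_right hq1 hN0
            linarith
        _ = 2 * ∑ q ∈ PP p N, Real.log q * ∑ x ∈ Gam N 1 3, Zh p N (1 / 6) (evL q) x +
              Real.log (zz p N) * ((PP p N).card * (N : ℝ) ^ (1 - c)) := by
            rw [sum_add_distrib, ← mul_sum, sum_const, nsmul_eq_mul]
            ring
        _ ≤ _ := by linarith
    have t2 := mul_le_mul_of_nonneg_left t1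
      (by positivity : (0 : ℝ) ≤ 1 / (p.K * Real.log (zz p N)))
    refine t2.trans ?_
    have t3 : 1 / (p.K * Real.log (zz p N)) *
        (2 * (C * Real.log (zz p N) * ((Gam N 1 3).card : ℝ)) +
          Real.log (zz p N) * ((PP p N).card * (N : ℝ) ^ (1 - c))) =
        2 * C / p.K * ((Gam N 1 3).card : ℝ) + (PP p N).card * (N : ℝ) ^ (1 - c) / p.K := by
      field_simp
    rw [t3]
    have t4 : 2 * C / p.K ≤ ε / 8 := by
      rw [div_le_iff₀ hKp]
      rw [div_le_iff₀ hε] at hKC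
      linarith
    have t5 : (PP p N).card * (N : ℝ) ^ (1 - c) / p.K ≤ (PP p N).card * (N : ℝ) ^ (1 - c) :=
      div_le_self (by positivity) (by exact_mod_cast hK1)
    have t6 := mul_le_mul_of_nonneg_right t4 hg0
    linarith
  have sO : L ^ (-((1 / 2 - e₁) * S0 p N)) * ∑ x ∈ Gam N 1 3, Zx p N (L / 6) ev0 x ≤
      2 * (ε / 16 * ((Gam N 1 3).card : ℝ)) +
        L ^ (-((2 - (3 / 2 + e₁)) * S0 p N)) * (N : ℝ) ^ (1 - c) := by
    have h := hB ev0 (Or.inl rfl)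
    simp only [one_pow, one_mul] at h
    have h0 : 0 ≤ L ^ (-((1 / 2 - e₁) * S0 p N)) := by positivity
    have h' := mul_le_mul_of_nonneg_left h h0
    have e0 : (2 - (3 / 2 + e₁)) = 1 / 2 - e₁ := by ring
    rw [e0]
    calc _ ≤ _ := h'
      _ = 2 * (L ^ (-((1 / 2 - e₁) * S0 p N)) * ∑ x ∈ Gam N 1 3, Zh p N (L / 6) ev0 x) +
          L ^ (-((1 / 2 - e₁) * S0 p N)) * (N : ℝ) ^ (1 - c) := by ring
      _ ≤ _ := by linarith
  have s7 : ε / 8 * (c' * N) ≤ ε / 8 * ((Gam N 1 3).card : ℝ) :=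
    mul_le_mul_of_nonneg_left hcnt (by positivity)
  have s8 : 0 ≤ (PP p N).card * (N : ℝ) ^ (1 - c) := by positivity
  have s9 : (1 : ℝ) / (1 / 4) = 4 := by norm_num
  rw [s9] at h4
  rw [s2] at s1
  have hgε : 0 ≤ ε * ((Gam N 1 3).card : ℝ) := by positivity
  linarith

end H

end

end Pool.Agent.Lib.MP391708.TF
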