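import Pool.Agent.Lib.MP_391708_nt.TF.H1a
import Pool.Agent.Lib.MP_391708_nt.TF.ISm
import Pool.Agent.Lib.MP_391708_nt.T1.GoodL
import Pool.Agent.Lib.MP_391708_nt.TF1.A3An
import Pool.Agent.Lib.MP_391708_nt.TA.LLX

/-!
# Group H: the comparison of `Zx` and `Zh` (`SpecHC`)
-/

set_option autoImplicit false
set_option linter.constructorNameAsVariable false

namespace Pool.Agent.Lib.MP391708.TF.H

variable [Pool.Agent.Lib.MP391708.TF.Aa] [Pool.Agent.Lib.MP391708.TF.Frm]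

open Finset Filter Topology
open Pool.Agent.Lib.MP391708.Eqd (V cross pairs)
open scoped Classical

noncomputable section

namespace HCP

variable {p : Prm} {N : ℕ}

/-! ## The windows -/

theorem gam_sub {a : Dt} {t : ℤ × ℕ} : Gam N (aL a t) (bL a t) ⊆ Gam N 1 3 := by
  intro x hx
  have h := mem_Gam hx
  unfold Gam at hx ⊢
  rw [mem_filter] at hx ⊢
  have h0 : (0 : ℝ) ≤ mm x := by
    have : (0 : ℤ) ≤ mm x := by have := h.2.1; omega
    exact_mod_cast this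
  refine ⟨hx.1, hx.2.1, hx.2.2.1, ?_, ?_⟩
  · calc 1 * (mm x : ℝ) ≤ aL a t * mm x := mul_le_mul_of_nonneg_right (le_max_left _ _) h0
      _ < _ := hx.2.2.2.1
  · calc (dd x : ℝ) ≤ bL a t * mm x := hx.2.2.2.2
      _ ≤ 3 * mm x := mul_le_mul_of_nonneg_right (min_le_left _ _) h0

theorem gam_empty {α β : ℝ} (h : β ≤ α) : Gam N α β = ∅ := by
  rw [eq_empty_iff_forall_notMem]
  intro x hx
  have h1 := mem_Gam hx
  have h0 : (0 : ℝ) ≤ mm x := by
    have : (0 : ℤ) ≤ mm x := by have := h1.2.1; omega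
    exact_mod_cast this
  have h2 := h1.2.2.2.1
  have h3 := h1.2.2.2.2
  have h4 := mul_le_mul_of_nonneg_right h h0
  linarith

/-- the `(D, X)` of the box that may occur for the datum `a` -/
def tbx (p : Prm) (N : ℕ) (a : Dt) : Finset (ℤ × ℕ) := (dbox N).filter (fun t => okT p N a t)

theorem TS_sub {a : Dt} {x : VV} : TS p N a x ⊆ dbox N := by
  unfold TS S1
  exact filter_subset _ _

theorem mem_tbx {a : Dt} {t : ℤ × ℕ} : t ∈ tbx p N a ↔ t ∈ dbox N ∧ okT p N a t := by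
  unfold tbx
  rw [mem_filter]

/-! ## The coefficient -/

/-- the part of the weight which depends only on `(a, t)` -/
def cA (p : Prm) (N : ℕ) (y L : ℝ) (a : Dt) (t : ℤ × ℕ) : ℝ :=
  L ^ (ds a * es a).primeFactors.card * ((1 / 3 : ℝ) ^ (ds a * es a).primeFactors.card / k0 p N *
    ((t.2 : ℝ) / dG a) / rp t.1.natAbs * y ^ om p N t.2)

attribute [local irreducible] Gam dbox S1 TS

attribute [local irreducible] DA

theorem om_fits {a : Dt} (ha : a ∈ DA p N) {x : VV} (hx : x ∈ Gam N 1 3) (hf : fits p N a x) :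
    om p N (Md x ^ 2 + aa) = (ds a * es a).primeFactors.card := by
  obtain ⟨h1, h2, -⟩ := mem_DA ha
  refine om_eq_card h1.ne_zero h2 fun l hl => ?_
  have hp := prime_of_mem_PP hl
  rw [← abs_mul_abs hx, hp.dvd_mul, hp.dvd_mul, ← dvd_dd_iff, ← dvd_ee_iff,
    (hf.2.2.2 l hl).1, (hf.2.2.2 l hl).2.1]

theorem wt_eq (y L : ℝ) (a : Dt) (t : ℤ × ℕ) (x : VV) (h : om p N (Md x ^ 2 + aa) =
    (ds a * es a).primeFactors.card) :
    L ^ om p N (Md x ^ 2 + aa) * wt p N y (rel a t x) =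
      cA p N y L a t * tilt p N y y (rel a t x) := by
  have e : wt p N y (rel a t x) = (1 / 3 : ℝ) ^ om p N (Md x ^ 2 + aa) / k0 p N *
      ((t.2 : ℝ) / dG a) / rp t.1.natAbs * y ^ om p N t.2 * tilt p N y y (rel a t x) := rfl
  rw [e, h]
  unfold cA
  ring

/-! ## The exchange of the sums -/

theorem exch (hH2 : ∀ a ∈ DA p N, ∀ t : ℤ × ℕ, ∀ x ∈ Gam N 1 3, fits p N a x →
      (t ∈ TS p N a x ↔ okT p N a t ∧ x ∈ Gam N (aL a t) (bL a t)))
    (y L : ℝ) (Ev : Rl → Prop) (i : Rl → ℝ) (k : Dt → ℤ × ℕ → VV → ℝ)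
    (hk : ∀ a ∈ DA p N, ∀ t : ℤ × ℕ, okT p N a t → ∀ x ∈ Gam N 1 3, fits p N a x →
      i (rel a t x) = (if (sm p N t.2 : ℤ) ∣ F1 (rel a t x) then 1 else 0) * k a t x) :
    ∑ x ∈ Gam N 1 3, L ^ om p N (Md x ^ 2 + aa) *
      (∑ a ∈ (DA p N).filter (fun a => fits p N a x),
        ∑ t ∈ (TS p N a x).filter (fun t => Ev (rel a t x)), wt p N y (rel a t x) * i (rel a t x)) =
    ∑ a ∈ DA p N, ∑ t ∈ tbx p N a, cA p N y L a t *
      ∑ x ∈ Gam N (aL a t) (bL a t), lw p N y Ev a t x * k a t x := by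
  have h1 : ∀ x ∈ Gam N 1 3, L ^ om p N (Md x ^ 2 + aa) *
      (∑ a ∈ (DA p N).filter (fun a => fits p N a x),
        ∑ t ∈ (TS p N a x).filter (fun t => Ev (rel a t x)),
          wt p N y (rel a t x) * i (rel a t x)) =
      ∑ a ∈ DA p N, ∑ t ∈ dbox N, if fits p N a x ∧ t ∈ TS p N a x ∧ Ev (rel a t x) then
        L ^ om p N (Md x ^ 2 + aa) * (wt p N y (rel a t x) * i (rel a t x)) else 0 := by
    intro x hx
    rw [mul_sum, sum_filter]
    refine sum_congr rfl fun a _ => ?_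
    by_cases hf : fits p N a x
    · rw [if_pos hf, mul_sum, sum_filter, ← sum_subset (TS_sub (p := p) (N := N) (a := a) (x := x))]
      · refine sum_congr rfl fun t ht => ?_
        by_cases he : Ev (rel a t x)
        · rw [if_pos he, if_pos ⟨hf, ht, he⟩]
        · rw [if_neg he, if_neg (fun h => he h.2.2)]
      · intro t _ ht
        rw [if_neg (fun h => ht h.2.1)]
    · rw [if_neg hf]
      symm
      refine sum_eq_zero fun t _ => ?_
      rw [if_neg (fun h => hf h.1)]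
  rw [sum_congr rfl h1, sum_comm]
  refine sum_congr rfl fun a ha => ?_
  rw [sum_comm]
  unfold tbx
  rw [sum_filter]
  refine sum_congr rfl fun t _ => ?_
  by_cases hok : okT p N a t
  · rw [if_pos hok, mul_sum, ← sum_subset (gam_sub (N := N) (a := a) (t := t))]
    · refine sum_congr rfl fun x hx => ?_
      have hx2 := gam_sub hx
      unfold lw
      by_cases hf : fits p N a x
      · have h2 : t ∈ TS p N a x := (hH2 a ha t x hx2 hf).2 ⟨hok, hx⟩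
        by_cases he : Ev (rel a t x)
        · rw [if_pos ⟨hf, h2, he⟩, hk a ha t hok x hx2 hf, ← mul_assoc,
            wt_eq y L a t x (om_fits ha hx2 hf)]
          by_cases hs : (sm p N t.2 : ℤ) ∣ F1 (rel a t x)
          · rw [if_pos hs, if_pos ⟨hf, he, hs⟩]
            ring
          · rw [if_neg hs, if_neg (fun h => hs h.2.2)]
            ring
        · rw [if_neg (fun h => he h.2.2), if_neg (fun h => he h.2.1)]
          ring
      · rw [if_neg (fun h => hf h.1), if_neg (fun h => hf h.1)]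
        ring
    · intro x hx hx'
      rw [if_neg]
      rintro ⟨hf, h2, -⟩
      exact hx' ((hH2 a ha t x hx hf).1 h2).2
  · rw [if_neg hok]
    refine sum_eq_zero fun x hx => ?_
    rw [if_neg]
    rintro ⟨hf, h2, -⟩
    exact hok ((hH2 a ha t x hx hf).1 h2).1

/-! ## The rough part of `X` -/

/-- the rough part of `X` -/
def XR (p : Prm) (N : ℕ) (t : ℤ × ℕ) : ℕ := t.2 / sm p N t.2

theorem dvd_W0 {l : ℕ} (hl : l.Prime) (h : l ≤ p.E) : l ∣ W0 p := by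
  unfold W0
  exact dvd_pow ((hl.dvd_primorial_iff).2 h) (by have := hl.two_le; omega)

theorem x_facts {a : Dt} {t : ℤ × ℕ} (ok : okT p N a t) : t.2 ≠ 0 ∧
    sm p N t.2 * XR p N t = t.2 ∧ Nat.Coprime (sm p N t.2) (XR p N t) ∧ Rgh p N (XR p N t) ∧
    Nat.Coprime (XR p N t) (dG a) := by
  obtain ⟨-, -, -, hDX, -⟩ := ok
  obtain ⟨-, -, -, -, hW, hsq, h4, hG, -⟩ := hDX
  have h0 : t.2 ≠ 0 := hsq.ne_zero
  have h1 : sm p N t.2 * XR p N t = t.2 := Nat.mul_div_cancel' (sm_dvd h0)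
  have h2 : Nat.Coprime (sm p N t.2) (XR p N t) :=
    Nat.coprime_of_squarefree_mul (by rw [h1]; exact hsq)
  have h3 : XR p N t ∣ t.2 := Dvd.intro_left _ h1
  refine ⟨h0, h1, h2, ⟨hsq.squarefree_of_dvd h3, fun l hl hd => ⟨?_, h4 l hl (hd.trans h3)⟩⟩,
    (Nat.Coprime.coprime_dvd_right h3 hG).symm⟩
  by_contra hz
  push Not at hz
  have hPP : l ∈ PP p N := by
    rw [mem_PP]
    refine ⟨hz, hl, h4 l hl (hd.trans h3), ?_⟩
    by_contra hE
    push Not at hE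
    have h5 := Nat.dvd_gcd (hd.trans h3) (dvd_W0 hl hE)
    rw [hW] at h5
    exact hl.one_lt.ne' (Nat.dvd_one.1 h5)
  exact I.not_dvd_div_sm h0 hPP hd

theorem XR_prime {a : Dt} {t : ℤ × ℕ} (ok : okT p N a t) {l : ℕ} (hl : l.Prime)
    (hd : l ∣ XR p N t) : ¬ l ∣ m2 a ∧ ¬ l ∣ g1 a ∧ ¬ l ∣ m1 a ∧ l ≠ du a ∧ l ≠ dv a := by
  obtain ⟨-, -, -, hR, hG⟩ := x_facts ok
  have hz := (hR.2 l hl hd).1
  have hPP : l ∉ PP p N := fun h => absurd (lt_of_mem_PP h) (not_lt.2 hz)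
  have hda : a ∈ DA p N := ok.1
  have hndG : ¬ l ∣ dG a := by
    intro h
    have h5 := Nat.dvd_gcd hd h
    rw [hG] at h5
    exact hl.one_lt.ne' (Nat.dvd_one.1 h5)
  refine ⟨fun h => hPP (primes_es hda l hl (h.trans (m2_dvd a))),
    fun h => hPP (primes_ds hda l hl (h.trans (g1_dvd a))),
    fun h => hPP (primes_ds hda l hl (h.trans (m1_dvd a))), ?_, ?_⟩
  · rintro rfl
    exact hndG (by unfold dG; exact Dvd.dvd.mul_right (Dvd.intro_left _ rfl) _)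
  · rintro rfl
    exact hndG (by unfold dG; exact Dvd.intro_left _ rfl)

theorem XR_coprime {a : Dt} {t : ℤ × ℕ} (ok : okT p N a t) :
    Nat.Coprime (XR p N t) (m2 a * g1 a * m1 a * du a) := by
  rw [Nat.coprime_iff_gcd_eq_one]
  by_contra h
  obtain ⟨l, hl, hd⟩ := Nat.exists_prime_and_dvd h
  have h1 := XR_prime ok hl (hd.trans (Nat.gcd_dvd_left _ _))
  have h2 := hd.trans (Nat.gcd_dvd_right _ _)
  rw [hl.dvd_mul, hl.dvd_mul, hl.dvd_mul] at h2
  have hdu : (du a).Prime := du_prime ok.1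
  rcases h2 with ((h2 | h2) | h2) | h2
  · exact h1.1 h2
  · exact h1.2.1 h2
  · exact h1.2.2.1 h2
  · exact h1.2.2.2.1 ((Nat.prime_dvd_prime_iff_eq hl hdu).1 h2)

theorem XR_prim {a : Dt} {t : ℤ × ℕ} (ok : okT p N a t) :
    prim (XR p N t) (m2 a * t.1) (-((g1 a * m1 a * du a : ℕ) : ℤ)) := by
  intro l hl hd
  rintro ⟨-, h2⟩
  rw [dvd_neg, Int.natCast_dvd_natCast, hl.dvd_mul, hl.dvd_mul] at h2
  have h1 := XR_prime ok hl hd
  have hdu : (du a).Prime := du_prime ok.1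
  rcases h2 with (h2 | h2) | h2
  · exact h1.2.1 h2
  · exact h1.2.2.1 h2
  · exact h1.2.2.2.1 ((Nat.prime_dvd_prime_iff_eq hl hdu).1 h2)

theorem XR_coprime_m {a : Dt} {t : ℤ × ℕ} (ok : okT p N a t) {m : ℕ}
    (hm : ∀ l : ℕ, l.Prime → l ∣ m → (l : ℝ) < zz p N ∨ l = du a ∨ l = dv a) :
    Nat.Coprime (XR p N t) m := by
  rw [Nat.coprime_iff_gcd_eq_one]
  by_contra h
  obtain ⟨l, hl, hd⟩ := Nat.exists_prime_and_dvd h
  have hd1 := hd.trans (Nat.gcd_dvd_left _ _)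
  have h1 := XR_prime ok hl hd1
  obtain ⟨-, -, -, hR, -⟩ := x_facts ok
  rcases hm l hl (hd.trans (Nat.gcd_dvd_right _ _)) with h2 | h2 | h2
  · exact absurd h2 (not_lt.2 (hR.2 l hl hd1).1)
  · exact h1.2.2.2.1 h2
  · exact h1.2.2.2.2 h2

/-- the condition at the rough part of `X` as a condition on `x` -/
def kX (p : Prm) (N : ℕ) (a : Dt) (t : ℤ × ℕ) (x : VV) : ℝ :=
  if (XR p N t : ℤ) ∣ qf x (m2 a * t.1) (-((g1 a * m1 a * du a : ℕ) : ℤ)) then 1 else 0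

theorem iX_fac {a : Dt} {t : ℤ × ℕ} (ok : okT p N a t) {x : VV}
    (hF : ((m2 a * g1 a * m1 a * du a : ℕ) : ℤ) * F1 (rel a t x) =
      qf x (m2 a * t.1) (-((g1 a * m1 a * du a : ℕ) : ℤ))) :
    iX (rel a t x) = (if (sm p N t.2 : ℤ) ∣ F1 (rel a t x) then 1 else 0) * kX p N a t x := by
  obtain ⟨h0, h1, h2, -, -⟩ := x_facts ok
  have h3 : ((XR p N t : ℕ) : ℤ) ∣ qf x (m2 a * t.1) (-((g1 a * m1 a * du a : ℕ) : ℤ)) ↔
      ((XR p N t : ℕ) : ℤ) ∣ F1 (rel a t x) := by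
    rw [← hF]
    constructor
    · intro h
      exact IsCoprime.dvd_of_dvd_mul_left (Nat.isCoprime_iff_coprime.2 (XR_coprime ok)) h
    · intro h
      exact Dvd.dvd.mul_left h _
  have h4 : ((t.2 : ℕ) : ℤ) ∣ F1 (rel a t x) ↔ (sm p N t.2 : ℤ) ∣ F1 (rel a t x) ∧
      ((XR p N t : ℕ) : ℤ) ∣ F1 (rel a t x) := by
    constructor
    · intro h
      have h5 : ((t.2 : ℕ) : ℤ) = (sm p N t.2 : ℤ) * (XR p N t : ℤ) := by
        rw [← Nat.cast_mul, h1]
      rw [h5] at h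
      exact ⟨(Dvd.intro _ rfl).trans h, (Dvd.intro_left _ rfl).trans h⟩
    · rintro ⟨h6, h7⟩
      have h5 : ((t.2 : ℕ) : ℤ) = (sm p N t.2 : ℤ) * (XR p N t : ℤ) := by
        rw [← Nat.cast_mul, h1]
      rw [h5]
      exact IsCoprime.mul_dvd (Nat.isCoprime_iff_coprime.2 h2) h6 h7
  unfold iX kX
  have e : rX (rel a t x) = t.2 := rfl
  rw [e]
  by_cases ha : (sm p N t.2 : ℤ) ∣ F1 (rel a t x)
  · rw [if_pos ha, one_mul]
    by_cases hb : ((XR p N t : ℕ) : ℤ) ∣ F1 (rel a t x)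
    · rw [if_pos (h4.2 ⟨ha, hb⟩), if_pos (h3.2 hb)]
    · rw [if_neg (fun h => hb (h4.1 h).2), if_neg (fun h => hb (h3.1 h))]
  · rw [if_neg ha, zero_mul, if_neg (fun h => ha (h4.1 h).1)]

/-! ## Sizes -/

theorem exp_le (K r k : ℕ) :
    5 + 100 * (K + 1) + 2 * K + r * k + 10 * r ^ 2 * k ≤ 1000 * (K + 1) * (r + 1) ^ 2 * (k + 1) := by
  have h1 : 1 ≤ (r + 1) ^ 2 * (k + 1) := Nat.mul_pos (by positivity) (by positivity)
  have h2 : (K + 1) * 1 ≤ (K + 1) * ((r + 1) ^ 2 * (k + 1)) := Nat.mul_le_mul_left _ h1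
  have h3 : 1 * ((r + 1) ^ 2 * (k + 1)) ≤ (K + 1) * ((r + 1) ^ 2 * (k + 1)) :=
    Nat.mul_le_mul_right _ (by omega)
  have h4 : r ^ 2 * k ≤ (r + 1) ^ 2 * (k + 1) :=
    Nat.mul_le_mul (Nat.pow_le_pow_left (by omega) 2) (by omega)
  have h5 : r * k ≤ (r + 1) ^ 2 * (k + 1) :=
    Nat.mul_le_mul (by nlinarith) (by omega)
  have e : 1000 * (K + 1) * (r + 1) ^ 2 * (k + 1) = 1000 * ((K + 1) * ((r + 1) ^ 2 * (k + 1))) := by
    ring
  rw [e]
  generalize (K + 1) * ((r + 1) ^ 2 * (k + 1)) = A at *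
  generalize (r + 1) ^ 2 * (k + 1) = B at *
  have e2 : 10 * r ^ 2 * k = 10 * (r ^ 2 * k) := by ring
  rw [e2]
  generalize r ^ 2 * k = u at *
  generalize r * k = v at *
  omega

/-- bounds by `ML` -/
theorem ML_bound (hb : Bas p N) :
    zz p N ^ (100 * (p.K + 1)) * Y2 p N * Y4 p N ≤ ML p N ∧
    32 * (zz p N ^ p.K) ^ 2 * Y2 p N * Y4 p N ≤ ML p N ∧ zz p N ≤ ML p N ∧
    Y2 p N ≤ ML p N ∧ Y4 p N ≤ ML p N := by
  have hE := exp_le p.K p.r p.k
  have hz := hb.z1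
  have h2 := hb.z2
  unfold Y2 Y4 ML
  refine ⟨?_, ?_, ?_, hb.zpow_le (by omega), hb.zpow_le (by omega)⟩
  · rw [← pow_add, ← pow_add]
    exact hb.zpow_le (by omega)
  · have h3 : (32 : ℝ) ≤ zz p N ^ 5 := by
      calc (32 : ℝ) = 2 ^ 5 := by norm_num
        _ ≤ _ := pow_le_pow_left₀ (by norm_num) h2 5
    have h0 : (0 : ℝ) ≤ (zz p N ^ p.K) ^ 2 * zz p N ^ (p.r * p.k) *
        zz p N ^ (10 * p.r ^ 2 * p.k) := by
      have := hb.z0
      positivity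
    calc 32 * (zz p N ^ p.K) ^ 2 * zz p N ^ (p.r * p.k) * zz p N ^ (10 * p.r ^ 2 * p.k)
        = 32 * ((zz p N ^ p.K) ^ 2 * zz p N ^ (p.r * p.k) * zz p N ^ (10 * p.r ^ 2 * p.k)) := by
          ring
      _ ≤ zz p N ^ 5 * ((zz p N ^ p.K) ^ 2 * zz p N ^ (p.r * p.k) *
          zz p N ^ (10 * p.r ^ 2 * p.k)) := mul_le_mul_of_nonneg_right h3 h0
      _ = zz p N ^ (5 + p.K * 2 + p.r * p.k + 10 * p.r ^ 2 * p.k) := by
          rw [← pow_mul, pow_add, pow_add, pow_add]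
          ring
      _ ≤ _ := hb.zpow_le (by omega)
  · conv_lhs => rw [← pow_one (zz p N)]
    exact hb.zpow_le (by omega)

/-- sizes in the datum -/
theorem dt_bound {a : Dt} (ha : a ∈ DA p N) :
    ((g1 a : ℝ) * m1 a ≤ zz p N ^ p.K) ∧ ((g2 a : ℝ) * m2 a ≤ zz p N ^ p.K) ∧
    (1 : ℝ) ≤ g1 a ∧ (1 : ℝ) ≤ m1 a ∧ (1 : ℝ) ≤ g2 a ∧ (1 : ℝ) ≤ m2 a ∧ (1 : ℝ) ≤ du a ∧
    (1 : ℝ) ≤ dv a ∧ (du a : ℝ) ≤ Y2 p N ∧ (dv a : ℝ) ≤ Y4 p N := by
  obtain ⟨h1, h2, h3, h4, h5, h6⟩ := pos6 ha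
  have hd := (mem_DA ha).2.2.1
  have he := (mem_DA ha).2.2.2.1
  have hu := (du_prime ha).pos
  have hv := (dv_prime ha).pos
  refine ⟨le_trans ?_ hd, le_trans ?_ he, by exact_mod_cast h1, by exact_mod_cast h2,
    by exact_mod_cast h4, by exact_mod_cast h5, by exact_mod_cast hu, by exact_mod_cast hv,
    du_le_Y2 ha, dv_le_Y4 ha⟩
  · have : g1 a * m1 a ≤ ds a := by
      unfold ds
      exact Nat.le_mul_of_pos_right _ h3
    exact_mod_cast this
  · have : g2 a * m2 a ≤ es a := by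
      unfold es
      exact Nat.le_mul_of_pos_right _ h6
    exact_mod_cast this

/-- sizes of `(D, X)` if the window is not empty -/
theorem win_bound (hb : Bas p N) {a : Dt} {t : ℤ × ℕ} (ok : okT p N a t) (h : aL a t < bL a t) :
    (t.1 : ℝ) ≤ ML p N ∧ (t.2 : ℝ) ≤ ML p N := by
  have ha : a ∈ DA p N := ok.1
  have hD : (0 : ℝ) < t.1 := by exact_mod_cast ok.2.2.1
  obtain ⟨h1, h2, h3, h4, h5, h6, h7, h8, h9, h10⟩ := dt_bound ha
  obtain ⟨-, hM, -⟩ := ML_bound hb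
  have e1 : 1 < 3 * ((g1 a : ℝ) * m1 a * du a) / (m2 a * t.1) :=
    lt_of_le_of_lt (le_max_left _ _) (lt_of_lt_of_le h ((min_le_right _ _).trans (min_le_left _ _)))
  have e2 : ((t.2 : ℝ) - dG a) / t.1 * m1 a / (2 * (g2 a * m2 a * dv a)) < 3 :=
    lt_of_le_of_lt ((le_max_right _ _).trans (le_max_right _ _))
      (lt_of_lt_of_le h (min_le_left _ _))
  set B := zz p N ^ p.K with hB
  set g := (g1 a : ℝ)
  set m := (m1 a : ℝ)
  set g' := (g2 a : ℝ)
  set m' := (m2 a : ℝ)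
  set u := (du a : ℝ)
  set v := (dv a : ℝ)
  set D := (t.1 : ℝ)
  set X := (t.2 : ℝ)
  have hG : (dG a : ℝ) = g * g' * u * v := by
    unfold dG
    push_cast
    rfl
  have hY2 : 1 ≤ Y2 p N := h7.trans h9
  have hY4 : 1 ≤ Y4 p N := h8.trans h10
  have hB1 : 1 ≤ B := le_trans (by nlinarith) h1
  have hmD : 0 < m' * D := by positivity
  rw [lt_div_iff₀ hmD, one_mul] at e1
  have hgm : g * m * u ≤ B * Y2 p N :=
    mul_le_mul h1 h9 (by linarith) (by linarith)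
  have hD1 : D ≤ 3 * (B * Y2 p N) := by nlinarith
  have hden : 0 < 2 * (g' * m' * v) := by positivity
  rw [div_lt_iff₀ hden] at e2
  have hg'm : g' * m' * v ≤ B * Y4 p N := mul_le_mul h2 h10 (by linarith) (by linarith)
  have e3 : (X - dG a) * m < 6 * (g' * m' * v) * D := by
    have : (X - dG a) / D * m = (X - dG a) * m / D := by ring
    rw [this, div_lt_iff₀ hD] at e2
    linarith
  have e4 : 6 * (g' * m' * v) * D ≤ 6 * (B * Y4 p N) * (3 * (B * Y2 p N)) :=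
    mul_le_mul (by linarith) hD1 hD.le (by positivity)
  have hg : g ≤ B := le_trans (by nlinarith) h1
  have hg' : g' ≤ B := le_trans (by nlinarith) h2
  have e5 : (dG a : ℝ) ≤ B * B * Y2 p N * Y4 p N := by
    rw [hG]
    have h11 : g * g' ≤ B * B := mul_le_mul hg hg' (by linarith) (by linarith)
    have h12 : g * g' * u ≤ B * B * Y2 p N := mul_le_mul h11 h9 (by linarith) (by positivity)
    exact mul_le_mul h12 h10 (by linarith) (by positivity)
  have e6 : X ≤ 19 * (B * B * Y2 p N * Y4 p N) := by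
    rcases le_or_gt X (dG a) with h | h
    · have : (0 : ℝ) ≤ B * B * Y2 p N * Y4 p N := by positivity
      linarith
    · have h11 : X - dG a ≤ (X - dG a) * m := by nlinarith
      nlinarith
  have e7 : (0 : ℝ) ≤ B * B * Y2 p N * Y4 p N := by positivity
  have e8 : 32 * B ^ 2 * Y2 p N * Y4 p N = 32 * (B * B * Y2 p N * Y4 p N) := by ring
  constructor
  · have h13 : 3 * (B * Y2 p N) ≤ 32 * (B * B * Y2 p N * Y4 p N) := by
      have h14 : B * Y2 p N * 1 ≤ B * Y2 p N * (B * Y4 p N) :=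
        mul_le_mul_of_nonneg_left (by nlinarith) (by positivity)
      nlinarith
    linarith
  · linarith

/-! ## The comparison for a pair -/

/-- the body of `SpecCMP` -/
def CMPat (c : ℝ) (κ : ℕ) (ε : ℝ) (p : Prm) (N : ℕ) : Prop :=
  ∀ (N₁ m : ℕ) (w F : VV → ℝ) (f : ℕ → VV → ℝ) (α β : ℝ) (H₁ H₂ : ℕ) (s₁ t₁ s₂ t₂ : ℤ),
    N ≤ 4 * N₁ → N₁ ≤ 8 * N →
    0 < m → (m : ℝ) ≤ ML p N → Loc (PP p N) κ m w F f →
    (N : ℝ) ^ (-c) ≤ α → α < β → β ≤ 20 →
    Rgh p N H₁ → Rgh p N H₂ → (H₁ : ℝ) ≤ ML p N → (H₂ : ℝ) ≤ ML p N →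
    Nat.Coprime H₁ m → Nat.Coprime H₂ m → Nat.Coprime H₁ H₂ → prim H₁ s₁ t₁ → prim H₂ s₂ t₂ →
    (∑ x ∈ Gam N₁ α β, w x * ((if (H₁ : ℤ) ∣ qf x s₁ t₁ then 1 else 0) *
        (if (H₂ : ℤ) ∣ qf x s₂ t₂ then 1 else 0)) ≤
      (1 + ε) * (dn H₁ * dn H₂) * ∑ x ∈ Gam N₁ α β, w x + (N : ℝ) ^ (1 - c)) ∧
    ((1 - ε) * dn H₁ * ∑ x ∈ Gam N₁ α β, w x - (N : ℝ) ^ (1 - c) ≤
      ∑ x ∈ Gam N₁ α β, w x * (if (H₁ : ℤ) ∣ qf x s₁ t₁ then 1 else 0))

theorem cmp_iff : SpecCMP ↔ ∃ c : ℝ, 0 < c ∧ ∀ (κ : ℕ) (ε : ℝ), 0 < ε →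
    Good (fun p => ∀ᶠ N : ℕ in atTop, CMPat c κ ε p N) := Iff.rfl

theorem dn_one : dn 1 = 1 := by
  unfold dn wn
  simp

theorem rgh_one : Rgh p N 1 :=
  ⟨squarefree_one, fun _ hl h => absurd (Nat.dvd_one.1 h) hl.one_lt.ne'⟩

/-- the comparison for the pair `(a, t)` -/
theorem pair_cmp (hb : Bas p N) {c ε y : ℝ} (hc : 0 < c) (hC : CMPat c 10 ε p N)
    {Ev : Rl → Prop} {a : Dt} {t : ℤ × ℕ} (ok : okT p N a t)
    (h3 : ∃ (m : ℕ) (w F : VV → ℝ) (f : ℕ → VV → ℝ),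
      0 < m ∧ (m : ℝ) ≤ zz p N ^ (100 * (p.K + 1)) * Y2 p N * Y4 p N ∧
      (∀ l : ℕ, l.Prime → l ∣ m → (l : ℝ) < zz p N ∨ l = du a ∨ l = dv a) ∧
      Loc (PP p N) 10 m w F f ∧
      ∀ x ∈ Gam N 1 3, x ∈ Gam N (aL a t) (bL a t) → w x = lw p N y Ev a t x)
    (hw : aL a t < bL a t) :
    (∑ x ∈ Gam N (aL a t) (bL a t), lw p N y Ev a t x * kX p N a t x ≤
      (1 + ε) * (∑ x ∈ Gam N (aL a t) (bL a t), lw p N y Ev a t x * dn (XR p N t)) +
        (N : ℝ) ^ (1 - c)) ∧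
    ((1 - ε) * (∑ x ∈ Gam N (aL a t) (bL a t), lw p N y Ev a t x * dn (XR p N t)) -
        (N : ℝ) ^ (1 - c) ≤
      ∑ x ∈ Gam N (aL a t) (bL a t), lw p N y Ev a t x * kX p N a t x) := by
  obtain ⟨m, w, F, f, hm0, hm, hml, hL, hwx⟩ := h3
  obtain ⟨hM1, hM2, hM3, -⟩ := ML_bound hb
  have hx := x_facts ok
  have hXR : (XR p N t : ℝ) ≤ ML p N := by
    have h5 : XR p N t ≤ t.2 := Nat.div_le_self _ _
    have h6 : (XR p N t : ℝ) ≤ t.2 := by exact_mod_cast h5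
    exact h6.trans (win_bound hb ok hw).2
  have h1M : (1 : ℝ) ≤ ML p N := hb.z1.trans hM3
  have hN : (1 : ℝ) ≤ N := by exact_mod_cast hb.N1
  have key := hC N m w F f (aL a t) (bL a t) (XR p N t) 1 (m2 a * t.1)
    (-((g1 a * m1 a * du a : ℕ) : ℤ)) 0 0 (by omega) (by omega) hm0 (hm.trans hM1) hL
    ((Real.rpow_le_one_of_one_le_of_nonpos hN (by linarith)).trans (le_max_left _ _)) hw
    ((min_le_left _ _).trans (by norm_num)) hx.2.2.2.1 rgh_one hXR (by simpa using h1M)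
    (XR_coprime_m ok hml) (Nat.coprime_one_left _) (Nat.coprime_one_right _) (XR_prim ok)
    (fun _ hl h => absurd (Nat.dvd_one.1 h) hl.one_lt.ne')
  have e1 : ∀ x ∈ Gam N (aL a t) (bL a t), w x = lw p N y Ev a t x :=
    fun x hx => hwx x (gam_sub hx) hx
  have e2 : ∑ x ∈ Gam N (aL a t) (bL a t), lw p N y Ev a t x * kX p N a t x =
      ∑ x ∈ Gam N (aL a t) (bL a t), w x * (if (XR p N t : ℤ) ∣ qf x (m2 a * t.1)
        (-((g1 a * m1 a * du a : ℕ) : ℤ)) then 1 else 0) :=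
    sum_congr rfl fun x hx => by rw [e1 x hx]; rfl
  have e3 : ∑ x ∈ Gam N (aL a t) (bL a t), lw p N y Ev a t x * dn (XR p N t) =
      dn (XR p N t) * ∑ x ∈ Gam N (aL a t) (bL a t), w x := by
    rw [mul_sum]
    exact sum_congr rfl fun x hx => by rw [e1 x hx]; ring
  have e4 : ∑ x ∈ Gam N (aL a t) (bL a t), w x * (if (XR p N t : ℤ) ∣ qf x (m2 a * t.1)
        (-((g1 a * m1 a * du a : ℕ) : ℤ)) then (1 : ℝ) else 0) =
      ∑ x ∈ Gam N (aL a t) (bL a t), w x * ((if (XR p N t : ℤ) ∣ qf x (m2 a * t.1)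
        (-((g1 a * m1 a * du a : ℕ) : ℤ)) then 1 else 0) *
          (if ((1 : ℕ) : ℤ) ∣ qf x 0 0 then 1 else 0)) := by
    refine sum_congr rfl fun x _ => ?_
    have h1 : ((1 : ℕ) : ℤ) ∣ qf x 0 0 := by rw [Nat.cast_one]; exact one_dvd _
    rw [if_pos h1, mul_one]
  rw [e2, e3]
  constructor
  · rw [e4]
    refine key.1.trans (le_of_eq ?_)
    rw [dn_one]
    ring
  · refine le_trans (le_of_eq ?_) key.2
    ring

/-! ## The error terms -/

theorem Su_nonneg : 0 ≤ Su p N := sum_nonneg fun _ _ => by positivity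

theorem Sv_nonneg : 0 ≤ Sv p N := sum_nonneg fun _ _ => by positivity

omit [Pool.Agent.Lib.MP391708.TF.Frm] in
theorem cE_pos : 0 < cE := by
  have h := (TA.specLLX (aa : ℤ) (by exact_mod_cast Aa.ha.ne')
    (TA.nsq_of_pos (by exact_mod_cast Aa.ha))).1
  unfold cE
  linarith

theorem k0_nonneg : 0 ≤ k0 p N := by
  have h1 := Su_nonneg (p := p) (N := N)
  have h2 := Sv_nonneg (p := p) (N := N)
  have h3 := cE_pos
  unfold k0 kp
  positivity

theorem cA_nonneg {y L : ℝ} (hy : 0 ≤ y) (hL : 0 ≤ L) (a : Dt) (t : ℤ × ℕ) :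
    0 ≤ cA p N y L a t := by
  have h1 := k0_nonneg (p := p) (N := N)
  have h2 := A3.rp_pos t.1.natAbs
  unfold cA
  positivity

theorem rp_ge {D : ℕ} (hD : 0 < D) : 1 / (D : ℝ) ≤ rp D := by
  have h1 : ∏ l ∈ D.primeFactors, (1 / (l : ℝ)) ≤ rp D := by
    unfold rp
    refine prod_le_prod (fun l _ => by positivity) fun l hl => ?_
    have h2 : (2 : ℝ) ≤ l := by exact_mod_cast (Nat.prime_of_mem_primeFactors hl).two_le
    have h3 := A3.ch_le_one l
    have h4 : ch l / l ≤ 1 / l := div_le_div_of_nonneg_right h3 (by linarith)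
    have h5 : 1 / (l : ℝ) ≤ 1 / 2 := one_div_le_one_div_of_le (by norm_num) h2
    linarith
  refine le_trans ?_ h1
  rw [prod_div_distrib, prod_const_one]
  have h2 : (0 : ℝ) < ∏ l ∈ D.primeFactors, (l : ℝ) :=
    prod_pos fun l hl => by exact_mod_cast (Nat.prime_of_mem_primeFactors hl).pos
  refine one_div_le_one_div_of_le h2 ?_
  have h3 : ((∏ l ∈ D.primeFactors, l : ℕ) : ℝ) ≤ D := by
    exact_mod_cast Nat.le_of_dvd hD (Nat.prod_primeFactors_dvd D)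
  rwa [Nat.cast_prod] at h3

theorem W0_pos : 0 < W0 p := by
  unfold W0
  exact pow_pos (primorial_pos _) _

theorem S0_nonneg : 0 ≤ S0 p N := sum_nonneg fun _ _ => by positivity

theorem inv_k0_le (hb : Bas p N) {C : ℝ} (hC0 : 0 < C)
    (h1 : Real.exp (S0 p N) ≤ C * Real.log (zz p N))
    (h2 : C ^ 3 * (W0 p : ℝ) ^ 2 / cE ≤ zz p N) {a : Dt} (ha : a ∈ DA p N) :
    1 / k0 p N ≤ ML p N ^ 6 := by
  obtain ⟨-, -, hzM, hY2, hY4⟩ := ML_bound hb
  have hz0 := hb.z0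
  have hM0 : 0 < ML p N := lt_of_lt_of_le hz0 hzM
  have hW : (0 : ℝ) < W0 p := by exact_mod_cast W0_pos
  have hu0 : (0 : ℝ) < du a := by exact_mod_cast (du_prime ha).pos
  have hv0 : (0 : ℝ) < dv a := by exact_mod_cast (dv_prime ha).pos
  have hSu : 2 / ML p N ≤ Su p N := by
    have h3 : 2 / (du a : ℝ) ≤ Su p N :=
      single_le_sum (f := fun u : ℕ => 2 / (u : ℝ)) (fun _ _ => by positivity)
        (mem_DA ha).2.2.2.2.1
    refine le_trans ?_ h3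
    exact div_le_div_of_nonneg_left (by norm_num) hu0 ((du_le_Y2 ha).trans hY2)
  have hSv : 2 / ML p N ≤ Sv p N := by
    have h3 : 2 / (dv a : ℝ) ≤ Sv p N :=
      single_le_sum (f := fun u : ℕ => 2 / (u : ℝ)) (fun _ _ => by positivity)
        (mem_DA ha).2.2.2.2.2
    refine le_trans ?_ h3
    exact div_le_div_of_nonneg_left (by norm_num) hv0 ((dv_le_Y4 ha).trans hY4)
  set x : ℝ := Real.exp (-(5 / 2 * S0 p N)) / (W0 p : ℝ) ^ 2 with hx
  have hx0 : 0 < x := by positivity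
  have hcE := cE_pos
  have h3 : cE * x / ML p N ^ 2 ≤ k0 p N := by
    have e : k0 p N = cE * x * (Su p N * Sv p N) := by
      unfold k0 kp
      rw [hx]
      ring
    have h4 : 2 / ML p N * (2 / ML p N) ≤ Su p N * Sv p N :=
      mul_le_mul hSu hSv (by positivity) Su_nonneg
    rw [e]
    calc cE * x / ML p N ^ 2 ≤ cE * x * (2 / ML p N * (2 / ML p N)) := by
          have e2 : cE * x * (2 / ML p N * (2 / ML p N)) = 4 * (cE * x / ML p N ^ 2) := by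
            field_simp
            ring
          rw [e2]
          have : 0 ≤ cE * x / ML p N ^ 2 := by positivity
          linarith
      _ ≤ _ := mul_le_mul_of_nonneg_left h4 (by positivity)
  have h4 : 1 / k0 p N ≤ 1 / (cE * x / ML p N ^ 2) :=
    one_div_le_one_div_of_le (by positivity) h3
  have h5 : 1 / (cE * x / ML p N ^ 2) =
      ML p N ^ 2 * ((W0 p : ℝ) ^ 2 / cE * Real.exp (5 / 2 * S0 p N)) := by
    rw [hx, Real.exp_neg]
    field_simp
  have h6 : Real.exp (5 / 2 * S0 p N) ≤ (C * zz p N) ^ 3 := by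
    have hS := S0_nonneg (p := p) (N := N)
    have h7 : Real.log (zz p N) ≤ zz p N := (Real.log_le_sub_one_of_pos hz0).trans (by linarith)
    calc Real.exp (5 / 2 * S0 p N) ≤ Real.exp (S0 p N * 3) := Real.exp_le_exp.2 (by linarith)
      _ = Real.exp (S0 p N) ^ 3 := by
          rw [← Real.exp_nat_mul]
          congr 1
          push_cast
          ring
      _ ≤ _ := pow_le_pow_left₀ (Real.exp_pos _).le
          (h1.trans (mul_le_mul_of_nonneg_left h7 hC0.le)) 3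
  calc 1 / k0 p N ≤ ML p N ^ 2 * ((W0 p : ℝ) ^ 2 / cE * (C * zz p N) ^ 3) := by
        refine h4.trans (le_of_eq_of_le h5 ?_)
        exact mul_le_mul_of_nonneg_left (mul_le_mul_of_nonneg_left h6 (by positivity))
          (by positivity)
    _ = ML p N ^ 2 * (C ^ 3 * (W0 p : ℝ) ^ 2 / cE) * zz p N ^ 3 := by ring
    _ ≤ ML p N ^ 2 * zz p N * zz p N ^ 3 := by
        refine mul_le_mul_of_nonneg_right (mul_le_mul_of_nonneg_left h2 (by positivity))
          (by positivity)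
    _ = ML p N ^ 2 * zz p N ^ 4 := by ring
    _ ≤ ML p N ^ 2 * ML p N ^ 4 :=
        mul_le_mul_of_nonneg_left (pow_le_pow_left₀ hz0.le hzM 4) (by positivity)
    _ = ML p N ^ 6 := by ring

theorem cA_le (hb : Bas p N) {C y L : ℝ} (hC0 : 0 < C)
    (h1 : Real.exp (S0 p N) ≤ C * Real.log (zz p N))
    (h2 : C ^ 3 * (W0 p : ℝ) ^ 2 / cE ≤ zz p N) (hy : 0 ≤ y) (hy1 : y ≤ 1) (hL : 0 ≤ L) (hL1 : L ≤ 1)
    {a : Dt} {t : ℤ × ℕ} (ok : okT p N a t) (hw : aL a t < bL a t) :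
    cA p N y L a t ≤ ML p N ^ 8 := by
  have ha : a ∈ DA p N := ok.1
  obtain ⟨hDM, hXM⟩ := win_bound hb ok hw
  have hk := inv_k0_le hb hC0 h1 h2 ha
  have hk0 := k0_nonneg (p := p) (N := N)
  have hM0 : 0 < ML p N := lt_of_lt_of_le hb.z0 (ML_bound hb).2.2.1
  have hdG : (1 : ℝ) ≤ dG a := by
    have h3 : 0 < dG a := by
      obtain ⟨h4, h5, h6, h7, h8, h9⟩ := pos6 ha
      unfold dG
      have := (du_prime ha).pos
      have := (dv_prime ha).pos
      positivity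
    exact_mod_cast h3
  have hX : (t.2 : ℝ) / dG a ≤ ML p N := by
    refine le_trans (div_le_self (by positivity) hdG) hXM
  have hr : 1 / rp t.1.natAbs ≤ ML p N := by
    have h3 : 0 < t.1.natAbs := Int.natAbs_pos.2 ok.2.2.1.ne'
    have h4 := rp_ge h3
    have h5 : (0 : ℝ) < t.1.natAbs := by exact_mod_cast h3
    have h6 : 1 / rp t.1.natAbs ≤ t.1.natAbs := by
      rw [div_le_iff₀ (A3.rp_pos _)]
      rw [div_le_iff₀ h5] at h4
      linarith
    have h7 : ((t.1.natAbs : ℕ) : ℝ) = t.1 := by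
      rw [Nat.cast_natAbs, abs_of_pos ok.2.2.1]
    rw [h7] at h6
    exact h6.trans hDM
  have hr0 := A3.rp_pos t.1.natAbs
  have e : cA p N y L a t = L ^ (ds a * es a).primeFactors.card *
      ((1 / 3 : ℝ) ^ (ds a * es a).primeFactors.card * (1 / k0 p N) * ((t.2 : ℝ) / dG a) *
        (1 / rp t.1.natAbs) * y ^ om p N t.2) := by
    unfold cA
    ring
  rw [e]
  have h10 : L ^ (ds a * es a).primeFactors.card ≤ 1 := pow_le_one₀ hL hL1
  have h11 : (1 / 3 : ℝ) ^ (ds a * es a).primeFactors.card ≤ 1 :=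
    pow_le_one₀ (by norm_num) (by norm_num)
  have h12 : y ^ om p N t.2 ≤ 1 := pow_le_one₀ hy hy1
  have h13 : (1 / 3 : ℝ) ^ (ds a * es a).primeFactors.card * (1 / k0 p N) ≤ 1 * ML p N ^ 6 :=
    mul_le_mul h11 hk (by positivity) (by norm_num)
  have h14 : (1 / 3 : ℝ) ^ (ds a * es a).primeFactors.card * (1 / k0 p N) * ((t.2 : ℝ) / dG a) ≤
      1 * ML p N ^ 6 * ML p N := mul_le_mul h13 hX (by positivity) (by positivity)
  have h15 : (1 / 3 : ℝ) ^ (ds a * es a).primeFactors.card * (1 / k0 p N) * ((t.2 : ℝ) / dG a) *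
      (1 / rp t.1.natAbs) ≤ 1 * ML p N ^ 6 * ML p N * ML p N :=
    mul_le_mul h14 hr (by positivity) (by positivity)
  have h16 : (1 / 3 : ℝ) ^ (ds a * es a).primeFactors.card * (1 / k0 p N) * ((t.2 : ℝ) / dG a) *
      (1 / rp t.1.natAbs) * y ^ om p N t.2 ≤ 1 * ML p N ^ 6 * ML p N * ML p N * 1 :=
    mul_le_mul h15 h12 (by positivity) (by positivity)
  calc _ ≤ 1 * (1 * ML p N ^ 6 * ML p N * ML p N * 1) :=
        mul_le_mul h10 h16 (by positivity) (by norm_num)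
    _ = ML p N ^ 8 := by ring

theorem card_act (hb : Bas p N) : (((DA p N) ×ˢ (dbox N)).filter (fun s =>
    okT p N s.1 s.2 ∧ aL s.1 s.2 < bL s.1 s.2)).card ≤ (⌈ML p N⌉₊ + 1) ^ 10 := by
  set n := ⌈ML p N⌉₊ with hn
  obtain ⟨-, -, hzM, hY2, hY4⟩ := ML_bound hb
  have hsub : ((DA p N) ×ˢ (dbox N)).filter (fun s =>
      okT p N s.1 s.2 ∧ aL s.1 s.2 < bL s.1 s.2) ⊆
      (((range (n + 1) ×ˢ range (n + 1) ×ˢ range (n + 1)) ×ˢ
        (range (n + 1) ×ˢ range (n + 1) ×ˢ range (n + 1)) ×ˢ range (n + 1) ×ˢ range (n + 1)) ×ˢ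
          (Icc (0 : ℤ) n ×ˢ range (n + 1))) := by
    intro s hs
    obtain ⟨h1, h2, h3⟩ := mem_filter.1 hs
    have h4 := (mem_product.1 h1).1
    obtain ⟨h5, h6⟩ := win_bound hb h2 h3
    have h7 := du_le_Y2 h4
    have h8 := dv_le_Y4 h4
    unfold DA at h4
    obtain ⟨h9, -⟩ := mem_filter.1 h4
    obtain ⟨h10, h11⟩ := mem_product.1 h9
    obtain ⟨h12, h13⟩ := mem_product.1 h11
    have hnat : ∀ {v : ℕ}, (v : ℝ) ≤ ML p N → v ∈ range (n + 1) := by
      intro v hv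
      rw [mem_range, Nat.lt_succ_iff]
      have : (v : ℝ) ≤ n := hv.trans (Nat.le_ceil _)
      exact_mod_cast this
    refine mem_product.2 ⟨mem_product.2 ⟨h10, mem_product.2 ⟨h12, mem_product.2
      ⟨hnat (h7.trans hY2), hnat (h8.trans hY4)⟩⟩⟩, mem_product.2 ⟨?_, hnat h6⟩⟩
    rw [mem_Icc]
    refine ⟨h2.2.2.1.le, ?_⟩
    have : ((s.2.1 : ℤ) : ℝ) ≤ ((n : ℤ) : ℝ) := by
      push_cast
      exact h5.trans (Nat.le_ceil _)
    exact_mod_cast this
  refine (card_le_card hsub).trans (le_of_eq ?_)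
  simp only [card_product, card_range, Int.card_Icc]
  have : ((n : ℤ) + 1 - 0).toNat = n + 1 := by omega
  rw [this]
  ring

theorem err_sum (hb : Bas p N) {C y L e : ℝ} (hC0 : 0 < C)
    (h1 : Real.exp (S0 p N) ≤ C * Real.log (zz p N))
    (h2 : C ^ 3 * (W0 p : ℝ) ^ 2 / cE ≤ zz p N) (hy : 0 ≤ y) (hy1 : y ≤ 1) (hL : 0 ≤ L) (hL1 : L ≤ 1)
    (he : 0 ≤ e) :
    ∑ a ∈ DA p N, ∑ t ∈ tbx p N a, cA p N y L a t * (if aL a t < bL a t then e else 0) ≤
      ML p N ^ 28 * e := by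
  have h3 : ∑ a ∈ DA p N, ∑ t ∈ tbx p N a, cA p N y L a t *
      (if aL a t < bL a t then e else 0) =
      ∑ s ∈ ((DA p N) ×ˢ (dbox N)).filter (fun s =>
        okT p N s.1 s.2 ∧ aL s.1 s.2 < bL s.1 s.2), cA p N y L s.1 s.2 * e := by
    rw [sum_filter, sum_product]
    refine sum_congr rfl fun a _ => ?_
    unfold tbx
    rw [sum_filter]
    refine sum_congr rfl fun t _ => ?_
    by_cases hok : okT p N a t
    · by_cases hw : aL a t < bL a t
      · rw [if_pos hok, if_pos hw, if_pos ⟨hok, hw⟩]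
      · rw [if_pos hok, if_neg hw, if_neg (fun h => hw h.2), mul_zero]
    · rw [if_neg hok, if_neg (fun h => hok h.1)]
  rw [h3]
  have hzM := (ML_bound hb).2.2.1
  have hM2 : 2 ≤ ML p N := hb.z2.trans hzM
  calc _ ≤ ∑ s ∈ ((DA p N) ×ˢ (dbox N)).filter (fun s =>
        okT p N s.1 s.2 ∧ aL s.1 s.2 < bL s.1 s.2), ML p N ^ 8 * e := by
        refine sum_le_sum fun s hs => ?_
        obtain ⟨-, h4, h5⟩ := mem_filter.1 hs
        exact mul_le_mul_of_nonneg_right (cA_le hb hC0 h1 h2 hy hy1 hL hL1 h4 h5) he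
    _ = ((((DA p N) ×ˢ (dbox N)).filter (fun s =>
        okT p N s.1 s.2 ∧ aL s.1 s.2 < bL s.1 s.2)).card : ℝ) * (ML p N ^ 8 * e) := by
        rw [sum_const, nsmul_eq_mul]
    _ ≤ (((⌈ML p N⌉₊ + 1) ^ 10 : ℕ) : ℝ) * (ML p N ^ 8 * e) := by
        refine mul_le_mul_of_nonneg_right ?_ (by positivity)
        exact_mod_cast card_act hb
    _ ≤ ML p N ^ 20 * (ML p N ^ 8 * e) := by
        refine mul_le_mul_of_nonneg_right ?_ (by positivity)
        push_cast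
        have h6 := Nat.ceil_lt_add_one (show (0 : ℝ) ≤ ML p N by linarith)
        have h7 : (⌈ML p N⌉₊ : ℝ) + 1 ≤ ML p N ^ 2 := by nlinarith
        calc ((⌈ML p N⌉₊ : ℝ) + 1) ^ 10 ≤ (ML p N ^ 2) ^ 10 :=
              pow_le_pow_left₀ (by positivity) h7 10
          _ = _ := by ring
    _ = _ := by ring

end HCP

open HCP

attribute [local irreducible] Gam dbox S1 TS DA

theorem specHC (h1 : SpecH1a) (h2 : SpecH2) (h3 : SpecH3) (hC : SpecCMP) : SpecHC := by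
  obtain ⟨c, hc, hC⟩ := cmp_iff.1 hC
  refine ⟨c / 2, by linarith, fun y ε L hy hy1 hε hL hL1 => ?_⟩
  have hG := ((((good_bas.and h1).and h2).and (h3 y hy hy1)).and (hC 10 ε hε)).and
    (T4.Good.zeta_pos.and (T4.Good.zeta_le
      (fun E K r k => c / (56 * (1000 * (K + 1) * (r + 1) ^ 2 * (k + 1))))
      (fun E K r k => by positivity)))
  refine hG.mono fun p hp => ?_
  obtain ⟨⟨⟨⟨⟨hp1, hp2⟩, hp3⟩, hp4⟩, hp5⟩, hζ, hζ2⟩ := hp
  obtain ⟨C, hC0, hexp⟩ := A3.exp_S0_le p hζ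
  filter_upwards [hp1, hp2, hp3, hp4, hp5, hexp,
    (A3.tendsto_zz hζ).eventually_ge_atTop (C ^ 3 * (W0 p : ℝ) ^ 2 / cE)] with N hb hN1 hN2 hN3 hN5
    hS hz
  have hN : (1 : ℝ) ≤ N := by exact_mod_cast hb.N1
  have he : (0 : ℝ) ≤ (N : ℝ) ^ (1 - c) := by positivity
  -- the size of the error
  have herr : ML p N ^ 28 * (N : ℝ) ^ (1 - c) ≤ (N : ℝ) ^ (1 - c / 2) := by
    have e1 : ML p N ^ 28 = (N : ℝ) ^ (p.ζ *
        ((1000 * (p.K + 1) * (p.r + 1) ^ 2 * (p.k + 1) * 28 : ℕ) : ℝ)) := by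
      unfold ML zz
      rw [← pow_mul, ← Real.rpow_natCast, ← Real.rpow_mul (by linarith)]
    rw [e1, ← Real.rpow_add (by linarith)]
    refine Real.rpow_le_rpow_of_exponent_le hN ?_
    rw [le_div_iff₀ (by positivity)] at hζ2
    push_cast
    nlinarith
  have hfac : ∀ a ∈ DA p N, ∀ t : ℤ × ℕ, okT p N a t → ∀ x ∈ Gam N 1 3, fits p N a x →
      iX (rel a t x) = (if (sm p N t.2 : ℤ) ∣ F1 (rel a t x) then 1 else 0) * kX p N a t x :=
    fun a ha t ok x hx hf => iX_fac ok ((hN1 x hx a ha hf).2.2.2.2.2.2.2.2.2.2.2 t).1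
  have hfac2 : ∀ a ∈ DA p N, ∀ t : ℤ × ℕ, okT p N a t → ∀ x ∈ Gam N 1 3, fits p N a x →
      iH p N (rel a t x) = (if (sm p N t.2 : ℤ) ∣ F1 (rel a t x) then 1 else 0) *
        dn (XR p N t) := fun a ha t ok x hx hf => rfl
  have hpair : ∀ Ev, Evs p N Ev → ∀ (a : Dt) (t : ℤ × ℕ), okT p N a t →
      (∑ x ∈ Gam N (aL a t) (bL a t), lw p N y Ev a t x * kX p N a t x ≤
        (1 + ε) * (∑ x ∈ Gam N (aL a t) (bL a t), lw p N y Ev a t x * dn (XR p N t)) +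
          (if aL a t < bL a t then (N : ℝ) ^ (1 - c) else 0)) ∧
      ((1 - ε) * (∑ x ∈ Gam N (aL a t) (bL a t), lw p N y Ev a t x * dn (XR p N t)) -
          (if aL a t < bL a t then (N : ℝ) ^ (1 - c) else 0) ≤
        ∑ x ∈ Gam N (aL a t) (bL a t), lw p N y Ev a t x * kX p N a t x) := by
    intro Ev hEv a t ok
    by_cases hw : aL a t < bL a t
    · rw [if_pos hw]
      exact pair_cmp hb hc hN5 ok (hN3 Ev hEv a t ok) hw
    · rw [if_neg hw, gam_empty (not_lt.1 hw)]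
      simp
  constructor
  · intro Ev hEv
    have e1 := exch hN2 y L Ev iX (kX p N) hfac
    have e2 := exch hN2 y L Ev (iH p N) (fun _ t _ => dn (XR p N t)) hfac2
    have e3 : ∑ x ∈ Gam N 1 3, L ^ om p N (Md x ^ 2 + aa) * Zx p N y Ev x = _ := e1
    have e4 : ∑ x ∈ Gam N 1 3, L ^ om p N (Md x ^ 2 + aa) * Zh p N y Ev x = _ := e2
    rw [e3, e4]
    have herr2 := (err_sum hb hC0 hS.1 hz hy.le hy1 hL.le hL1 he).trans herr
    refine le_trans ?_ (add_le_add_right herr2 _)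
    rw [mul_sum, ← sum_add_distrib]
    refine sum_le_sum fun a _ => ?_
    rw [mul_sum, ← sum_add_distrib]
    refine sum_le_sum fun t ht => ?_
    have h5 := (hpair Ev hEv a t (mem_tbx.1 ht).2).1
    have h6 := mul_le_mul_of_nonneg_left h5 (cA_nonneg (p := p) (N := N) hy.le hL.le a t)
    refine h6.trans (le_of_eq ?_)
    ring
  · have e1 := exch hN2 y 1 ev0 iX (kX p N) hfac
    have e2 := exch hN2 y 1 ev0 (iH p N) (fun _ t _ => dn (XR p N t)) hfac2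
    have e3 : ∑ x ∈ Gam N 1 3, (1 : ℝ) ^ om p N (Md x ^ 2 + aa) * Zx p N y ev0 x = _ := e1
    have e4 : ∑ x ∈ Gam N 1 3, (1 : ℝ) ^ om p N (Md x ^ 2 + aa) * Zh p N y ev0 x = _ := e2
    simp only [one_pow, one_mul] at e3 e4
    rw [e3, e4]
    have herr2 := (err_sum hb hC0 hS.1 hz hy.le hy1 zero_le_one le_rfl he).trans herr
    refine le_trans (sub_le_sub_left herr2 _) ?_
    rw [mul_sum, ← sum_sub_distrib]
    refine sum_le_sum fun a _ => ?_
    rw [mul_sum, ← sum_sub_distrib]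
    refine sum_le_sum fun t ht => ?_
    have h5 := (hpair ev0 (Or.inl rfl) a t (mem_tbx.1 ht).2).2
    have h6 := mul_le_mul_of_nonneg_left h5
      (cA_nonneg (p := p) (N := N) hy.le zero_le_one a t)
    refine le_trans (le_of_eq ?_) h6
    ring

end

end Pool.Agent.Lib.MP391708.TF.H
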