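import Pool.Agent.Lib.MP_391708_nt.TF.SpecH

/-!
# T1, group H, HS: the split of the second moment

`SpecHSd` (helper68): diagonal and nongeneric pairs.  `SpecHSg` (helper62): generic pairs.
`SpecHSd → SpecHSg → SpecCNT → SpecHS`.
-/

set_option autoImplicit false

namespace Pool.Agent.Lib.MP391708.TF

variable [Pool.Agent.Lib.MP391708.TF.Aa] [Pool.Agent.Lib.MP391708.TF.Frm]

open Finset Filter Topology
open Pool.Agent.Lib.MP391708.Eqd (V cross pairs)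
open scoped Classical

noncomputable section

namespace H

/-- no prime `l ≥ z` connects `X` with `X' G'` or `X'` with `X G` -/
def gp (p : Prm) (N : ℕ) (G X G' X' : ℕ) : Prop :=
  ∀ l : ℕ, l.Prime → zz p N ≤ (l : ℝ) → ¬ ((l ∣ X ∧ l ∣ X' * G') ∨ (l ∣ X' ∧ l ∣ X * G))

/-- generic pairs of relations -/
def gpr (p : Prm) (N : ℕ) (r r' : Rl) : Prop := gp p N (rG r) (rX r) (rG r') (rX r')

/-- **HSd**: the diagonal and the nongeneric pairs -/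
def SpecHSd : Prop :=
  ∃ e₀ : ℝ, 0 < e₀ ∧ ∀ ε δ e₁ : ℝ, 0 < ε → 0 < e₁ → e₁ ≤ e₀ → Good (fun p => ∀ᶠ N : ℕ in atTop,
    ∑ x ∈ Gam N 1 3, ∑ r ∈ RP p e₁ N, ∑ r' ∈ RP p e₁ N,
      (if r = r' ∨ ¬ gpr p N r r' then Zf p N δ e₁ x r * Zf p N δ e₁ x r' else 0) ≤
      ε * ∑ x ∈ Gam N 1 3, (Zh p N (1 / 6) ev0 x) ^ 2 + ε * ((Gam N 1 3).card : ℝ))

/-- **HSg**: the generic pairs -/
def SpecHSg : Prop :=
  ∃ c : ℝ, 0 < c ∧ ∀ ε δ e₁ : ℝ, 0 < ε → 0 < e₁ → Good (fun p => ∀ᶠ N : ℕ in atTop,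
    ∑ x ∈ Gam N 1 3, ∑ r ∈ RP p e₁ N, ∑ r' ∈ RP p e₁ N,
      (if gpr p N r r' then Zf p N δ e₁ x r * Zf p N δ e₁ x r' else 0) ≤
      (1 + ε) * ∑ x ∈ Gam N 1 3, (Zh p N (1 / 6) ev0 x) ^ 2 + (N : ℝ) ^ (1 - c))

end H

end

end Pool.Agent.Lib.MP391708.TF
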