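import Pool.Agent.Lib.MP_391708_nt.TF.H1a
import Pool.Agent.Lib.MP_391708_nt.TF.HSp
import Pool.Agent.Lib.MP_391708_nt.T1.GoodL
import Pool.Agent.Lib.MP_391708_nt.TF1.A3An
import Pool.Agent.Lib.MP_391708_nt.TA.LLX
import Pool.Agent.Lib.MP_391708_nt.Div

/-!
# Group H, module HS, part d: the diagonal and the nongeneric pairs; assembly of `SpecHS`

`SpecHS` follows from `SpecHSg` (HSp) and `hs_diag_ng` (no `SpecHSd` needed).
-/

set_option autoImplicit false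
set_option linter.constructorNameAsVariable false

namespace Pool.Agent.Lib.MP391708.TF.H

variable [Pool.Agent.Lib.MP391708.TF.Aa] [Pool.Agent.Lib.MP391708.TF.Frm]

open Finset Filter Topology
open Pool.Agent.Lib.MP391708.Eqd (V cross pairs)
open scoped Classical

noncomputable section

attribute [local irreducible] RP RG Gam NGp DA

/-- a common prime `≥ z` of `X` and `X' G'`, or of `X'` and `X G` -/
def ngr (p : Prm) (N : ℕ) (r r' : Rl) : Prop := ∃ l : ℕ, l.Prime ∧ zz p N ≤ (l : ℝ) ∧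
    ((l ∣ rX r ∧ l ∣ rX r' * rG r') ∨ (l ∣ rX r' ∧ l ∣ rX r * rG r))

theorem ngr_iff {p : Prm} {N : ℕ} {r r' : Rl} : ngr p N r r' ↔ ¬ gpr p N r r' := by
  unfold ngr gpr gp
  constructor
  · rintro ⟨l, h1, h2, h3⟩ h
    exact h l h1 h2 h3
  · intro h
    by_contra h'
    exact h fun l h1 h2 h3 => h' ⟨l, h1, h2, h3⟩

/-! ## The part at the primes `≤ E` -/

theorem ep_mul {p : Prm} {a b : ℕ} (ha : a ≠ 0) (hb : b ≠ 0) :
    ep p (a * b) = ep p a * ep p b := by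
  unfold ep
  rw [← prod_mul_distrib]
  refine prod_congr rfl fun l _ => ?_
  rw [Nat.factorization_mul ha hb, Finsupp.add_apply, pow_add]

theorem ep_one {p : Prm} {n : ℕ} (h : ∀ l : ℕ, l.Prime → l ∣ n → p.E < l) : ep p n = 1 := by
  unfold ep
  refine prod_eq_one fun l hl => ?_
  rw [mem_filter, mem_range] at hl
  have h1 : ¬ l ∣ n := fun hd => by
    have := h l hl.2 hd
    omega
  rw [Nat.factorization_eq_zero_of_not_dvd h1, pow_zero]

/-! ## The weight -/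

theorem k0_nonneg (p : Prm) (N : ℕ) : 0 ≤ k0 p N := by
  unfold k0 kp Su Sv
  have h1 : 0 ≤ ∑ u ∈ Uu p N, 2 / (u : ℝ) := sum_nonneg fun u _ => by positivity
  have h2 : 0 ≤ ∑ v ∈ Vv p N, 2 / (v : ℝ) := sum_nonneg fun v _ => by positivity
  have h3 : 0 < cE := mul_pos two_pos (TA.specLLX _ A3.aa_ne A3.nsq_aa).1
  positivity

theorem wt_nonneg (p : Prm) (N : ℕ) {y : ℝ} (hy : 0 ≤ y) (r : Rl) : 0 ≤ wt p N y r := by
  unfold wt
  have h1 := k0_nonneg p N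
  have h2 : 0 < rp (rD r).natAbs := TA.rp_pos (aa : ℤ) _
  have h3 : 0 ≤ tilt p N y y r := by
    unfold tilt
    refine prod_nonneg fun l _ => mul_nonneg ?_ ?_ <;> split_ifs <;> norm_num <;> assumption
  positivity

theorem Zf_nonneg (p : Prm) (N : ℕ) (δ e₁ : ℝ) (x : VV) (r : Rl) : 0 ≤ Zf p N δ e₁ x r := by
  unfold Zf
  split_ifs
  · exact wt_nonneg p N (by norm_num) r
  · exact le_rfl

theorem Zf_ne {p : Prm} {N : ℕ} {δ e₁ : ℝ} {x : VV} {r : Rl} (h : Zf p N δ e₁ x r ≠ 0) :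
    x ∈ Gam N 1 3 ∧ r ∈ RP p e₁ N ∧ rM r = Md x ∧
      (∃ a ∈ DA p N, fits p N a x ∧ r = rel a (rD r, rX r) x) ∧
      Zf p N δ e₁ x r = wt p N (1 / 6) r := by
  unfold Zf at h ⊢
  split_ifs at h with h1
  · rw [if_pos h1]
    exact ⟨h1.1, h1.2.2.1, h1.2.2.2.1, h1.2.2.2.2, rfl⟩
  · exact absurd rfl h

/-! ## The nongeneric pairs -/

section
variable {p : Prm} {N : ℕ}

theorem Pd_mul (hb : Bas p N) {x : VV} {a : Dt} (hx : x ∈ Gam N 1 3) (ha : a ∈ DA p N)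
    (hf : fits p N a x) : Pd a x * (g1 a * m1 a * du a) = (dd x).natAbs * m2 a := by
  obtain ⟨c, e, -, -, h1, -⟩ := fits_dec hb hx ha hf
  rw [Pd_eq ha h1, h1]
  unfold ds
  ring

theorem ep_Pd (hb : Bas p N) {x : VV} {a : Dt} (hx : x ∈ Gam N 1 3) (ha : a ∈ DA p N)
    (hf : fits p N a x) : Pd a x ≠ 0 ∧ ep p (Pd a x) = ep p (dd x).natAbs := by
  have h1 := Pd_mul hb hx ha hf
  have h2 : (dd x).natAbs ≠ 0 := Int.natAbs_ne_zero.2 (dd_pos (mem_Gam hx).1).ne'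
  obtain ⟨q1, q2, -, -, q5, -⟩ := pos6 ha
  have q7 := (du_prime ha).pos
  have h3 : Pd a x ≠ 0 := by
    intro h0
    rw [h0, zero_mul] at h1
    exact (mul_ne_zero h2 q5.ne') h1.symm
  refine ⟨h3, ?_⟩
  have h4 : ep p (g1 a * m1 a * du a) = 1 := by
    refine ep_one fun l hl hd => ?_
    rcases (Nat.Prime.dvd_mul hl).1 hd with h | h
    · have : l ∣ ds a := by
        unfold ds
        exact h.mul_right _
      exact E_lt_of_mem_PP (primes_ds ha l hl this)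
    · rw [Nat.prime_dvd_prime_iff_eq hl (du_prime ha)] at h
      have h5 := z_le_du hb ha
      rw [← h] at h5
      have h6 := hb.zE
      have : (p.E : ℝ) < l := by linarith
      exact_mod_cast this
  have h5 : ep p (m2 a) = 1 := ep_one fun l hl hd =>
    E_lt_of_mem_PP (primes_es ha l hl (hd.trans (m2_dvd a)))
  have h6 := congrArg (ep p) h1
  rw [ep_mul h3 (by positivity), ep_mul h2 q5.ne', h4, h5, mul_one, mul_one] at h6
  exact h6

theorem cast_le_of_dvd {a b : ℕ} {t : ℝ} (h : a ∣ b) (hb : b ≠ 0) (ht : (b : ℝ) ≤ t) :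
    (a : ℝ) ≤ t := by
  have : (a : ℝ) ≤ b := by exact_mod_cast Nat.le_of_dvd (Nat.pos_of_ne_zero hb) h
  linarith

theorem nn_le (hb : Bas p N) {a a' : Dt} (ha : a ∈ DA p N) (ha' : a' ∈ DA p N) :
    ((g1 a * m1 a * du a * m2 a' : ℕ) : ℝ) ≤ Y2 p N * zz p N ^ (4 * p.K) := by
  have h1 : ((g1 a * m1 a : ℕ) : ℝ) ≤ zz p N ^ p.K :=
    cast_le_of_dvd (b := ds a) (by unfold ds; exact Dvd.intro _ rfl) (ds_ne ha)
      (mem_DA ha).2.2.1
  have h2 : ((m2 a' : ℕ) : ℝ) ≤ zz p N ^ p.K :=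
    cast_le_of_dvd (m2_dvd a') (es_ne ha') (mem_DA ha').2.2.2.1
  have h3 := du_le_Y2 ha
  have hz := hb.z0
  have h4 : zz p N ^ p.K * zz p N ^ p.K ≤ zz p N ^ (4 * p.K) := by
    rw [← pow_add]
    exact hb.zpow_le (by omega)
  calc ((g1 a * m1 a * du a * m2 a' : ℕ) : ℝ)
      = ((g1 a * m1 a : ℕ) : ℝ) * du a * (m2 a' : ℕ) := by push_cast; ring
    _ ≤ zz p N ^ p.K * Y2 p N * zz p N ^ p.K := by
        have := hb.Y2_pos
        gcongr
    _ = Y2 p N * (zz p N ^ p.K * zz p N ^ p.K) := by ring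
    _ ≤ _ := by
        have := hb.Y2_pos
        gcongr

theorem mem_NGp (hb : Bas p N) {δ e₁ : ℝ} (hRG : RP p e₁ N ⊆ RG p N) {x : VV} {r r' : Rl}
    (h : Zf p N δ e₁ x r ≠ 0) (h' : Zf p N δ e₁ x r' ≠ 0) (hne : r ≠ r')
    (hn : ngr p N r r') : (r, r') ∈ NGp p N := by
  obtain ⟨hx, hr, hM, ⟨a, ha, hf, hra⟩, -⟩ := Zf_ne h
  obtain ⟨-, hr', hM', ⟨a', ha', hf', hra'⟩, -⟩ := Zf_ne h'
  have eP : rP r = Pd a x := by rw [hra]; rfl
  have eP' : rP r' = Pd a' x := by rw [hra']; rfl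
  unfold NGp
  rw [mem_filter, mem_product]
  refine ⟨⟨hRG hr, hRG hr'⟩, by rw [hM, hM'], hne, ?_, ?_, hn⟩
  · show ep p (rP r) = ep p (rP r')
    rw [eP, eP', (ep_Pd hb hx ha hf).2, (ep_Pd hb hx ha' hf').2]
  · obtain ⟨q1, q2, -, -, q5, -⟩ := pos6 ha
    obtain ⟨q1', q2', -, -, q5', -⟩ := pos6 ha'
    have q7 := (du_prime ha).pos
    have q7' := (du_prime ha').pos
    refine ⟨g1 a * m1 a * du a * m2 a', g1 a' * m1 a' * du a' * m2 a, by positivity,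
      by positivity, nn_le hb ha ha', nn_le hb ha' ha, ?_⟩
    show rP r * _ = rP r' * _
    rw [eP, eP']
    calc Pd a x * (g1 a * m1 a * du a * m2 a')
        = (Pd a x * (g1 a * m1 a * du a)) * m2 a' := by ring
      _ = (dd x).natAbs * m2 a * m2 a' := by rw [Pd_mul hb hx ha hf]
      _ = ((dd x).natAbs * m2 a') * m2 a := by ring
      _ = (Pd a' x * (g1 a' * m1 a' * du a')) * m2 a := by rw [Pd_mul hb hx ha' hf']
      _ = _ := by ring

end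

/-! ## The number of `x` with given `M` -/

/-- the pairs over `M`, counted by the critical divisors -/
theorem card_fiber_aut {CA : ℕ} (hCA : ∀ (S : Finset VV) (M d : ℤ), 0 < d →
    (∀ x ∈ S, cross x.1 x.2 = -1 ∧ mm x = M ∧ dd x = d) → S.card ≤ CA) (N M : ℕ) :
    ((Gam N 1 3).filter (fun x => mm x = (M : ℤ))).card ≤ CA * nu M := by
  unfold nu
  refine Finset.card_le_mul_card_image_of_maps_to (f := fun x : VV => (dd x).natAbs) ?_ CA ?_
  · intro x hx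
    rw [mem_filter] at hx
    obtain ⟨hx, hM⟩ := hx
    obtain ⟨hc, -, -, h3, h4⟩ := mem_Gam hx
    have hMd : Md x = M := by
      have := Md_cast hx
      rw [hM] at this
      exact_mod_cast this
    have hcast : (((dd x).natAbs : ℕ) : ℝ) = (dd x : ℝ) := by
      have h9 : (((dd x).natAbs : ℕ) : ℝ) = ((((dd x).natAbs : ℕ) : ℤ) : ℝ) :=
        (Int.cast_natCast _).symm
      rw [h9, dd_cast hx]
    have hmul := abs_mul_abs hx
    rw [hMd] at hmul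
    have hMr : (mm x : ℝ) = M := by rw [hM]; push_cast; rfl
    rw [hMr] at h3 h4
    rw [mem_filter, Nat.mem_divisors]
    refine ⟨⟨Dvd.intro _ hmul, ?_⟩, ?_, ?_⟩
    · have : 0 < aa := Aa.ha
      omega
    · have : (M : ℝ) < (((dd x).natAbs : ℕ) : ℝ) := by rw [hcast]; linarith
      exact_mod_cast this
    · have : (((dd x).natAbs : ℕ) : ℝ) ≤ 3 * M := by rw [hcast]; linarith
      exact_mod_cast this
  · intro d hd
    rw [mem_filter, Nat.mem_divisors] at hd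
    have hd0 : 0 < d := by
      have h1 : d ∣ M ^ 2 + aa := hd.1.1
      exact Nat.pos_of_dvd_of_pos h1 (Nat.pos_of_ne_zero hd.1.2)
    refine hCA _ M d (by exact_mod_cast hd0) fun x hx => ?_
    rw [mem_filter, mem_filter] at hx
    obtain ⟨⟨hx, hM⟩, hxd⟩ := hx
    refine ⟨(mem_Gam hx).1, hM, ?_⟩
    rw [← dd_cast hx]
    exact_mod_cast hxd

theorem fiber_bound (hAUT : SpecAUT) (η : ℝ) (hη : 0 < η) :
    ∃ C : ℝ, 0 < C ∧ ∀ N M : ℕ, 1 ≤ N → M ≤ 8 * N →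
    (((Gam N 1 3).filter (fun x => mm x = (M : ℤ))).card : ℝ) ≤ C * (N : ℝ) ^ η := by
  obtain ⟨CA, hCA0, hCA⟩ := hAUT
  obtain ⟨C, hC, h⟩ := Pool.Agent.Lib.MP_391708_nt.Div.card_divisors_le_rpow (η / 2) (by positivity)
  have hCA1 : (0 : ℝ) < CA := by exact_mod_cast hCA0
  have haa : (0 : ℝ) < aa := by exact_mod_cast (Aa.ha : 0 < aa)
  refine ⟨CA * C * (64 + aa : ℝ) ^ (η / 2), by positivity, fun N M hN hM => ?_⟩
  have h1 : (((Gam N 1 3).filter (fun x => mm x = (M : ℤ))).card : ℝ) ≤ CA * nu M := by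
    exact_mod_cast card_fiber_aut hCA N M
  have h2 : (nu M : ℝ) ≤ ((M ^ 2 + aa).divisors.card : ℝ) := by
    unfold nu
    exact_mod_cast card_le_card (filter_subset _ _)
  have h3 := h (M ^ 2 + aa) (by have : 0 < aa := Aa.ha; omega)
  have hN' : (1 : ℝ) ≤ N := by exact_mod_cast hN
  have hM' : (M : ℝ) ≤ 8 * N := by exact_mod_cast hM
  have h4 : ((M ^ 2 + aa : ℕ) : ℝ) ≤ (64 + aa) * (N : ℝ) ^ 2 := by
    push_cast
    have h6 : (0 : ℝ) ≤ M := Nat.cast_nonneg _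
    have e1 : (M : ℝ) ^ 2 ≤ 64 * (N : ℝ) ^ 2 := by nlinarith
    have e2 : (aa : ℝ) * 1 ≤ aa * (N : ℝ) ^ 2 :=
      mul_le_mul_of_nonneg_left (by nlinarith) haa.le
    linarith
  have h5 : ((M ^ 2 + aa : ℕ) : ℝ) ^ (η / 2) ≤ (64 + aa : ℝ) ^ (η / 2) * (N : ℝ) ^ η := by
    calc ((M ^ 2 + aa : ℕ) : ℝ) ^ (η / 2) ≤ ((64 + aa) * (N : ℝ) ^ 2) ^ (η / 2) :=
          Real.rpow_le_rpow (by positivity) h4 (by positivity)
      _ = (64 + aa : ℝ) ^ (η / 2) * ((N : ℝ) ^ 2) ^ (η / 2) :=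
          Real.mul_rpow (by positivity) (by positivity)
      _ = _ := by
          congr 1
          rw [← Real.rpow_natCast, ← Real.rpow_mul (by positivity)]
          congr 1
          push_cast
          ring
  calc (((Gam N 1 3).filter (fun x => mm x = (M : ℤ))).card : ℝ) ≤ CA * nu M := h1
    _ ≤ CA * (C * ((64 + aa : ℝ) ^ (η / 2) * (N : ℝ) ^ η)) := by
        have := h2.trans (h3.trans (mul_le_mul_of_nonneg_left h5 hC.le))
        exact mul_le_mul_of_nonneg_left this hCA1.le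
    _ = _ := by ring

/-- the number of triples `(x, r, r')` -/
theorem triples {p : Prm} {N : ℕ} {B : ℝ}
    (hB : ∀ M : ℕ, M ≤ 8 * N → (((Gam N 1 3).filter (fun x => mm x = (M : ℤ))).card : ℝ) ≤ B) :
    (((Gam N 1 3 ×ˢ NGp p N).filter (fun t => rM t.2.1 = Md t.1)).card : ℝ) ≤
      B * ((NGp p N).card : ℝ) := by
  have h1 : (((Gam N 1 3 ×ˢ NGp p N).filter (fun t => rM t.2.1 = Md t.1)).card : ℝ) =
      ∑ s ∈ NGp p N, (((Gam N 1 3).filter (fun x => rM s.1 = Md x)).card : ℝ) := by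
    rw [card_filter, sum_product_right]
    push_cast
    refine sum_congr rfl fun s _ => ?_
    rw [card_filter]
    push_cast
    rfl
  rw [h1]
  calc _ ≤ ∑ s ∈ NGp p N, B := by
        refine sum_le_sum fun s hs => ?_
        have h2 : rM s.1 ≤ 8 * N := by
          unfold NGp at hs
          rw [mem_filter, mem_product] at hs
          have h9 := hs.1.1
          unfold RG at h9
          rw [mem_filter] at h9
          exact h9.2.2.2.2.1
        refine le_trans ?_ (hB (rM s.1) h2)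
        have : (Gam N 1 3).filter (fun x => rM s.1 = Md x) ⊆
            (Gam N 1 3).filter (fun x => mm x = (rM s.1 : ℤ)) := by
          intro x hx
          rw [mem_filter] at hx ⊢
          refine ⟨hx.1, ?_⟩
          rw [hx.2, Md_cast hx.1]
        exact_mod_cast card_le_card this
    _ = _ := by rw [sum_const, nsmul_eq_mul, mul_comm]

/-- the bound for one `N` -/
theorem diag_ng {p : Prm} {N : ℕ} {δ e₁ b B T : ℝ} (hb : Bas p N) (hRG : RP p e₁ N ⊆ RG p N)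
    (hb0 : 0 ≤ b) (hb1 : b ≤ 1)
    (hw : ∀ r ∈ RP p e₁ N, wt p N (1 / 6) r ≤ b)
    (hB : ∀ M : ℕ, M ≤ 8 * N → (((Gam N 1 3).filter (fun x => mm x = (M : ℤ))).card : ℝ) ≤ B)
    (hB0 : 0 ≤ B) (hT : ((NGp p N).card : ℝ) ≤ T) :
    ∑ x ∈ Gam N 1 3, ∑ r ∈ RP p e₁ N,
      ∑ r' ∈ (RP p e₁ N).filter (fun r' => r = r' ∨ ngr p N r r'),
        Zf p N δ e₁ x r * Zf p N δ e₁ x r' ≤
      b * (∑ x ∈ Gam N 1 3, (∑ r ∈ RP p e₁ N, Zf p N δ e₁ x r) ^ 2 + ((Gam N 1 3).card : ℝ)) +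
        B * T := by
  have hZ0 : ∀ x r, 0 ≤ Zf p N δ e₁ x r := Zf_nonneg p N δ e₁
  have hZb : ∀ x r, Zf p N δ e₁ x r ≤ b := by
    intro x r
    by_cases h : Zf p N δ e₁ x r = 0
    · rw [h]; exact hb0
    · obtain ⟨-, hr, -, -, h1⟩ := Zf_ne h
      rw [h1]
      exact hw r hr
  -- split
  have hsplit : ∀ x, ∑ r ∈ RP p e₁ N,
      ∑ r' ∈ (RP p e₁ N).filter (fun r' => r = r' ∨ ngr p N r r'),
        Zf p N δ e₁ x r * Zf p N δ e₁ x r' ≤
      b * (∑ r ∈ RP p e₁ N, Zf p N δ e₁ x r) +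
      ∑ r ∈ RP p e₁ N, ∑ r' ∈ (RP p e₁ N).filter (fun r' => r ≠ r' ∧ ngr p N r r'),
        Zf p N δ e₁ x r * Zf p N δ e₁ x r' := by
    intro x
    rw [mul_sum, ← sum_add_distrib]
    refine sum_le_sum fun r hr => ?_
    have h1 : (RP p e₁ N).filter (fun r' => r = r' ∨ ngr p N r r') ⊆
        insert r ((RP p e₁ N).filter (fun r' => r ≠ r' ∧ ngr p N r r')) := by
      intro r' hr'
      rw [mem_filter] at hr'
      rw [mem_insert, mem_filter]
      by_cases h : r = r'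
      · exact Or.inl h.symm
      · exact Or.inr ⟨hr'.1, h, hr'.2.resolve_left h⟩
    refine (sum_le_sum_of_subset_of_nonneg h1 fun r' _ _ => mul_nonneg (hZ0 x r) (hZ0 x r')).trans
      ?_
    rw [sum_insert (by simp)]
    have h2 : Zf p N δ e₁ x r * Zf p N δ e₁ x r ≤ b * Zf p N δ e₁ x r :=
      mul_le_mul_of_nonneg_right (hZb x r) (hZ0 x r)
    linarith
  have h1 : ∑ x ∈ Gam N 1 3, b * (∑ r ∈ RP p e₁ N, Zf p N δ e₁ x r) ≤
      b * (∑ x ∈ Gam N 1 3, (∑ r ∈ RP p e₁ N, Zf p N δ e₁ x r) ^ 2 +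
        ((Gam N 1 3).card : ℝ)) := by
    rw [← mul_sum]
    refine mul_le_mul_of_nonneg_left ?_ hb0
    have : ((Gam N 1 3).card : ℝ) = ∑ x ∈ Gam N 1 3, (1 : ℝ) := by simp
    rw [this, ← sum_add_distrib]
    refine sum_le_sum fun x _ => ?_
    nlinarith [sq_nonneg (∑ r ∈ RP p e₁ N, Zf p N δ e₁ x r - 1 / 2)]
  -- the nongeneric part
  have h2 : ∑ x ∈ Gam N 1 3, ∑ r ∈ RP p e₁ N,
      ∑ r' ∈ (RP p e₁ N).filter (fun r' => r ≠ r' ∧ ngr p N r r'),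
        Zf p N δ e₁ x r * Zf p N δ e₁ x r' ≤
      (((Gam N 1 3 ×ˢ NGp p N).filter (fun t => rM t.2.1 = Md t.1)).card : ℝ) := by
    have e1 : ∑ x ∈ Gam N 1 3, ∑ r ∈ RP p e₁ N,
        ∑ r' ∈ (RP p e₁ N).filter (fun r' => r ≠ r' ∧ ngr p N r r'),
          Zf p N δ e₁ x r * Zf p N δ e₁ x r' =
        ∑ t ∈ (Gam N 1 3 ×ˢ (RP p e₁ N ×ˢ RP p e₁ N)).filter
          (fun t => t.2.1 ≠ t.2.2 ∧ ngr p N t.2.1 t.2.2),
          Zf p N δ e₁ t.1 t.2.1 * Zf p N δ e₁ t.1 t.2.2 := by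
      rw [sum_filter, sum_product]
      refine sum_congr rfl fun x _ => ?_
      rw [sum_product]
      refine sum_congr rfl fun r _ => ?_
      rw [sum_filter]
    rw [e1]
    have e2 : ∀ t ∈ (Gam N 1 3 ×ˢ (RP p e₁ N ×ˢ RP p e₁ N)).filter
          (fun t => t.2.1 ≠ t.2.2 ∧ ngr p N t.2.1 t.2.2),
          Zf p N δ e₁ t.1 t.2.1 * Zf p N δ e₁ t.1 t.2.2 ≤
        if t ∈ (Gam N 1 3 ×ˢ NGp p N).filter (fun t => rM t.2.1 = Md t.1) then (1 : ℝ) else 0 := by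
      intro t ht
      rw [mem_filter, mem_product, mem_product] at ht
      obtain ⟨⟨hx, hr, hr'⟩, hne, hn⟩ := ht
      by_cases h : Zf p N δ e₁ t.1 t.2.1 = 0
      · rw [h, zero_mul]
        split_ifs <;> norm_num
      by_cases h' : Zf p N δ e₁ t.1 t.2.2 = 0
      · rw [h', mul_zero]
        split_ifs <;> norm_num
      rw [if_pos]
      · calc _ ≤ b * b := mul_le_mul (hZb _ _) (hZb _ _) (hZ0 _ _) hb0
          _ ≤ 1 := by nlinarith
      · rw [mem_filter, mem_product]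
        exact ⟨⟨hx, mem_NGp hb hRG h h' hne hn⟩, (Zf_ne h).2.2.1⟩
    refine (sum_le_sum e2).trans ?_
    rw [← sum_filter, sum_const, nsmul_eq_mul, mul_one]
    have : (filter (fun t => t ∈ (Gam N 1 3 ×ˢ NGp p N).filter (fun t => rM t.2.1 = Md t.1))
        ((Gam N 1 3 ×ˢ (RP p e₁ N ×ˢ RP p e₁ N)).filter
          (fun t => t.2.1 ≠ t.2.2 ∧ ngr p N t.2.1 t.2.2))) ⊆
        (Gam N 1 3 ×ˢ NGp p N).filter (fun t => rM t.2.1 = Md t.1) := by
      intro t ht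
      rw [mem_filter] at ht
      exact ht.2
    exact_mod_cast card_le_card this
  calc _ ≤ ∑ x ∈ Gam N 1 3, (b * (∑ r ∈ RP p e₁ N, Zf p N δ e₁ x r) +
      ∑ r ∈ RP p e₁ N, ∑ r' ∈ (RP p e₁ N).filter (fun r' => r ≠ r' ∧ ngr p N r r'),
        Zf p N δ e₁ x r * Zf p N δ e₁ x r') := sum_le_sum fun x _ => hsplit x
    _ ≤ _ := by
        rw [sum_add_distrib]
        refine add_le_add h1 (h2.trans ((triples hB).trans ?_))
        exact mul_le_mul_of_nonneg_left hT hB0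

/-- **the diagonal and the nongeneric pairs** -/
theorem hs_diag_ng (hAUT : SpecAUT) (hCNT : SpecCNT) (hNG : SpecNG) (hA2 : SpecA2) (hA3 : SpecA3)
    (hHW : SpecHW) :
    ∃ e₀ : ℝ, 0 < e₀ ∧ ∀ ε δ e₁ : ℝ, 0 < ε → 0 < e₁ → e₁ ≤ e₀ →
      Good (fun p => ∀ᶠ N : ℕ in atTop,
        ∑ x ∈ Gam N 1 3, ∑ r ∈ RP p e₁ N,
          ∑ r' ∈ (RP p e₁ N).filter (fun r' => r = r' ∨ ngr p N r r'),
            Zf p N δ e₁ x r * Zf p N δ e₁ x r' ≤
        ε * (∑ x ∈ Gam N 1 3, (∑ r ∈ RP p e₁ N, Zf p N δ e₁ x r) ^ 2 +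
          ((Gam N 1 3).card : ℝ))) := by
  obtain ⟨-, c₀, hc₀, hlow⟩ := hCNT
  obtain ⟨e₀, he₀, hA3⟩ := hA3
  refine ⟨e₀, he₀, fun ε δ e₁ hε he₁ he₁' => ?_⟩
  refine ((((((hA3 e₁ he₁ he₁').and (hHW e₁ he₁)).and (hA2 e₁ he₁)).and hNG).and good_bas).and
    Pool.Agent.Lib.MP391708.T4.Good.zeta_pos).mono ?_
  rintro p ⟨⟨⟨⟨⟨⟨C₃, hC₃, k3⟩, ⟨C₁, hC₁, k1⟩⟩, k2⟩, kN⟩, kB⟩, hζ⟩
  obtain ⟨CF, hCF, hF⟩ := fiber_bound hAUT (p.ζ / 4) (by positivity)
  -- `exp (- S0 / 20) → 0`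
  have hS : ∀ᶠ N : ℕ in atTop, C₁ * Real.exp (-(S0 p N / 20)) ≤ min 1 (ε / 2) := by
    obtain ⟨C, hC, h⟩ := A3.exp_S0_le p hζ
    have hm : 0 < min 1 (ε / 2) := lt_min one_pos (by positivity)
    have h1 : Tendsto (fun N : ℕ => Real.log (zz p N)) atTop atTop :=
      Real.tendsto_log_atTop.comp (A3.tendsto_zz hζ)
    filter_upwards [h, h1.eventually_ge_atTop (C * (C₁ / min 1 (ε / 2)) ^ 20)] with N hN hL
    have h2 := hN.2.2
    have h3 : C * (C₁ / min 1 (ε / 2)) ^ 20 ≤ C * Real.exp (S0 p N) := hL.trans h2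
    have h4 : (C₁ / min 1 (ε / 2)) ^ 20 ≤ Real.exp (S0 p N) := le_of_mul_le_mul_left h3 hC
    have h5 : Real.exp (S0 p N) = (Real.exp (S0 p N / 20)) ^ 20 := by
      rw [← Real.exp_nat_mul]
      congr 1
      push_cast
      ring
    rw [h5] at h4
    have h6 : C₁ / min 1 (ε / 2) ≤ Real.exp (S0 p N / 20) :=
      le_of_pow_le_pow_left₀ (by norm_num) (Real.exp_pos _).le h4
    rw [div_le_iff₀ hm] at h6
    rw [Real.exp_neg]
    rw [← div_eq_mul_inv, div_le_iff₀ (Real.exp_pos _)]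
    linarith
  -- the nongeneric pairs
  have hT : ∀ᶠ N : ℕ in atTop, CF * (N : ℝ) ^ (p.ζ / 4) *
      (N * zz p N ^ (-(1 / 2) : ℝ)) ≤ ε / 2 * (c₀ * N) := by
    have h1 : Tendsto (fun N : ℕ => (N : ℝ) ^ (p.ζ / 4)) atTop atTop :=
      (tendsto_rpow_atTop (by positivity)).comp tendsto_natCast_atTop_atTop
    filter_upwards [h1.eventually_ge_atTop (CF / (ε / 2 * c₀)), eventually_ge_atTop 1] with N hN hN1
    have hN0 : (0 : ℝ) < N := by exact_mod_cast hN1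
    have h2 : zz p N ^ (-(1 / 2) : ℝ) = ((N : ℝ) ^ (p.ζ / 4))⁻¹ * ((N : ℝ) ^ (p.ζ / 4))⁻¹ := by
      unfold zz
      rw [← Real.rpow_mul hN0.le, ← Real.rpow_neg hN0.le, ← Real.rpow_add hN0]
      congr 1
      ring
    have h3 : 0 < (N : ℝ) ^ (p.ζ / 4) := by positivity
    rw [h2]
    calc CF * (N : ℝ) ^ (p.ζ / 4) * (N * (((N : ℝ) ^ (p.ζ / 4))⁻¹ * ((N : ℝ) ^ (p.ζ / 4))⁻¹))
        = CF * ((N : ℝ) ^ (p.ζ / 4))⁻¹ * N := by field_simp
      _ ≤ ε / 2 * c₀ * N := by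
          refine mul_le_mul_of_nonneg_right ?_ hN0.le
          rw [← div_eq_mul_inv, div_le_iff₀ h3]
          rw [div_le_iff₀ (by positivity)] at hN
          linarith
      _ = _ := by ring
  filter_upwards [k3, k1, k2, kN, kB, hS, hT, hlow] with N a3 a1 a2 aN aB aS aT alow
  have hw : ∀ r ∈ RP p e₁ N, wt p N (1 / 6) r ≤ C₁ * Real.exp (-(S0 p N / 20)) := fun r hr =>
    (a1 r hr).trans (mul_le_mul_of_nonneg_left (a3 r hr).1 hC₁.le)
  have h1 := diag_ng (δ := δ) aB a2.1 (by positivity) (aS.trans (min_le_left _ _)) hw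
    (B := CF * (N : ℝ) ^ (p.ζ / 4)) (fun M hM => hF N M aB.N1 hM) (by positivity) aN
  refine h1.trans ?_
  set S : ℝ := ∑ x ∈ Gam N 1 3, (∑ r ∈ RP p e₁ N, Zf p N δ e₁ x r) ^ 2 with hSdef
  have hS0 : 0 ≤ S := sum_nonneg fun x _ => sq_nonneg _
  have hG0 : (0 : ℝ) ≤ ((Gam N 1 3).card : ℝ) := Nat.cast_nonneg _
  calc C₁ * Real.exp (-(S0 p N / 20)) * (S + ((Gam N 1 3).card : ℝ)) +
        CF * (N : ℝ) ^ (p.ζ / 4) * (N * zz p N ^ (-(1 / 2) : ℝ))
      ≤ ε / 2 * (S + ((Gam N 1 3).card : ℝ)) + ε / 2 * ((Gam N 1 3).card : ℝ) := by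
        refine add_le_add (mul_le_mul_of_nonneg_right (aS.trans (min_le_right _ _))
          (by linarith)) (aT.trans ?_)
        exact mul_le_mul_of_nonneg_left alow (by positivity)
    _ ≤ _ := by nlinarith

/-- **HS** from the generic pairs -/
theorem specHS_of (hAUT : SpecAUT) (hCNT : SpecCNT) (hNG : SpecNG) (hA2 : SpecA2) (hA3 : SpecA3) (hHW : SpecHW)
    (hg : SpecHSg) : SpecHS := by
  obtain ⟨e₀, he₀, h⟩ := hs_diag_ng hAUT hCNT hNG hA2 hA3 hHW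
  obtain ⟨-, c₀, hc₀, hlow⟩ := hCNT
  obtain ⟨c, hc, hg⟩ := hg
  refine ⟨e₀, he₀, fun ε δ e₁ hε he₁ he₁' => ?_⟩
  set η : ℝ := min (1 / 2) (ε / 8) with hη
  have hη0 : 0 < η := lt_min (by norm_num) (by positivity)
  have hη1 : η ≤ 1 / 2 := min_le_left _ _
  have hη2 : η ≤ ε / 8 := min_le_right _ _
  refine ((h η δ e₁ hη0 he₁ he₁').and (hg η δ e₁ hη0 he₁)).mono ?_
  rintro p ⟨k1, k2⟩
  have hN : ∀ᶠ N : ℕ in atTop, (N : ℝ) ^ (1 - c) ≤ η * (c₀ * N) := by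
    have h1 : Tendsto (fun N : ℕ => (N : ℝ) ^ c) atTop atTop :=
      (tendsto_rpow_atTop hc).comp tendsto_natCast_atTop_atTop
    filter_upwards [h1.eventually_ge_atTop (1 / (η * c₀)), eventually_ge_atTop 1] with N hN hN1
    have hN0 : (0 : ℝ) < N := by exact_mod_cast hN1
    rw [Real.rpow_sub hN0, Real.rpow_one, div_le_iff₀ (by positivity)]
    rw [div_le_iff₀ (by positivity)] at hN
    nlinarith
  filter_upwards [k1, k2, hN, hlow] with N a1 a2 a3 alow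
  set S : ℝ := ∑ x ∈ Gam N 1 3, (∑ r ∈ RP p e₁ N, Zf p N δ e₁ x r) ^ 2 with hSdef
  set H : ℝ := ∑ x ∈ Gam N 1 3, (Zh p N (1 / 6) ev0 x) ^ 2 with hH
  have hS0 : 0 ≤ S := sum_nonneg fun x _ => sq_nonneg _
  have hH0 : 0 ≤ H := sum_nonneg fun x _ => sq_nonneg _
  have hG0 : (0 : ℝ) ≤ ((Gam N 1 3).card : ℝ) := Nat.cast_nonneg _
  have hsum : S ≤ ∑ x ∈ Gam N 1 3, ∑ r ∈ RP p e₁ N,
          ∑ r' ∈ (RP p e₁ N).filter (fun r' => r = r' ∨ ngr p N r r'),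
            Zf p N δ e₁ x r * Zf p N δ e₁ x r' +
      ∑ x ∈ Gam N 1 3, ∑ r ∈ RP p e₁ N, ∑ r' ∈ RP p e₁ N,
            (if gpr p N r r' then Zf p N δ e₁ x r * Zf p N δ e₁ x r' else 0) := by
    rw [hSdef, ← sum_add_distrib]
    refine sum_le_sum fun x _ => ?_
    rw [← sum_add_distrib, sq, sum_mul_sum]
    refine sum_le_sum fun r _ => ?_
    rw [sum_filter, ← sum_add_distrib]
    refine sum_le_sum fun r' _ => ?_
    have h0 : 0 ≤ Zf p N δ e₁ x r * Zf p N δ e₁ x r' :=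
      mul_nonneg (Zf_nonneg _ _ _ _ _ _) (Zf_nonneg _ _ _ _ _ _)
    by_cases hgr : gpr p N r r'
    · rw [if_pos hgr]
      split_ifs <;> linarith
    · rw [if_pos (Or.inr (ngr_iff.2 hgr)), if_neg hgr, add_zero]
  have h3 : S ≤ η * (S + ((Gam N 1 3).card : ℝ)) +
      ((1 + η) * H + η * ((Gam N 1 3).card : ℝ)) := by
    refine hsum.trans (add_le_add a1 (a2.trans ?_))
    have : η * (c₀ * N) ≤ η * ((Gam N 1 3).card : ℝ) := mul_le_mul_of_nonneg_left alow hη0.le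
    linarith
  -- `(1 - η) S ≤ (1 + η) H + 2 η #Γ`
  have h4 : (1 - η) * S ≤ (1 + η) * H + 2 * η * ((Gam N 1 3).card : ℝ) := by linarith
  have h5 : S ≤ ((1 + η) * H + 2 * η * ((Gam N 1 3).card : ℝ)) / (1 - η) := by
    rw [le_div_iff₀ (by linarith)]
    linarith
  refine h5.trans ?_
  rw [div_le_iff₀ (by linarith)]
  have e1 : (1 + η) ≤ (1 + ε) * (1 - η) := by nlinarith
  have e2 : 2 * η ≤ ε * (1 - η) := by nlinarith
  nlinarith [mul_le_mul_of_nonneg_right e1 hH0, mul_le_mul_of_nonneg_right e2 hG0]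

end

end Pool.Agent.Lib.MP391708.TF.H
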