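import Pool.Agent.Lib.MP_391708_nt.TF.ISpec
import Pool.Agent.Lib.MP_391708_nt.TF.Kasm

/-!
# Group I, module I1: Cauchy–Schwarz over `ρ`
-/

set_option autoImplicit false
set_option linter.constructorNameAsVariable false

namespace Pool.Agent.Lib.MP391708.TF.I

variable [Pool.Agent.Lib.MP391708.TF.Aa]

open Finset Filter Topology
open Pool.Agent.Lib.MP391708.Eqd (V cross pairs)
open scoped Classical

namespace I1

/-! ## `sm`, `ep`, `rho` -/

theorem prime_of_mem_PP {p : Prm} {N l : ℕ} (h : l ∈ PP p N) : l.Prime := by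
  unfold PP at h
  exact (mem_filter.1 h).2.1

theorem sm_pos (p : Prm) (N n : ℕ) : 0 < sm p N n := by
  unfold sm
  exact prod_pos fun l hl => pow_pos (prime_of_mem_PP hl).pos _

theorem sm_mul {p : Prm} {N a b : ℕ} (ha : a ≠ 0) (hb : b ≠ 0) :
    sm p N (a * b) = sm p N a * sm p N b := by
  unfold sm
  rw [← prod_mul_distrib]
  refine prod_congr rfl fun l _ => ?_
  rw [Nat.factorization_mul ha hb, Finsupp.add_apply, pow_add]

theorem sm_dvd {p : Prm} {N n : ℕ} (hn : n ≠ 0) : sm p N n ∣ n := by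
  conv_rhs => rw [← Nat.prod_factorization_pow_eq_self hn]
  unfold sm
  rw [Finsupp.prod, Nat.support_factorization]
  have h1 : ∏ l ∈ PP p N, l ^ n.factorization l =
      ∏ l ∈ (PP p N).filter (fun l => l ∈ n.primeFactors), l ^ n.factorization l := by
    rw [prod_filter]
    refine prod_congr rfl fun l _ => ?_
    split_ifs with h
    · rfl
    · rw [← Nat.support_factorization, Finsupp.mem_support_iff, not_not] at h
      rw [h, pow_zero]
  rw [h1]
  exact prod_dvd_prod_of_subset _ _ _ fun l hl => (mem_filter.1 hl).2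

theorem ep_mul (p : Prm) {a b : ℕ} (ha : a ≠ 0) (hb : b ≠ 0) : ep p (a * b) = ep p a * ep p b := by
  unfold ep
  rw [← prod_mul_distrib]
  refine prod_congr rfl fun l _ => ?_
  rw [Nat.factorization_mul ha hb, Finsupp.add_apply, pow_add]

theorem ep_sm (p : Prm) (N n : ℕ) : ep p (sm p N n) = 1 := by
  unfold ep
  refine prod_eq_one fun l hl => ?_
  rw [mem_filter, mem_range] at hl
  have hl' : l.Prime := hl.2
  rw [Nat.factorization_eq_zero_of_not_dvd, pow_zero]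
  intro hdvd
  unfold sm at hdvd
  obtain ⟨q, hq, hq'⟩ := (hl'.prime.dvd_finsetProd_iff _).1 hdvd
  have h1 : l ∣ q := hl'.dvd_of_dvd_pow hq'
  have hqp : q.Prime := prime_of_mem_PP hq
  have h2 : l = q := (Nat.prime_dvd_prime_iff_eq hl' hqp).1 h1
  unfold PP at hq
  rw [mem_filter] at hq
  omega

/-- the facts about a relation which are used -/
structure Fct (p : Prm) (N : ℕ) (r : Rl) : Prop where
  P0 : 0 < rP r
  dvd : rP r ∣ rM r ^ 2 + aa
  tm : tame p (rM r ^ 2 + aa)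
  le : rM r ≤ 8 * N
  smle : (sm p N (rM r ^ 2 + aa) : ℝ) ≤ zz p N ^ (4 * p.K)

theorem fct {p : Prm} {N : ℕ} {r : Rl} (h : r ∈ RG p N) : Fct p N r := by
  unfold RG at h
  rw [mem_filter] at h
  obtain ⟨-, hR, hs, -, h8, -, -, -, -, -, -, -, -, -, -, hsm, -⟩ := h
  obtain ⟨-, hP, -, -, -, hM, -⟩ := hR
  exact ⟨hP, ⟨rG r * rQ r, by rw [← hM]; ring⟩, hs.2.2.2, h8, hsm⟩

attribute [local irreducible] RG

theorem rho_mul {p : Prm} {N : ℕ} {r : Rl} (h : 0 < rP r) :
    rho p N r * sm p N (rP r) = rP r :=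
  Nat.div_mul_cancel (sm_dvd h.ne')

theorem rho_mem {p : Prm} {N : ℕ} {r : Rl} (h : Fct p N r) :
    rho p N r ∈ ((rM r ^ 2 + aa) / sm p N (rM r ^ 2 + aa)).divisors := by
  obtain ⟨B, hB⟩ := h.dvd
  have hP := h.P0.ne'
  have hB0 : B ≠ 0 := by
    rintro rfl
    have h0 : 0 < aa := Aa.ha
    rw [mul_zero] at hB
    omega
  rw [hB, sm_mul hP hB0, Nat.mul_div_mul_comm (sm_dvd hP) (sm_dvd hB0), Nat.mem_divisors]
  refine ⟨Dvd.intro _ rfl, ?_⟩
  refine Nat.mul_ne_zero ?_ ?_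
  · exact (Nat.div_pos (Nat.le_of_dvd h.P0 (sm_dvd hP)) (sm_pos _ _ _)).ne'
  · exact (Nat.div_pos (Nat.le_of_dvd (Nat.pos_of_ne_zero hB0) (sm_dvd hB0))
      (sm_pos _ _ _)).ne'

theorem ep_rho {p : Prm} {N : ℕ} {r : Rl} (h : 0 < rP r) : ep p (rP r) = ep p (rho p N r) := by
  have h1 := rho_mul (p := p) (N := N) h
  have h2 : rho p N r ≠ 0 := by
    intro h0
    rw [h0, zero_mul] at h1
    omega
  conv_lhs => rw [← h1]
  rw [ep_mul p h2 (sm_pos _ _ _).ne', ep_sm, mul_one]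

theorem sm_le_of_dvd {p : Prm} {N a b : ℕ} (h : a ∣ b) (hb : b ≠ 0) : sm p N a ≤ sm p N b := by
  obtain ⟨c, rfl⟩ := h
  have ha : a ≠ 0 := fun h => hb (by rw [h, zero_mul])
  have hc : c ≠ 0 := fun h => hb (by rw [h, mul_zero])
  rw [sm_mul ha hc]
  exact Nat.le_mul_of_pos_right _ (sm_pos _ _ _)

/-- a nongeneric pair with the same `M`, `ρ` is in `NGp` -/
theorem mem_NGp {p : Prm} {N : ℕ} (hz : 1 ≤ zz p N) {r r' : Rl} (h : r ∈ RG p N)
    (h' : r' ∈ RG p N) (hM : rM r = rM r') (hρ : rho p N r = rho p N r') (hne : r ≠ r')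
    (hgp : ¬ gp p N (rG r) (rX r) (rG r') (rX r')) : (r, r') ∈ NGp p N := by
  have f := fct h
  have f' := fct h'
  have hY : (1 : ℝ) ≤ Y2 p N := by
    unfold Y2
    exact one_le_pow₀ hz
  have hb : ∀ s : Rl, Fct p N s → (sm p N (rP s) : ℝ) ≤ Y2 p N * zz p N ^ (4 * p.K) := by
    intro s hs
    have h1 : (sm p N (rP s) : ℝ) ≤ sm p N (rM s ^ 2 + aa) := by
      exact_mod_cast sm_le_of_dvd hs.dvd (by have h0 : 0 < aa := Aa.ha; positivity)
    have h2 : (0 : ℝ) ≤ zz p N ^ (4 * p.K) := by positivity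
    nlinarith [hs.smle]
  unfold NGp
  rw [mem_filter, mem_product]
  refine ⟨⟨h, h'⟩, hM, hne, ?_, ⟨sm p N (rP r'), sm p N (rP r), sm_pos _ _ _, sm_pos _ _ _,
    hb r' f', hb r f, ?_⟩, ?_⟩
  · rw [ep_rho (N := N) f.P0, ep_rho (N := N) f'.P0, hρ]
  · change rP r * sm p N (rP r') = rP r' * sm p N (rP r)
    conv_lhs => rw [← rho_mul (p := p) (N := N) f.P0]
    conv_rhs => rw [← rho_mul (p := p) (N := N) f'.P0, ← hρ]
    ring
  · unfold gp at hgp
    push Not at hgp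
    obtain ⟨l, h1, h2, h3⟩ := hgp
    exact ⟨l, h1, h2, h3⟩

/-! ## Real algebra -/

theorem final_ineq {S A N : ℝ} (hN : 0 ≤ N) (hS : 0 ≤ S) {D : ℝ}
    (h : S ≤ D * (Real.sqrt (9 * N * S) + A * N)) : S ≤ (9 * D ^ 2 + 2 * D * A) * N := by
  have h1 : D * Real.sqrt (9 * N * S) ≤ 9 / 2 * D ^ 2 * N + S / 2 := by
    have h2 : Real.sqrt (9 * N * S) = 3 * Real.sqrt N * Real.sqrt S := by
      rw [Real.sqrt_mul (by positivity), Real.sqrt_mul (by norm_num),
        show (9 : ℝ) = 3 ^ 2 by norm_num, Real.sqrt_sq (by norm_num)]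
    rw [h2]
    have h3 := Real.sq_sqrt hN
    have h4 := Real.sq_sqrt hS
    nlinarith [sq_nonneg (3 * D * Real.sqrt N - Real.sqrt S)]
  have h5 : S ≤ 9 / 2 * D ^ 2 * N + S / 2 + D * (A * N) := by
    calc S ≤ D * (Real.sqrt (9 * N * S) + A * N) := h
      _ = D * Real.sqrt (9 * N * S) + D * (A * N) := by ring
      _ ≤ _ := by linarith
  nlinarith

end I1

open I1 KK

attribute [local irreducible] RG NGp GP

/-- the pairs with the same `M`, `ρ` -/
theorem I1.pairs_le {p : Prm} {N : ℕ} {c : Wts} (hc : c.ok) (hz : 1 ≤ zz p N) {C : ℕ}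
    (hC : ∀ M : ℕ, M ≤ 8 * N → tame p (M ^ 2 + aa) →
      ((M ^ 2 + aa) / sm p N (M ^ 2 + aa)).divisors.card ≤ C) :
    ∑ M ∈ range (8 * N + 1),
      (∑ r ∈ (RG p N).filter (fun r => rM r = M ∧ UW p N c r ≤ 1), UW p N c r) ^ 2 ≤
    C * (∑ r ∈ (RG p N).filter (fun r => UW p N c r ≤ 1), UW p N c r + ((NGp p N).card : ℝ) +
      ∑ t ∈ GP p N, UW p N c t.1 * UW p N c t.2) := by
  set U : Rl → ℝ := UW p N c with hU
  have hU0 : ∀ r, 0 ≤ U r := fun r => UW_nonneg p N hc r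
  set S : Finset Rl := (RG p N).filter (fun r => U r ≤ 1) with hS
  have hSR : ∀ r ∈ S, r ∈ RG p N := fun r hr => (mem_filter.1 hr).1
  set T : Finset (Rl × Rl) := (S ×ˢ S).filter
    (fun t => rM t.1 = rM t.2 ∧ rho p N t.1 = rho p N t.2) with hT
  have hTS : ∀ t ∈ T, (t.1 ∈ S ∧ t.2 ∈ S) ∧ rM t.1 = rM t.2 ∧ rho p N t.1 = rho p N t.2 := by
    intro t ht
    rw [hT, mem_filter, mem_product] at ht
    exact ht
  -- one `M`
  have hone : ∀ M ∈ range (8 * N + 1),
      (∑ r ∈ (RG p N).filter (fun r => rM r = M ∧ U r ≤ 1), U r) ^ 2 ≤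
        C * ∑ t ∈ T.filter (fun t => rM t.1 = M), U t.1 * U t.2 := by
    intro M hM
    set F : Finset Rl := (RG p N).filter (fun r => rM r = M ∧ U r ≤ 1) with hF
    have hFS : ∀ r, r ∈ F ↔ r ∈ S ∧ rM r = M := by
      intro r
      rw [hF, hS, mem_filter, mem_filter]
      tauto
    set dv := ((M ^ 2 + aa) / sm p N (M ^ 2 + aa)).divisors with hdv
    have hmaps : ∀ r ∈ F, rho p N r ∈ dv := by
      intro r hr
      obtain ⟨h1, h2⟩ := (hFS r).1 hr
      have h3 := rho_mem (fct (hSR r h1))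
      rw [h2] at h3
      exact h3
    have hmapsT : ∀ t ∈ T.filter (fun t => rM t.1 = M), rho p N t.1 ∈ dv := by
      intro t ht
      rw [mem_filter] at ht
      exact hmaps t.1 ((hFS _).2 ⟨(hTS t ht.1).1.1, ht.2⟩)
    have hsq : ∑ t ∈ T.filter (fun t => rM t.1 = M), U t.1 * U t.2 =
        ∑ ρ ∈ dv, (∑ r ∈ F.filter (fun r => rho p N r = ρ), U r) ^ 2 := by
      rw [← sum_fiberwise_of_maps_to hmapsT]
      refine sum_congr rfl fun ρ _ => ?_
      rw [sq, sum_mul_sum, ← sum_product']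
      refine sum_congr ?_ fun _ _ => rfl
      ext t
      simp only [mem_filter, mem_product, hFS]
      constructor
      · rintro ⟨⟨h1, h2⟩, h3⟩
        obtain ⟨⟨a1, a2⟩, a3, a4⟩ := hTS t h1
        exact ⟨⟨⟨a1, h2⟩, h3⟩, ⟨⟨a2, a3 ▸ h2⟩, a4 ▸ h3⟩⟩
      · rintro ⟨⟨⟨a1, a2⟩, a3⟩, ⟨b1, b2⟩, b3⟩
        refine ⟨⟨?_, a2⟩, a3⟩
        rw [hT, mem_filter, mem_product]
        exact ⟨⟨a1, b1⟩, a2.trans b2.symm, a3.trans b3.symm⟩
    rw [hsq]
    rcases F.eq_empty_or_nonempty with hemp | ⟨r₀, hr₀⟩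
    · rw [hemp, sum_empty]
      have : 0 ≤ ∑ ρ ∈ dv, (∑ r ∈ (∅ : Finset Rl).filter (fun r => rho p N r = ρ), U r) ^ 2 :=
        sum_nonneg fun _ _ => sq_nonneg _
      have hC0 : (0 : ℝ) ≤ C := Nat.cast_nonneg _
      have : 0 ≤ (C : ℝ) * ∑ ρ ∈ dv,
        (∑ r ∈ (∅ : Finset Rl).filter (fun r => rho p N r = ρ), U r) ^ 2 := mul_nonneg hC0 this
      simp
    · obtain ⟨h1, h2⟩ := (hFS r₀).1 hr₀
      have f := fct (hSR r₀ h1)
      have hcard : (dv.card : ℝ) ≤ C := by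
        have := hC M (by rw [← h2]; exact f.le) (by rw [← h2]; exact f.tm)
        exact_mod_cast this
      calc (∑ r ∈ F, U r) ^ 2 = (∑ ρ ∈ dv, ∑ r ∈ F.filter (fun r => rho p N r = ρ), U r) ^ 2 := by
            rw [sum_fiberwise_of_maps_to hmaps]
        _ ≤ dv.card * ∑ ρ ∈ dv, (∑ r ∈ F.filter (fun r => rho p N r = ρ), U r) ^ 2 :=
            sq_sum_le_card_mul_sum_sq
        _ ≤ C * ∑ ρ ∈ dv, (∑ r ∈ F.filter (fun r => rho p N r = ρ), U r) ^ 2 := by
            gcongr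
            
  -- all `M`
  have hmapsM : ∀ t ∈ T, rM t.1 ∈ range (8 * N + 1) := by
    intro t ht
    have := (fct (hSR t.1 (hTS t ht).1.1)).le
    rw [mem_range]
    omega
  have hall : ∑ M ∈ range (8 * N + 1),
      (∑ r ∈ (RG p N).filter (fun r => rM r = M ∧ U r ≤ 1), U r) ^ 2 ≤
        C * ∑ t ∈ T, U t.1 * U t.2 := by
    rw [← sum_fiberwise_of_maps_to hmapsM, mul_sum]
    exact sum_le_sum hone
  refine hall.trans (mul_le_mul_of_nonneg_left ?_ (Nat.cast_nonneg _))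
  -- the three kinds of pairs
  have hsplit : ∑ t ∈ T, U t.1 * U t.2 ≤ ∑ t ∈ T.filter (fun t => t.1 = t.2), U t.1 * U t.2 +
      ∑ t ∈ T.filter (fun t => t.1 ≠ t.2 ∧ ¬ gp p N (rG t.1) (rX t.1) (rG t.2) (rX t.2)),
        U t.1 * U t.2 +
      ∑ t ∈ T.filter (fun t => gp p N (rG t.1) (rX t.1) (rG t.2) (rX t.2)), U t.1 * U t.2 := by
    simp only [sum_filter]
    rw [← sum_add_distrib, ← sum_add_distrib]
    refine sum_le_sum fun t _ => ?_
    have h0 : 0 ≤ U t.1 * U t.2 := mul_nonneg (hU0 _) (hU0 _)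
    have h00 : 0 ≤ U t.2 * U t.2 := mul_nonneg (hU0 _) (hU0 _)
    by_cases h1 : t.1 = t.2 <;> by_cases h2 : gp p N (rG t.1) (rX t.1) (rG t.2) (rX t.2) <;>
      simp only [h1, h2, ne_eq, not_true_eq_false, not_false_eq_true, and_self,
        and_false, false_and, if_true, if_false] <;>
      first | linarith | (split_ifs <;> linarith)
  refine hsplit.trans (add_le_add (add_le_add ?_ ?_) ?_)
  · calc ∑ t ∈ T.filter (fun t => t.1 = t.2), U t.1 * U t.2
        ≤ ∑ t ∈ T.filter (fun t => t.1 = t.2), U t.1 := by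
          refine sum_le_sum fun t ht => ?_
          rw [mem_filter] at ht
          have h1 := (mem_filter.1 (hTS t ht.1).1.2).2
          nlinarith [hU0 t.1, hU0 t.2]
      _ = ∑ r ∈ (T.filter (fun t => t.1 = t.2)).image Prod.fst, U r := by
          rw [sum_image]
          intro a ha b hb hab
          rw [coe_filter] at ha hb
          exact Prod.ext hab (ha.2.symm.trans (hab.trans hb.2))
      _ ≤ ∑ r ∈ S, U r := by
          refine sum_le_sum_of_subset_of_nonneg ?_ fun r _ _ => hU0 r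
          intro r hr
          rw [mem_image] at hr
          obtain ⟨t, ht, rfl⟩ := hr
          exact (hTS t (mem_filter.1 ht).1).1.1
  · calc _ ≤ ∑ t ∈ T.filter (fun t => t.1 ≠ t.2 ∧
          ¬ gp p N (rG t.1) (rX t.1) (rG t.2) (rX t.2)), (1 : ℝ) := by
          refine sum_le_sum fun t ht => ?_
          rw [mem_filter] at ht
          have h1 := (mem_filter.1 (hTS t ht.1).1.1).2
          have h2 := (mem_filter.1 (hTS t ht.1).1.2).2
          nlinarith [hU0 t.1, hU0 t.2]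
      _ = ((T.filter (fun t => t.1 ≠ t.2 ∧
          ¬ gp p N (rG t.1) (rX t.1) (rG t.2) (rX t.2))).card : ℝ) := by
          rw [sum_const, nsmul_eq_mul, mul_one]
      _ ≤ ((NGp p N).card : ℝ) := by
          have : (T.filter (fun t => t.1 ≠ t.2 ∧
            ¬ gp p N (rG t.1) (rX t.1) (rG t.2) (rX t.2))).card ≤ (NGp p N).card := by
            refine card_le_card fun t ht => ?_
            rw [mem_filter] at ht
            obtain ⟨⟨a1, a2⟩, a3, a4⟩ := hTS t ht.1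
            exact mem_NGp hz (hSR _ a1) (hSR _ a2) a3 a4 ht.2.1 ht.2.2
          exact_mod_cast this
  · refine sum_le_sum_of_subset_of_nonneg ?_ fun t _ _ => mul_nonneg (hU0 _) (hU0 _)
    intro t ht
    rw [mem_filter] at ht
    obtain ⟨⟨a1, a2⟩, a3, a4⟩ := hTS t ht.1
    unfold GP
    rw [mem_filter, mem_product]
    exact ⟨⟨hSR _ a1, hSR _ a2⟩, a3, a4, ht.2⟩

theorem specI1 : SpecI1 := by
  intro hNG hI2 hIG c hc
  have g := ((hNG.and hI2).and (hIG c hc)).and T4.Good.zeta_pos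
  refine g.mono ?_
  rintro p ⟨⟨⟨kNG, C, kC⟩, C', hC', kIG⟩, hζ⟩
  refine ⟨9 * (C : ℝ) ^ 2 + 2 * C * (1 + C') + 1, by positivity, ?_⟩
  filter_upwards [kNG, kC, kIG, eventually_ge_atTop 1] with N aNG aC aIG hN1
  have hNr : (1 : ℝ) ≤ N := by exact_mod_cast hN1
  have hz : 1 ≤ zz p N := by
    unfold zz
    exact Real.one_le_rpow hNr hζ.le
  have h1 := pairs_le hc hz aC
  set S₂ : ℝ := ∑ M ∈ range (8 * N + 1),
      (∑ r ∈ (RG p N).filter (fun r => rM r = M ∧ UW p N c r ≤ 1), UW p N c r) ^ 2 with hS₂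
  have hS₂0 : 0 ≤ S₂ := sum_nonneg fun _ _ => sq_nonneg _
  -- the first moment
  have h2 : ∑ r ∈ (RG p N).filter (fun r => UW p N c r ≤ 1), UW p N c r ≤
      Real.sqrt (9 * N * S₂) := by
    refine Real.le_sqrt_of_sq_le ?_
    have hmaps : ∀ r ∈ (RG p N).filter (fun r => UW p N c r ≤ 1), rM r ∈ range (8 * N + 1) := by
      intro r hr
      have := (fct (mem_filter.1 hr).1).le
      rw [mem_range]
      omega
    have h3 : ∑ r ∈ (RG p N).filter (fun r => UW p N c r ≤ 1), UW p N c r =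
        ∑ M ∈ range (8 * N + 1),
          ∑ r ∈ (RG p N).filter (fun r => rM r = M ∧ UW p N c r ≤ 1), UW p N c r := by
      rw [← sum_fiberwise_of_maps_to hmaps]
      refine sum_congr rfl fun M _ => sum_congr ?_ fun _ _ => rfl
      rw [filter_filter]
      refine filter_congr fun r _ => and_comm
    rw [h3]
    calc _ ≤ ((range (8 * N + 1)).card : ℝ) * S₂ := sq_sum_le_card_mul_sum_sq
      _ ≤ 9 * N * S₂ := by
        rw [card_range]
        push_cast
        gcongr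
        linarith
  have h4 : ((NGp p N).card : ℝ) ≤ N := by
    refine aNG.trans ?_
    have : zz p N ^ (-(1 / 2) : ℝ) ≤ 1 :=
      Real.rpow_le_one_of_one_le_of_nonpos hz (by norm_num)
    calc (N : ℝ) * zz p N ^ (-(1 / 2) : ℝ) ≤ N * 1 := by gcongr
      _ = N := mul_one _
  have h5 : S₂ ≤ (9 * (C : ℝ) ^ 2 + 2 * C * (1 + C')) * N := by
    refine final_ineq (by linarith) hS₂0 (h1.trans ?_)
    refine mul_le_mul_of_nonneg_left ?_ (Nat.cast_nonneg _)
    linarith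
  refine h5.trans (mul_le_mul_of_nonneg_right ?_ (by linarith))
  linarith

end Pool.Agent.Lib.MP391708.TF.I
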