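import Pool.Agent.Lib.MP_391708_nt.TF.I4b
import Pool.Agent.Lib.MP_391708_nt.T1.GoodL

/-!
# Group I, module I4: from relations to data
-/

set_option autoImplicit false

namespace Pool.Agent.Lib.MP391708.TF.I

open Finset Filter Topology
open Pool.Agent.Lib.MP391708.Eqd (V cross pairs)
open scoped Classical

variable [Pool.Agent.Lib.MP391708.TF.Aa]

attribute [local irreducible] RG S2 DS CS Gam dtbox dbox rbox

namespace I4M

open I4bM

theorem mem_RG {p : Prm} {N : ℕ} {r : Rl} : r ∈ RG p N ↔ r ∈ rbox (10000 * (N + 1) ^ 2) ∧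
    (IsR r ∧ small p r ∧ N ≤ 2 * rM r ∧ rM r ≤ 8 * N ∧
  (rM r : ℤ) ≤ 3 * (|rD r| * rP r) ∧ |rD r| * rP r ≤ 10 * rM r ∧
  |D2 r| * rQ r * rM r ≤ 10 * ((rM r : ℤ) ^ 2 + aa) ∧
  rX r ≤ 100 * rG r ∧ rG r ≤ 100 * rX r ∧
  Squarefree (rG r) ∧ Squarefree (rX r) ∧ IsCoprime (rD r) (rG r : ℤ) ∧
  (∀ l : ℕ, l.Prime → (l : ℤ) ∣ rD r → l ∣ rQ r → l ≤ p.E) ∧
  (∀ l ∈ PP p N, ¬ l ^ 2 ∣ rM r ^ 2 + aa) ∧
  (sm p N (rM r ^ 2 + aa) : ℝ) ≤ zz p N ^ (4 * p.K) ∧ (sm p N (rX r) : ℝ) ≤ zz p N ^ (4 * p.K) ∧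
  Y1 p N / zz p N ^ (4 * p.K) ≤ (|rD r| : ℝ) ∧ (|rD r| : ℝ) ≤ Y2 p N * zz p N ^ (4 * p.K) ∧
  Y1 p N * Y3 p N ≤ 10 * (rG r : ℝ) ∧
  (rG r : ℝ) ≤ 10 * (Y2 p N * Y4 p N * zz p N ^ (4 * p.K))) := by
  unfold RG
  rw [mem_filter]

section
variable {p : Prm} {N : ℕ}

theorem mem_PP_of_dvd_sm {l n : ℕ} (hl : l.Prime) (h : l ∣ sm p N n) : l ∈ PP p N := by
  unfold sm at h
  obtain ⟨l', hl', h1⟩ := (Prime.dvd_finsetProd_iff hl.prime _).1 h
  have h2 : l ∣ l' := hl.dvd_of_dvd_pow h1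
  have h3 : l = l' := (Nat.prime_dvd_prime_iff_eq hl (prime_of_mem_PP hl')).1 h2
  rwa [h3]

theorem not_dvd_div_sm {l n : ℕ} (hl : l ∈ PP p N) (hn : n ≠ 0) : ¬ l ∣ n / sm p N n := by
  intro h
  have hlp := prime_of_mem_PP hl
  have h1 : l ^ n.factorization l ∣ sm p N n := by
    unfold sm
    exact Finset.dvd_prod_of_mem (fun l => l ^ n.factorization l) hl
  have h2 : l ^ (n.factorization l + 1) ∣ n := by
    rw [pow_succ, ← Nat.mul_div_cancel' (sm_dvd (p := p) (N := N) hn)]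
    have h3 := Nat.mul_dvd_mul h1 h
    rwa [Nat.mul_div_cancel' (sm_dvd (p := p) (N := N) hn)] at h3 ⊢
  exact Nat.pow_succ_factorization_not_dvd hn hlp h2

omit [Pool.Agent.Lib.MP391708.TF.Aa] in
theorem prime_le_dvd_W0 {l : ℕ} (hl : l.Prime) (hE : l ≤ p.E) : l ∣ W0 p := by
  unfold W0
  refine Dvd.dvd.trans ?_ (dvd_pow_self _ (by have := hl.pos; omega))
  unfold primorial
  exact Finset.dvd_prod_of_mem (fun l => l) (mem_filter.2 ⟨mem_range.2 (by omega), hl⟩)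

end

end I4M

variable [Pool.Agent.Lib.MP391708.TF.Frm]

open I4bM I4M in
theorem specI4 (h4a : SpecI4a) : SpecI4 := by
  refine (T4.Good.and h4a Bs.good_aa).mono ?_
  rintro p ⟨h, hE⟩
  filter_upwards [h] with N h
  intro r hr x hx hxM hxd
  obtain ⟨hbox, hR, hsm, hN1, hN2, hw1, hw2, hw3, hXG, hGX, hGs, hXs, hDG, hDQ, hsq, hz1, hz2, hz3, hz4,
    hz5, hz6⟩ := mem_RG.1 hr
  obtain ⟨hG0, hP0, hQ0, hD0, hX0, hGPQ, hDX, hXF, hcop⟩ := hR
  obtain ⟨hW1, hW2, hW3, htame⟩ := hsm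
  set t : Dt := dat p N r with ht
  set P := rP r with hP
  set G := rG r with hG
  set Q := rQ r with hQ
  set M := rM r with hM
  set X := rX r with hX
  set s := sm p N P with hs
  have hs0 : 0 < s := sm_pos p N P
  have hsP : s ∣ P := sm_dvd hP0.ne'
  have hsr : s * (P / s) = P := Nat.mul_div_cancel' hsP
  have hM0 : 0 < M := by
    rcases Nat.eq_zero_or_pos M with h0 | h0
    · exfalso
      rw [h0] at hw2 hw1 hGPQ
      have h1 : |rD r| * (P : ℤ) ≤ 0 := by simpa using hw2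
      have h2 : 0 < |rD r| * (P : ℤ) := mul_pos (abs_pos.2 hD0) (by exact_mod_cast hP0)
      omega
    · exact h0
  have hxM0 : 0 < mm x := by rw [hxM]; exact_mod_cast hM0
  obtain ⟨e1, e2, e3, e4, hd0, he0⟩ := nat_eq hx hxM0
  have hm : (mm x).toNat = M := by rw [hxM]; exact Int.toNat_natCast M
  have hdn : (dd x).toNat = P / s := by
    rw [hxd]
    exact Int.toNat_natCast _
  have hen : (ee x).toNat = s * G * Q := by
    have h1 : (P / s) * (ee x).toNat = (P / s) * (s * G * Q) := by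
      rw [← hdn, ← e4, hm, ← hGPQ, hdn]
      conv_lhs => rw [← hsr]
      ring
    rw [hdn] at hd0
    exact Nat.eq_of_mul_eq_mul_left hd0 h1
  have hsPM : P ∣ M ^ 2 + aa := by
    rw [← hGPQ]
    exact (Dvd.intro_left _ rfl).mul_right _
  have hsM : s ∣ M ^ 2 + aa := hsP.trans hsPM
  -- the data
  have tG_eq : tG t = G := rfl
  have tK_eq : tK t = s := rfl
  have tD_eq : tD t = rD r := rfl
  have tX_eq : tX t = X := rfl
  have tE_eq : tE t = D2 r := rfl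
  have hrel : rel x t = r := by
    have h1 : r = (M, G, P, Q, rD r, X) := rfl
    have h2 : tK t * (dd x).toNat = P := by rw [tK_eq, hdn, hsr]
    have h3 : (ee x).toNat / (tK t * tG t) = Q := by
      rw [hen, tK_eq, tG_eq]
      exact Nat.mul_div_cancel_left _ (Nat.mul_pos hs0 hG0)
    show ((mm x).toNat, tG t, tK t * (dd x).toNat, (ee x).toNat / (tK t * tG t), tD t, tX t) = r
    rw [h2, h3, hm]
    exact h1.symm
  have hK1 : ∀ l : ℕ, l.Prime → l ∣ s → l ∈ PP p N := fun l hl h => mem_PP_of_dvd_sm hl h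
  have hcop2 : Nat.Coprime s G := by
    refine Nat.coprime_of_dvd fun l hl h1 h2 => ?_
    apply hsq l (hK1 l hl h1)
    rw [← hGPQ, pow_two]
    exact (Nat.mul_dvd_mul h2 (h1.trans hsP)).mul_right _
  have hXF1 : (X : ℤ) ∣ F1 r := hXF
  have hPF : (P : ℤ) * F1 r = (P * rD r - M) ^ 2 + aa := by
    have h1 : ((G * P * Q : ℕ) : ℤ) = ((M ^ 2 + aa : ℕ) : ℤ) := by rw [hGPQ]
    push_cast at h1
    show (P : ℤ) * ((P : ℤ) * rD r ^ 2 - 2 * (M : ℤ) * rD r + (G : ℤ) * (Q : ℤ)) = _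
    linear_combination h1
  have hX4 : ∀ l : ℕ, l.Prime → l ∣ X → spl l := by
    intro l hl hlX
    have h2 : ¬ l ∣ 2 * aa := by
      refine Bs.not_dvd_of_lt hE ?_
      by_contra hlt
      push Not at hlt
      have h3 : l ∣ Nat.gcd (G * X) (W0 p) :=
        Nat.dvd_gcd (hlX.mul_left _) (prime_le_dvd_W0 hl hlt)
      rw [hW3] at h3
      exact hl.one_lt.ne' (Nat.dvd_one.1 h3)
    refine Bs.spl_of_dvd_int hl h2 (M := P * rD r - M) ?_
    rw [← hPF]
    refine Dvd.dvd.mul_left (dvd_trans ?_ hXF1) _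
    exact_mod_cast hlX
  have hsmle : (s : ℝ) ≤ zz p N ^ (4 * p.K) := by
    refine le_trans ?_ hz1
    have h1 : sm p N (M ^ 2 + aa) = sm p N G * s * sm p N Q := by
      rw [← hGPQ, sm_mul (Nat.mul_pos hG0 hP0).ne' hQ0.ne', sm_mul hG0.ne' hP0.ne']
    have h2 : s ∣ sm p N (M ^ 2 + aa) := by
      rw [h1]
      exact (Dvd.intro_left _ rfl).mul_right _
    exact_mod_cast Nat.le_of_dvd (sm_pos _ _ _) h2
  have hbox2 : t ∈ dtbox (10000 * (N + 1) ^ 2) := by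
    unfold rbox at hbox
    simp only [mem_product] at hbox
    obtain ⟨-, b2, b3, -, b5, b6⟩ := hbox
    unfold dtbox
    simp only [mem_product]
    refine ⟨b2, ?_, b5, b6⟩
    rw [mem_range] at b3 ⊢
    exact lt_of_le_of_lt (Nat.le_of_dvd hP0 hsP) b3
  have htDS : t ∈ DS p N := by
    rw [mem_DS]
    refine ⟨hbox2, hG0, hs0, hD0, hX0, hDX, hcop, hW1, hW2, hW3, hXG, hGX, hGs, hXs, hDG, hX4, ?_, ?_,
      hcop2, hsmle, hz2, hz3, hz4, hz5, hz6⟩
    · show Squarefree s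
      rw [Nat.squarefree_iff_prime_squarefree]
      rintro l hl h1
      apply hsq l (hK1 l hl (dvd_trans (Dvd.intro _ rfl) h1))
      rw [pow_two]
      exact h1.trans hsM
    · exact sm_self hs0.ne' hK1
  -- CC
  have hCee : ((tK t * tG t : ℕ) : ℤ) ∣ ee x := by
    rw [← e3]
    have : tK t * tG t ∣ (ee x).toNat := by
      rw [hen, tK_eq, tG_eq]
      exact Dvd.intro _ rfl
    exact_mod_cast this
  obtain ⟨-, hF1, -⟩ := F_eq hx hxM0 hCee
  rw [hrel] at hF1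
  have hmZ : mm x ^ 2 + aa = ((M ^ 2 + aa : ℕ) : ℤ) := by
    rw [hxM]; push_cast; ring
  have hCC : CC p N t x := by
    refine ⟨hCee, ?_, ?_, ?_⟩
    · intro l hl _ h1
      apply hsq l hl
      rw [hmZ] at h1
      exact_mod_cast h1
    · rw [← hF1]
      push_cast
      refine mul_dvd_mul dvd_rfl (dvd_trans ?_ hXF1)
      exact_mod_cast sm_dvd hX0.ne'
    · intro l hl hlE h1
      apply htame l hl hlE
      rw [hmZ] at h1
      exact_mod_cast h1
  have hQQ : QQ p N t x := by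
    intro l hl
    have hlp := prime_of_mem_PP hl
    refine ⟨?_, ?_⟩
    · intro h1
      rw [hxd] at h1
      exact not_dvd_div_sm hl hP0.ne' (by exact_mod_cast h1)
    · intro h1
      by_contra hcon
      push Not at hcon
      obtain ⟨h2, h3⟩ := hcon
      rw [← e3] at h3
      have h4 : l ∣ s * G * Q := by
        rw [← hen]
        exact_mod_cast h3
      rcases hlp.dvd_mul.1 h4 with h5 | h5
      · exact h2 h5
      · have h6 := hDQ l hlp h1 h5
        have h7 := (mem_PP.1 hl).2.2.2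
        omega
  have hKd : (tK t : ℤ) * dd x = P := by
    rw [← e2, hdn, tK_eq]
    exact_mod_cast hsr
  have hwin : win N t x := by
    rw [h t htDS x hxM0 (by rw [hxM]; exact_mod_cast hN2) (dd_pos hx), hKd, hxM, tD_eq, tE_eq, tG_eq]
    refine ⟨hw1, hw2, ?_⟩
    have h1 : ((G * P * Q : ℕ) : ℤ) = ((M ^ 2 + aa : ℕ) : ℤ) := by rw [hGPQ]
    push_cast at h1
    have h2 : (|D2 r| * M) * Q ≤ (10 * (G * P)) * (Q : ℤ) := by
      have h3 : (|D2 r| * M) * Q = |D2 r| * Q * M := by ring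
      rw [h3]
      refine hw3.trans (le_of_eq ?_)
      rw [← h1]
      ring
    exact le_of_mul_le_mul_right h2 (by exact_mod_cast hQ0)
  refine ⟨htDS, hrel, hCC, hQQ, hwin, ?_, ?_⟩
  · show ((XR p N t : ℕ) : ℤ) ∣ qf x (s * rD r) (-1)
    have h1 : (tK t : ℤ) * tD t = s * rD r := rfl
    rw [← h1, ← hF1]
    refine Dvd.dvd.mul_left (dvd_trans ?_ hXF1) _
    have h2 : XR p N t ∣ X := Nat.div_dvd_of_dvd (sm_dvd hX0.ne')
    exact_mod_cast h2
  · intro c
    have h1 := (specI4b p N c t x htDS hx hxM0 hCC hQQ).1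
    rw [← h1, hrel]
    unfold UW AA
    rw [tG_eq, tX_eq, tD_eq]
    ring

end Pool.Agent.Lib.MP391708.TF.I
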