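import Pool.Agent.Lib.MP_391708_nt.TF.I4b
import Pool.Agent.Lib.MP_391708_nt.T1.GoodL

/-!
# Group I, module I5: from data to `(D, X)`-sums
-/

set_option autoImplicit false
set_option linter.constructorNameAsVariable false

namespace Pool.Agent.Lib.MP391708.TF.I

variable [Pool.Agent.Lib.MP391708.TF.Aa] [Pool.Agent.Lib.MP391708.TF.Frm]

open Finset Filter Topology
open Pool.Agent.Lib.MP391708.Eqd (V cross pairs)
open scoped Classical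

namespace I5M

theorem mem_S2 {p : Prm} {N M G P Q : ℕ} {t : ℤ × ℕ} : t ∈ S2 p N M G P Q ↔ t ∈ dbox N ∧
    (DX p M G P Q t ∧ (M : ℤ) ≤ 3 * (|t.1| * P) ∧ |t.1| * P ≤ 10 * (M : ℤ) ∧
  |D2 (M, G, P, Q, t)| * Q * M ≤ 10 * ((M : ℤ) ^ 2 + aa) ∧
  t.2 ≤ 100 * G ∧ G ≤ 100 * t.2 ∧ (∀ l ∈ PP p N, (l : ℤ) ∣ t.1 → ¬ l ∣ Q) ∧
  (sm p N t.2 : ℝ) ≤ zz p N ^ (4 * p.K)) := by
  unfold S2
  rw [mem_filter]

theorem mem_dbox_of {N : ℕ} {t : Dt} (h : t ∈ dtbox (10000 * (N + 1) ^ 2)) :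
    (tD t, tX t) ∈ dbox N := by
  unfold dtbox at h
  unfold dbox
  rw [mem_product, mem_product, mem_product] at h
  rw [mem_product]
  exact h.2.2

theorem mem_CS {p : Prm} {N : ℕ} {x : VV} {s : ℕ × ℕ} : s ∈ CS p N x ↔
    s ∈ (ee x).toNat.divisors ×ˢ (ee x).toNat.divisors ∧
    (Squarefree s.1 ∧ sm p N s.1 = s.1 ∧ Squarefree s.2 ∧ s.1 * s.2 ∣ (ee x).toNat ∧
    ∀ l ∈ PP p N, l ∣ s.1 * s.2 → ¬ ((l : ℤ) ^ 2 ∣ mm x ^ 2 + aa)) := by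
  unfold CS
  rw [mem_filter]

theorem zz_pos {p : Prm} {N : ℕ} (hN : 0 < N) : 0 < zz p N := by
  unfold zz
  exact Real.rpow_pos_of_pos (by exact_mod_cast hN) _

end I5M

attribute [local irreducible] RG S2 DS CS Gam dtbox dbox rbox

open I4bM I5M in
theorem specI5 (h4a : SpecI4a) (h4b : SpecI4b) : SpecI5 := by
  refine h4a.mono ?_
  intro p h
  filter_upwards [h, eventually_ge_atTop 1] with N h hN1
  intro t ht x hx hM1 hM2 hC hQ hw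
  have hM0 : 0 < mm x := by
    have : (1 : ℤ) ≤ N := by exact_mod_cast hN1
    omega
  have hd0' := dd_pos hx
  obtain ⟨w1, w2, w3⟩ := (h t ht x hM0 hM2 hd0').1 hw
  obtain ⟨i1, i2⟩ := h4b p N ⟨1, 1, 1, 1, 1, 1⟩ t x ht hx hM0 hC hQ
  obtain ⟨e1, e2, e3, e4, hd0, he0⟩ := nat_eq hx hM0
  have ht' := ht
  obtain ⟨hbox, hG0, hK0, hD0, hX0, hDX, hcop, hW1, hW2, hW3, hXG, hGX, hGs, hXs, hDG, hX4, hKs,
    hKsm, hKG, hz1, hz2, hz3, hz4, hz5, hz6⟩ := mem_DS.1 ht'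
  obtain ⟨hC1, hC2, hC3, hC4⟩ := id hC
  obtain ⟨hQe, hF1, hF2⟩ := F_eq hx hM0 hC1
  set d := (dd x).toNat with hd
  set e := (ee x).toNat with he
  set m := (mm x).toNat with hm
  set Qn := e / (tK t * tG t) with hQn
  have hrP : rP (rel x t) = tK t * d := rfl
  have hrQ : rQ (rel x t) = Qn := rfl
  have hrM : rM (rel x t) = m := rfl
  have hrX : rX (rel x t) = tX t := rfl
  have hrel : rel x t = (m, tG t, tK t * d, Qn, tD t, tX t) := rfl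
  have hm1 : N ≤ 2 * m := by
    have : (N : ℤ) ≤ 2 * (m : ℤ) := by rw [e1]; exact hM1
    exact_mod_cast this
  have hm2 : m ≤ 8 * N := by
    have : (m : ℤ) ≤ 8 * (N : ℤ) := by rw [e1]; exact hM2
    exact_mod_cast this
  have hGPQ : tG t * (tK t * d) * Qn = m ^ 2 + aa := by
    rw [e4, ← hQe]; ring
  have hzz := zz_pos (p := p) hN1
  have hzK : 0 < zz p N ^ (4 * p.K) := pow_pos hzz _
  -- sizes of `P`
  have hw1 : (m : ℤ) ≤ 3 * (|tD t| * ((tK t * d : ℕ) : ℤ)) := by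
    rw [e1]; push_cast; rw [e2]; exact w1
  have hw2 : |tD t| * ((tK t * d : ℕ) : ℤ) ≤ 10 * (m : ℤ) := by
    rw [e1]; push_cast; rw [e2]; exact w2
  have hw3 : |tE t| * (m : ℤ) ≤ 10 * (tG t * ((tK t * d : ℕ) : ℤ)) := by
    rw [e1]; push_cast; rw [e2]; exact w3
  have hw1R : (m : ℝ) ≤ 3 * (|(tD t : ℝ)| * ((tK t * d : ℕ) : ℝ)) := by exact_mod_cast hw1
  have hw2R : |(tD t : ℝ)| * ((tK t * d : ℕ) : ℝ) ≤ 10 * (m : ℝ) := by exact_mod_cast hw2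
  have hP0 : (0 : ℝ) ≤ ((tK t * d : ℕ) : ℝ) := Nat.cast_nonneg _
  have hAdm : Adm p N m (tG t) (tK t * d) Qn := by
    refine ⟨hGPQ, hm1, hm2, hW3.coprime_mul_right, ?_, ?_, ?_, hz5, hz6⟩
    · intro l hl hlE hdv
      apply hC4 l hl hlE
      have h1 : ((l ^ p.E : ℕ) : ℤ) ∣ ((m ^ 2 + aa : ℕ) : ℤ) := by exact_mod_cast hdv
      push_cast at h1
      rwa [e1] at h1
    · have h1 : Y1 p N ≤ |(tD t : ℝ)| * zz p N ^ (4 * p.K) := by
        rwa [div_le_iff₀ hzK] at hz3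
      calc ((tK t * d : ℕ) : ℝ) * Y1 p N ≤
          ((tK t * d : ℕ) : ℝ) * (|(tD t : ℝ)| * zz p N ^ (4 * p.K)) :=
            mul_le_mul_of_nonneg_left h1 hP0
        _ = (|(tD t : ℝ)| * ((tK t * d : ℕ) : ℝ)) * zz p N ^ (4 * p.K) := by ring
        _ ≤ (10 * m) * zz p N ^ (4 * p.K) := mul_le_mul_of_nonneg_right hw2R hzK.le
        _ = _ := by ring
    · have h0 : 0 ≤ |(tD t : ℝ)| := abs_nonneg _
      calc (m : ℝ) ≤ 3 * (|(tD t : ℝ)| * ((tK t * d : ℕ) : ℝ)) := hw1R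
        _ ≤ 10 * (|(tD t : ℝ)| * ((tK t * d : ℕ) : ℝ)) := by nlinarith
        _ ≤ 10 * ((Y2 p N * zz p N ^ (4 * p.K)) * ((tK t * d : ℕ) : ℝ)) := by gcongr
        _ = _ := by ring
  have hQdvd : Qn ∣ e := ⟨tK t * tG t, by rw [← hQe]; ring⟩
  have hsq : ∀ l ∈ PP p N, l ∣ tK t * tG t → ¬ l ∣ Qn := by
    intro l hl h1 h2
    apply hC2 l hl h1
    have h3 : l ^ 2 ∣ m ^ 2 + aa := by
      rw [e4, ← hQe, pow_two]
      exact (Nat.mul_dvd_mul h1 h2).mul_left _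
    have h4 : ((l ^ 2 : ℕ) : ℤ) ∣ ((m ^ 2 + aa : ℕ) : ℤ) := by exact_mod_cast h3
    push_cast at h4
    rwa [e1] at h4
  have hS2 : (tD t, tX t) ∈ S2 p N m (tG t) (tK t * d) Qn := by
    rw [mem_S2]
    refine ⟨mem_dbox_of hbox, ?_, hw1, hw2, ?_, hXG, hGX, ?_, hz2⟩
    · refine ⟨hD0, hDX, hW1, hW2, hW3.coprime_mul_left, hXs, hX4, hcop, hDG⟩
    · have hD2 : D2 (m, tG t, tK t * d, Qn, (tD t, tX t)) = tE t := rfl
      rw [hD2]
      have h1 : |tE t| * (Qn : ℤ) * m = (|tE t| * (m : ℤ)) * Qn := by ring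
      have h2 : (|tE t| * (m : ℤ)) * Qn ≤ (10 * (tG t * ((tK t * d : ℕ) : ℤ))) * Qn :=
        mul_le_mul_of_nonneg_right hw3 (Int.natCast_nonneg _)
      have h3 : (10 * (tG t * ((tK t * d : ℕ) : ℤ))) * Qn = 10 * ((m : ℤ) ^ 2 + aa) := by
        have : ((tG t * (tK t * d) * Qn : ℕ) : ℤ) = ((m ^ 2 + aa : ℕ) : ℤ) := by rw [hGPQ]
        push_cast at this ⊢
        linear_combination 10 * this
      rw [h1]
      linarith
    · intro l hl h1 h2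
      rcases (hQ l hl).2 h1 with h3 | h3
      · exact hsq l hl h3 h2
      · apply h3
        rw [← e3]
        exact_mod_cast h2.trans hQdvd
  have hKGe : tK t * tG t ∣ e := ⟨Qn, hQe.symm⟩
  have hCS : (tK t, tG t) ∈ CS p N x := by
    rw [mem_CS]
    refine ⟨?_, hKs, hKsm, hGs, hKGe, hC2⟩
    rw [mem_product, Nat.mem_divisors, Nat.mem_divisors]
    exact ⟨⟨(Dvd.intro _ rfl).trans hKGe, he0.ne'⟩, (Dvd.intro_left _ rfl).trans hKGe, he0.ne'⟩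
  refine ⟨hAdm, hS2, hCS, ?_⟩
  intro c
  obtain ⟨j1, j2⟩ := h4b p N c t x ht hx hM0 hC hQ
  have hsmF : (sm p N (rX (rel x t)) : ℤ) ∣ F1 (rel x t) := by
    rw [hrX]
    rw [← hF1] at hC3
    push_cast at hC3
    exact (mul_dvd_mul_iff_left (by exact_mod_cast hK0.ne')).1 hC3
  rw [← j1, j2]
  unfold AA vh XR
  rw [if_pos hsmF]
  have k1 : rD (rel x t) = tD t := rfl
  have k2 : rX (rel x t) = tX t := rfl
  rw [k1, k2]
  ring

end Pool.Agent.Lib.MP391708.TF.I
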