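import Pool.Agent.Lib.MP_391708_nt.TF.ISm
import Pool.Agent.Lib.MP_391708_nt.TF.HBas
import Pool.Agent.Lib.MP_391708_nt.T1.GoodL

/-!
# Group I, module I6: the comparison lemma for pairs of data
-/

set_option autoImplicit false
set_option linter.constructorNameAsVariable false

namespace Pool.Agent.Lib.MP391708.TF.I

variable [Pool.Agent.Lib.MP391708.TF.Aa] [Pool.Agent.Lib.MP391708.TF.Frm]

open Finset Filter Topology
open Pool.Agent.Lib.MP391708.Eqd (V cross pairs)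
open scoped Classical

attribute [local irreducible] RG S2 DS CS Gam dtbox dbox rbox

noncomputable section

namespace I6M

/-- the conditions used below -/
structure SZ (p : Prm) (N : ℕ) (t : Dt) : Prop where
  G0 : 0 < tG t
  K0 : 0 < tK t
  D0 : tD t ≠ 0
  X0 : 0 < tX t
  cGX : Nat.Coprime (tG t) (tX t)
  cW : Nat.Coprime (tG t * tX t) (W0 p)
  XG : tX t ≤ 100 * tG t
  sqX : Squarefree (tX t)
  X4 : ∀ l : ℕ, l.Prime → l ∣ tX t → spl l
  smK : sm p N (tK t) = tK t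
  Kle : (tK t : ℝ) ≤ zz p N ^ (4 * p.K)
  sXle : (sm p N (tX t) : ℝ) ≤ zz p N ^ (4 * p.K)
  Dle : (|tD t| : ℝ) ≤ Y2 p N * zz p N ^ (4 * p.K)
  Gle : (tG t : ℝ) ≤ 10 * (Y2 p N * Y4 p N * zz p N ^ (4 * p.K))

lemma sz_of_mem {p : Prm} {N : ℕ} {t : Dt} (h : t ∈ DS p N) : SZ p N t := by
  unfold DS at h
  rw [mem_filter] at h
  obtain ⟨-, h1, h2, h3, h4, h5, h6, h7, h8, h9, h10, h11, h12, h13, h14, h15, h16, h17, h18, h19,
    h20, h21, h22, h23, h24⟩ := h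
  exact ⟨h1, h2, h3, h4, h6, h9, h10, h13, h15, h17, h19, h20, h22, h24⟩

variable {p : Prm} {N : ℕ} {t : Dt}

lemma W0_pos (p : Prm) : 0 < W0 p := by
  unfold W0
  exact pow_pos (primorial_pos _) _

lemma dvd_W0 {p : Prm} {l : ℕ} (hl : l.Prime) (h : l ≤ p.E) (hE : 1 ≤ p.E) : l ∣ W0 p := by
  unfold W0
  exact dvd_pow (hl.dvd_primorial_iff.2 h) (by omega)

lemma le_of_dvd_W0 {p : Prm} {l : ℕ} (hl : l.Prime) (h : l ∣ W0 p) : l ≤ p.E := by
  unfold W0 at h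
  exact hl.dvd_primorial_iff.1 (hl.dvd_of_dvd_pow h)

lemma XR_dvd (h : SZ p N t) : XR p N t ∣ tX t := by
  unfold XR
  exact Nat.div_dvd_of_dvd (sm_dvd h.X0.ne')

/-- the primes of the rough part -/
lemma ge_of_dvd_XR (h : SZ p N t) (hE : 1 ≤ p.E) {l : ℕ} (hl : l.Prime) (hd : l ∣ XR p N t) :
    zz p N ≤ (l : ℝ) ∧ spl l ∧ l ∣ tX t := by
  have h1 : l ∣ tX t := hd.trans (XR_dvd h)
  have h4 := h.X4 l hl h1
  refine ⟨?_, h4, h1⟩
  by_contra hlt
  push Not at hlt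
  have hlE : p.E < l := by
    by_contra hle
    push Not at hle
    have h2 := dvd_W0 hl hle hE
    have h3 : l ∣ Nat.gcd (tG t * tX t) (W0 p) := Nat.dvd_gcd (dvd_mul_of_dvd_right h1 _) h2
    rw [h.cW] at h3
    exact hl.one_lt.ne' (Nat.dvd_one.1 h3)
  have hP : l ∈ PP p N := mem_PP.2 ⟨hlt, hl, h4, hlE⟩
  unfold XR at hd
  exact not_dvd_div_sm h.X0.ne' hP hd

lemma rgh (h : SZ p N t) (hE : 1 ≤ p.E) : Rgh p N (XR p N t) := by
  refine ⟨h.sqX.squarefree_of_dvd (XR_dvd h), fun l hl hd => ?_⟩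
  obtain ⟨h1, h2, -⟩ := ge_of_dvd_XR h hE hl hd
  exact ⟨h1, h2⟩

lemma mt_pos (h : SZ p N t) : 0 < mt p N t := by
  unfold mt
  have h1 := W0_pos p
  have h2 := h.K0
  have h3 := h.G0
  have h4 := sm_pos (p := p) (N := N) (tX t)
  positivity

/-- a prime of `X_R` (for `t`) and a prime of `mt t'` -/
lemma not_dvd_mt (h' : SZ p N t) {l : ℕ} (hl : l.Prime) (hz : zz p N ≤ (l : ℝ))
    (hzE : (p.E : ℝ) < zz p N) (hG : ¬ l ∣ tG t) : ¬ l ∣ mt p N t := by
  intro hd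
  have hnP : l ∉ PP p N := by
    intro hP
    exact absurd (mem_PP.1 hP).1 (not_lt.2 hz)
  unfold mt at hd
  rcases hl.dvd_mul.1 hd with h1 | h1
  · rcases hl.dvd_mul.1 h1 with h2 | h2
    · have h3 := le_of_dvd_W0 hl h2
      have h4 : (l : ℝ) ≤ p.E := by exact_mod_cast h3
      linarith
    · rcases hl.dvd_mul.1 (hl.dvd_of_dvd_pow h2) with h3 | h3
      · rw [← h'.smK] at h3
        exact hnP (mem_PP_of_dvd_sm hl h3).1
      · exact hG h3
  · exact hnP (mem_PP_of_dvd_sm hl h1).1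

/-! ## sizes -/

lemma T_bounds (K r k : ℕ) : let T := (K + 1) * (r + 1) ^ 2 * (k + 1)
    1 ≤ T ∧ K ≤ T ∧ r * k ≤ T ∧ r ^ 2 * k ≤ T := by
  intro T
  have a1 : 1 ≤ (r + 1) ^ 2 * (k + 1) := Nat.mul_pos (by positivity) (by positivity)
  have a2 : (r + 1) ^ 2 * (k + 1) ≤ T := by
    have : 1 * ((r + 1) ^ 2 * (k + 1)) ≤ (K + 1) * ((r + 1) ^ 2 * (k + 1)) :=
      Nat.mul_le_mul_right _ (by omega)
    calc (r + 1) ^ 2 * (k + 1) = 1 * ((r + 1) ^ 2 * (k + 1)) := by ring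
      _ ≤ (K + 1) * ((r + 1) ^ 2 * (k + 1)) := this
      _ = T := by ring
  refine ⟨a1.trans a2, ?_, ?_, ?_⟩
  · have : (K + 1) * 1 ≤ (K + 1) * ((r + 1) ^ 2 * (k + 1)) := Nat.mul_le_mul_left _ a1
    calc K ≤ (K + 1) * 1 := by omega
      _ ≤ (K + 1) * ((r + 1) ^ 2 * (k + 1)) := this
      _ = T := by ring
  · refine le_trans ?_ a2
    nlinarith [Nat.zero_le r, Nat.zero_le k, Nat.zero_le (r * k), Nat.zero_le (r ^ 2 * k)]
  · refine le_trans ?_ a2
    nlinarith [Nat.zero_le r, Nat.zero_le k, Nat.zero_le (r * k), Nat.zero_le (r ^ 2 * k)]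

lemma G_le (h : SZ p N t) (hz : 1000 ≤ zz p N) :
    (tG t : ℝ) ≤ zz p N ^ (1 + p.r * p.k + 10 * p.r ^ 2 * p.k + 4 * p.K) := by
  refine le_trans h.Gle ?_
  have hz0 : 0 < zz p N := by linarith
  have e : zz p N ^ (1 + p.r * p.k + 10 * p.r ^ 2 * p.k + 4 * p.K) =
      zz p N * (Y2 p N * Y4 p N * zz p N ^ (4 * p.K)) := by
    unfold Y2 Y4
    rw [pow_add, pow_add, pow_add]
    ring
  rw [e]
  refine mul_le_mul_of_nonneg_right (by linarith) ?_
  unfold Y2 Y4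
  positivity

lemma mt_le (h : SZ p N t) (hz : 1000 ≤ zz p N) (hW : (W0 p : ℝ) ≤ zz p N) :
    (mt p N t : ℝ) ≤ zz p N ^ (3 + 20 * p.K + 2 * (p.r * p.k) + 20 * (p.r ^ 2 * p.k)) := by
  have hz0 : 0 < zz p N := by linarith
  unfold mt
  push_cast
  have hG := G_le h hz
  calc (W0 p : ℝ) * ((tK t : ℝ) * tG t) ^ 2 * sm p N (tX t)
      ≤ zz p N * (zz p N ^ (4 * p.K) * zz p N ^ (1 + p.r * p.k + 10 * p.r ^ 2 * p.k + 4 * p.K)) ^ 2
        * zz p N ^ (4 * p.K) := by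
        have h1 := h.Kle
        have h2 := h.sXle
        gcongr
    _ = zz p N ^ (3 + 20 * p.K + 2 * (p.r * p.k) + 20 * (p.r ^ 2 * p.k)) := by
        rw [← pow_add, ← pow_mul, ← pow_succ', ← pow_add]
        congr 1
        ring

lemma mtmt_le {t' : Dt} (h : SZ p N t) (h' : SZ p N t') (hz : 1000 ≤ zz p N)
    (hW : (W0 p : ℝ) ≤ zz p N) : ((mt p N t * mt p N t' : ℕ) : ℝ) ≤ ML p N := by
  have hz1 : 1 ≤ zz p N := by linarith
  rw [Nat.cast_mul]
  have h1 := mt_le h hz hW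
  have h2 := mt_le h' hz hW
  refine le_trans (mul_le_mul h1 h2 (by positivity) (by positivity)) ?_
  rw [← pow_add]
  unfold ML
  refine pow_le_pow_right₀ hz1 ?_
  obtain ⟨a1, a2, a3, a4⟩ := T_bounds p.K p.r p.k
  set T := (p.K + 1) * (p.r + 1) ^ 2 * (p.k + 1) with hT
  have e : 1000 * (p.K + 1) * (p.r + 1) ^ 2 * (p.k + 1) = 1000 * T := by rw [hT]; ring
  rw [e]
  omega

lemma XR_le (h : SZ p N t) (hz : 1000 ≤ zz p N) : (XR p N t : ℝ) ≤ ML p N := by
  have hz1 : 1 ≤ zz p N := by linarith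
  have h1 : (XR p N t : ℝ) ≤ tX t := by
    exact_mod_cast Nat.le_of_dvd h.X0 (XR_dvd h)
  have h2 : (tX t : ℝ) ≤ 100 * tG t := by exact_mod_cast h.XG
  have hG := G_le h hz
  have h3 : (XR p N t : ℝ) ≤
      zz p N ^ (2 + p.r * p.k + 10 * p.r ^ 2 * p.k + 4 * p.K) := by
    calc (XR p N t : ℝ) ≤ 100 * tG t := h1.trans h2
      _ ≤ zz p N * zz p N ^ (1 + p.r * p.k + 10 * p.r ^ 2 * p.k + 4 * p.K) := by
          refine mul_le_mul (by linarith) hG (by positivity) (by linarith)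
      _ = zz p N ^ (2 + p.r * p.k + 10 * p.r ^ 2 * p.k + 4 * p.K) := by
          rw [← pow_succ']
          congr 1
          ring
  refine le_trans h3 ?_
  unfold ML
  refine pow_le_pow_right₀ hz1 ?_
  obtain ⟨a1, a2, a3, a4⟩ := T_bounds p.K p.r p.k
  set T := (p.K + 1) * (p.r + 1) ^ 2 * (p.k + 1) with hT
  have e : 1000 * (p.K + 1) * (p.r + 1) ^ 2 * (p.k + 1) = 1000 * T := by rw [hT]; ring
  rw [e]
  have e2 : 10 * p.r ^ 2 * p.k = 10 * (p.r ^ 2 * p.k) := by ring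
  rw [e2]
  omega

lemma wu_le (h : SZ p N t) : wu t ≤ 20 := by
  unfold wu
  have h1 : (1 : ℝ) ≤ |(tD t : ℝ)| := by
    have : (1 : ℤ) ≤ |tD t| := Int.one_le_abs h.D0
    exact_mod_cast this
  have h2 : (1 : ℝ) ≤ tK t := by exact_mod_cast h.K0
  have h3 : (1 : ℝ) ≤ |(tD t : ℝ)| * tK t := one_le_mul_of_one_le_of_one_le h1 h2
  rw [div_le_iff₀ (by linarith)]
  linarith

lemma wl_ge (h : SZ p N t) (hz : 1000 ≤ zz p N) (hN : 2 ≤ N) :
    1 / zz p N ^ (1 + p.r * p.k + 8 * p.K) ≤ wl N t := by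
  have hz0 : 0 < zz p N := by linarith
  have hN' : (2 : ℝ) ≤ N := by exact_mod_cast hN
  have h1 : (1 : ℝ) ≤ |(tD t : ℝ)| := by
    have : (1 : ℤ) ≤ |tD t| := Int.one_le_abs h.D0
    exact_mod_cast this
  have h2 : (1 : ℝ) ≤ tK t := by exact_mod_cast h.K0
  have h4 : (1 : ℝ) / 2 ≤ 1 - 1 / (N : ℝ) ^ 4 := by
    have : (1 : ℝ) / (N : ℝ) ^ 4 ≤ 1 / 2 := by
      rw [div_le_div_iff₀ (by positivity) (by norm_num)]
      have : (2 : ℝ) ^ 4 ≤ (N : ℝ) ^ 4 := by gcongr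
      linarith
    linarith
  have h5 : |(tD t : ℝ)| * tK t ≤ zz p N ^ (p.r * p.k + 8 * p.K) := by
    have e : zz p N ^ (p.r * p.k + 8 * p.K) = (Y2 p N * zz p N ^ (4 * p.K)) * zz p N ^ (4 * p.K) := by
      unfold Y2
      rw [← pow_add, ← pow_add]
      congr 1
      ring
    rw [e]
    have := h.Dle
    refine mul_le_mul ?_ h.Kle (by positivity) ?_
    · exact_mod_cast this
    · unfold Y2; positivity
  have h6 : 0 < |(tD t : ℝ)| * tK t := by positivity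
  unfold wl
  have h7 : 1 / (3 * |(tD t : ℝ)| * tK t) ≤
      max (1 / (3 * |(tD t : ℝ)| * tK t)) (|(tE t : ℝ)| / (10 * tG t * tK t)) := le_max_left _ _
  have h8 : 0 ≤ 1 / (3 * |(tD t : ℝ)| * tK t) := by positivity
  calc 1 / zz p N ^ (1 + p.r * p.k + 8 * p.K)
      ≤ 1 / 2 * (1 / (3 * |(tD t : ℝ)| * tK t)) := by
        rw [show (1 : ℝ) / 2 * (1 / (3 * |(tD t : ℝ)| * tK t)) = 1 / (6 * (|(tD t : ℝ)| * tK t)) by
          field_simp; norm_num]
        refine one_div_le_one_div_of_le (by positivity) ?_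
        rw [show 1 + p.r * p.k + 8 * p.K = (p.r * p.k + 8 * p.K) + 1 by ring, pow_succ']
        exact mul_le_mul (by linarith) h5 h6.le (by linarith)
    _ ≤ (1 - 1 / (N : ℝ) ^ 4) * (1 / (3 * |(tD t : ℝ)| * tK t)) :=
        mul_le_mul_of_nonneg_right h4 h8
    _ ≤ _ := mul_le_mul_of_nonneg_left h7 (by linarith)

lemma Gam_empty {N₁ : ℕ} {α β : ℝ} (h : β ≤ α) : Gam N₁ α β = ∅ := by
  rw [Finset.eq_empty_iff_forall_notMem]
  intro x hx
  obtain ⟨-, h1, -, h3, h4⟩ := H.mem_Gam hx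
  have : (0 : ℝ) < mm x := by
    have : (0 : ℤ) < mm x := by omega
    exact_mod_cast this
  nlinarith

lemma pcs_bounds {N₁ : ℕ} (hN : 4 ≤ N) (h : N₁ ∈ pcs N) : N ≤ 4 * N₁ ∧ N₁ ≤ 8 * N := by
  unfold pcs at h
  simp only [mem_insert, mem_singleton] at h
  omega

end I6M

open I6M in
theorem specI6 (hC : SpecCMP) (hL : SpecI6a) : SpecI6 := by
  obtain ⟨c₀, hc₀, hC⟩ := hC
  refine ⟨c₀, hc₀, ?_⟩
  intro c hc
  have g1 := hC 12 1 one_pos
  have g2 := hL c hc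
  have g3 := T4.Good.zeta_le (fun _ K r k => c₀ / (1 + r * k + 8 * K : ℕ))
    (fun _ _ _ _ => by positivity)
  have g4 := T4.Good.zeta_pos
  have g5 := T4.Good.large_E 1
  have g := ((((T4.Good.and g1 g2)).and g3).and g4).and g5
  refine T4.Good.mono g ?_
  rintro p ⟨⟨⟨⟨h1, h2⟩, h3⟩, h4⟩, h5⟩
  have hz : Tendsto (fun N : ℕ => zz p N) atTop atTop :=
    (tendsto_rpow_atTop h4).comp tendsto_natCast_atTop_atTop
  filter_upwards [h1, h2, hz.eventually_ge_atTop 1000, hz.eventually_ge_atTop (W0 p : ℝ),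
    hz.eventually_gt_atTop (p.E : ℝ), eventually_ge_atTop 4] with N e1 e2 e3 e4 e5 e6
  intro N₁ hN₁ t ht t' ht' hgp
  have s := sz_of_mem ht
  have s' := sz_of_mem ht'
  obtain ⟨b1, b2⟩ := pcs_bounds e6 hN₁
  have hNpos : (1 : ℝ) ≤ N := by
    have : 1 ≤ N := by omega
    exact_mod_cast this
  set α := max (wl N t) (wl N t') with hα
  set β := min (wu t) (wu t') with hβ
  have herr : (0 : ℝ) ≤ (N : ℝ) ^ (1 - c₀) := by positivity
  by_cases hαβ : α < β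
  · obtain ⟨F, f, hLoc⟩ := e2 t ht t' ht'
    have hα1 : (N : ℝ) ^ (-c₀) ≤ α := by
      have q1 := wl_ge s e3 (by omega)
      refine le_trans ?_ (q1.trans (le_max_left _ _))
      have q2 : zz p N ^ (1 + p.r * p.k + 8 * p.K) ≤ (N : ℝ) ^ c₀ := by
        unfold zz
        rw [← Real.rpow_natCast, ← Real.rpow_mul (by positivity)]
        refine Real.rpow_le_rpow_of_exponent_le hNpos ?_
        have q3 : (0 : ℝ) < ((1 + p.r * p.k + 8 * p.K : ℕ) : ℝ) := by positivity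
        exact (le_div_iff₀ q3).1 h3
      rw [Real.rpow_neg (by positivity), ← one_div]
      refine one_div_le_one_div_of_le ?_ q2
      have : (0 : ℝ) < zz p N := by linarith
      positivity
    have hβ1 : β ≤ 20 := (min_le_left _ _).trans (wu_le s)
    have hcop : Nat.Coprime (XR p N t) (mt p N t * mt p N t') := by
      refine Nat.coprime_of_dvd fun l hl d1 d2 => ?_
      obtain ⟨q1, q2, q3⟩ := ge_of_dvd_XR s h5 hl d1
      have q4 : ¬ l ∣ tG t := by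
        intro d
        have := Nat.dvd_gcd d q3
        rw [s.cGX] at this
        exact hl.one_lt.ne' (Nat.dvd_one.1 this)
      have q5 : ¬ l ∣ tG t' := by
        intro d
        exact hgp l hl q1 (Or.inl ⟨q3, dvd_mul_of_dvd_right d _⟩)
      rcases hl.dvd_mul.1 d2 with d3 | d3
      · exact not_dvd_mt s hl q1 e5 q4 d3
      · exact not_dvd_mt s' hl q1 e5 q5 d3
    have hcop' : Nat.Coprime (XR p N t') (mt p N t * mt p N t') := by
      refine Nat.coprime_of_dvd fun l hl d1 d2 => ?_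
      obtain ⟨q1, q2, q3⟩ := ge_of_dvd_XR s' h5 hl d1
      have q4 : ¬ l ∣ tG t' := by
        intro d
        have := Nat.dvd_gcd d q3
        rw [s'.cGX] at this
        exact hl.one_lt.ne' (Nat.dvd_one.1 this)
      have q5 : ¬ l ∣ tG t := by
        intro d
        exact hgp l hl q1 (Or.inr ⟨q3, dvd_mul_of_dvd_right d _⟩)
      rcases hl.dvd_mul.1 d2 with d3 | d3
      · exact not_dvd_mt s hl q1 e5 q5 d3
      · exact not_dvd_mt s' hl q1 e5 q4 d3
    have hcopX : Nat.Coprime (XR p N t) (XR p N t') := by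
      refine Nat.coprime_of_dvd fun l hl d1 d2 => ?_
      obtain ⟨q1, q2, q3⟩ := ge_of_dvd_XR s h5 hl d1
      exact hgp l hl q1 (Or.inl ⟨q3, dvd_mul_of_dvd_left (d2.trans (XR_dvd s')) _⟩)
    have hprim : ∀ H : ℕ, ∀ a : ℤ, prim H a (-1) := by
      intro H a l hl _ h
      have h9 : (l : ℤ) ∣ 1 := by
        have := h.2
        rwa [dvd_neg] at this
      have h10 : l ∣ 1 := by exact_mod_cast h9
      exact hl.one_lt.ne' (Nat.dvd_one.1 h10)
    have hLoc' : Loc (PP p N) ((12 : ℕ) : ℝ) (mt p N t * mt p N t')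
        (fun x => ww p N c t x * ww p N c t' x) F f := by
      have : ((12 : ℕ) : ℝ) = 12 := by norm_num
      rw [this]
      exact hLoc
    have key := (e1 N₁ (mt p N t * mt p N t') (fun x => ww p N c t x * ww p N c t' x) F f α β
      (XR p N t) (XR p N t') (tK t * tD t) (-1) (tK t' * tD t') (-1) b1 b2
      (Nat.mul_pos (mt_pos s) (mt_pos s')) (mtmt_le s s' e3 e4) hLoc' hα1 hαβ hβ1 (rgh s h5)
      (rgh s' h5) (XR_le s e3) (XR_le s' e3) hcop hcop' hcopX (hprim _ _) (hprim _ _)).1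
    have e12 : (1 : ℝ) + 1 = 2 := by norm_num
    rw [e12] at key
    exact key
  · rw [Gam_empty (not_lt.1 hαβ)]
    simp only [sum_empty, mul_zero, zero_add]
    exact herr

end

end Pool.Agent.Lib.MP391708.TF.I
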