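import Pool.Agent.Lib.MP_391708_nt.TF.I9
import Pool.Agent.Lib.MP_391708_nt.TF.I1
import Pool.Agent.Lib.MP_391708_nt.TF.I2
import Pool.Agent.Lib.MP_391708_nt.TF.I3
import Pool.Agent.Lib.MP_391708_nt.TF.I4
import Pool.Agent.Lib.MP_391708_nt.TF.I4a
import Pool.Agent.Lib.MP_391708_nt.TF.I4b
import Pool.Agent.Lib.MP_391708_nt.TF.I5
import Pool.Agent.Lib.MP_391708_nt.TF.I6
import Pool.Agent.Lib.MP_391708_nt.TF.I6a
import Pool.Agent.Lib.MP_391708_nt.TF.I7
import Pool.Agent.Lib.MP_391708_nt.TF.I8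
import Pool.Agent.Lib.MP_391708_nt.TF.Cls

/-!
# Group I (T1a): SpecBB from CMP (for every form), PHU and NG
-/

set_option autoImplicit false

namespace Pool.Agent.Lib.MP391708.TF.I

/-- **SpecBB** -/
theorem specBB [Aa] (hCMP : ∀ F : Frm, @SpecCMP _ F) (hPHU : SpecPHU) (hNG : SpecNG) : SpecBB :=
  specBB_of hPHU hNG specI1 specI2 specI3 specI8 (fun F => @specAUT _ F)
    (fun F => @specI4 _ F (@specI4a _ F)) (fun F => @specI5 _ F (@specI4a _ F) (@specI4b _ F))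
    (fun F => @specI6 _ F (hCMP F) (@specI6a _ F)) (fun F => @specI7 _ F) specCLS

end Pool.Agent.Lib.MP391708.TF.I
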