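import Pool.Agent.Lib.MP_391708_nt.TF.LocA
import Pool.Agent.Lib.MP_391708_nt.TF.H1a

/-!
# Module H3 (LocC): the local structure of the weight of a datum

Modulus `m = W₀ (ds es sm(X) q)² u v`.  The part of `lw` at the primes dividing `m` is a function `A`
on `Gam N 1 3` that only depends on the class modulo `m`.
-/

set_option autoImplicit false
set_option linter.unusedSectionVars false

namespace Pool.Agent.Lib.MP391708.TF.HLC

variable [Pool.Agent.Lib.MP391708.TF.Aa] [Pool.Agent.Lib.MP391708.TF.Frm]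

open Finset Filter Topology
open Pool.Agent.Lib.MP391708.Eqd (V cross pairs)
open Pool.Agent.Lib.MP391708.TF.H Pool.Agent.Lib.MP391708.TF.HLA
open scoped Classical

noncomputable section

/-! ## Definitions -/

/-- the modulus -/
def mdl (p : Prm) (N : ℕ) (a : Dt) (t : ℤ × ℕ) (q : ℕ) : ℕ :=
  W0 p * (ds a * es a * sm p N t.2 * q) ^ 2 * (du a * dv a)

/-- the modulus of the cofactors -/
def rr (p : Prm) (N : ℕ) (a : Dt) (t : ℤ × ℕ) (q : ℕ) : ℕ := ds a * es a * (sm p N t.2 * q) ^ 2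

/-- the part of `fits` at the primes dividing `m` -/
def fitm (p : Prm) (N : ℕ) (m : ℕ) (a : Dt) (x : VV) : Prop :=
  tame p (Md x ^ 2 + aa) ∧ (du a : ℤ) ∣ dd x ∧ (dv a : ℤ) ∣ ee x ∧
  ∀ l ∈ PP p N, l ∣ m → ((l : ℤ) ∣ dd x ↔ l ∣ ds a) ∧ ((l : ℤ) ∣ ee x ↔ l ∣ es a) ∧
    ¬ (l : ℤ) ^ 2 ∣ dd x ∧ ¬ (l : ℤ) ^ 2 ∣ ee x

/-- one factor of the tilt -/
def tf (y : ℝ) (l : ℕ) (r : Rl) : ℝ :=
  (if (l : ℤ) ∣ F1 r then y else 1) * (if (l : ℤ) ∣ F2 r then y else 1)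

/-- the part of `lw` at the primes dividing `m` -/
def AA (p : Prm) (N : ℕ) (y : ℝ) (Ev : Rl → Prop) (m : ℕ) (a : Dt) (t : ℤ × ℕ) (x : VV) : ℝ :=
  (if fitm p N m a x ∧ Ev (rel a t x) ∧ (sm p N t.2 : ℤ) ∣ F1 (rel a t x) then 1 else 0) *
    ∏ l ∈ (PP p N).filter (fun l => l ∣ m ∧ ¬ l ∣ (Md x ^ 2 + aa) * t.2), tf y l (rel a t x)

/-- the periodic extension -/
def FF (p : Prm) (N : ℕ) (y : ℝ) (Ev : Rl → Prop) (m : ℕ) (a : Dt) (t : ℤ × ℕ) (x : VV) : ℝ :=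
  if h : ∃ x' ∈ Gam N 1 3, cg m x x' then AA p N y Ev m a t h.choose else 0

section
variable {p : Prm} {N : ℕ} {y : ℝ} {Ev : Rl → Prop} {a : Dt} {t : ℤ × ℕ} {q : ℕ} {x x' : VV}

/-- the data of an event -/
def okq (p : Prm) (N : ℕ) (Ev : Rl → Prop) (q : ℕ) : Prop :=
  (Ev = ev0 ∧ q = 1) ∨ (q ∈ PP p N ∧ (Ev = evB q ∨ Ev = evL q ∨ Ev = evM q ∨ Ev = evN q))

lemma okq_of (h : Evs p N Ev) : ∃ q, okq p N Ev q := by
  rcases h with h | ⟨q, hq, h⟩
  · exact ⟨1, Or.inl ⟨h, rfl⟩⟩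
  · exact ⟨q, Or.inr ⟨hq, h⟩⟩

lemma q_pos (h : okq p N Ev q) : 0 < q := by
  rcases h with h | h
  · rw [h.2]; exact one_pos
  · exact (prime_of_mem_PP h.1).pos

/-! ## The modulus -/

lemma W0_pos (p : Prm) : 0 < W0 p := by
  unfold W0
  exact pow_pos (primorial_pos _) _

lemma mdl_pos (ha : a ∈ DA p N) (hq : 0 < q) : 0 < mdl p N a t q := by
  have h1 := W0_pos p
  have h2 := Nat.pos_of_ne_zero (ds_ne ha)
  have h3 := Nat.pos_of_ne_zero (es_ne ha)
  have h4 := sm_pos p N t.2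
  have h5 := (du_prime ha).pos
  have h6 := (dv_prime ha).pos
  unfold mdl
  positivity

lemma mem_of_dvd_sm {l n : ℕ} (hl : l.Prime) (h : l ∣ sm p N n) : l ∈ PP p N := by
  unfold sm at h
  obtain ⟨l', hl', h'⟩ := (Prime.dvd_finsetProd_iff hl.prime _).1 h
  have h2 := hl.dvd_of_dvd_pow h'
  rw [(Nat.prime_dvd_prime_iff_eq hl (prime_of_mem_PP hl')).1 h2]
  exact hl'

lemma dvd_sm {l n : ℕ} (hl : l ∈ PP p N) (hn : n ≠ 0) (h : l ∣ n) : l ∣ sm p N n := by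
  unfold sm
  refine dvd_trans ?_ (dvd_prod_of_mem _ hl)
  exact dvd_pow_self _ (Nat.one_le_iff_ne_zero.1 (((prime_of_mem_PP hl).dvd_iff_one_le_factorization hn).1 h))

/-- the sieving primes dividing the modulus -/
lemma dvd_core (hb : Bas p N) (ha : a ∈ DA p N) {l : ℕ} (hl : l ∈ PP p N)
    (h : l ∣ mdl p N a t q) : l ∣ ds a * es a * sm p N t.2 * q := by
  have hlp := prime_of_mem_PP hl
  unfold mdl at h
  rcases hlp.dvd_mul.1 h with h1 | h1
  · rcases hlp.dvd_mul.1 h1 with h2 | h2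
    · exact absurd (le_E_of_dvd_W0 hlp h2) (not_le.2 (E_lt_of_mem_PP hl))
    · exact hlp.dvd_of_dvd_pow h2
  · exact absurd h1 (not_dvd_uv hb ha l hl)

lemma core_dvd : ds a * es a * sm p N t.2 * q ∣ mdl p N a t q := by
  unfold mdl
  exact Dvd.dvd.mul_right (Dvd.dvd.mul_left (dvd_pow_self _ two_ne_zero) _) _

lemma sq_dvd (hb : Bas p N) (ha : a ∈ DA p N) {l : ℕ} (hl : l ∈ PP p N)
    (h : l ∣ mdl p N a t q) : l ^ 2 ∣ mdl p N a t q := by
  have h1 := pow_dvd_pow_of_dvd (dvd_core hb ha hl h) 2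
  unfold mdl
  exact Dvd.dvd.mul_right (Dvd.dvd.mul_left h1 _) _

lemma dvd_rr (hb : Bas p N) (ha : a ∈ DA p N) {l : ℕ} (hl : l ∈ PP p N)
    (h : l ∣ mdl p N a t q) : l ∣ rr p N a t q := by
  have hlp := prime_of_mem_PP hl
  have h1 := dvd_core hb ha hl h
  unfold rr
  rw [mul_assoc] at h1
  rcases hlp.dvd_mul.1 h1 with h2 | h2
  · exact h2.mul_right _
  · exact Dvd.dvd.mul_left (h2.trans (dvd_pow_self _ two_ne_zero)) _

/-- `a₀ rr ∣ m` with `a₀ = g₁ m₁ u` -/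
lemma a0_rr : (g1 a * m1 a * du a) * rr p N a t q ∣ mdl p N a t q := by
  unfold rr mdl
  refine ⟨W0 p * (n1 a * es a * dv a), ?_⟩
  have e : ds a = g1 a * m1 a * n1 a := rfl
  calc W0 p * (ds a * es a * sm p N t.2 * q) ^ 2 * (du a * dv a)
      = ds a * (W0 p * ds a * es a ^ 2 * (sm p N t.2 * q) ^ 2 * (du a * dv a)) := by ring
    _ = g1 a * m1 a * n1 a * (W0 p * ds a * es a ^ 2 * (sm p N t.2 * q) ^ 2 * (du a * dv a)) := by
      conv_lhs => rw [e]
      rw [← e]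
    _ = _ := by ring

/-- `b₀ rr ∣ m` with `b₀ = g₂ m₂ v` -/
lemma b0_rr : (g2 a * m2 a * dv a) * rr p N a t q ∣ mdl p N a t q := by
  unfold rr mdl
  refine ⟨W0 p * (n2 a * ds a * du a), ?_⟩
  have e : es a = g2 a * m2 a * n2 a := rfl
  calc W0 p * (ds a * es a * sm p N t.2 * q) ^ 2 * (du a * dv a)
      = es a * (W0 p * es a * ds a ^ 2 * (sm p N t.2 * q) ^ 2 * (du a * dv a)) := by ring
    _ = g2 a * m2 a * n2 a * (W0 p * es a * ds a ^ 2 * (sm p N t.2 * q) ^ 2 * (du a * dv a)) := by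
      conv_lhs => rw [e]
      rw [← e]
    _ = _ := by ring

/-! ## The conditions at the primes of the modulus -/

lemma fitm_per (hb : Bas p N) (ha : a ∈ DA p N) :
    PerP (mdl p N a t q) (fun x => fitm p N (mdl p N a t q) a x) := by
  unfold fitm
  refine PerP.and ((perP_tame p).mono ?_) (PerP.and (perP_dd ?_) (PerP.and (perP_ee ?_) ?_))
  · unfold mdl; exact Dvd.dvd.mul_right (Dvd.intro _ rfl) _
  · have : du a ∣ mdl p N a t q := by
      unfold mdl; exact Dvd.dvd.mul_left (Dvd.intro _ rfl) _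
    exact_mod_cast this
  · have : dv a ∣ mdl p N a t q := by
      unfold mdl; exact Dvd.dvd.mul_left (Dvd.intro_left _ rfl) _
    exact_mod_cast this
  · refine PerP.all_mem fun l hl => ?_
    by_cases h : l ∣ mdl p N a t q
    · have h1 : ((l : ℤ)) ∣ ((mdl p N a t q : ℕ) : ℤ) := by exact_mod_cast h
      have h2 : ((l : ℤ)) ^ 2 ∣ ((mdl p N a t q : ℕ) : ℤ) := by exact_mod_cast sq_dvd hb ha hl h
      exact PerP.imp (PerP.const _ _) (PerP.and (PerP.iff (perP_dd h1) (PerP.const _ _))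
        (PerP.and (PerP.iff (perP_ee h1) (PerP.const _ _))
          (PerP.and (PerP.not (perP_dd h2)) (PerP.not (perP_ee h2)))))
    · exact (PerP.const _ True).congr fun x => ⟨fun _ h' => absurd h' h, fun _ => trivial⟩

lemma fitm_of_fits {m : ℕ} (h : fits p N a x) : fitm p N m a x :=
  ⟨h.1, h.2.1, h.2.2.1, fun l hl _ => h.2.2.2 l hl⟩

/-- exactness of the cofactors -/
lemma Pd_mul (hb : Bas p N) (ha : a ∈ DA p N) (h : fitm p N (mdl p N a t q) a x) :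
    Pd a x * (g1 a * m1 a * du a) = (dd x).natAbs * m2 a := by
  have h1 : g1 a * m1 a ∣ ds a := by unfold ds; exact Dvd.intro _ rfl
  have h2 : ds a ∣ (dd x).natAbs := by
    refine sqf_dvd (ds_sqf ha) fun l hl hd => ?_
    have hl' := primes_ds ha l hl hd
    have h3 : l ∣ mdl p N a t q :=
      (((hd.mul_right _).mul_right _).mul_right _).trans (core_dvd (t := t) (q := q))
    exact dvd_dd_iff.1 ((h.2.2.2 l hl' h3).1.2 hd)
  have h3 : du a ∣ (dd x).natAbs := dvd_dd_iff.1 h.2.1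
  have h4 : Nat.Coprime (g1 a * m1 a) (du a) :=
    (coprime_of_PP (primes_ds ha) fun l hl => not_dvd_du hb ha hl).coprime_dvd_left h1
  have h5 : g1 a * m1 a * du a ∣ (dd x).natAbs := h4.mul_dvd_of_dvd_of_dvd (h1.trans h2) h3
  unfold Pd
  exact Nat.div_mul_cancel (h5.mul_right _)

lemma Qd_mul (hb : Bas p N) (ha : a ∈ DA p N) (h : fitm p N (mdl p N a t q) a x) :
    Qd a x * (g2 a * m2 a * dv a) = (ee x).natAbs * m1 a := by
  have h1 : g2 a * m2 a ∣ es a := by unfold es; exact Dvd.intro _ rfl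
  have h2 : es a ∣ (ee x).natAbs := by
    refine sqf_dvd (es_sqf ha) fun l hl hd => ?_
    have hl' := primes_es ha l hl hd
    have h3 : l ∣ mdl p N a t q :=
      (((hd.mul_left _).mul_right _).mul_right _).trans (core_dvd (t := t) (q := q))
    exact dvd_ee_iff.1 ((h.2.2.2 l hl' h3).2.1.2 hd)
  have h3 : dv a ∣ (ee x).natAbs := dvd_ee_iff.1 h.2.2.1
  have h4 : Nat.Coprime (g2 a * m2 a) (dv a) :=
    (coprime_of_PP (primes_es ha) fun l hl => not_dvd_dv hb ha hl).coprime_dvd_left h1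
  have h5 : g2 a * m2 a * dv a ∣ (ee x).natAbs := h4.mul_dvd_of_dvd_of_dvd (h1.trans h2) h3
  unfold Qd
  exact Nat.div_mul_cancel (h5.mul_right _)

lemma Pd_cg (hb : Bas p N) (ha : a ∈ DA p N) (hx : x ∈ Gam N 1 3) (hx' : x' ∈ Gam N 1 3)
    (hc : cg (mdl p N a t q) x x') (h : fitm p N (mdl p N a t q) a x)
    (h' : fitm p N (mdl p N a t q) a x') :
    (Pd a x : ℤ) ≡ Pd a x' [ZMOD rr p N a t q] := by
  have h1 := Pd_mul hb ha h
  have h2 := Pd_mul hb ha h'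
  have e1 : ((Pd a x : ℕ) : ℤ) * (g1 a * m1 a * du a : ℕ) = dd x * m2 a := by
    rw [← dd_cast hx]; exact_mod_cast h1
  have e2 : ((Pd a x' : ℕ) : ℤ) * (g1 a * m1 a * du a : ℕ) = dd x' * m2 a := by
    rw [← dd_cast hx']; exact_mod_cast h2
  have h3 : dd x * m2 a ≡ dd x' * m2 a [ZMOD (g1 a * m1 a * du a * rr p N a t q : ℕ)] :=
    ((dd_cg hc).mul_right _).of_dvd (by exact_mod_cast a0_rr)
  rw [← e1, ← e2, mul_comm ((Pd a x : ℕ) : ℤ), mul_comm ((Pd a x' : ℕ) : ℤ)] at h3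
  push_cast at h3
  have h0 := pos6 ha
  have h4 := (du_prime ha).pos
  have h5 : (0 : ℤ) < (g1 a : ℤ) * m1 a * du a := by
    have := h0.1
    have := h0.2.1
    positivity
  exact Int.ModEq.mul_left_cancel' h5.ne' h3

lemma Qd_cg (hb : Bas p N) (ha : a ∈ DA p N) (hx : x ∈ Gam N 1 3) (hx' : x' ∈ Gam N 1 3)
    (hc : cg (mdl p N a t q) x x') (h : fitm p N (mdl p N a t q) a x)
    (h' : fitm p N (mdl p N a t q) a x') :
    (Qd a x : ℤ) ≡ Qd a x' [ZMOD rr p N a t q] := by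
  have h1 := Qd_mul hb ha h
  have h2 := Qd_mul hb ha h'
  have e1 : ((Qd a x : ℕ) : ℤ) * (g2 a * m2 a * dv a : ℕ) = ee x * m1 a := by
    rw [← ee_cast hx]; exact_mod_cast h1
  have e2 : ((Qd a x' : ℕ) : ℤ) * (g2 a * m2 a * dv a : ℕ) = ee x' * m1 a := by
    rw [← ee_cast hx']; exact_mod_cast h2
  have h3 : ee x * m1 a ≡ ee x' * m1 a [ZMOD (g2 a * m2 a * dv a * rr p N a t q : ℕ)] :=
    ((ee_cg hc).mul_right _).of_dvd (by exact_mod_cast b0_rr)
  rw [← e1, ← e2, mul_comm ((Qd a x : ℕ) : ℤ), mul_comm ((Qd a x' : ℕ) : ℤ)] at h3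
  push_cast at h3
  have h0 := pos6 ha
  have h4 := (dv_prime ha).pos
  have h5 : (0 : ℤ) < (g2 a : ℤ) * m2 a * dv a := by
    have := h0.2.2.2.1
    have := h0.2.2.2.2.1
    positivity
  exact Int.ModEq.mul_left_cancel' h5.ne' h3

lemma Md_cg (hx : x ∈ Gam N 1 3) (hx' : x' ∈ Gam N 1 3) (hc : cg (mdl p N a t q) x x') :
    ((Md x : ℕ) : ℤ) ≡ Md x' [ZMOD mdl p N a t q] := by
  rw [Md_cast hx, Md_cast hx']
  exact mm_cg hc

lemma rr_dvd : rr p N a t q ∣ mdl p N a t q :=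
  (Dvd.intro_left _ rfl).trans a0_rr

lemma F1_cg (hb : Bas p N) (ha : a ∈ DA p N) (hx : x ∈ Gam N 1 3) (hx' : x' ∈ Gam N 1 3)
    (hc : cg (mdl p N a t q) x x') (h : fitm p N (mdl p N a t q) a x)
    (h' : fitm p N (mdl p N a t q) a x') :
    F1 (rel a t x) ≡ F1 (rel a t x') [ZMOD rr p N a t q] := by
  have h1 := Pd_cg hb ha hx hx' hc h h'
  have h2 := Qd_cg hb ha hx hx' hc h h'
  have h3 : ((Md x : ℕ) : ℤ) ≡ Md x' [ZMOD rr p N a t q] :=
    (Md_cg hx hx' hc).of_dvd (by exact_mod_cast rr_dvd)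
  unfold F1 rel rP rD rM rG rQ
  dsimp only
  exact ((h1.mul_right _).sub ((h3.mul_left _).mul_right _)).add (h2.mul_left _)

lemma F2_cg (hb : Bas p N) (ha : a ∈ DA p N) (hx : x ∈ Gam N 1 3) (hx' : x' ∈ Gam N 1 3)
    (hc : cg (mdl p N a t q) x x') (h : fitm p N (mdl p N a t q) a x)
    (h' : fitm p N (mdl p N a t q) a x') :
    F2 (rel a t x) ≡ F2 (rel a t x') [ZMOD rr p N a t q] := by
  have h1 := Pd_cg hb ha hx hx' hc h h'
  have h2 := Qd_cg hb ha hx hx' hc h h'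
  have h3 : ((Md x : ℕ) : ℤ) ≡ Md x' [ZMOD rr p N a t q] :=
    (Md_cg hx hx' hc).of_dvd (by exact_mod_cast rr_dvd)
  have e : D2 (rel a t x) = D2 (rel a t x') := rfl
  unfold F2
  rw [e]
  generalize D2 (rel a t x') = D
  unfold rel rP rM rG rQ
  dsimp only
  exact ((h2.mul_right _).add ((h3.mul_left _).mul_right _)).add (h1.mul_left _)

/-- divisibility of congruent numbers -/
lemma dvd_iff_of_cg {m : ℕ} {k u v : ℤ} (hk : k ∣ m) (h : u ≡ v [ZMOD m]) : k ∣ u ↔ k ∣ v := by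
  have h1 : k ∣ v - u := hk.trans h.dvd
  constructor
  · intro h2
    have := dvd_add h1 h2
    rwa [sub_add_cancel] at this
  · intro h2
    have := dvd_sub h2 h1
    rwa [sub_sub_cancel] at this

lemma Md_iff (hx : x ∈ Gam N 1 3) (hx' : x' ∈ Gam N 1 3) (hc : cg (mdl p N a t q) x x') {l : ℕ}
    (hl : l ∣ mdl p N a t q) : l ∣ Md x ^ 2 + aa ↔ l ∣ Md x' ^ 2 + aa := by
  have h1 := ((Md_cg hx hx' hc).pow 2).add_right (aa : ℤ)
  have h2 := dvd_iff_of_cg (k := (l : ℤ)) (by exact_mod_cast hl) h1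
  exact_mod_cast h2

lemma sm_dvd_rr : sm p N t.2 ∣ rr p N a t q := by
  unfold rr
  exact Dvd.dvd.mul_left ((Dvd.intro _ rfl).trans (dvd_pow_self _ two_ne_zero)) _

lemma q2_dvd_rr : q ^ 2 ∣ rr p N a t q := by
  unfold rr
  rw [mul_pow]
  exact Dvd.dvd.mul_left (Dvd.intro_left _ rfl) _

lemma q_dvd_rr : q ∣ rr p N a t q := (dvd_pow_self _ two_ne_zero).trans q2_dvd_rr

lemma dvd_mul3 {l : ℕ} (hl : l.Prime) {u v w : ℤ} :
    (l : ℤ) ∣ u * v * w ↔ (l : ℤ) ∣ u ∨ (l : ℤ) ∣ v ∨ (l : ℤ) ∣ w := by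
  have h : Prime (l : ℤ) := Nat.prime_iff_prime_int.1 hl
  rw [h.dvd_mul, h.dvd_mul, or_assoc]

lemma Ev_iff (hb : Bas p N) (ha : a ∈ DA p N) (hq : okq p N Ev q) (hx : x ∈ Gam N 1 3)
    (hx' : x' ∈ Gam N 1 3) (hc : cg (mdl p N a t q) x x') (h : fitm p N (mdl p N a t q) a x)
    (h' : fitm p N (mdl p N a t q) a x') : Ev (rel a t x) ↔ Ev (rel a t x') := by
  rcases hq with ⟨rfl, -⟩ | ⟨hq, hE⟩
  · exact Iff.rfl
  have h1 := F1_cg hb ha hx hx' hc h h'
  have h2 := F2_cg hb ha hx hx' hc h h'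
  have i0 : q ∣ Md x ^ 2 + aa ↔ q ∣ Md x' ^ 2 + aa := Md_iff hx hx' hc (q_dvd_rr.trans rr_dvd)
  have d1 : (q : ℤ) ∣ ((rr p N a t q : ℕ) : ℤ) := by exact_mod_cast q_dvd_rr
  have d2 : (q : ℤ) ^ 2 ∣ ((rr p N a t q : ℕ) : ℤ) := by exact_mod_cast q2_dvd_rr
  have i1 := dvd_iff_of_cg d1 h1
  have i2 := dvd_iff_of_cg d1 h2
  have i3 := dvd_iff_of_cg d2 h1
  have i4 := dvd_iff_of_cg d2 h2
  have hqp := prime_of_mem_PP hq
  have e1 : rM (rel a t x) = Md x := rfl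
  have e2 : rM (rel a t x') = Md x' := rfl
  have e3 : rX (rel a t x) = t.2 := rfl
  have e4 : rX (rel a t x') = t.2 := rfl
  rcases hE with rfl | rfl | rfl | rfl
  · unfold evB
    rw [e1, e2, e3, e4, i0, i1, i2, i3, i4]
  · unfold evL
    rw [dvd_mul3 hqp, dvd_mul3 hqp, e3, e4, i1, i2]
  · unfold evM evL
    rw [dvd_mul3 hqp, dvd_mul3 hqp, e1, e2, e3, e4, i0, i1, i2]
  · unfold evN
    rw [e1, e2, i0]

/-- **A**: the part at the primes of the modulus is a function of the class -/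
lemma AA_cg (hb : Bas p N) (ha : a ∈ DA p N) (hq : okq p N Ev q) (hx : x ∈ Gam N 1 3)
    (hx' : x' ∈ Gam N 1 3) (hc : cg (mdl p N a t q) x x') :
    AA p N y Ev (mdl p N a t q) a t x = AA p N y Ev (mdl p N a t q) a t x' := by
  have hf := fitm_per (t := t) (q := q) hb ha x x' hc
  by_cases h : fitm p N (mdl p N a t q) a x
  · have h' := hf.1 h
    have h1 := F1_cg hb ha hx hx' hc h h'
    have h2 := F2_cg hb ha hx hx' hc h h'
    have i1 := Ev_iff hb ha hq hx hx' hc h h'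
    have i2 := dvd_iff_of_cg (k := ((sm p N t.2 : ℕ) : ℤ)) (by exact_mod_cast sm_dvd_rr) h1
    unfold AA
    congr 1
    · simp only [h, h', i1, i2]
    · have e : (PP p N).filter (fun l => l ∣ mdl p N a t q ∧ ¬ l ∣ (Md x ^ 2 + aa) * t.2) =
          (PP p N).filter (fun l => l ∣ mdl p N a t q ∧ ¬ l ∣ (Md x' ^ 2 + aa) * t.2) := by
        refine filter_congr fun l hl => ?_
        refine and_congr_right fun hlm => not_congr ?_
        have hlp := prime_of_mem_PP hl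
        rw [hlp.dvd_mul, hlp.dvd_mul, Md_iff hx hx' hc hlm]
      rw [e]
      refine prod_congr rfl fun l hl => ?_
      rw [mem_filter] at hl
      have d1 : (l : ℤ) ∣ ((rr p N a t q : ℕ) : ℤ) := by exact_mod_cast dvd_rr hb ha hl.1 hl.2.1
      unfold tf
      simp only [dvd_iff_of_cg d1 h1, dvd_iff_of_cg d1 h2]
  · have h' : ¬ fitm p N (mdl p N a t q) a x' := fun h' => h (hf.2 h')
    unfold AA
    simp only [h, h', false_and, if_false, zero_mul]

lemma cg_refl (m : ℕ) (x : VV) : cg m x x := by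
  unfold cg
  simp

lemma cg_symm {m : ℕ} {x y : VV} (h : cg m x y) : cg m y x := by
  obtain ⟨h1, h2, h3, h4⟩ := h
  exact ⟨by rw [← neg_sub]; exact h1.neg_right, by rw [← neg_sub]; exact h2.neg_right,
    by rw [← neg_sub]; exact h3.neg_right, by rw [← neg_sub]; exact h4.neg_right⟩

lemma cg_trans {m : ℕ} {x y z : VV} (h : cg m x y) (h' : cg m y z) : cg m x z := by
  obtain ⟨h1, h2, h3, h4⟩ := h
  obtain ⟨h1', h2', h3', h4'⟩ := h'
  exact ⟨by simpa using dvd_add h1 h1', by simpa using dvd_add h2 h2', by simpa using dvd_add h3 h3',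
    by simpa using dvd_add h4 h4'⟩

lemma FF_eq (hb : Bas p N) (ha : a ∈ DA p N) (hq : okq p N Ev q) (hx : x ∈ Gam N 1 3) :
    FF p N y Ev (mdl p N a t q) a t x = AA p N y Ev (mdl p N a t q) a t x := by
  have h : ∃ x' ∈ Gam N 1 3, cg (mdl p N a t q) x x' := ⟨x, hx, cg_refl _ _⟩
  unfold FF
  rw [dif_pos h]
  exact (AA_cg hb ha hq hx h.choose_spec.1 h.choose_spec.2).symm

lemma FF_per (hb : Bas p N) (ha : a ∈ DA p N) (hq : okq p N Ev q) :
    Per (mdl p N a t q) (FF p N y Ev (mdl p N a t q) a t) := by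
  intro x x' hc
  unfold FF
  by_cases h : ∃ z ∈ Gam N 1 3, cg (mdl p N a t q) x z
  · have h' : ∃ z ∈ Gam N 1 3, cg (mdl p N a t q) x' z := by
      obtain ⟨z, hz, hz'⟩ := h
      exact ⟨z, hz, cg_trans (cg_symm hc) hz'⟩
    rw [dif_pos h, dif_pos h']
    exact AA_cg hb ha hq h.choose_spec.1 h'.choose_spec.1
      (cg_trans (cg_symm h.choose_spec.2) (cg_trans hc h'.choose_spec.2))
  · have h' : ¬ ∃ z ∈ Gam N 1 3, cg (mdl p N a t q) x' z := by
      rintro ⟨z, hz, hz'⟩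
      exact h ⟨z, hz, cg_trans hc hz'⟩
    rw [dif_neg h, dif_neg h']

lemma tf_nn (hy : 0 ≤ y) (l : ℕ) (r : Rl) : 0 ≤ tf y l r := by
  unfold tf
  split_ifs <;> positivity

lemma tf_le (hy : 0 ≤ y) (hy1 : y ≤ 1) (l : ℕ) (r : Rl) : tf y l r ≤ 1 := by
  unfold tf
  split_ifs <;> nlinarith

lemma AA_nn {m : ℕ} (hy : 0 ≤ y) (x : VV) : 0 ≤ AA p N y Ev m a t x := by
  unfold AA
  exact mul_nonneg (by split_ifs <;> norm_num) (prod_nonneg fun l _ => tf_nn hy l _)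

lemma AA_le {m : ℕ} (hy : 0 ≤ y) (hy1 : y ≤ 1) (x : VV) : AA p N y Ev m a t x ≤ 1 := by
  unfold AA
  refine mul_le_one₀ (by split_ifs <;> norm_num) (prod_nonneg fun l _ => tf_nn hy l _) ?_
  exact prod_le_one (fun l _ => tf_nn hy l _) fun l _ => tf_le hy hy1 l _

lemma FF_nn {m : ℕ} (hy : 0 ≤ y) (x : VV) : 0 ≤ FF p N y Ev m a t x := by
  unfold FF
  split_ifs
  · exact AA_nn hy _
  · exact le_refl _

lemma FF_le {m : ℕ} (hy : 0 ≤ y) (hy1 : y ≤ 1) (x : VV) : FF p N y Ev m a t x ≤ 1 := by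
  unfold FF
  split_ifs
  · exact AA_le hy hy1 _
  · exact zero_le_one

/-! ## The other primes -/

/-- the local function at a prime not dividing the modulus -/
def gl (y : ℝ) (a : Dt) (t : ℤ × ℕ) (l : ℕ) (x : VV) : ℝ :=
  floc l y (m2 a * t.1) (-((g1 a * m1 a * du a : ℕ) : ℤ)) ((g2 a * m2 a * dv a : ℕ) : ℤ)
    (m1 a * D2 (rel a t x)) x

lemma not_dvd_data (hb : Bas p N) (ha : a ∈ DA p N) {l : ℕ} (hl : l ∈ PP p N)
    (h : ¬ l ∣ mdl p N a t q) :
    ¬ l ∣ ds a ∧ ¬ l ∣ es a ∧ ¬ l ∣ sm p N t.2 ∧ ¬ l ∣ g1 a * m1 a * du a ∧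
      ¬ l ∣ g2 a * m2 a * dv a ∧ ¬ l ∣ m1 a ∧ ¬ l ∣ m2 a := by
  have hlp := prime_of_mem_PP hl
  have h1 : ¬ l ∣ ds a * es a * sm p N t.2 * q := fun h' => h (h'.trans core_dvd)
  have h2 : ¬ l ∣ ds a := fun h' => h1 (((h'.mul_right _).mul_right _).mul_right _)
  have h3 : ¬ l ∣ es a := fun h' => h1 (((h'.mul_left _).mul_right _).mul_right _)
  have h4 : ¬ l ∣ sm p N t.2 := fun h' => h1 ((h'.mul_left _).mul_right _)
  refine ⟨h2, h3, h4, ?_, ?_, fun h' => h2 (h'.trans (m1_dvd a)), fun h' => h3 (h'.trans (m2_dvd a))⟩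
  · intro h'
    rcases hlp.dvd_mul.1 h' with h5 | h5
    · exact h2 (h5.trans (by unfold ds; exact Dvd.intro _ rfl))
    · exact not_dvd_du hb ha hl h5
  · intro h'
    rcases hlp.dvd_mul.1 h' with h5 | h5
    · exact h3 (h5.trans (by unfold es; exact Dvd.intro _ rfl))
    · exact not_dvd_dv hb ha hl h5

lemma dvd_iff_of_mul {l : ℕ} (hl : l.Prime) {c : ℕ} {u v : ℤ} (hc : ¬ l ∣ c)
    (h : (c : ℤ) * u = v) : (l : ℤ) ∣ u ↔ (l : ℤ) ∣ v := by
  have hp : Prime (l : ℤ) := Nat.prime_iff_prime_int.1 hl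
  rw [← h, hp.dvd_mul]
  constructor
  · exact fun h' => Or.inr h'
  · rintro (h' | h')
    · exact absurd (by exact_mod_cast h') hc
    · exact h'

/-- the final identity -/
lemma lw_eq (hb : Bas p N) (ht : okT p N a t) (hq : okq p N Ev q) (hx : x ∈ Gam N 1 3) :
    FF p N y Ev (mdl p N a t q) a t x *
        ∏ l ∈ (PP p N).filter (fun l => ¬ l ∣ mdl p N a t q), gl y a t l x =
      lw p N y Ev a t x := by
  have ha := ht.1
  rw [FF_eq hb ha hq hx]
  by_cases hf : fits p N a x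
  · obtain ⟨c, e, hc, he, hd, hee, hc', he'⟩ := fits_dec hb hx ha hf
    obtain ⟨f1, f2⟩ := F_forms hx ha hd hee t
    have hfm : fitm p N (mdl p N a t q) a x := fitm_of_fits hf
    have hX : t.2 ≠ 0 := ht.2.2.2.1.2.2.2.2.2.1.ne_zero
    -- the primes not dividing the modulus
    have key : ∀ l ∈ PP p N, ¬ l ∣ mdl p N a t q →
        gl y a t l x = tf y l (rel a t x) ∧ ¬ l ∣ (Md x ^ 2 + aa) * t.2 := by
      intro l hl hlm
      have hlp := prime_of_mem_PP hl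
      obtain ⟨k1, k2, k3, k4, k5, k6, k7⟩ := not_dvd_data hb ha hl hlm
      have n1 : ¬ (l : ℤ) ∣ dd x := fun h => k1 ((hf.2.2.2 l hl).1.1 h)
      have n2 : ¬ (l : ℤ) ∣ ee x := fun h => k2 ((hf.2.2.2 l hl).2.1.1 h)
      have i1 : (l : ℤ) ∣ F1 (rel a t x) ↔
          (l : ℤ) ∣ qf x (m2 a * t.1) (-((g1 a * m1 a * du a : ℕ) : ℤ)) := by
        refine dvd_iff_of_mul hlp (c := m2 a * g1 a * m1 a * du a) ?_ f1
        intro h
        rw [show m2 a * g1 a * m1 a * du a = m2 a * (g1 a * m1 a * du a) by ring] at h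
        rcases hlp.dvd_mul.1 h with h | h
        · exact k7 h
        · exact k4 h
      have i2 : (l : ℤ) ∣ F2 (rel a t x) ↔
          (l : ℤ) ∣ qf x ((g2 a * m2 a * dv a : ℕ) : ℤ) (m1 a * D2 (rel a t x)) := by
        refine dvd_iff_of_mul hlp (c := m1 a * g2 a * m2 a * dv a) ?_ f2
        intro h
        rw [show m1 a * g2 a * m2 a * dv a = m1 a * (g2 a * m2 a * dv a) by ring] at h
        rcases hlp.dvd_mul.1 h with h | h
        · exact k6 h
        · exact k5 h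
      constructor
      · unfold gl floc tf
        rw [if_neg (not_or.2 ⟨n1, n2⟩), one_mul]
        simp only [i1, i2]
      · intro h
        rcases hlp.dvd_mul.1 h with h | h
        · rw [← abs_mul_abs hx] at h
          rcases hlp.dvd_mul.1 h with h | h
          · exact n1 (dvd_dd_iff.2 h)
          · exact n2 (dvd_ee_iff.2 h)
        · exact k3 (dvd_sm hl hX h)
    unfold AA lw
    simp only [hf, hfm, true_and]
    rw [mul_assoc]
    congr 1
    have e1 : tilt p N y y (rel a t x) =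
        ∏ l ∈ (PP p N).filter (fun l => ¬ l ∣ (Md x ^ 2 + aa) * t.2), tf y l (rel a t x) := rfl
    rw [e1, ← prod_filter_mul_prod_filter_not
      ((PP p N).filter (fun l => ¬ l ∣ (Md x ^ 2 + aa) * t.2)) (fun l => l ∣ mdl p N a t q)]
    congr 1
    · rw [filter_filter]
      refine prod_congr (filter_congr fun l _ => and_comm) fun _ _ => rfl
    · rw [filter_filter]
      refine prod_congr (filter_congr fun l hl => ?_) fun l hl => ?_
      · exact ⟨fun h => ⟨(key l hl h).2, h⟩, fun h => h.2⟩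
      · rw [mem_filter] at hl
        exact (key l hl.1 hl.2.2).1
  · have e0 : lw p N y Ev a t x = 0 := by
      unfold lw
      simp only [hf, false_and, if_false, zero_mul]
    rw [e0]
    by_cases hfm : fitm p N (mdl p N a t q) a x
    · -- some prime not dividing the modulus divides `d e`
      have h1 : ∃ l ∈ PP p N, ¬ l ∣ mdl p N a t q ∧ ((l : ℤ) ∣ dd x ∨ (l : ℤ) ∣ ee x) := by
        by_contra hne
        push Not at hne
        refine hf ⟨hfm.1, hfm.2.1, hfm.2.2.1, fun l hl => ?_⟩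
        by_cases hlm : l ∣ mdl p N a t q
        · exact hfm.2.2.2 l hl hlm
        · obtain ⟨n1, n2⟩ := hne l hl hlm
          obtain ⟨k1, k2, -⟩ := not_dvd_data hb ha hl hlm
          exact ⟨⟨fun h => absurd h n1, fun h => absurd h k1⟩, ⟨fun h => absurd h n2, fun h => absurd h k2⟩,
            fun h => n1 ((dvd_pow_self _ two_ne_zero).trans h),
            fun h => n2 ((dvd_pow_self _ two_ne_zero).trans h)⟩
      obtain ⟨l, hl, hlm, hd⟩ := h1
      have h2 : gl y a t l x = 0 := by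
        unfold gl floc
        rw [if_pos hd, zero_mul]
      rw [prod_eq_zero (mem_filter.2 ⟨hl, hlm⟩) h2, mul_zero]
    · unfold AA
      simp only [hfm, false_and, if_false, zero_mul]

/-! ## Sizes -/

lemma mdl_le (hb : Bas p N) (hW : (W0 p : ℝ) ≤ zz p N) (ht : okT p N a t) (hq : okq p N Ev q) :
    (mdl p N a t q : ℝ) ≤ zz p N ^ (100 * (p.K + 1)) * Y2 p N * Y4 p N := by
  have ha := ht.1
  have h1 := (mem_DA ha).2.2.1
  have h2 := (mem_DA ha).2.2.2.1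
  have h3 := ht.2.2.2.2.2.2
  have h4 : (q : ℝ) ≤ zz p N := by
    rcases hq with ⟨-, rfl⟩ | ⟨hq, -⟩
    · simpa using hb.z1
    · exact (lt_of_mem_PP hq).le
  have h5 := du_le_Y2 ha
  have h6 := dv_le_Y4 ha
  have hz := hb.z1
  have hz0 := hb.z0
  unfold mdl
  push_cast
  have e1 : (ds a * es a * sm p N t.2 * q : ℝ) ≤ zz p N ^ p.K * zz p N ^ p.K * zz p N ^ p.K * zz p N := by
    gcongr
  have e2 : ((W0 p : ℝ) * (ds a * es a * sm p N t.2 * q) ^ 2) ≤
      zz p N * (zz p N ^ p.K * zz p N ^ p.K * zz p N ^ p.K * zz p N) ^ 2 := by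
    gcongr
  have e3 : zz p N * (zz p N ^ p.K * zz p N ^ p.K * zz p N ^ p.K * zz p N) ^ 2 ≤
      zz p N ^ (100 * (p.K + 1)) := by
    have e : zz p N * (zz p N ^ p.K * zz p N ^ p.K * zz p N ^ p.K * zz p N) ^ 2 =
        zz p N ^ (6 * p.K + 3) := by ring
    rw [e]
    exact hb.zpow_le (by omega)
  have hY2 := hb.Y2_pos
  have hY4 := hb.Y4_pos
  calc (W0 p : ℝ) * (ds a * es a * sm p N t.2 * q) ^ 2 * (du a * dv a)
      ≤ zz p N ^ (100 * (p.K + 1)) * (Y2 p N * Y4 p N) := by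
        refine mul_le_mul (e2.trans e3) (by gcongr) (by positivity) (by positivity)
    _ = _ := by ring

lemma mdl_primes (hb : Bas p N) (ht : okT p N a t) (hq : okq p N Ev q) {l : ℕ} (hl : l.Prime)
    (h : l ∣ mdl p N a t q) : (l : ℝ) < zz p N ∨ l = du a ∨ l = dv a := by
  have ha := ht.1
  unfold mdl at h
  rcases hl.dvd_mul.1 h with h1 | h1
  · left
    rcases hl.dvd_mul.1 h1 with h2 | h2
    · have h3 := le_E_of_dvd_W0 hl h2
      have h4 := hb.zE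
      have h5 : (l : ℝ) ≤ p.E := by exact_mod_cast h3
      linarith
    · have h3 := hl.dvd_of_dvd_pow h2
      rcases hl.dvd_mul.1 h3 with h4 | h4
      · rcases hl.dvd_mul.1 h4 with h5 | h5
        · exact lt_of_mem_PP ((mem_DA ha).2.1 l hl h5)
        · exact lt_of_mem_PP (mem_of_dvd_sm hl h5)
      · rcases hq with ⟨-, rfl⟩ | ⟨hq, -⟩
        · exact absurd (Nat.dvd_one.1 h4) hl.one_lt.ne'
        · rw [(Nat.prime_dvd_prime_iff_eq hl (prime_of_mem_PP hq)).1 h4]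
          exact lt_of_mem_PP hq
  · right
    rcases hl.dvd_mul.1 h1 with h2 | h2
    · exact Or.inl ((Nat.prime_dvd_prime_iff_eq hl (du_prime ha)).1 h2)
    · exact Or.inr ((Nat.prime_dvd_prime_iff_eq hl (dv_prime ha)).1 h2)

end

theorem good_W0 : Good (fun p => ∀ᶠ N : ℕ in atTop, (W0 p : ℝ) ≤ zz p N) := by
  refine ⟨0, fun E _ => ⟨0, fun K hK => ⟨0, fun r hr => ⟨0, fun k hk => ⟨1, one_pos,
    fun ζ hζ _ => ?_⟩⟩⟩⟩⟩
  have h1 : Tendsto (fun N : ℕ => (N : ℝ) ^ ζ) atTop atTop :=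
    (tendsto_rpow_atTop hζ).comp tendsto_natCast_atTop_atTop
  filter_upwards [h1.eventually_ge_atTop ((W0 ⟨E, K, r, k, ζ⟩ : ℕ) : ℝ)] with N h
  exact h

/-- **H3** -/
theorem specH3 : SpecH3 := by
  intro y hy0 hy1
  obtain ⟨E₁, hg1⟩ := good_bas
  obtain ⟨E₂, hg2⟩ := good_W0
  have hg : Good (fun p => ∀ᶠ N : ℕ in atTop, Bas p N ∧ (W0 p : ℝ) ≤ zz p N) := by
    refine ⟨max E₁ E₂, fun E hE => ?_⟩
    obtain ⟨K₁, hg1⟩ := hg1 E (le_trans (le_max_left _ _) hE)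
    obtain ⟨K₂, hg2⟩ := hg2 E (le_trans (le_max_right _ _) hE)
    refine ⟨max K₁ K₂, fun K hK => ?_⟩
    obtain ⟨r₁, hg1⟩ := hg1 K (le_trans (le_max_left _ _) hK)
    obtain ⟨r₂, hg2⟩ := hg2 K (le_trans (le_max_right _ _) hK)
    refine ⟨max r₁ r₂, fun r hr => ?_⟩
    obtain ⟨k₁, hg1⟩ := hg1 r (le_trans (le_max_left _ _) hr)
    obtain ⟨k₂, hg2⟩ := hg2 r (le_trans (le_max_right _ _) hr)
    refine ⟨max k₁ k₂, fun k hk => ?_⟩
    obtain ⟨ζ₁, hζ₁, hg1⟩ := hg1 k (le_trans (le_max_left _ _) hk)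
    obtain ⟨ζ₂, hζ₂, hg2⟩ := hg2 k (le_trans (le_max_right _ _) hk)
    exact ⟨min ζ₁ ζ₂, lt_min hζ₁ hζ₂, fun ζ h0 hζ =>
      (hg1 ζ h0 (hζ.trans (min_le_left _ _))).and (hg2 ζ h0 (hζ.trans (min_le_right _ _)))⟩
  refine hg.mono' fun p hp => ?_
  filter_upwards [hp] with N hN Ev hEv a t ht
  obtain ⟨hb, hW⟩ := hN
  obtain ⟨q, hq⟩ := okq_of hEv
  have ha := ht.1
  set m := mdl p N a t q with hm
  -- `D₂` does not depend on `x`
  set b : ℤ := D2 (0, dG a, 0, 0, t) with hbd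
  have hD : ∀ x, D2 (rel a t x) = b := fun x => rfl
  refine ⟨m, fun x => FF p N y Ev m a t x * ∏ l ∈ (PP p N).filter (fun l => ¬ l ∣ m),
      floc l y (m2 a * t.1) (-((g1 a * m1 a * du a : ℕ) : ℤ)) ((g2 a * m2 a * dv a : ℕ) : ℤ)
        (m1 a * b) x, FF p N y Ev m a t, fun l => floc l y (m2 a * t.1)
      (-((g1 a * m1 a * du a : ℕ) : ℤ)) ((g2 a * m2 a * dv a : ℕ) : ℤ) (m1 a * b),
    mdl_pos ha (q_pos hq), mdl_le hb hW ht hq, fun l hl h => mdl_primes hb ht hq hl h, ?_, ?_⟩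
  · refine mkLoc (fun l hl => ⟨prime_of_mem_PP hl, (mem_PP.1 hl).2.2.1⟩) (FF_per hb ha hq)
      (fun x => FF_nn hy0.le x) (fun x => FF_le hy0.le hy1 x) hy0.le hy1 fun l hl hlm => ?_
    obtain ⟨k1, k2, k3, k4, k5, k6, k7⟩ := not_dvd_data hb ha hl hlm
    constructor
    · rintro ⟨-, h⟩
      rw [dvd_neg] at h
      exact k4 (by exact_mod_cast h)
    · rintro ⟨h, -⟩
      exact k5 (by exact_mod_cast h)
  · intro x hx _
    exact lw_eq hb ht hq hx

end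

end Pool.Agent.Lib.MP391708.TF.HLC
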