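import Pool.Agent.Lib.MP_391708_nt.TF1.Cmp
import Pool.Agent.Lib.MP_391708_nt.TF1.GmEq

/-!
# T1a: `SpecEQ` for every form
-/

set_option autoImplicit false

namespace Pool.Agent.Lib.MP391708.TF

open Finset Filter Topology
open Pool.Agent.Lib.MP391708.Eqd (V cross pairs res)
open scoped Classical

export Pool.Agent.Lib.MP391708.T4 (cg_iff per_iff sum_cls card_cls mean_eq)

variable [Pool.Agent.Lib.MP391708.TF.Aa] [Pool.Agent.Lib.MP391708.TF.Frm]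

/-- a version of `SpecEQ` with explicit error -/
theorem specEQ (hEq : TF1.SpecEquid) : SpecEQ := by
  obtain ⟨K, hK, h⟩ := TF1.specGmEq hEq
  refine ⟨1 / 2400, by norm_num, ?_⟩
  have h1 : ∀ᶠ N : ℕ in atTop, K ≤ (N : ℝ) ^ (1 / 100 : ℝ) ∧ 1 ≤ N :=
    ((((tendsto_rpow_atTop (show (0 : ℝ) < 1 / 100 by norm_num)).comp
      tendsto_natCast_atTop_atTop).eventually_ge_atTop K).and (eventually_ge_atTop 1))
  filter_upwards [h1] with N hN m F α β hm hmN hF hF0 hF1 hα hαβ hβ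
  have hNR : (1 : ℝ) ≤ N := by exact_mod_cast hN.2
  have hN0 : (0 : ℝ) < N := by linarith
  have h2 : (N : ℝ) ^ (-(1 / 2) : ℝ) ≤ α :=
    (Real.rpow_le_rpow_of_exponent_le hNR (by norm_num)).trans hα
  have h3 := h N hN.2 α β h2 hαβ hβ m hm F (per_iff.1 hF) (fun x => by
    rw [abs_of_nonneg (hF0 x)]; exact hF1 x)
  rw [mean_eq hm]
  refine h3.trans ?_
  have h4 : (m : ℝ) ^ 12 ≤ (N : ℝ) ^ (1 / 200 : ℝ) := by
    calc (m : ℝ) ^ 12 ≤ ((N : ℝ) ^ (1 / 2400 : ℝ)) ^ 12 :=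
          pow_le_pow_left₀ (Nat.cast_nonneg _) hmN _
      _ = (N : ℝ) ^ (1 / 200 : ℝ) := by
          rw [← Real.rpow_natCast, ← Real.rpow_mul hN0.le]; norm_num
  calc K * (m : ℝ) ^ 12 * (N : ℝ) ^ (49 / 50 : ℝ) ≤
      (N : ℝ) ^ (1 / 100 : ℝ) * (N : ℝ) ^ (1 / 200 : ℝ) * (N : ℝ) ^ (49 / 50 : ℝ) :=
        mul_le_mul_of_nonneg_right (mul_le_mul hN.1 h4 (by positivity) (by positivity))
          (by positivity)
    _ = (N : ℝ) ^ (199 / 200 : ℝ) := by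
        rw [← Real.rpow_add hN0, ← Real.rpow_add hN0]; norm_num
    _ ≤ (N : ℝ) ^ (1 - 1 / 2400 : ℝ) := Real.rpow_le_rpow_of_exponent_le hNR (by norm_num)

end Pool.Agent.Lib.MP391708.TF
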