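import Pool.Agent.Lib.MP_391708_nt.TF.BrT
import Pool.Agent.Lib.MP_391708_nt.TA.EqfN
import Pool.Agent.Lib.MP_391708_nt.TF.Gam
import Pool.Agent.Lib.MP_391708_nt.TF.Cls
import Pool.Agent.Lib.MP_391708_nt.TF.KA1
import Pool.Agent.Lib.MP_391708_nt.TF.H1a
import Pool.Agent.Lib.MP_391708_nt.TF.H1b
import Pool.Agent.Lib.MP_391708_nt.TF.H2
import Pool.Agent.Lib.MP_391708_nt.TF.LocC
import Pool.Agent.Lib.MP_391708_nt.TF.HC
import Pool.Agent.Lib.MP_391708_nt.TF.HP
import Pool.Agent.Lib.MP_391708_nt.TF.HM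
import Pool.Agent.Lib.MP_391708_nt.TF.HN
import Pool.Agent.Lib.MP_391708_nt.TF.HW
import Pool.Agent.Lib.MP_391708_nt.TF.HA
import Pool.Agent.Lib.MP_391708_nt.TF.HS
import Pool.Agent.Lib.MP_391708_nt.TF.HB
import Pool.Agent.Lib.MP_391708_nt.TF.HB2
import Pool.Agent.Lib.MP_391708_nt.TF.HD
import Pool.Agent.Lib.MP_391708_nt.TF.IBB
import Pool.Agent.Lib.MP_391708_nt.TF1.A12
import Pool.Agent.Lib.MP_391708_nt.TF1.A3
import Pool.Agent.Lib.MP_391708_nt.TF1.FuC
import Pool.Agent.Lib.MP_391708_nt.TF1.FuP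
import Pool.Agent.Lib.MP_391708_nt.TF1.TypC
import Pool.Agent.Lib.MP_391708_nt.TF1.NuFin
import Pool.Agent.Lib.MP_391708_nt.TF1.EFin
import Pool.Agent.Lib.MP_391708_nt.TF1.NGF

/-!
# The assembly of theorem T1a (group T) from the modules
-/

set_option autoImplicit false

namespace Pool.Agent.Lib.MP391708.TF

open H

/-- theorem T1a for one sign of a sign function, from seeds (and NG) -/
theorem t1g_of [Aa] [Frm] (hNG : SpecNG) {g : ℕ → ℤ} (hg : IsSign g) {e : ℤ}
    (hS : SpecSEEDg g e) : SpecT1g g e := by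
  have eq : SpecEQ := eq_holds
  have fl : SpecFL := fl_holds
  have cmp : SpecCMP := cmp_holds
  have cnt : SpecCNT := specCNT
  have aut : SpecAUT := specAUT
  have a2 : SpecA2 := A12.specA2
  have a3 : SpecA3 := A3.specA3
  have h1a : SpecH1a := specH1a
  have h2 : SpecH2 := specH2 h1a
  have h3 : SpecH3 := HLC.specH3
  have hc : SpecHC := specHC h1a h2 h3 cmp
  have tm : SpecTM := specTM eq cnt
  have pmt : SpecPMT := specPMT tm (specPM eq cnt)
  have typ : SpecTyp := TypM.specTyp eq fl cnt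
  have hp : SpecHP := specHP TF1.EFin.phi TF1.EFin.phu h1a specH1c
  have hm : SpecHM := specHM hp typ tm pmt (TypM.specPQH eq cnt) (TypM.specFC fl cnt)
  have hn : SpecHN := specHN cnt hc hm
  have hb : SpecHB := specHB h1a cnt hc hm (specHD (TA.NG.cnt_all aa_pos) h1a cnt tm) specHB2
  have hs : SpecHS := specHS aut h1a h2 h3 cmp cnt hNG a2 a3 specHW
  have aa : SpecAA := specHA specH1b hc hs hm hb hn specHW cnt
  have bb : SpecBB := I.specBB (fun F => @cmp_holds _ F) TF1.EFin.phu hNG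
  exact kseed cnt (specNU fl cnt aut typ) aa bb hg (specA1g hg) a2 a3 hS

/-- **theorem T1a** (group T) for one sign of a sign function, from seeds for one form -/
theorem t1g [Aa] [Frm] {g : ℕ → ℤ} (hg : IsSign g) {e : ℤ} (hS : SpecSEEDg g e) : SpecT1g g e :=
  t1g_of TF1.NG.specNG hg hS

end Pool.Agent.Lib.MP391708.TF
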