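import Pool.Agent.Lib.MP_391708_nt.TF.BrA
import Pool.Agent.Lib.MP_391708_nt.T4.BrD

/-!
# T1a: `SpecFL` and `SpecCMP` of the interface from `TF1/Cmp`, for every form
-/

set_option autoImplicit false

namespace Pool.Agent.Lib.MP391708.TF

open Finset Filter Topology
open Pool.Agent.Lib.MP391708.Eqd (V cross pairs res)
open Pool.Agent.Lib.MP391708.QPA (PB)
open scoped Classical

export Pool.Agent.Lib.MP391708.T4 (SpecPow2 specPow2 Aex Aex_pos ML_eq ML_le ff ff_pos ff_neg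
  ff_props size_aux dn_prod)

variable [Pool.Agent.Lib.MP391708.TF.Aa] [Pool.Agent.Lib.MP391708.TF.Frm]

/-- the density of `H ∣ F(s v + t w)` -/
def SpecInd : Prop :=
  ∀ H : ℕ, Squarefree H → (∀ l : ℕ, l.Prime → l ∣ H → spl l) → ∀ s t : ℤ, prim H s t →
    T1.mn H (fun x => if (H : ℤ) ∣ qf x s t then 1 else 0) =
      ∏ l ∈ H.primeFactors, 2 / ((l : ℝ) + 1)

omit [Frm] in
lemma mem_PPd {p : Prm} {N l : ℕ} : l ∈ PP p N ↔
    (l : ℝ) < zz p N ∧ l.Prime ∧ spl l ∧ p.E < l := by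
  unfold PP
  rw [Finset.mem_filter, Finset.mem_range, Nat.lt_ceil]

omit [Frm] in
lemma PP_sub (p : Prm) (N : ℕ) : PP p N ⊆ PB (zz p N) := by
  intro l hl
  have h := mem_PPd.1 hl
  exact QPA.FL.mem_PB.2 ⟨h.2.1, h.1⟩

omit [Frm] in
lemma gm_ff (hP2 : SpecPow2) {p : Prm} {N : ℕ} {κ : ℝ} {m : ℕ} {w F : VV → ℝ}
    {f : ℕ → VV → ℝ} (h : Loc (PP p N) κ m w F f) {l : ℕ} (hl : l.Prime) :
    T1.gm m (ff (PP p N) m f) l =
      if l ∈ PP p N ∧ ¬ l ∣ m then mean l (fun x => 1 - f l x) else 0 := by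
  have : NeZero (l ^ 2) := ⟨pow_ne_zero _ hl.ne_zero⟩
  have : NeZero l := ⟨hl.ne_zero⟩
  unfold T1.gm
  by_cases hm : l ∣ m
  · rw [if_pos hm, if_neg (fun h => h.2 hm)]
  · rw [if_neg hm]
    by_cases hP : l ∈ PP p N
    · rw [if_pos ⟨hP, hm⟩, ff_pos ⟨hP, hm⟩, hP2 l hl _ (per_iff.1 (h.perf l hP hm)),
        mean_eq hl.pos, T1.mn_one_sub]
    · rw [if_neg (fun h => hP h.1), ff_neg (fun h => hP h.1), T1.mn_const, sub_self]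

lemma sG_ff {p : Prm} {N : ℕ} (N1 : ℕ) {κ : ℝ} {m : ℕ} {w F : VV → ℝ}
    {f : ℕ → VV → ℝ} (h : Loc (PP p N) κ m w F f) (al be : ℝ) (u : VV → ℝ) :
    ∑ x ∈ Gam N1 al be, w x * u x =
      TF1.sG N1 al be (zz p N) m (fun x => F x * u x) (ff (PP p N) m f) := by
  unfold TF1.sG
  refine Finset.sum_congr rfl fun x hx => ?_
  have hc : cross x.1 x.2 = -1 := (mem_Gam.1 hx).1
  rw [h.w_eq x hc]
  have e1 : ∏ l ∈ (PB (zz p N)).filter (fun l => ¬ l ∣ m), ff (PP p N) m f l x =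
      ∏ l ∈ (PP p N).filter (fun l => ¬ l ∣ m), f l x := by
    have hsub : (PP p N).filter (fun l => ¬ l ∣ m) ⊆
        (PB (zz p N)).filter (fun l => ¬ l ∣ m) :=
      Finset.filter_subset_filter _ (PP_sub p N)
    rw [← Finset.prod_subset hsub]
    · refine Finset.prod_congr rfl fun l hl => ?_
      rw [Finset.mem_filter] at hl
      rw [ff_pos hl]
    · intro l hl1 hl2
      rw [Finset.mem_filter] at hl1 hl2
      rw [ff_neg (fun h => hl2 h)]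
  rw [e1]
  ring

lemma mG_ff (hP2 : SpecPow2) {p : Prm} {N : ℕ} (N1 : ℕ) {κ : ℝ} {m : ℕ} (hm : 0 < m)
    {w F : VV → ℝ} {f : ℕ → VV → ℝ} (h : Loc (PP p N) κ m w F f) (al be : ℝ) :
    TF1.mG N1 al be (zz p N) m F (ff (PP p N) m f) =
      ((Gam N1 al be).card : ℝ) * mean m F *
        ∏ l ∈ (PP p N).filter (fun l => ¬ l ∣ m), (1 - mean l (fun x => 1 - f l x)) := by
  unfold TF1.mG
  rw [mean_eq hm]
  congr 1
  have hsub : (PP p N).filter (fun l => ¬ l ∣ m) ⊆ PB (zz p N) :=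
    (Finset.filter_subset _ _).trans (PP_sub p N)
  rw [← Finset.prod_subset hsub]
  · refine Finset.prod_congr rfl fun l hl => ?_
    have hl' := Finset.mem_filter.1 hl
    rw [gm_ff hP2 h (mem_PPd.1 hl'.1).2.1, if_pos hl']
  · intro l hl1 hl2
    rw [gm_ff hP2 h (QPA.FL.mem_PB.1 hl1).1, if_neg (fun h => hl2 (Finset.mem_filter.2 h)),
      sub_zero]

omit [Frm] in
lemma gm_le (hP2 : SpecPow2) {p : Prm} {N : ℕ} {κ : ℕ} (hE : 2 * κ + 1 ≤ p.E) {m : ℕ}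
    {w F : VV → ℝ} {f : ℕ → VV → ℝ} (h : Loc (PP p N) κ m w F f) {l : ℕ} (hl : l.Prime) :
    T1.gm m (ff (PP p N) m f) l ≤ κ / (l : ℝ) ∧ T1.gm m (ff (PP p N) m f) l ≤ 2 / 3 := by
  rw [gm_ff hP2 h hl]
  have hl0 : (0 : ℝ) < l := by exact_mod_cast hl.pos
  by_cases h1 : l ∈ PP p N ∧ ¬ l ∣ m
  · rw [if_pos h1]
    have h2 := h.f_mean l h1.1 h1.2
    refine ⟨h2, h2.trans ?_⟩
    have h3 : p.E < l := (mem_PPd.1 h1.1).2.2.2
    have h4 : ((2 * κ + 1 : ℕ) : ℝ) ≤ l := by exact_mod_cast (hE.trans h3.le)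
    push_cast at h4
    rw [div_le_iff₀ hl0]
    have : (0 : ℝ) ≤ κ := Nat.cast_nonneg _
    linarith
  · rw [if_neg h1]
    constructor
    · positivity
    · norm_num

/-- `SpecFL` with the region `Gam N1`, `N ≤ 4 N1`, `N1 ≤ 8 N` -/
def SpecFL1 : Prop :=
  ∃ c : ℝ, 0 < c ∧ ∀ (κ : ℕ) (ε : ℝ), 0 < ε → Good (fun p => ∀ᶠ N : ℕ in atTop,
    ∀ N1 : ℕ, N ≤ 4 * N1 → N1 ≤ 8 * N →
    ∀ (m : ℕ) (w F : VV → ℝ) (f : ℕ → VV → ℝ) (α β : ℝ), 0 < m → (m : ℝ) ≤ ML p N →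
    Loc (PP p N) κ m w F f → (N : ℝ) ^ (-c) ≤ α → α < β → β ≤ 20 →
    |∑ x ∈ Gam N1 α β, w x - ((Gam N1 α β).card : ℝ) * mean m F *
        ∏ l ∈ (PP p N).filter (fun l => ¬ l ∣ m), (1 - mean l (fun x => 1 - f l x))| ≤
      ε * (((Gam N1 α β).card : ℝ) * mean m F *
        ∏ l ∈ (PP p N).filter (fun l => ¬ l ∣ m), (1 - mean l (fun x => 1 - f l x))) +
      (N : ℝ) ^ (1 - c))

theorem specFL1 (hEq : TF1.SpecEquid) (hP2 : SpecPow2) : SpecFL1 := by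
  refine ⟨1 / 400, by norm_num, ?_⟩
  intro κ ε hε
  obtain ⟨θ, hθ, N₀, h⟩ := TF1.specFlgg (TF1.specFlg hEq) κ ε hε
  refine ⟨2 * κ + 1, fun E hE => ⟨0, fun K _ => ⟨0, fun r _ => ⟨0, fun k _ => ?_⟩⟩⟩⟩
  have hA : (0 : ℝ) < (Aex K r k : ℝ) := by exact_mod_cast Aex_pos _ _ _
  refine ⟨min (θ / 2) (1 / 4800 / (Aex K r k : ℝ)), by positivity, ?_⟩
  intro ζ hζ hζ0
  have h1 : ∀ᶠ N : ℕ in atTop, ((2 : ℝ) ≤ (N : ℝ) ^ ζ ∧ (8 : ℝ) ≤ (N : ℝ) ^ (1 / 400 : ℝ)) ∧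
      16 ≤ N ∧ 4 * N₀ ≤ N :=
    ((((tendsto_rpow_atTop hζ).comp tendsto_natCast_atTop_atTop).eventually_ge_atTop 2).and
      (((tendsto_rpow_atTop (show (0 : ℝ) < 1 / 400 by norm_num)).comp
        tendsto_natCast_atTop_atTop).eventually_ge_atTop 8)).and
      ((eventually_ge_atTop 16).and (eventually_ge_atTop (4 * N₀)))
  filter_upwards [h1] with N hN N1 hN14 hN18 m w F f α β hm hmN hL hα hαβ hβ
  obtain ⟨⟨hz2, hN8⟩, hN16, hN0⟩ := hN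
  obtain ⟨hN11, hsA, hsB, hsC⟩ := size_aux hN16 hN14 hN18 hN8
  have hNR : (1 : ℝ) ≤ N := by exact_mod_cast (by omega : 1 ≤ N)
  have hN1R : (1 : ℝ) ≤ N1 := by exact_mod_cast hN11
  have h2 : (N1 : ℝ) ^ (-(1 / 2) : ℝ) ≤ α := by
    refine le_trans ?_ hα
    calc (N1 : ℝ) ^ (-(1 / 2) : ℝ) ≤ (N1 : ℝ) ^ (-(2 * (1 / 400)) : ℝ) :=
          Real.rpow_le_rpow_of_exponent_le hN1R (by norm_num)
      _ ≤ (N : ℝ) ^ (-(1 / 400) : ℝ) := hsB _ (by norm_num)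
  have h3 : (m : ℝ) ≤ (N1 : ℝ) ^ (1 / 2400 : ℝ) := by
    calc (m : ℝ) ≤ (N : ℝ) ^ (1 / 4800 : ℝ) :=
          hmN.trans (ML_le ⟨E, K, r, k, ζ⟩ (by omega) (hζ0.trans (min_le_right _ _)))
      _ ≤ (N1 : ℝ) ^ (2 * (1 / 4800) : ℝ) := hsA _ (by norm_num)
      _ = (N1 : ℝ) ^ (1 / 2400 : ℝ) := by norm_num
  have h4 : zz ⟨E, K, r, k, ζ⟩ N ≤ (N1 : ℝ) ^ θ := by
    calc zz ⟨E, K, r, k, ζ⟩ N ≤ (N : ℝ) ^ (θ / 2) :=
          Real.rpow_le_rpow_of_exponent_le hNR (hζ0.trans (min_le_left _ _))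
      _ ≤ (N1 : ℝ) ^ (2 * (θ / 2)) := hsA _ (by positivity)
      _ = (N1 : ℝ) ^ θ := by congr 1; ring
  have key := h N1 (by omega) α β h2 hαβ hβ (zz ⟨E, K, r, k, ζ⟩ N) hz2 h4 m hm h3 F
    (per_iff.1 hL.perF)
    (fun x => ⟨hL.F_nn x, hL.F_le x⟩) (ff (PP ⟨E, K, r, k, ζ⟩ N) m f)
    (fun l _ => ff_props hL l) (fun l hl => gm_le hP2 hE hL hl)
  rw [mG_ff hP2 N1 hm hL] at key
  have e1 : ∑ x ∈ Gam N1 α β, w x =
      TF1.sG N1 α β (zz ⟨E, K, r, k, ζ⟩ N) m F (ff (PP ⟨E, K, r, k, ζ⟩ N) m f) := by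
    have := sG_ff N1 hL α β (fun _ => 1)
    simpa using this
  rw [e1]
  refine key.trans (add_le_add le_rfl ?_)
  calc (N1 : ℝ) ^ (99 / 100 : ℝ) ≤ (N : ℝ) ^ (99 / 100 + 1 / 400 : ℝ) :=
        hsC _ (by norm_num) (by norm_num)
    _ ≤ _ := Real.rpow_le_rpow_of_exponent_le hNR (by norm_num)

/-! ## CMP -/

/-- the indicator of `H ∣ |s v + t w|²` -/
noncomputable def indq (H : ℕ) (s t : ℤ) (x : VV) : ℝ := if (H : ℤ) ∣ qf x s t then 1 else 0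

lemma per_indq (H : ℕ) (s t : ℤ) : T1.Per H (indq H s t) := by
  intro x y hxy
  have h1 : ((qf x s t : ℤ) : ZMod H) = ((qf y s t : ℤ) : ZMod H) := by
    simp only [res, Prod.mk.injEq] at hxy
    obtain ⟨⟨h1, h2⟩, h3, h4⟩ := hxy
    simp only [qf, dd, mm, ee, nsq, dot]
    push_cast
    rw [h1, h2, h3, h4]
  unfold indq
  have h2 : (H : ℤ) ∣ qf x s t ↔ (H : ℤ) ∣ qf y s t := by
    rw [← ZMod.intCast_zmod_eq_zero_iff_dvd, ← ZMod.intCast_zmod_eq_zero_iff_dvd, h1]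
  by_cases h3 : (H : ℤ) ∣ qf x s t
  · rw [if_pos h3, if_pos (h2.1 h3)]
  · rw [if_neg h3, if_neg (fun h => h3 (h2.2 h))]

lemma indq_01 (H : ℕ) (s t : ℤ) (x : VV) : 0 ≤ indq H s t x ∧ indq H s t x ≤ 1 := by
  unfold indq
  split_ifs <;> norm_num

lemma mn_indq (hI : SpecInd) {p : Prm} {N H : ℕ} (hR : Rgh p N H) {s t : ℤ}
    (hp : prim H s t) : T1.mn H (indq H s t) = ∏ l ∈ H.primeFactors, 2 / ((l : ℝ) + 1) :=
  hI H hR.1 (fun l hl hd => (hR.2 l hl hd).2) s t hp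

lemma mn_indq_le (hI : SpecInd) {p : Prm} {N H : ℕ} (hR : Rgh p N H) {s t : ℤ}
    (hp : prim H s t) : T1.mn H (indq H s t) ≤ dn H := by
  rw [mn_indq hI hR hp, dn_prod hR.1]
  refine Finset.prod_le_prod (fun l _ => by positivity) fun l hl => ?_
  have : (0 : ℝ) < l := by exact_mod_cast (Nat.prime_of_mem_primeFactors hl).pos
  exact div_le_div_of_nonneg_left (by norm_num) this (by linarith)

omit [Frm] in
lemma wn_le {p : Prm} {N H : ℕ} (hN : 1 ≤ N) (hz : 1 < zz p N) (hR : Rgh p N H)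
    (hH : (H : ℝ) ≤ ML p N) : wn H ≤ Aex p.K p.r p.k := by
  have h1 : zz p N ^ (wn H) ≤ (H : ℝ) := by
    unfold wn
    conv_rhs => rw [← Nat.prod_primeFactors_of_squarefree hR.1]
    push_cast
    rw [← Finset.prod_const]
    refine Finset.prod_le_prod (fun l _ => by linarith) fun l hl => ?_
    exact (hR.2 l (Nat.prime_of_mem_primeFactors hl) (Nat.dvd_of_mem_primeFactors hl)).1
  have h2 : zz p N ^ (wn H) ≤ zz p N ^ (Aex p.K p.r p.k) := h1.trans hH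
  exact (pow_le_pow_iff_right₀ hz).1 h2

lemma mn_indq_ge (hI : SpecInd) {p : Prm} {N H : ℕ} (hN : 1 ≤ N) (hz : 1 < zz p N)
    (hR : Rgh p N H) (hH : (H : ℝ) ≤ ML p N) {s t : ℤ} (hp : prim H s t) {δ : ℝ}
    (hδ : (Aex p.K p.r p.k : ℝ) ≤ δ * zz p N) :
    (1 - δ) * dn H ≤ T1.mn H (indq H s t) := by
  rw [mn_indq hI hR hp, dn_prod hR.1]
  have hz0 : 0 < zz p N := by linarith
  have hu0 : 0 ≤ 1 - 1 / zz p N := by
    rw [sub_nonneg, div_le_one hz0]; exact hz.le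
  have hu1 : 1 - 1 / zz p N ≤ 1 := by
    have : 0 ≤ 1 / zz p N := by positivity
    linarith
  have h1 : ∏ l ∈ H.primeFactors, (1 - 1 / zz p N) * (2 / (l : ℝ)) ≤
      ∏ l ∈ H.primeFactors, 2 / ((l : ℝ) + 1) := by
    refine Finset.prod_le_prod (fun l _ => by positivity) fun l hl => ?_
    have hl0 : (0 : ℝ) < l := by exact_mod_cast (Nat.prime_of_mem_primeFactors hl).pos
    have hl1 : zz p N ≤ l :=
      (hR.2 l (Nat.prime_of_mem_primeFactors hl) (Nat.dvd_of_mem_primeFactors hl)).1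
    have h2 : 1 - 1 / zz p N ≤ 1 - 1 / (l : ℝ) := by
      have := one_div_le_one_div_of_le hz0 hl1
      linarith
    calc (1 - 1 / zz p N) * (2 / (l : ℝ)) ≤ (1 - 1 / (l : ℝ)) * (2 / (l : ℝ)) :=
          mul_le_mul_of_nonneg_right h2 (by positivity)
      _ ≤ 2 / ((l : ℝ) + 1) := by
          rw [le_div_iff₀ (by positivity)]
          have e : (1 - 1 / (l : ℝ)) * (2 / (l : ℝ)) * ((l : ℝ) + 1) =
              2 - 2 / (l : ℝ) ^ 2 := by field_simp; ring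
          rw [e]
          have : 0 ≤ 2 / (l : ℝ) ^ 2 := by positivity
          linarith
  rw [Finset.prod_mul_distrib, Finset.prod_const] at h1
  refine le_trans (mul_le_mul_of_nonneg_right ?_ (Finset.prod_nonneg fun l _ => by positivity)) h1
  have h3 : (1 - 1 / zz p N) ^ (Aex p.K p.r p.k) ≤ (1 - 1 / zz p N) ^ H.primeFactors.card :=
    pow_le_pow_of_le_one hu0 hu1 (wn_le hN hz hR hH)
  have h4 := one_add_mul_le_pow (show (-2 : ℝ) ≤ -(1 / zz p N) by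
    have : 1 / zz p N ≤ 1 := by rw [div_le_one hz0]; exact hz.le
    linarith) (Aex p.K p.r p.k)
  have h5 : (Aex p.K p.r p.k : ℝ) * (1 / zz p N) ≤ δ := by
    rw [mul_one_div, div_le_iff₀ hz0]; exact hδ
  have e : (1 : ℝ) + -(1 / zz p N) = 1 - 1 / zz p N := by ring
  rw [e] at h4
  linarith

/-- `SpecCMP` (other order of the quantifiers) -/
def SpecCMP1 : Prop :=
  ∃ c : ℝ, 0 < c ∧ ∀ (κ : ℕ) (ε : ℝ), 0 < ε → Good (fun p => ∀ᶠ N : ℕ in atTop,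
    ∀ N1 : ℕ, N ≤ 4 * N1 → N1 ≤ 8 * N →
    ∀ (m : ℕ) (w F : VV → ℝ) (f : ℕ → VV → ℝ) (α β : ℝ) (H₁ H₂ : ℕ) (s₁ t₁ s₂ t₂ : ℤ),
    0 < m → (m : ℝ) ≤ ML p N → Loc (PP p N) κ m w F f →
    (N : ℝ) ^ (-c) ≤ α → α < β → β ≤ 20 →
    Rgh p N H₁ → Rgh p N H₂ → (H₁ : ℝ) ≤ ML p N → (H₂ : ℝ) ≤ ML p N →
    Nat.Coprime H₁ m → Nat.Coprime H₂ m → Nat.Coprime H₁ H₂ → prim H₁ s₁ t₁ → prim H₂ s₂ t₂ →
    (∑ x ∈ Gam N1 α β, w x * ((if (H₁ : ℤ) ∣ qf x s₁ t₁ then 1 else 0) *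
        (if (H₂ : ℤ) ∣ qf x s₂ t₂ then 1 else 0)) ≤
      (1 + ε) * (dn H₁ * dn H₂) * ∑ x ∈ Gam N1 α β, w x + (N : ℝ) ^ (1 - c)) ∧
    ((1 - ε) * dn H₁ * ∑ x ∈ Gam N1 α β, w x - (N : ℝ) ^ (1 - c) ≤
      ∑ x ∈ Gam N1 α β, w x * (if (H₁ : ℤ) ∣ qf x s₁ t₁ then 1 else 0)))

theorem specCMP1 (hEq : TF1.SpecEquid) (hP2 : SpecPow2) (hI : SpecInd) : SpecCMP1 := by
  refine ⟨1 / 400, by norm_num, ?_⟩
  intro κ ε hε
  set η : ℝ := min ε 1 / 2 with hη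
  have hη0 : 0 < η := by have := lt_min hε one_pos; positivity
  have hη1 : η ≤ 1 / 2 := by have := min_le_right ε 1; rw [hη]; linarith
  have hη2 : 2 * η ≤ ε := by have := min_le_left ε 1; rw [hη]; linarith
  obtain ⟨θ, hθ, N₀, h⟩ := TF1.specCmp (TF1.specFlg hEq) κ η hη0
  refine ⟨2 * κ + 1, fun E hE => ⟨0, fun K _ => ⟨0, fun r _ => ⟨0, fun k _ => ?_⟩⟩⟩⟩
  have hA : (0 : ℝ) < (Aex K r k : ℝ) := by exact_mod_cast Aex_pos _ _ _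
  refine ⟨min (θ / 2) (1 / 14400 / (Aex K r k : ℝ)), by positivity, ?_⟩
  intro ζ hζ hζ0
  have h1 : ∀ᶠ N : ℕ in atTop, ((2 : ℝ) + (Aex K r k : ℝ) / η ≤ (N : ℝ) ^ ζ ∧
      (8 : ℝ) ≤ (N : ℝ) ^ (1 / 400 : ℝ)) ∧ 16 ≤ N ∧ 4 * N₀ ≤ N :=
    ((((tendsto_rpow_atTop hζ).comp tendsto_natCast_atTop_atTop).eventually_ge_atTop _).and
      (((tendsto_rpow_atTop (show (0 : ℝ) < 1 / 400 by norm_num)).comp
        tendsto_natCast_atTop_atTop).eventually_ge_atTop 8)).and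
      ((eventually_ge_atTop 16).and (eventually_ge_atTop (4 * N₀)))
  filter_upwards [h1] with N hN N1 hN14 hN18 m w F f α β H₁ H₂ s₁ t₁ s₂ t₂ hm hmN hL hα hαβ hβ
    hR1 hR2 hH1 hH2 hc1 hc2 hc12 hp1 hp2
  obtain ⟨⟨hzA, hN8⟩, hN16, hN0⟩ := hN
  obtain ⟨hN11, hsA, hsB, hsC⟩ := size_aux hN16 hN14 hN18 hN8
  have hN1 : 1 ≤ N := by omega
  have hN1R : (1 : ℝ) ≤ N1 := by exact_mod_cast hN11
  have hN1p : (0 : ℝ) < N1 := by linarith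
  set p : Prm := ⟨E, K, r, k, ζ⟩ with hp
  have hzz : zz p N = (N : ℝ) ^ ζ := rfl
  have hAη : 0 ≤ (Aex K r k : ℝ) / η := by positivity
  have hz2 : 2 ≤ zz p N := by rw [hzz]; linarith
  have hzA' : (Aex p.K p.r p.k : ℝ) ≤ η * zz p N := by
    have h2 : (Aex K r k : ℝ) / η ≤ zz p N := by rw [hzz]; linarith
    rw [div_le_iff₀ hη0] at h2
    change (Aex K r k : ℝ) ≤ η * zz p N
    linarith
  have hNR : (1 : ℝ) ≤ N := by exact_mod_cast hN1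
  have hNp : (0 : ℝ) < N := by linarith
  have h2 : (N1 : ℝ) ^ (-(1 / 2) : ℝ) ≤ α := by
    refine le_trans ?_ hα
    calc (N1 : ℝ) ^ (-(1 / 2) : ℝ) ≤ (N1 : ℝ) ^ (-(2 * (1 / 400)) : ℝ) :=
          Real.rpow_le_rpow_of_exponent_le hN1R (by norm_num)
      _ ≤ (N : ℝ) ^ (-(1 / 400) : ℝ) := hsB _ (by norm_num)
  have hML : ML p N ≤ (N1 : ℝ) ^ (1 / 7200 : ℝ) := by
    calc ML p N ≤ (N : ℝ) ^ (1 / 14400 : ℝ) := ML_le p hN1 (hζ0.trans (min_le_right _ _))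
      _ ≤ (N1 : ℝ) ^ (2 * (1 / 14400) : ℝ) := hsA _ (by norm_num)
      _ = (N1 : ℝ) ^ (1 / 7200 : ℝ) := by norm_num
  have h4 : zz p N ≤ (N1 : ℝ) ^ θ := by
    calc zz p N ≤ (N : ℝ) ^ (θ / 2) :=
          Real.rpow_le_rpow_of_exponent_le hNR (hζ0.trans (min_le_left _ _))
      _ ≤ (N1 : ℝ) ^ (2 * (θ / 2)) := hsA _ (by positivity)
      _ = (N1 : ℝ) ^ θ := by congr 1; ring
  have hErr : (N1 : ℝ) ^ (199 / 200 : ℝ) ≤ (N : ℝ) ^ (1 - 1 / 400 : ℝ) := by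
    calc (N1 : ℝ) ^ (199 / 200 : ℝ) ≤ (N : ℝ) ^ (199 / 200 + 1 / 400 : ℝ) :=
          hsC _ (by norm_num) (by norm_num)
      _ ≤ _ := Real.rpow_le_rpow_of_exponent_le hNR (by norm_num)
  have hH1pos : 0 < H₁ := Nat.pos_of_ne_zero hR1.1.ne_zero
  have hH2pos : 0 < H₂ := Nat.pos_of_ne_zero hR2.1.ne_zero
  have h3 : ((m * (H₁ * H₂) : ℕ) : ℝ) ≤ (N1 : ℝ) ^ (1 / 2400 : ℝ) := by
    push_cast
    have e : (N1 : ℝ) ^ (1 / 2400 : ℝ) =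
        (N1 : ℝ) ^ (1 / 7200 : ℝ) * ((N1 : ℝ) ^ (1 / 7200 : ℝ) * (N1 : ℝ) ^ (1 / 7200 : ℝ)) := by
      rw [← Real.rpow_add hN1p, ← Real.rpow_add hN1p]; norm_num
    rw [e]
    exact mul_le_mul (hmN.trans hML) (mul_le_mul (hH1.trans hML) (hH2.trans hML)
      (Nat.cast_nonneg _) (by positivity)) (by positivity) (by positivity)
  have h3' : ((m * H₁ : ℕ) : ℝ) ≤ (N1 : ℝ) ^ (1 / 2400 : ℝ) := by
    refine le_trans ?_ h3
    have : m * H₁ ≤ m * (H₁ * H₂) :=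
      Nat.mul_le_mul_left m (Nat.le_mul_of_pos_right H₁ hH2pos)
    exact_mod_cast this
  have hS0 : 0 ≤ ∑ x ∈ Gam N1 α β, w x := by
    refine Finset.sum_nonneg fun x hx => ?_
    rw [hL.w_eq x (mem_Gam.1 hx).1]
    refine mul_nonneg (hL.F_nn x) (Finset.prod_nonneg fun l hl => ?_)
    rw [Finset.mem_filter] at hl
    exact hL.f_nn l hl.1 hl.2 x
  have e0 : ∑ x ∈ Gam N1 α β, w x =
      TF1.sG N1 α β (zz p N) m F (ff (PP p N) m f) := by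
    have := sG_ff N1 hL α β (fun _ => 1)
    simpa using this
  have e1 : ∑ x ∈ Gam N1 α β, w x * (if (H₁ : ℤ) ∣ qf x s₁ t₁ then 1 else 0) =
      TF1.sG N1 α β (zz p N) m (fun x => F x * indq H₁ s₁ t₁ x) (ff (PP p N) m f) :=
    sG_ff N1 hL α β (indq H₁ s₁ t₁)
  have e2 : ∑ x ∈ Gam N1 α β, w x * ((if (H₁ : ℤ) ∣ qf x s₁ t₁ then 1 else 0) *
        (if (H₂ : ℤ) ∣ qf x s₂ t₂ then 1 else 0)) =
      TF1.sG N1 α β (zz p N) m (fun x => F x * (indq H₁ s₁ t₁ x * indq H₂ s₂ t₂ x))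
        (ff (PP p N) m f) :=
    sG_ff N1 hL α β (fun x => indq H₁ s₁ t₁ x * indq H₂ s₂ t₂ x)
  have hd1 : 0 ≤ dn H₁ := by unfold dn; positivity
  have hd2 : 0 ≤ dn H₂ := by unfold dn; positivity
  constructor
  · rw [e2, e0]
    have hcop : m.Coprime (H₁ * H₂) := Nat.Coprime.mul_right hc1.symm hc2.symm
    have hper : T1.Per (H₁ * H₂) (fun x => indq H₁ s₁ t₁ x * indq H₂ s₂ t₂ x) :=
      ((per_indq H₁ s₁ t₁).mono (Dvd.intro _ rfl)).mul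
        ((per_indq H₂ s₂ t₂).mono (Dvd.intro_left _ rfl))
    have h01 : ∀ x, 0 ≤ indq H₁ s₁ t₁ x * indq H₂ s₂ t₂ x ∧
        indq H₁ s₁ t₁ x * indq H₂ s₂ t₂ x ≤ 1 := fun x =>
      ⟨mul_nonneg (indq_01 _ _ _ x).1 (indq_01 _ _ _ x).1,
        mul_le_one₀ (indq_01 _ _ _ x).2 (indq_01 _ _ _ x).1 (indq_01 _ _ _ x).2⟩
    have key := h N1 (by omega) α β h2 hαβ hβ (zz p N) hz2 h4 m (H₁ * H₂) hm
      (Nat.mul_pos hH1pos hH2pos) hcop h3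
      (fun l hl hd => by
        rcases (hl.dvd_mul).1 hd with h | h
        · exact (hR1.2 l hl h).1
        · exact (hR2.2 l hl h).1)
      F (fun x => indq H₁ s₁ t₁ x * indq H₂ s₂ t₂ x) (per_iff.1 hL.perF)
      (fun x => ⟨hL.F_nn x, hL.F_le x⟩) hper h01 (ff (PP p N) m f)
      (fun l _ => ff_props hL l) (fun l hl => gm_le hP2 hE hL hl)
    rw [T1.mn_mul hc12 hH1pos.ne' hH2pos.ne' (per_indq _ _ _) (per_indq _ _ _)] at key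
    have h5 := (abs_le.1 key).2
    have h6 : T1.mn H₁ (indq H₁ s₁ t₁) * T1.mn H₂ (indq H₂ s₂ t₂) ≤ dn H₁ * dn H₂ :=
      mul_le_mul (mn_indq_le hI hR1 hp1) (mn_indq_le hI hR2 hp2)
        (T1.mn_nonneg fun x => (indq_01 _ _ _ x).1) hd1
    have h7 : T1.mn H₁ (indq H₁ s₁ t₁) * T1.mn H₂ (indq H₂ s₂ t₂) *
        TF1.sG N1 α β (zz p N) m F (ff (PP p N) m f) ≤ dn H₁ * dn H₂ *
        TF1.sG N1 α β (zz p N) m F (ff (PP p N) m f) :=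
      mul_le_mul_of_nonneg_right h6 (by rw [← e0]; exact hS0)
    have h8 : 0 ≤ T1.mn H₁ (indq H₁ s₁ t₁) * T1.mn H₂ (indq H₂ s₂ t₂) *
        TF1.sG N1 α β (zz p N) m F (ff (PP p N) m f) :=
      mul_nonneg (mul_nonneg (T1.mn_nonneg fun x => (indq_01 _ _ _ x).1)
        (T1.mn_nonneg fun x => (indq_01 _ _ _ x).1)) (by rw [← e0]; exact hS0)
    have h10 : η ≤ ε := by linarith
    nlinarith
  · rw [e1, e0]
    have key := h N1 (by omega) α β h2 hαβ hβ (zz p N) hz2 h4 m H₁ hm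
      hH1pos hc1.symm h3'
      (fun l hl hd => (hR1.2 l hl hd).1)
      F (indq H₁ s₁ t₁) (per_iff.1 hL.perF)
      (fun x => ⟨hL.F_nn x, hL.F_le x⟩) (per_indq H₁ s₁ t₁) (indq_01 H₁ s₁ t₁)
      (ff (PP p N) m f)
      (fun l _ => ff_props hL l) (fun l hl => gm_le hP2 hE hL hl)
    have h5 := (abs_le.1 key).1
    have h6 := mn_indq_ge hI hN1 (by linarith) hR1 hH1 hp1 hzA'
    have hSG : 0 ≤ TF1.sG N1 α β (zz p N) m F (ff (PP p N) m f) := by rw [← e0]; exact hS0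
    have h7 : (1 - ε) * dn H₁ * TF1.sG N1 α β (zz p N) m F (ff (PP p N) m f) ≤
        (1 - η) * (T1.mn H₁ (indq H₁ s₁ t₁) *
          TF1.sG N1 α β (zz p N) m F (ff (PP p N) m f)) := by
      rw [← mul_assoc]
      refine mul_le_mul_of_nonneg_right ?_ hSG
      calc (1 - ε) * dn H₁ ≤ ((1 - η) * (1 - η)) * dn H₁ :=
            mul_le_mul_of_nonneg_right (by nlinarith) hd1
        _ = (1 - η) * ((1 - η) * dn H₁) := by ring
        _ ≤ _ := mul_le_mul_of_nonneg_left h6 (by linarith)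
    linarith

/-! ## The statements of the interface -/

theorem specFL (hEq : TF1.SpecEquid) : SpecFL := by
  obtain ⟨c, hc, h⟩ := specFL1 hEq specPow2
  refine ⟨c, hc, fun κ ε hε => ?_⟩
  obtain ⟨E0, h⟩ := h κ ε hε
  refine ⟨E0, fun E hE => ?_⟩
  obtain ⟨K0, h⟩ := h E hE
  refine ⟨K0, fun K hK => ?_⟩
  obtain ⟨r0, h⟩ := h K hK
  refine ⟨r0, fun r hr => ?_⟩
  obtain ⟨k0, h⟩ := h r hr
  refine ⟨k0, fun k hk => ?_⟩
  obtain ⟨z0, hz0, h⟩ := h k hk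
  refine ⟨z0, hz0, fun ζ h1 h2 => ?_⟩
  filter_upwards [h ζ h1 h2] with N hN
  exact fun N1 m w F f α β h1 h2 => hN N1 h1 h2 m w F f α β

theorem specCMP (hEq : TF1.SpecEquid) (hI : SpecInd) : SpecCMP := by
  obtain ⟨c, hc, h⟩ := specCMP1 hEq specPow2 hI
  refine ⟨c, hc, fun κ ε hε => ?_⟩
  obtain ⟨E0, h⟩ := h κ ε hε
  refine ⟨E0, fun E hE => ?_⟩
  obtain ⟨K0, h⟩ := h E hE
  refine ⟨K0, fun K hK => ?_⟩
  obtain ⟨r0, h⟩ := h K hK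
  refine ⟨r0, fun r hr => ?_⟩
  obtain ⟨k0, h⟩ := h r hr
  refine ⟨k0, fun k hk => ?_⟩
  obtain ⟨z0, hz0, h⟩ := h k hk
  refine ⟨z0, hz0, fun ζ h1 h2 => ?_⟩
  filter_upwards [h ζ h1 h2] with N hN
  exact fun N1 m w F f α β H₁ H₂ s₁ t₁ s₂ t₂ h1 h2 =>
    hN N1 h1 h2 m w F f α β H₁ H₂ s₁ t₁ s₂ t₂

end Pool.Agent.Lib.MP391708.TF
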