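import Pool.Agent.Lib.MP_391708_nt.TF.BrD
import Pool.Agent.Lib.MP_391708_nt.TF1.SlLD

/-!
# T1a: `SpecEQ`, `SpecFL`, `SpecCMP` for every form, from the equidistribution of unimodular pairs
-/

set_option autoImplicit false

namespace Pool.Agent.Lib.MP391708.TF

variable [Pool.Agent.Lib.MP391708.TF.Aa] [Pool.Agent.Lib.MP391708.TF.Frm]

theorem specInd : SpecInd := by
  intro H hH h4 s t hp
  exact TF1.mn_ind_sqf hH h4 (s := s) (t := t) hp

theorem specCMP' (hEq : TF1.SpecEquid) : SpecCMP := specCMP hEq specInd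

end Pool.Agent.Lib.MP391708.TF
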