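import Pool.Agent.Lib.MP_391708_nt.TF.BrI
import Pool.Agent.Lib.MP_391708_nt.TF1.EquidT

/-!
# T1a: the interface statements of the groups C and D, for every form
-/

set_option autoImplicit false

namespace Pool.Agent.Lib.MP391708.TF

variable [Pool.Agent.Lib.MP391708.TF.Aa] [Pool.Agent.Lib.MP391708.TF.Frm]

theorem eq_holds : SpecEQ := specEQ TF1.equid

theorem fl_holds : SpecFL := specFL TF1.equid

theorem cmp_holds : SpecCMP := specCMP' TF1.equid

end Pool.Agent.Lib.MP391708.TF
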