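import Pool.Agent.Lib.MP_391708_nt.TF.Kasm

/-!
# Group K: from squarefree `a` to all `a ≥ 1`

`n = b m` gives `n² + b² a₀ = b² (m² + a₀)`, and a sign function is `1` at squares.
-/

set_option autoImplicit false
set_option linter.constructorNameAsVariable false

namespace Pool.Agent.Lib.MP391708.TF.KAll

open Finset Filter Topology
open scoped Classical

/-- the determinant as an instance -/
def mkA (a : ℕ) (ha : 0 < a) (hs : Squarefree a) : Aa := ⟨a, ha, hs⟩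

/-- the case `a = b² a₀` from `a₀` -/
theorem of_sq {g : ℕ → ℤ} (hg : IsSign g) {a₀ b : ℕ} (ha : 0 < a₀) (hb : 0 < b) {e : ℤ} {c : ℝ}
    (hc : 0 < c) (h : ∀ᶠ N : ℕ in atTop,
      c * N ≤ (((Icc 1 N).filter (fun n => g (n ^ 2 + a₀) = e)).card : ℝ)) :
    ∃ c : ℝ, 0 < c ∧ ∀ᶠ N : ℕ in atTop,
      c * N ≤ (((Icc 1 N).filter (fun n => g (n ^ 2 + b ^ 2 * a₀) = e)).card : ℝ) := by
  obtain ⟨N₀, h⟩ := eventually_atTop.1 h
  refine ⟨c / (2 * b), by positivity, ?_⟩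
  filter_upwards [eventually_ge_atTop (b * (N₀ + 1))] with N hN
  set n : ℕ := N / b with hn
  have h1 : N₀ + 1 ≤ n := by
    rw [hn, Nat.le_div_iff_mul_le hb]
    linarith [mul_comm b (N₀ + 1)]
  have h2 : b * n ≤ N := Nat.mul_div_le N b
  have h3 : N < b * (n + 1) := by
    rw [hn]
    exact Nat.lt_mul_div_succ N hb
  have hb' : (0 : ℝ) < b := by exact_mod_cast hb
  have h4 : (N : ℝ) ≤ 2 * b * n := by
    have : N ≤ 2 * (b * n) := by nlinarith
    have h5 : (N : ℝ) ≤ 2 * (b * n) := by exact_mod_cast this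
    linarith
  calc c / (2 * b) * N ≤ c / (2 * b) * (2 * b * n) := by gcongr
    _ = c * n := by field_simp
    _ ≤ _ := h n (by omega)
    _ ≤ _ := by
      refine Nat.cast_le.2 (card_le_card_of_injOn (fun m => b * m) ?_ ?_)
      · intro m hm
        rw [mem_coe, mem_filter, mem_Icc] at hm
        rw [mem_coe, mem_filter, mem_Icc]
        obtain ⟨⟨m1, m2⟩, m3⟩ := hm
        refine ⟨⟨Nat.mul_pos hb m1, (Nat.mul_le_mul_left b m2).trans h2⟩, ?_⟩
        have e1 : (b * m) ^ 2 + b ^ 2 * a₀ = (b * b) * (m ^ 2 + a₀) := by ring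
        rw [e1, hg.mul _ _ (Nat.mul_pos hb hb) (by positivity), hg.mul b b hb hb, m3]
        rcases hg.val b hb with hv | hv <;> rw [hv] <;> norm_num
      · intro m _ m' _ hmm
        exact Nat.eq_of_mul_eq_mul_left hb hmm

/-- from squarefree `a` to all `a ≥ 1`, every sign function -/
theorem all_a {g : ℕ → ℤ} (hg : IsSign g) {a : ℕ} (ha : 0 < a) {e : ℤ}
    (h : ∀ (a₀ b : ℕ) (h₀ : 0 < a₀) (hs : Squarefree a₀), 0 < b → b ^ 2 * a₀ = a →
      @SpecT1g (mkA a₀ h₀ hs) g e) :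
    ∃ c : ℝ, 0 < c ∧ ∀ᶠ N : ℕ in atTop,
      c * N ≤ (((Icc 1 N).filter (fun n => g (n ^ 2 + a) = e)).card : ℝ) := by
  obtain ⟨a₀, b, hab, hs⟩ := Nat.sq_mul_squarefree a
  have hb : 0 < b := by
    rcases Nat.eq_zero_or_pos b with h0 | h0
    · subst h0
      simp at hab
      omega
    · exact h0
  have h₀ : 0 < a₀ := by
    rcases Nat.eq_zero_or_pos a₀ with h0 | h0
    · subst h0
      simp at hab
      omega
    · exact h0
  obtain ⟨c, hc, h1⟩ := h a₀ b h₀ hs hb hab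
  rw [← hab]
  exact of_sq hg h₀ hb hc h1

/-- **Theorem T1a**: both signs of the Liouville function, every `a ≥ 1` -/
theorem all_lam (h : ∀ (a₀ : ℕ) (h₀ : 0 < a₀) (hs : Squarefree a₀), @SpecT1 (mkA a₀ h₀ hs)) :
    ∀ a : ℕ, 0 < a → ∃ c : ℝ, 0 < c ∧ ∀ᶠ N : ℕ in atTop, ∀ e : ℤ, (e = 1 ∨ e = -1) →
      c * N ≤ (((Icc 1 N).filter (fun n => lam (n ^ 2 + a) = e)).card : ℝ) := by
  intro a ha
  have key : ∀ e : ℤ, (e = 1 ∨ e = -1) → ∃ c : ℝ, 0 < c ∧ ∀ᶠ N : ℕ in atTop,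
      c * N ≤ (((Icc 1 N).filter (fun n => lam (n ^ 2 + a) = e)).card : ℝ) := by
    intro e he
    refine all_a (@isSign_lam (mkA 1 one_pos squarefree_one)) ha fun a₀ b h₀ hs _ _ => ?_
    obtain ⟨c, hc, h1⟩ := h a₀ h₀ hs
    rcases he with rfl | rfl
    · exact ⟨c, hc, h1.mono fun N hN => hN.1⟩
    · exact ⟨c, hc, h1.mono fun N hN => hN.2⟩
  obtain ⟨c₁, hc₁, h₁⟩ := key 1 (Or.inl rfl)
  obtain ⟨c₂, hc₂, h₂⟩ := key (-1) (Or.inr rfl)
  refine ⟨min c₁ c₂, lt_min hc₁ hc₂, ?_⟩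
  filter_upwards [h₁, h₂] with N h₁ h₂ e he
  rcases he with rfl | rfl
  · exact (mul_le_mul_of_nonneg_right (min_le_left _ _) (Nat.cast_nonneg _)).trans h₁
  · exact (mul_le_mul_of_nonneg_right (min_le_right _ _) (Nat.cast_nonneg _)).trans h₂

end Pool.Agent.Lib.MP391708.TF.KAll
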