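import Pool.Agent.Lib.MP_391708_nt.TF.SeedBr
import Pool.Agent.Lib.MP_391708_nt.TF.Kasm

/-!
# T1a: the bridge from group S to `TF.SpecSEEDg`, every sign function
-/

set_option autoImplicit false

namespace Pool.Agent.Lib.MP391708.TF

open Finset Filter Topology
open Pool.Agent.Lib.MP391708.Eqd (V cross pairs)
open scoped Classical

namespace SeedBr

variable [Aa]

/-- from group S to `SpecSEEDg`; `G` is the sign function on the integers used in group S -/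
theorem seedg (F : SG.Fm) (hA : 0 < F.A) (h : F.a = (aa : ℤ)) {g : ℕ → ℤ} {G : ℤ → ℤ}
    (hG : ∀ n : ℕ, 0 < n → G (n : ℤ) = g n) {e : ℤ}
    (hS : ∃ (T : ℕ) (c : ℝ), 0 < T ∧ 0 < c ∧ ∀ᶠ N : ℕ in atTop, ∃ N' : ℕ, N ≤ T * N' ∧ N' ≤ N ∧
        c * N' ≤ (((SG.G1 F N').filter (fun x => G (F.b x.1 x.2 ^ 2 + F.a) = e)).card : ℝ)) :
    @SpecSEEDg _ (frmOf F hA h) g e := by
  obtain ⟨T₁, c₁, hT₁, hc₁, h₁⟩ := hS
  refine ⟨c₁, hc₁, T₁, hT₁, h₁.mono ?_⟩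
  rintro N ⟨N', h2, h3, h4⟩
  refine ⟨N', h2, h3, h4.trans (Nat.cast_le.2 (card_le_card fun x hx => ?_))⟩
  rw [mem_filter] at hx ⊢
  refine ⟨sub F hA h N' hx.1, ?_⟩
  have hmm : @mm _ (frmOf F hA h) x = F.b x.1 x.2 := dot_eq F hA h _ _
  rw [hmm]
  have hx2 := hx.2
  have ha : 0 < aa := Aa.ha
  have : F.b x.1 x.2 ^ 2 + F.a = (((F.b x.1 x.2).natAbs ^ 2 + aa : ℕ) : ℤ) := by
    rw [h]
    push_cast
    rw [sq_abs]
  rw [this, hG _ (by positivity)] at hx2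
  exact hx2

end SeedBr

end Pool.Agent.Lib.MP391708.TF
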