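import Pool.Agent.Lib.MP_391708_nt.TF.Asm
import Pool.Agent.Lib.MP_391708_nt.TF.KAll
import Pool.Agent.Lib.MP_391708_nt.TF.SeedG
import Pool.Agent.Lib.MP_391708_nt.SG.Main
import Pool.Agent.Lib.MP_391708_nt.MA.Main

/-!
# Theorem T1a: every `a ≥ 1`, every completely multiplicative sign function
-/

set_option autoImplicit false

namespace Pool.Agent.Lib.MP391708.TF

open Finset Filter Topology
open Pool.Agent.Lib.MP391708.MA (Sg gs)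
open scoped Classical

/-- squarefree `a` -/
theorem t1_sqf [Aa] {g : ℕ → ℤ} (hg : IsSign g) {e : ℤ}
    (he : ∃ x y : ℤ, x ^ 2 + (aa : ℤ) * y ^ 2 ≠ 0 ∧ g (x ^ 2 + (aa : ℤ) * y ^ 2).natAbs = e) :
    SpecT1g g e := by
  let _ : Sg := ⟨g, ⟨hg.val, hg.mul⟩⟩
  have ha : 0 < aa := Aa.ha
  obtain ⟨F, hF, hFa, hseed⟩ := SG.seeds ha
  obtain ⟨x, y, h0, h1⟩ := he
  have hgs : ∀ n : ℕ, 0 < n → gs n = g n := fun n hn => MA.gs_of_pos hn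
  have hs := hseed e ⟨x, y, by rw [hFa]; exact h0, by
    rw [hFa]
    exact (hgs _ (Int.natAbs_pos.2 h0)).trans h1⟩
  have hA : 0 < F.A := hF.1
  letI : Frm := frmOf F hA hFa
  exact t1g hg (SeedBr.seedg F hA hFa (G := SG.lam) (fun n hn => by
    show gs _ = g n
    rw [Int.natAbs_natCast]
    exact hgs n hn) hs)

/-- **Theorem T1a** -/
theorem t1_all (a : ℕ) (ha : 0 < a) {g : ℕ → ℤ} (hg : IsSign g) {e : ℤ}
    (he : ∃ x y : ℤ, x ^ 2 + (a : ℤ) * y ^ 2 ≠ 0 ∧ g (x ^ 2 + (a : ℤ) * y ^ 2).natAbs = e) :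
    ∃ c : ℝ, 0 < c ∧ ∀ᶠ N : ℕ in atTop,
      c * N ≤ (((Icc 1 N).filter (fun n => g (n ^ 2 + a) = e)).card : ℝ) := by
  refine KAll.all_a hg ha fun a₀ b h₀ hs hb hab => ?_
  letI : Aa := KAll.mkA a₀ h₀ hs
  refine t1_sqf hg ?_
  obtain ⟨x, y, h1, h2⟩ := he
  have e1 : x ^ 2 + (a : ℤ) * y ^ 2 = x ^ 2 + (a₀ : ℤ) * (b * y) ^ 2 := by
    rw [← hab]
    push_cast
    ring
  refine ⟨x, b * y, ?_, ?_⟩
  · show x ^ 2 + (a₀ : ℤ) * (b * y) ^ 2 ≠ 0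
    rw [← e1]
    exact h1
  · show g (x ^ 2 + (a₀ : ℤ) * (b * y) ^ 2).natAbs = e
    rw [← e1]
    exact h2

end Pool.Agent.Lib.MP391708.TF
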