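import Pool.Agent.Lib.MP_391708_nt.TF.SpecH
import Pool.Agent.Lib.MP_391708_nt.TF1.A3An
import Pool.Agent.Lib.MP_391708_nt.TA.LLX
import Pool.Agent.Lib.MP_391708_nt.QPA.P3M

/-!
# Group H, module HM: the moments of `Zh`
-/

set_option autoImplicit false
set_option linter.constructorNameAsVariable false

namespace Pool.Agent.Lib.MP391708.TF.H

variable [Pool.Agent.Lib.MP391708.TF.Aa] [Pool.Agent.Lib.MP391708.TF.Frm]

open Finset Filter Topology
open Pool.Agent.Lib.MP391708.Eqd (V cross pairs)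
open scoped Classical

noncomputable section

namespace HMM

/-! ### the quantifier `Good` -/

theorem gmono {φ ψ : Prm → Prop} (h : Good φ) (h' : ∀ p, φ p → ψ p) : Good ψ := by
  obtain ⟨E₀, h⟩ := h
  refine ⟨E₀, fun E hE => ?_⟩
  obtain ⟨K₀, h⟩ := h E hE
  refine ⟨K₀, fun K hK => ?_⟩
  obtain ⟨r₀, h⟩ := h K hK
  refine ⟨r₀, fun r hr => ?_⟩
  obtain ⟨k₀, h⟩ := h r hr
  refine ⟨k₀, fun k hk => ?_⟩
  obtain ⟨ζ₀, hζ₀, h⟩ := h k hk
  exact ⟨ζ₀, hζ₀, fun ζ h0 hζ => h' _ (h ζ h0 hζ)⟩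

theorem gand {φ ψ : Prm → Prop} (h : Good φ) (h' : Good ψ) : Good (fun p => φ p ∧ ψ p) := by
  obtain ⟨E₁, h⟩ := h
  obtain ⟨E₂, h'⟩ := h'
  refine ⟨max E₁ E₂, fun E hE => ?_⟩
  obtain ⟨K₁, h⟩ := h E ((le_max_left _ _).trans hE)
  obtain ⟨K₂, h'⟩ := h' E ((le_max_right _ _).trans hE)
  refine ⟨max K₁ K₂, fun K hK => ?_⟩
  obtain ⟨r₁, h⟩ := h K ((le_max_left _ _).trans hK)
  obtain ⟨r₂, h'⟩ := h' K ((le_max_right _ _).trans hK)
  refine ⟨max r₁ r₂, fun r hr => ?_⟩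
  obtain ⟨k₁, h⟩ := h r ((le_max_left _ _).trans hr)
  obtain ⟨k₂, h'⟩ := h' r ((le_max_right _ _).trans hr)
  refine ⟨max k₁ k₂, fun k hk => ?_⟩
  obtain ⟨ζ₁, hζ₁, h⟩ := h k ((le_max_left _ _).trans hk)
  obtain ⟨ζ₂, hζ₂, h'⟩ := h' k ((le_max_right _ _).trans hk)
  exact ⟨min ζ₁ ζ₂, lt_min hζ₁ hζ₂, fun ζ h0 hζ =>
    ⟨h ζ h0 (hζ.trans (min_le_left _ _)), h' ζ h0 (hζ.trans (min_le_right _ _))⟩⟩

theorem gE (n : ℕ) : Good (fun p => n ≤ p.E) :=
  ⟨n, fun _ h => ⟨0, fun _ _ => ⟨0, fun _ _ => ⟨0, fun _ _ => ⟨1, one_pos, fun _ _ _ => h⟩⟩⟩⟩⟩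

theorem gz : Good (fun p => 0 < p.ζ) :=
  ⟨0, fun _ _ => ⟨0, fun _ _ => ⟨0, fun _ _ => ⟨0, fun _ _ => ⟨1, one_pos, fun _ h _ => h⟩⟩⟩⟩⟩

/-- `Good`, eventually in `N` -/
abbrev GE (φ : Prm → ℕ → Prop) : Prop := Good (fun p => ∀ᶠ N : ℕ in atTop, φ p N)

theorem GE.and {φ ψ : Prm → ℕ → Prop} (h : GE φ) (h' : GE ψ) : GE (fun p N => φ p N ∧ ψ p N) :=
  gmono (gand h h') fun _ h => h.1.and h.2

theorem GE.mono {φ ψ : Prm → ℕ → Prop} (h : GE φ) (h' : ∀ p N, φ p N → ψ p N) : GE ψ :=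
  gmono h fun p h => h.mono (h' p)

theorem GE.of_good {φ : Prm → Prop} (h : Good φ) : GE (fun p _ => φ p) :=
  gmono h fun _ h => Eventually.of_forall fun _ => h

/-! ### positivity -/

/-- `T_u T_v` -/
abbrev TT (p : Prm) (N : ℕ) (x : VV) : ℝ := Tu p N x * Tv p N x

theorem Su_nonneg (p : Prm) (N : ℕ) : 0 ≤ Su p N := sum_nonneg fun _ _ => by positivity

theorem Sv_nonneg (p : Prm) (N : ℕ) : 0 ≤ Sv p N := sum_nonneg fun _ _ => by positivity

theorem Tu_nonneg (p : Prm) (N : ℕ) (x : VV) : 0 ≤ Tu p N x :=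
  div_nonneg (sum_nonneg fun _ _ => by split_ifs <;> norm_num) (Su_nonneg p N)

theorem Tv_nonneg (p : Prm) (N : ℕ) (x : VV) : 0 ≤ Tv p N x :=
  div_nonneg (sum_nonneg fun _ _ => by split_ifs <;> norm_num) (Sv_nonneg p N)

theorem TT_nonneg (p : Prm) (N : ℕ) (x : VV) : 0 ≤ TT p N x :=
  mul_nonneg (Tu_nonneg p N x) (Tv_nonneg p N x)

theorem pf_nonneg {C : ℝ} (hC : 0 ≤ C) (p : Prm) (N : ℕ) (x : VV) : 0 ≤ pf p N C x :=
  prod_nonneg fun _ _ => by positivity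

theorem kp_nonneg (p : Prm) (N : ℕ) (τ : ℝ) : 0 ≤ kp p N τ := by
  unfold kp
  positivity

theorem cE_nonneg : 0 ≤ cE := by
  have h : 0 < TA.LL ((aa : ℕ) : ℤ) := (TA.specLLX _ A3.aa_ne A3.nsq_aa).1
  unfold cE
  linarith

theorem k0_nonneg (p : Prm) (N : ℕ) : 0 ≤ k0 p N :=
  mul_nonneg (mul_nonneg (mul_nonneg cE_nonneg (kp_nonneg p N _)) (Su_nonneg p N))
    (Sv_nonneg p N)

theorem tilt_nonneg (p : Prm) (N : ℕ) {bT bR : ℝ} (hT : 0 ≤ bT) (hR : 0 ≤ bR) (r : Rl) :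
    0 ≤ tilt p N bT bR r :=
  prod_nonneg fun _ _ => mul_nonneg (by split_ifs <;> linarith) (by split_ifs <;> linarith)

theorem wt_nonneg (p : Prm) (N : ℕ) {y : ℝ} (hy : 0 ≤ y) (r : Rl) : 0 ≤ wt p N y r := by
  unfold wt
  refine mul_nonneg (mul_nonneg (div_nonneg (mul_nonneg (div_nonneg (by positivity)
    (k0_nonneg p N)) (by positivity)) (A3.rp_pos _).le) (by positivity))
    (tilt_nonneg p N hy hy r)

theorem iH_nonneg (p : Prm) (N : ℕ) (r : Rl) : 0 ≤ iH p N r := by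
  unfold iH dn
  refine mul_nonneg (by split_ifs <;> norm_num) (by positivity)

theorem Zh_nonneg (p : Prm) (N : ℕ) {y : ℝ} (hy : 0 ≤ y) (Ev : Rl → Prop) (x : VV) :
    0 ≤ Zh p N y Ev x :=
  sum_nonneg fun _ _ => sum_nonneg fun _ _ => mul_nonneg (wt_nonneg p N hy _) (iH_nonneg p N _)

/-! ### elementary inequalities -/

/-- arithmetic-geometric mean -/
theorem amgm (a b lm : ℝ) (hl : 0 < lm) : a * b ≤ lm * a ^ 2 + b ^ 2 / (4 * lm) := by
  have h : lm * a ^ 2 + b ^ 2 / (4 * lm) - a * b = (2 * lm * a - b) ^ 2 / (4 * lm) := by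
    field_simp
    ring
  have h2 : 0 ≤ (2 * lm * a - b) ^ 2 / (4 * lm) := by positivity
  linarith

theorem sum_filter_le (S : Finset VV) (P : VV → Prop) [DecidablePred P] (f : VV → ℝ) (lm : ℝ)
    (hl : 0 < lm) :
    ∑ x ∈ S.filter P, f x ≤ lm * ∑ x ∈ S, f x ^ 2 + ((S.filter P).card : ℝ) / (4 * lm) := by
  have h1 : ∀ x ∈ S.filter P, f x ≤ lm * f x ^ 2 + 1 / (4 * lm) := fun x _ => by
    have := amgm (f x) 1 lm hl
    rwa [mul_one, one_pow] at this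
  refine (sum_le_sum h1).trans ?_
  rw [sum_add_distrib, ← mul_sum, sum_const, nsmul_eq_mul]
  have h2 : ∑ x ∈ S.filter P, f x ^ 2 ≤ ∑ x ∈ S, f x ^ 2 :=
    sum_le_sum_of_subset_of_nonneg (filter_subset _ _) fun _ _ _ => by positivity
  have h3 := mul_le_mul_of_nonneg_left h2 hl.le
  have h4 : ((S.filter P).card : ℝ) * (1 / (4 * lm)) = ((S.filter P).card : ℝ) / (4 * lm) := by
    ring
  linarith

/-- tails of convergent series -/
theorem tail {f : ℕ → ℝ} (hf : Summable f) {ε : ℝ} (hε : 0 < ε) :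
    ∃ E₀ : ℕ, ∀ E : ℕ, E₀ ≤ E → ∀ S : Finset ℕ, (∀ q ∈ S, E < q) → ∑ q ∈ S, f q ≤ ε := by
  obtain ⟨s, hs⟩ := summable_iff_vanishing_norm.1 hf ε hε
  refine ⟨s.sup id, fun E hE S hS => ?_⟩
  have h := hs S (Finset.disjoint_left.2 fun q hq hq' => by
    have h1 : q ≤ s.sup id := Finset.le_sup (f := id) hq'
    have h2 := hS q hq
    omega)
  exact (le_abs_self _).trans h.le

theorem PP_gt {p : Prm} {N q : ℕ} (h : q ∈ PP p N) : p.E < q := (mem_filter.1 h).2.2.2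

theorem PP_prime {p : Prm} {N q : ℕ} (h : q ∈ PP p N) : q.Prime := (mem_filter.1 h).2.1

theorem PP_lt {p : Prm} {N q : ℕ} (h : q ∈ PP p N) : (q : ℝ) < zz p N :=
  Nat.lt_ceil.1 (mem_range.1 (mem_filter.1 h).1)

/-! ### moments -/

theorem mom (hPMT : SpecPMT) (C : ℝ) (hC : 0 < C) (j : ℕ) : ∃ C' : ℝ, 0 < C' ∧
    GE (fun p N => ∑ x ∈ Gam N 1 3, (TT p N x * pf p N C x) ^ j ≤
      C' * ((Gam N 1 3).card : ℝ)) := by
  obtain ⟨C', hC', h⟩ := hPMT C j j hC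
  refine ⟨C', hC', GE.mono h fun p N h => ?_⟩
  refine le_trans (le_of_eq (sum_congr rfl fun x _ => ?_)) h
  rw [mul_pow]
  rfl

/-- first and second moment -/
theorem partA (hP : SpecHP) (hTyp : SpecTyp) (hTM : SpecTM) (hPMT : SpecPMT) (ε : ℝ) (hε : 0 < ε)
    (hε1 : ε ≤ 1) : GE (fun p N =>
      (1 - ε) * ((Gam N 1 3).card : ℝ) ≤ ∑ x ∈ Gam N 1 3, Zh p N (1 / 6) ev0 x ∧
      ∑ x ∈ Gam N 1 3, (Zh p N (1 / 6) ev0 x) ^ 2 ≤ (1 + ε) * ((Gam N 1 3).card : ℝ)) := by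
  obtain ⟨C, hC, h2⟩ := hP.2.1 (1 / 6) (by norm_num) (by norm_num)
  obtain ⟨C', hC', h4⟩ := mom hPMT C hC 4
  obtain ⟨δ, hδ, h1⟩ := hP.1 (ε / 8) (by positivity)
  have hD : 0 < C ^ 4 * C' := by positivity
  set D := C ^ 4 * C' with hDdef
  set ε₃ := min (ε ^ 2 / 32) (ε ^ 2 / (4 * D)) with hε₃
  have hε₃0 : 0 < ε₃ := lt_min (by positivity) (by positivity)
  have hT := hTyp ε₃ δ 1 hε₃0 hδ one_pos
  have hM := hTM (ε / 8) 2 (by positivity)
  refine ((((GE.and (h1 1) h2).and h4).and hT).and hM).mono ?_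
  rintro p N ⟨⟨⟨⟨h1, h2⟩, h4⟩, hT⟩, -, -, hM1, hM2⟩
  set Γ := ((Gam N 1 3).card : ℝ) with hΓ
  have hΓ0 : 0 ≤ Γ := Nat.cast_nonneg _
  set Z := fun x => Zh p N (1 / 6) ev0 x with hZ
  have hZ0 : ∀ x, 0 ≤ Z x := fun x => Zh_nonneg p N (by norm_num) ev0 x
  have hcard1 : (((Gam N 1 3).filter (fun x => ¬ typ p N δ 1 x)).card : ℝ) ≤ ε ^ 2 / 32 * Γ :=
    hT.trans (mul_le_mul_of_nonneg_right (min_le_left _ _) hΓ0)
  have hcard2 : (((Gam N 1 3).filter (fun x => ¬ typ p N δ 1 x)).card : ℝ) ≤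
      ε ^ 2 / (4 * D) * Γ :=
    hT.trans (mul_le_mul_of_nonneg_right (min_le_right _ _) hΓ0)
  constructor
  · -- first moment
    have e1 : ∑ x ∈ (Gam N 1 3).filter (fun x => ¬ typ p N δ 1 x), TT p N x ≤ ε / 4 * Γ := by
      have := sum_filter_le (Gam N 1 3) (fun x => ¬ typ p N δ 1 x) (fun x => TT p N x) (ε / 16)
        (by positivity)
      refine this.trans ?_
      have a1 : ε / 16 * ∑ x ∈ Gam N 1 3, (TT p N x) ^ 2 ≤ ε / 16 * ((1 + ε / 8) * Γ) :=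
        mul_le_mul_of_nonneg_left hM2 (by positivity)
      have a2 : (((Gam N 1 3).filter (fun x => ¬ typ p N δ 1 x)).card : ℝ) / (4 * (ε / 16)) ≤
          ε ^ 2 / 32 * Γ / (4 * (ε / 16)) := by gcongr
      have a3 : ε ^ 2 / 32 * Γ / (4 * (ε / 16)) = ε / 8 * Γ := by
        field_simp
        ring
      have a4 : ε / 16 * ((1 + ε / 8) * Γ) ≤ ε / 8 * Γ := by
        have : ε / 16 * (1 + ε / 8) ≤ ε / 8 := by nlinarith
        nlinarith
      linarith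
    have e2 : ∑ x ∈ (Gam N 1 3).filter (fun x => typ p N δ 1 x), TT p N x ≥
        (1 - ε / 8 - ε / 4) * Γ := by
      have := sum_filter_add_sum_filter_not (Gam N 1 3) (fun x => typ p N δ 1 x)
        (fun x => TT p N x)
      have hM1' : (1 - ε / 8) * Γ ≤ ∑ x ∈ Gam N 1 3, TT p N x := hM1
      linarith
    have e3 : (1 - ε / 8) * ∑ x ∈ (Gam N 1 3).filter (fun x => typ p N δ 1 x), TT p N x ≤
        ∑ x ∈ (Gam N 1 3).filter (fun x => typ p N δ 1 x), Z x := by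
      rw [mul_sum]
      refine sum_le_sum fun x hx => ?_
      have h := (abs_le.1 (h1 x (mem_filter.1 hx).1 (mem_filter.1 hx).2)).1
      have : Z x - Tu p N x * Tv p N x ≥ -(ε / 8 * (Tu p N x * Tv p N x)) := h
      show (1 - ε / 8) * (Tu p N x * Tv p N x) ≤ Z x
      linarith
    have e4 : ∑ x ∈ (Gam N 1 3).filter (fun x => typ p N δ 1 x), Z x ≤ ∑ x ∈ Gam N 1 3, Z x :=
      sum_le_sum_of_subset_of_nonneg (filter_subset _ _) fun _ _ _ => hZ0 _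
    refine le_trans ?_ (e3.trans e4)
    have e5 : (1 - ε / 8) * ((1 - ε / 8 - ε / 4) * Γ) ≤
        (1 - ε / 8) * ∑ x ∈ (Gam N 1 3).filter (fun x => typ p N δ 1 x), TT p N x :=
      mul_le_mul_of_nonneg_left e2 (by linarith)
    refine le_trans ?_ e5
    have : 1 - ε ≤ (1 - ε / 8) * (1 - ε / 8 - ε / 4) := by nlinarith
    nlinarith
  · -- second moment
    have e1 : ∑ x ∈ (Gam N 1 3).filter (fun x => typ p N δ 1 x), Z x ^ 2 ≤ (1 + ε / 2) * Γ := by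
      have a1 : ∑ x ∈ (Gam N 1 3).filter (fun x => typ p N δ 1 x), Z x ^ 2 ≤
          (1 + ε / 8) ^ 2 * ∑ x ∈ Gam N 1 3, (TT p N x) ^ 2 := by
        rw [mul_sum]
        refine (sum_le_sum fun x hx => ?_).trans (sum_le_sum_of_subset_of_nonneg
          (filter_subset (fun x => typ p N δ 1 x) _) fun _ _ _ => by positivity)
        have h := (abs_le.1 (h1 x (mem_filter.1 hx).1 (mem_filter.1 hx).2)).2
        have h' : Z x ≤ (1 + ε / 8) * TT p N x := by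
          have : Z x - Tu p N x * Tv p N x ≤ ε / 8 * (Tu p N x * Tv p N x) := h
          show Z x ≤ (1 + ε / 8) * (Tu p N x * Tv p N x)
          linarith
        rw [← mul_pow]
        exact pow_le_pow_left₀ (hZ0 x) h' 2
      have a2 : (1 + ε / 8) ^ 2 * ∑ x ∈ Gam N 1 3, (TT p N x) ^ 2 ≤
          (1 + ε / 8) ^ 2 * ((1 + ε / 8) * Γ) := mul_le_mul_of_nonneg_left hM2 (by positivity)
      have a3 : (1 + ε / 8) ^ 2 * (1 + ε / 8) ≤ 1 + ε / 2 := by nlinarith [mul_pos hε hε]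
      nlinarith
    have e2 : ∑ x ∈ (Gam N 1 3).filter (fun x => ¬ typ p N δ 1 x), Z x ^ 2 ≤ ε / 2 * Γ := by
      have a1 : ∑ x ∈ (Gam N 1 3).filter (fun x => ¬ typ p N δ 1 x), Z x ^ 2 ≤
          ∑ x ∈ (Gam N 1 3).filter (fun x => ¬ typ p N δ 1 x),
            (C * (TT p N x * pf p N C x)) ^ 2 := by
        refine sum_le_sum fun x hx => ?_
        refine pow_le_pow_left₀ (hZ0 x) ?_ 2
        have h := h2 x (mem_filter.1 hx).1
        have h0 : Real.exp (-((1 / 2 - 3 * (1 / 6 : ℝ)) * S0 p N)) = 1 := by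
          rw [show (1 / 2 - 3 * (1 / 6 : ℝ)) = 0 by norm_num, zero_mul, neg_zero, Real.exp_zero]
        rw [h0, mul_one] at h
        calc Z x ≤ C * (Tu p N x * Tv p N x) * pf p N C x := h
          _ = C * (TT p N x * pf p N C x) := by ring
      have a2 := sum_filter_le (Gam N 1 3) (fun x => ¬ typ p N δ 1 x)
        (fun x => (C * (TT p N x * pf p N C x)) ^ 2) (ε / (4 * D)) (by positivity)
      have a3 : ∑ x ∈ Gam N 1 3, ((C * (TT p N x * pf p N C x)) ^ 2) ^ 2 ≤ D * Γ := by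
        have : ∑ x ∈ Gam N 1 3, ((C * (TT p N x * pf p N C x)) ^ 2) ^ 2 =
            C ^ 4 * ∑ x ∈ Gam N 1 3, (TT p N x * pf p N C x) ^ 4 := by
          rw [mul_sum]
          exact sum_congr rfl fun x _ => by ring
        rw [this, hDdef, mul_assoc]
        exact mul_le_mul_of_nonneg_left h4 (by positivity)
      have a4 : ε / (4 * D) * ∑ x ∈ Gam N 1 3, ((C * (TT p N x * pf p N C x)) ^ 2) ^ 2 ≤
          ε / (4 * D) * (D * Γ) := mul_le_mul_of_nonneg_left a3 (by positivity)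
      have a5 : ε / (4 * D) * (D * Γ) = ε / 4 * Γ := by
        field_simp
      have a6 : (((Gam N 1 3).filter (fun x => ¬ typ p N δ 1 x)).card : ℝ) / (4 * (ε / (4 * D))) ≤
          ε ^ 2 / (4 * D) * Γ / (4 * (ε / (4 * D))) := by gcongr
      have a7 : ε ^ 2 / (4 * D) * Γ / (4 * (ε / (4 * D))) = ε / 4 * Γ := by
        field_simp
      linarith
    have e3 := sum_filter_add_sum_filter_not (Gam N 1 3) (fun x => typ p N δ 1 x)
      (fun x => Z x ^ 2)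
    have e4 : ∑ x ∈ Gam N 1 3, Z x ^ 2 ≤ (1 + ε) * Γ := by linarith
    exact e4

/-- sums over the `x` with `q ∣ M² + a` -/
theorem dvdB (hPMT : SpecPMT) (hPQ : SpecPQ) (C : ℝ) (hC : 0 < C) : ∃ B : ℝ, 0 < B ∧
    GE (fun p N => ∀ q ∈ PP p N, ∑ x ∈ (Gam N 1 3).filter (fun x => q ∣ Md x ^ 2 + aa),
      TT p N x * pf p N C x ≤ B * (1 / √(q : ℝ)) * ((Gam N 1 3).card : ℝ)) := by
  obtain ⟨C', hC', h2⟩ := mom hPMT C hC 2
  obtain ⟨C₁, hC₁, h1⟩ := hPQ
  refine ⟨C' + C₁, by positivity, (GE.and h2 h1).mono ?_⟩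
  rintro p N ⟨h2, h1⟩ q hq
  have hq0 : (0 : ℝ) < q := by exact_mod_cast (PP_prime hq).pos
  have hs : 0 < √(q : ℝ) := Real.sqrt_pos.2 hq0
  set Γ := ((Gam N 1 3).card : ℝ) with hΓ
  have hΓ0 : 0 ≤ Γ := Nat.cast_nonneg _
  have a := sum_filter_le (Gam N 1 3) (fun x => q ∣ Md x ^ 2 + aa)
    (fun x => TT p N x * pf p N C x) (1 / √(q : ℝ)) (by positivity)
  have b1 : 1 / √(q : ℝ) * ∑ x ∈ Gam N 1 3, (TT p N x * pf p N C x) ^ 2 ≤
      1 / √(q : ℝ) * (C' * Γ) := mul_le_mul_of_nonneg_left h2 (by positivity)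
  have b2 : (((Gam N 1 3).filter (fun x => q ∣ Md x ^ 2 + aa)).card : ℝ) / (4 * (1 / √(q : ℝ))) ≤
      C₁ * (1 / √(q : ℝ)) * Γ := by
    have c1 := h1 q hq
    have c2 : (((Gam N 1 3).filter (fun x => q ∣ Md x ^ 2 + aa)).card : ℝ) /
        (4 * (1 / √(q : ℝ))) ≤ C₁ / q * Γ / (4 * (1 / √(q : ℝ))) := by gcongr
    refine c2.trans ?_
    have c3 : C₁ / q * Γ / (4 * (1 / √(q : ℝ))) = C₁ * (√(q : ℝ) / q) * Γ / 4 := by
      field_simp
    have c4 : √(q : ℝ) / q = 1 / √(q : ℝ) := by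
      rw [div_eq_div_iff hq0.ne' hs.ne', Real.mul_self_sqrt hq0.le, one_mul]
    rw [c3, c4]
    have c5 : 0 ≤ C₁ * (1 / √(q : ℝ)) * Γ := by positivity
    linarith
  calc _ ≤ _ := a
    _ ≤ 1 / √(q : ℝ) * (C' * Γ) + C₁ * (1 / √(q : ℝ)) * Γ := add_le_add b1 b2
    _ = (C' + C₁) * (1 / √(q : ℝ)) * Γ := by ring

theorem summ_sq : Summable (fun n : ℕ => 1 / (n : ℝ) ^ 2) :=
  Real.summable_one_div_nat_pow.2 (by norm_num)

theorem summ_32 : Summable (fun n : ℕ => 1 / (n : ℝ) * (1 / √(n : ℝ))) := by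
  have h : Summable (fun n : ℕ => 1 / (n : ℝ) ^ (3 / 2 : ℝ)) :=
    Real.summable_one_div_nat_rpow.2 (by norm_num)
  refine h.congr fun n => ?_
  rcases Nat.eq_zero_or_pos n with h0 | h0
  · subst h0
    simp
  · have hn : (0 : ℝ) < n := by exact_mod_cast h0
    rw [show (3 / 2 : ℝ) = 1 + 1 / 2 by norm_num, Real.rpow_add hn, Real.rpow_one,
      ← Real.sqrt_eq_rpow]
    field_simp

/-- the events `evB`, `evM`, `evN` -/
theorem partB (hP : SpecHP) (hPMT : SpecPMT) (hPQ : SpecPQ) (ε : ℝ) (hε : 0 < ε) :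
    GE (fun p N =>
      ∑ q ∈ PP p N, ∑ x ∈ Gam N 1 3, Zh p N (1 / 6) (evB q) x ≤ ε * ((Gam N 1 3).card : ℝ) ∧
      ∑ q ∈ PP p N, ∑ x ∈ Gam N 1 3, Zh p N (1 / 6) (evM q) x ≤ ε * ((Gam N 1 3).card : ℝ) ∧
      ∑ q ∈ PP p N, 1 / (q : ℝ) * ∑ x ∈ Gam N 1 3, Zh p N (1 / 6) (evN q) x ≤
        ε * ((Gam N 1 3).card : ℝ)) := by
  obtain ⟨C, hC, h3⟩ := hP.2.2
  obtain ⟨C', hC', h1⟩ := mom hPMT C hC 1
  obtain ⟨B, hB, hd⟩ := dvdB hPMT hPQ C hC
  obtain ⟨E₁, hE₁⟩ := tail summ_sq (ε := ε / (C * C')) (by positivity)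
  obtain ⟨E₂, hE₂⟩ := tail summ_32 (ε := ε / (C * B)) (by positivity)
  refine ((((GE.and h3 h1).and hd).and (GE.of_good (gE E₁))).and (GE.of_good (gE E₂))).mono ?_
  rintro p N ⟨⟨⟨⟨h3, h1⟩, hd⟩, hp1⟩, hp2⟩
  set Γ := ((Gam N 1 3).card : ℝ) with hΓ
  have hΓ0 : 0 ≤ Γ := Nat.cast_nonneg _
  simp only [pow_one] at h1
  have t1 := hE₁ p.E hp1 (PP p N) fun q hq => PP_gt hq
  have t2 := hE₂ p.E hp2 (PP p N) fun q hq => PP_gt hq
  refine ⟨?_, ?_, ?_⟩
  · have a1 : ∀ q ∈ PP p N, ∑ x ∈ Gam N 1 3, Zh p N (1 / 6) (evB q) x ≤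
        C * C' * Γ * (1 / (q : ℝ) ^ 2) := by
      intro q hq
      calc ∑ x ∈ Gam N 1 3, Zh p N (1 / 6) (evB q) x
          ≤ ∑ x ∈ Gam N 1 3, C / (q : ℝ) ^ 2 * (TT p N x * pf p N C x) := by
            refine sum_le_sum fun x hx => ((h3 x hx q hq).1).trans (le_of_eq ?_)
            show C / (q : ℝ) ^ 2 * (Tu p N x * Tv p N x) * pf p N C x = _
            ring
        _ = C / (q : ℝ) ^ 2 * ∑ x ∈ Gam N 1 3, TT p N x * pf p N C x := by rw [mul_sum]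
        _ ≤ C / (q : ℝ) ^ 2 * (C' * Γ) := mul_le_mul_of_nonneg_left h1 (by positivity)
        _ = C * C' * Γ * (1 / (q : ℝ) ^ 2) := by ring
    calc _ ≤ ∑ q ∈ PP p N, C * C' * Γ * (1 / (q : ℝ) ^ 2) := sum_le_sum a1
      _ = C * C' * Γ * ∑ q ∈ PP p N, 1 / (q : ℝ) ^ 2 := by rw [mul_sum]
      _ ≤ C * C' * Γ * (ε / (C * C')) := mul_le_mul_of_nonneg_left t1 (by positivity)
      _ = ε * Γ := by field_simp
  · have a1 : ∀ q ∈ PP p N, ∑ x ∈ Gam N 1 3, Zh p N (1 / 6) (evM q) x ≤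
        C * B * Γ * (1 / (q : ℝ) * (1 / √(q : ℝ))) := by
      intro q hq
      calc ∑ x ∈ Gam N 1 3, Zh p N (1 / 6) (evM q) x
          ≤ ∑ x ∈ Gam N 1 3, if q ∣ Md x ^ 2 + aa then
              C / (q : ℝ) * (TT p N x * pf p N C x) else 0 := by
            refine sum_le_sum fun x hx => ((h3 x hx q hq).2.2.1).trans (le_of_eq ?_)
            split_ifs
            · show C / (q : ℝ) * (Tu p N x * Tv p N x) * pf p N C x = _
              ring
            · rfl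
        _ = C / (q : ℝ) * ∑ x ∈ (Gam N 1 3).filter (fun x => q ∣ Md x ^ 2 + aa),
              TT p N x * pf p N C x := by rw [← sum_filter, mul_sum]
        _ ≤ C / (q : ℝ) * (B * (1 / √(q : ℝ)) * Γ) :=
            mul_le_mul_of_nonneg_left (hd q hq) (by positivity)
        _ = C * B * Γ * (1 / (q : ℝ) * (1 / √(q : ℝ))) := by ring
    calc _ ≤ ∑ q ∈ PP p N, C * B * Γ * (1 / (q : ℝ) * (1 / √(q : ℝ))) := sum_le_sum a1
      _ = C * B * Γ * ∑ q ∈ PP p N, 1 / (q : ℝ) * (1 / √(q : ℝ)) := by rw [mul_sum]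
      _ ≤ C * B * Γ * (ε / (C * B)) := mul_le_mul_of_nonneg_left t2 (by positivity)
      _ = ε * Γ := by field_simp
  · have a1 : ∀ q ∈ PP p N, 1 / (q : ℝ) * ∑ x ∈ Gam N 1 3, Zh p N (1 / 6) (evN q) x ≤
        C * B * Γ * (1 / (q : ℝ) * (1 / √(q : ℝ))) := by
      intro q hq
      have b : ∑ x ∈ Gam N 1 3, Zh p N (1 / 6) (evN q) x ≤ C * (B * (1 / √(q : ℝ)) * Γ) := by
        calc ∑ x ∈ Gam N 1 3, Zh p N (1 / 6) (evN q) x
            ≤ ∑ x ∈ Gam N 1 3, if q ∣ Md x ^ 2 + aa then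
                C * (TT p N x * pf p N C x) else 0 := by
              refine sum_le_sum fun x hx => ((h3 x hx q hq).2.2.2).trans (le_of_eq ?_)
              split_ifs
              · show C * (Tu p N x * Tv p N x) * pf p N C x = _
                ring
              · rfl
          _ = C * ∑ x ∈ (Gam N 1 3).filter (fun x => q ∣ Md x ^ 2 + aa),
                TT p N x * pf p N C x := by rw [← sum_filter, mul_sum]
          _ ≤ C * (B * (1 / √(q : ℝ)) * Γ) := mul_le_mul_of_nonneg_left (hd q hq) hC.le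
      calc _ ≤ 1 / (q : ℝ) * (C * (B * (1 / √(q : ℝ)) * Γ)) :=
            mul_le_mul_of_nonneg_left b (by positivity)
        _ = C * B * Γ * (1 / (q : ℝ) * (1 / √(q : ℝ))) := by ring
    calc _ ≤ ∑ q ∈ PP p N, C * B * Γ * (1 / (q : ℝ) * (1 / √(q : ℝ))) := sum_le_sum a1
      _ = C * B * Γ * ∑ q ∈ PP p N, 1 / (q : ℝ) * (1 / √(q : ℝ)) := by rw [mul_sum]
      _ ≤ C * B * Γ * (ε / (C * B)) := mul_le_mul_of_nonneg_left t2 (by positivity)
      _ = ε * Γ := by field_simp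

/-- `∑ log q / q ≤ log z + 8` -/
theorem sum_log (p : Prm) (N : ℕ) (hz : 1 ≤ zz p N) :
    ∑ q ∈ PP p N, Real.log q / (q : ℝ) ≤ Real.log (zz p N) + 8 := by
  have h := QPA.P3M.mert 1 (zz p N) le_rfl hz
  rw [Real.log_one, sub_zero] at h
  refine le_trans ?_ h
  apply Finset.sum_le_sum_of_subset_of_nonneg
  · intro q hq
    rw [mem_filter, mem_Ioc]
    refine ⟨⟨?_, Nat.le_floor (PP_lt hq).le⟩, PP_prime hq⟩
    rw [Nat.floor_one]
    exact (PP_prime hq).one_lt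
  · intro q _ _
    exact div_nonneg (Real.log_natCast_nonneg q) (Nat.cast_nonneg q)

/-- the events `evL` -/
theorem partC (hP : SpecHP) (hPMT : SpecPMT) : ∃ C : ℝ, 0 < C ∧ GE (fun p N =>
    ∑ q ∈ PP p N, Real.log q * ∑ x ∈ Gam N 1 3, Zh p N (1 / 6) (evL q) x ≤
      C * Real.log (zz p N) * ((Gam N 1 3).card : ℝ)) := by
  obtain ⟨C, hC, h3⟩ := hP.2.2
  obtain ⟨C', hC', h1⟩ := mom hPMT C hC 1
  have hz : GE (fun p N => 1 ≤ zz p N ∧ 1 ≤ Real.log (zz p N)) := by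
    refine gmono gz fun p hp => ?_
    have h := A3.tendsto_zz hp
    filter_upwards [h.eventually_ge_atTop (Real.exp 1)] with N hN
    have h1 : 1 ≤ zz p N := le_trans (Real.one_le_exp zero_le_one) hN
    exact ⟨h1, by rw [Real.le_log_iff_exp_le (by linarith)]; exact hN⟩
  refine ⟨9 * (C * C'), by positivity, ((GE.and h3 h1).and hz).mono ?_⟩
  rintro p N ⟨⟨h3, h1⟩, hz1, hz2⟩
  set Γ := ((Gam N 1 3).card : ℝ) with hΓ
  have hΓ0 : 0 ≤ Γ := Nat.cast_nonneg _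
  simp only [pow_one] at h1
  have a1 : ∀ q ∈ PP p N, Real.log q * ∑ x ∈ Gam N 1 3, Zh p N (1 / 6) (evL q) x ≤
      C * C' * Γ * (Real.log q / (q : ℝ)) := by
    intro q hq
    have hlq : 0 ≤ Real.log (q : ℝ) := Real.log_natCast_nonneg q
    calc Real.log q * ∑ x ∈ Gam N 1 3, Zh p N (1 / 6) (evL q) x
        ≤ Real.log q * ∑ x ∈ Gam N 1 3, C / (q : ℝ) * (TT p N x * pf p N C x) := by
          refine mul_le_mul_of_nonneg_left (sum_le_sum fun x hx =>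
            ((h3 x hx q hq).2.1).trans (le_of_eq ?_)) hlq
          show C / (q : ℝ) * (Tu p N x * Tv p N x) * pf p N C x = _
          ring
      _ = Real.log q * (C / (q : ℝ) * ∑ x ∈ Gam N 1 3, TT p N x * pf p N C x) := by
          rw [← mul_sum]
      _ ≤ Real.log q * (C / (q : ℝ) * (C' * Γ)) := by gcongr
      _ = C * C' * Γ * (Real.log q / (q : ℝ)) := by ring
  calc _ ≤ ∑ q ∈ PP p N, C * C' * Γ * (Real.log q / (q : ℝ)) := sum_le_sum a1
    _ = C * C' * Γ * ∑ q ∈ PP p N, Real.log q / (q : ℝ) := by rw [mul_sum]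
    _ ≤ C * C' * Γ * (9 * Real.log (zz p N)) := by
        refine mul_le_mul_of_nonneg_left ?_ (by positivity)
        have := sum_log p N hz1
        linarith
    _ = 9 * (C * C') * Real.log (zz p N) * Γ := by ring

/-- `S0` is large -/
theorem S0_large (B : ℝ) : GE (fun p N => B ≤ S0 p N) := by
  refine gmono gz fun p hp => ?_
  obtain ⟨C, hC0, hC⟩ := A3.S0_bounds p hp
  have h1 : Tendsto (fun N : ℕ => Real.log (Real.log (zz p N))) atTop atTop :=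
    Real.tendsto_log_atTop.comp (Real.tendsto_log_atTop.comp (A3.tendsto_zz hp))
  filter_upwards [hC, h1.eventually_ge_atTop (B + C)] with N h2 h3
  have := (abs_le.1 h2).1
  linarith

/-- exponentially small terms -/
theorem exp_small (A c ε : ℝ) (hc : 0 < c) (hε : 0 < ε) :
    GE (fun p N => A * Real.exp (-(c * S0 p N)) ≤ ε) := by
  rcases le_or_gt A 0 with hA | hA
  · exact gmono gz fun p _ => Eventually.of_forall fun N =>
      (mul_nonpos_of_nonpos_of_nonneg hA (Real.exp_pos _).le).trans hε.le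
  · refine (S0_large (Real.log (A / ε) / c)).mono fun p N h => ?_
    rw [div_le_iff₀ hc] at h
    have h1 : Real.log (A / ε) ≤ c * S0 p N := by linarith
    have h2 : A / ε ≤ Real.exp (c * S0 p N) := by
      rw [← Real.log_le_iff_le_exp (by positivity)]
      exact h1
    rw [Real.exp_neg, ← div_eq_mul_inv, div_le_iff₀ (Real.exp_pos _)]
    rw [div_le_iff₀ hε] at h2
    linarith

/-- the Chernoff bounds -/
theorem partD (hP : SpecHP) (hPMT : SpecPMT) (hFC : SpecFC) (e₁ : ℝ) (he : 0 < e₁)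
    (he' : e₁ < 1 / 2) : ∃ L : ℝ, 0 < L ∧ L < 1 ∧ ∀ ε : ℝ, 0 < ε → GE (fun p N =>
      L ^ (-((1 / 2 - e₁) * S0 p N)) * ∑ x ∈ Gam N 1 3, Zh p N (L / 6) ev0 x ≤
        ε * ((Gam N 1 3).card : ℝ) ∧
      L ^ (-((2 - e₁) * S0 p N)) *
          ∑ x ∈ Gam N 1 3, L ^ om p N (Md x ^ 2 + aa) * Zh p N (1 / 6) ev0 x ≤
        ε * ((Gam N 1 3).card : ℝ)) := by
  obtain ⟨η, hη⟩ : ∃ η : ℝ, η = e₁ / 3 := ⟨_, rfl⟩
  have hη0 : 0 < η := by rw [hη]; positivity
  have hη1 : η < 1 / 6 := by rw [hη]; linarith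
  have he1 : e₁ = 3 * η := by rw [hη]; ring
  obtain ⟨L, hL⟩ : ∃ L : ℝ, L = 1 - η := ⟨_, rfl⟩
  have hL0 : 0 < L := by rw [hL]; linarith
  have hL1 : L < 1 := by rw [hL]; linarith
  refine ⟨L, hL0, hL1, fun ε hε => ?_⟩
  obtain ⟨lg, hlg⟩ : ∃ lg : ℝ, lg = -Real.log L := ⟨_, rfl⟩
  have hlg1 : lg * (1 - η) ≤ η := by
    have h := Real.one_sub_inv_le_log_of_pos hL0
    have h2 : lg ≤ L⁻¹ - 1 := by rw [hlg]; linarith
    have h3 : lg * L ≤ (L⁻¹ - 1) * L := mul_le_mul_of_nonneg_right h2 hL0.le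
    rw [sub_mul, inv_mul_cancel₀ hL0.ne', one_mul] at h3
    rw [← hL]
    linarith
  have hrp : ∀ a s : ℝ, L ^ (-(a * s)) = Real.exp (a * lg * s) := by
    intro a s
    rw [Real.rpow_def_of_pos hL0, hlg]
    congr 1
    ring
  have hc1 : 0 < (1 - L) / 2 - (1 / 2 - e₁) * lg := by
    have h1 : (1 / 2 - e₁) * (lg * (1 - η)) ≤ (1 / 2 - e₁) * η :=
      mul_le_mul_of_nonneg_left hlg1 (by linarith)
    have h2 : 0 < ((1 - L) / 2 - (1 / 2 - e₁) * lg) * (1 - η) := by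
      have : ((1 - L) / 2 - (1 / 2 - e₁) * lg) * (1 - η) =
          η / 2 * (1 - η) - (1 / 2 - e₁) * (lg * (1 - η)) := by rw [hL]; ring
      rw [this]
      have h3 : (1 / 2 - e₁) * η < η / 2 * (1 - η) := by rw [he1]; nlinarith
      linarith
    by_contra hcon
    exact absurd h2 (not_lt.2 (mul_nonpos_of_nonpos_of_nonneg (not_lt.1 hcon) (by linarith)))
  have hc2 : 0 < (1 - L ^ 2) - (2 - e₁) * lg := by
    have h1 : (2 - e₁) * (lg * (1 - η)) ≤ (2 - e₁) * η :=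
      mul_le_mul_of_nonneg_left hlg1 (by linarith)
    have h2 : 0 < ((1 - L ^ 2) - (2 - e₁) * lg) * (1 - η) := by
      have : ((1 - L ^ 2) - (2 - e₁) * lg) * (1 - η) =
          (2 * η - η ^ 2) * (1 - η) - (2 - e₁) * (lg * (1 - η)) := by rw [hL]; ring
      rw [this]
      have h3 : (2 - e₁) * η < (2 * η - η ^ 2) * (1 - η) := by
        rw [he1]
        have : (2 * η - η ^ 2) * (1 - η) - (2 - 3 * η) * η = η ^ 3 := by ring
        have : 0 < η ^ 3 := by positivity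
        linarith
      linarith
    by_contra hcon
    exact absurd h2 (not_lt.2 (mul_nonpos_of_nonpos_of_nonneg (not_lt.1 hcon) (by linarith)))
  set c₁ := (1 - L) / 2 - (1 / 2 - e₁) * lg with hc1def
  set c₂ := (1 - L ^ 2) - (2 - e₁) * lg with hc2def
  obtain ⟨C, hC, h2⟩ := hP.2.1 (L / 6) (by positivity) (by linarith)
  obtain ⟨C', hC', h1⟩ := mom hPMT C hC 1
  obtain ⟨D, hD, h4⟩ := hP.2.1 (1 / 6) (by norm_num) (by norm_num)
  obtain ⟨D', hD', h5⟩ := mom hPMT D hD 2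
  obtain ⟨F, hF, h6⟩ := hFC (L ^ 2) (by positivity) (by nlinarith)
  refine (((((GE.and h2 h1).and h4).and h5).and h6).and
    ((exp_small (C * C') c₁ ε hc1 hε).and (exp_small (D * (D' + F)) c₂ ε hc2 hε))).mono ?_
  rintro p N ⟨⟨⟨⟨⟨h2, h1⟩, h4⟩, h5⟩, h6⟩, hs1, hs2⟩
  set Γ := ((Gam N 1 3).card : ℝ) with hΓ
  have hΓ0 : 0 ≤ Γ := Nat.cast_nonneg _
  set s := S0 p N with hs
  simp only [pow_one] at h1
  constructor
  · have a1 : ∑ x ∈ Gam N 1 3, Zh p N (L / 6) ev0 x ≤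
        C * Real.exp (-((1 - L) / 2 * s)) * (C' * Γ) := by
      calc ∑ x ∈ Gam N 1 3, Zh p N (L / 6) ev0 x
          ≤ ∑ x ∈ Gam N 1 3, C * Real.exp (-((1 - L) / 2 * s)) * (TT p N x * pf p N C x) := by
            refine sum_le_sum fun x hx => (h2 x hx).trans (le_of_eq ?_)
            have : (1 / 2 - 3 * (L / 6)) * s = (1 - L) / 2 * s := by ring
            rw [this]
            show C * Real.exp (-((1 - L) / 2 * s)) * (Tu p N x * Tv p N x) * pf p N C x = _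
            ring
        _ = C * Real.exp (-((1 - L) / 2 * s)) * ∑ x ∈ Gam N 1 3, TT p N x * pf p N C x := by
            rw [mul_sum]
        _ ≤ C * Real.exp (-((1 - L) / 2 * s)) * (C' * Γ) :=
            mul_le_mul_of_nonneg_left h1 (by positivity)
    rw [hrp]
    calc Real.exp ((1 / 2 - e₁) * lg * s) * ∑ x ∈ Gam N 1 3, Zh p N (L / 6) ev0 x
        ≤ Real.exp ((1 / 2 - e₁) * lg * s) * (C * Real.exp (-((1 - L) / 2 * s)) * (C' * Γ)) :=
          mul_le_mul_of_nonneg_left a1 (Real.exp_pos _).le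
      _ = C * C' * (Real.exp ((1 / 2 - e₁) * lg * s) * Real.exp (-((1 - L) / 2 * s))) * Γ := by
          ring
      _ = C * C' * Real.exp (-(c₁ * s)) * Γ := by
          rw [← Real.exp_add]
          congr 3
          rw [hc1def]
          ring
      _ ≤ ε * Γ := mul_le_mul_of_nonneg_right hs1 hΓ0
  · set lm := Real.exp (-((1 - L ^ 2) * s)) with hlm
    have hlm0 : 0 < lm := Real.exp_pos _
    have a1 : ∑ x ∈ Gam N 1 3, L ^ om p N (Md x ^ 2 + aa) * Zh p N (1 / 6) ev0 x ≤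
        D * ((D' + F) * lm * Γ) := by
      have b1 : ∀ x ∈ Gam N 1 3, L ^ om p N (Md x ^ 2 + aa) * Zh p N (1 / 6) ev0 x ≤
          D * (lm * (TT p N x * pf p N D x) ^ 2 +
            (L ^ 2) ^ om p N (Md x ^ 2 + aa) / (4 * lm)) := by
        intro x hx
        have h := h4 x hx
        have h0 : Real.exp (-((1 / 2 - 3 * (1 / 6 : ℝ)) * S0 p N)) = 1 := by
          rw [show (1 / 2 - 3 * (1 / 6 : ℝ)) = 0 by norm_num, zero_mul, neg_zero, Real.exp_zero]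
        rw [h0, mul_one] at h
        have hLo : 0 ≤ L ^ om p N (Md x ^ 2 + aa) := by positivity
        have g := amgm (TT p N x * pf p N D x) (L ^ om p N (Md x ^ 2 + aa)) lm hlm0
        calc L ^ om p N (Md x ^ 2 + aa) * Zh p N (1 / 6) ev0 x
            ≤ L ^ om p N (Md x ^ 2 + aa) * (D * (Tu p N x * Tv p N x) * pf p N D x) :=
              mul_le_mul_of_nonneg_left h hLo
          _ = D * (TT p N x * pf p N D x * L ^ om p N (Md x ^ 2 + aa)) := by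
              show _ = D * (Tu p N x * Tv p N x * pf p N D x * L ^ om p N (Md x ^ 2 + aa))
              ring
          _ ≤ D * (lm * (TT p N x * pf p N D x) ^ 2 +
                (L ^ om p N (Md x ^ 2 + aa)) ^ 2 / (4 * lm)) :=
              mul_le_mul_of_nonneg_left g hD.le
          _ = _ := by rw [← pow_mul, ← pow_mul, mul_comm (om p N (Md x ^ 2 + aa)) 2]
      refine (sum_le_sum b1).trans ?_
      rw [← mul_sum, sum_add_distrib, ← mul_sum, ← sum_div]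
      refine mul_le_mul_of_nonneg_left ?_ hD.le
      have b2 : lm * ∑ x ∈ Gam N 1 3, (TT p N x * pf p N D x) ^ 2 ≤ lm * (D' * Γ) :=
        mul_le_mul_of_nonneg_left h5 hlm0.le
      have b3 : (∑ x ∈ Gam N 1 3, (L ^ 2) ^ om p N (Md x ^ 2 + aa)) / (4 * lm) ≤
          F * lm * Γ := by
        have e : Real.exp (-(2 * (1 - L ^ 2) * S0 p N)) = lm * lm := by
          rw [hlm, ← Real.exp_add]
          congr 1
          ring
        rw [e] at h6
        rw [div_le_iff₀ (by positivity)]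
        refine h6.trans ?_
        have : F * lm * Γ * (4 * lm) = 4 * (F * (lm * lm) * Γ) := by ring
        rw [this]
        have : 0 ≤ F * (lm * lm) * Γ :=
          mul_nonneg (mul_nonneg hF.le (mul_nonneg hlm0.le hlm0.le)) hΓ0
        linarith
      calc _ ≤ lm * (D' * Γ) + F * lm * Γ := add_le_add b2 b3
        _ = (D' + F) * lm * Γ := by ring
    rw [hrp]
    calc Real.exp ((2 - e₁) * lg * s) *
          ∑ x ∈ Gam N 1 3, L ^ om p N (Md x ^ 2 + aa) * Zh p N (1 / 6) ev0 x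
        ≤ Real.exp ((2 - e₁) * lg * s) * (D * ((D' + F) * lm * Γ)) :=
          mul_le_mul_of_nonneg_left a1 (Real.exp_pos _).le
      _ = D * (D' + F) * (Real.exp ((2 - e₁) * lg * s) * lm) * Γ := by ring
      _ = D * (D' + F) * Real.exp (-(c₂ * s)) * Γ := by
          rw [hlm, ← Real.exp_add]
          congr 3
          rw [hc2def]
          ring
      _ ≤ ε * Γ := mul_le_mul_of_nonneg_right hs2 hΓ0

end HMM

/-- **HM** -/
theorem specHM (hP : SpecHP) (hTyp : SpecTyp) (hTM : SpecTM) (hPMT : SpecPMT) (hPQ : SpecPQ)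
    (hFC : SpecFC) : SpecHM := by
  refine ⟨fun ε hε => ?_, HMM.partC hP hPMT, fun e₁ h h' => HMM.partD hP hPMT hFC e₁ h h'⟩
  have h1 := HMM.partA hP hTyp hTM hPMT (min ε 1) (lt_min hε one_pos) (min_le_right _ _)
  have h2 := HMM.partB hP hPMT hPQ ε hε
  refine (HMM.GE.and h1 h2).mono ?_
  rintro p N ⟨⟨h1, h2⟩, h3⟩
  have hΓ0 : 0 ≤ ((Gam N 1 3).card : ℝ) := Nat.cast_nonneg _
  have hm : min ε 1 ≤ ε := min_le_left _ _
  exact ⟨le_trans (mul_le_mul_of_nonneg_right (by linarith) hΓ0) h1,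
    h2.trans (mul_le_mul_of_nonneg_right (by linarith) hΓ0), h3⟩

end

end Pool.Agent.Lib.MP391708.TF.H
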