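import Pool.Agent.Lib.MP_391708_nt.TF.Spec
import Pool.Agent.Lib.MP_391708_nt.T4.BrA
import Pool.Agent.Lib.MP_391708_nt.TF1.SlLoc

/-!
# Module LocA (helper15; port by helper46): periodic predicates and the local functions of group H

The lemmas before `variable [Aa] [Frm]` do not depend on the determinant and the form.
-/

set_option autoImplicit false

namespace Pool.Agent.Lib.MP391708.TF

open Finset Filter Topology
open Pool.Agent.Lib.MP391708.Eqd (V cross pairs)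
open scoped Classical

noncomputable section

namespace HLA

/-- a predicate on pairs that is periodic modulo `m` -/
def PerP (m : ℕ) (S : VV → Prop) : Prop := ∀ x y : VV, cg m x y → (S x ↔ S y)

lemma cg_mono {d m : ℕ} (h : d ∣ m) {x y : VV} (hxy : cg m x y) : cg d x y := by
  have hd : (d : ℤ) ∣ m := Int.natCast_dvd_natCast.2 h
  obtain ⟨h1, h2, h3, h4⟩ := hxy
  exact ⟨hd.trans h1, hd.trans h2, hd.trans h3, hd.trans h4⟩

lemma PerP.mono {d m : ℕ} {S : VV → Prop} (h : d ∣ m) (hS : PerP d S) : PerP m S :=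
  fun x y hxy => hS x y (cg_mono h hxy)

lemma PerP.and {m : ℕ} {S T : VV → Prop} (hS : PerP m S) (hT : PerP m T) : PerP m (fun x => S x ∧ T x) :=
  fun x y hxy => and_congr (hS x y hxy) (hT x y hxy)

lemma PerP.or {m : ℕ} {S T : VV → Prop} (hS : PerP m S) (hT : PerP m T) : PerP m (fun x => S x ∨ T x) :=
  fun x y hxy => or_congr (hS x y hxy) (hT x y hxy)

lemma PerP.not {m : ℕ} {S : VV → Prop} (hS : PerP m S) : PerP m (fun x => ¬ S x) :=
  fun x y hxy => not_congr (hS x y hxy)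

lemma PerP.imp {m : ℕ} {S T : VV → Prop} (hS : PerP m S) (hT : PerP m T) : PerP m (fun x => S x → T x) :=
  fun x y hxy => imp_congr (hS x y hxy) (hT x y hxy)

lemma PerP.iff {m : ℕ} {S T : VV → Prop} (hS : PerP m S) (hT : PerP m T) : PerP m (fun x => S x ↔ T x) :=
  fun x y hxy => iff_congr (hS x y hxy) (hT x y hxy)

lemma PerP.const (m : ℕ) (A : Prop) : PerP m (fun _ => A) := fun _ _ _ => Iff.rfl

lemma PerP.all {ι : Type*} {m : ℕ} {S : ι → VV → Prop} (hS : ∀ i, PerP m (S i)) : PerP m (fun x => ∀ i, S i x) :=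
  fun x y hxy => forall_congr' fun i => hS i x y hxy

lemma PerP.all_mem {ι : Type*} {m : ℕ} {s : Finset ι} {S : ι → VV → Prop} (hS : ∀ i ∈ s, PerP m (S i)) :
    PerP m (fun x => ∀ i ∈ s, S i x) :=
  fun x y hxy => forall₂_congr fun i hi => hS i hi x y hxy

lemma PerP.congr {m : ℕ} {S T : VV → Prop} (h : ∀ x, S x ↔ T x) (hS : PerP m S) : PerP m T :=
  fun x y hxy => (h x).symm.trans ((hS x y hxy).trans (h y))

/-- divisibility of a function compatible with the congruence, by a divisor of `m` -/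
lemma perP_dvd {m : ℕ} {d : ℤ} (hd : d ∣ m) {A : VV → ℤ} (hA : ∀ x y, cg m x y → A x ≡ A y [ZMOD m]) :
    PerP m (fun x => d ∣ A x) := by
  intro x y hxy
  have h1 : d ∣ A y - A x := hd.trans (hA x y hxy).dvd
  constructor
  · intro h
    have := dvd_add h1 h
    rwa [sub_add_cancel] at this
  · intro h
    have := dvd_sub h h1
    rwa [sub_sub_cancel] at this

/-- the indicator of a periodic predicate -/
lemma PerP.ind {m : ℕ} {S : VV → Prop} [DecidablePred S] (hS : PerP m S) (a b : ℝ) :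
    Per m (fun x => if S x then a else b) :=
  fun x y hxy => if_congr (hS x y hxy) rfl rfl

lemma per_mul {m : ℕ} {F G : VV → ℝ} (hF : Per m F) (hG : Per m G) : Per m (fun x => F x * G x) :=
  fun x y hxy => by simp only [hF x y hxy, hG x y hxy]

lemma per_prod {ι : Type*} {m : ℕ} {s : Finset ι} {F : ι → VV → ℝ} (hF : ∀ i ∈ s, Per m (F i)) :
    Per m (fun x => ∏ i ∈ s, F i x) := fun x y hxy => prod_congr rfl fun i hi => hF i hi x y hxy

lemma per_mono {d m : ℕ} {F : VV → ℝ} (h : d ∣ m) (hF : Per d F) : Per m F :=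
  fun x y hxy => hF x y (cg_mono h hxy)

/-! ## Means -/

lemma mean_add (q : ℕ) (F G : VV → ℝ) : mean q (fun x => F x + G x) = mean q F + mean q G := by
  unfold mean
  rw [sum_add_distrib, add_div]

lemma mean_mono {q : ℕ} {F G : VV → ℝ} (h : ∀ x, F x ≤ G x) : mean q F ≤ mean q G := by
  unfold mean
  exact div_le_div_of_nonneg_right (sum_le_sum fun x _ => h x) (Nat.cast_nonneg _)

/-! ## The form -/

variable [Aa] [Frm]

/-- the polynomial functions are compatible with the congruence -/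
lemma dd_cg {m : ℕ} {x y : VV} (h : cg m x y) : dd x ≡ dd y [ZMOD m] := by
  obtain ⟨h1, h2, _, _⟩ := h
  have a1 : x.1.1 ≡ y.1.1 [ZMOD m] := (Int.modEq_of_dvd h1).symm
  have a2 : x.1.2 ≡ y.1.2 [ZMOD m] := (Int.modEq_of_dvd h2).symm
  exact (((a1.pow 2).mul_left _).add ((a1.mul_left _).mul a2)).add ((a2.pow 2).mul_left _)

lemma ee_cg {m : ℕ} {x y : VV} (h : cg m x y) : ee x ≡ ee y [ZMOD m] := by
  obtain ⟨_, _, h1, h2⟩ := h
  have a1 : x.2.1 ≡ y.2.1 [ZMOD m] := (Int.modEq_of_dvd h1).symm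
  have a2 : x.2.2 ≡ y.2.2 [ZMOD m] := (Int.modEq_of_dvd h2).symm
  exact (((a1.pow 2).mul_left _).add ((a1.mul_left _).mul a2)).add ((a2.pow 2).mul_left _)

lemma mm_cg {m : ℕ} {x y : VV} (h : cg m x y) : mm x ≡ mm y [ZMOD m] := by
  obtain ⟨h1, h2, h3, h4⟩ := h
  have a1 : x.1.1 ≡ y.1.1 [ZMOD m] := (Int.modEq_of_dvd h1).symm
  have a2 : x.1.2 ≡ y.1.2 [ZMOD m] := (Int.modEq_of_dvd h2).symm
  have a3 : x.2.1 ≡ y.2.1 [ZMOD m] := (Int.modEq_of_dvd h3).symm
  have a4 : x.2.2 ≡ y.2.2 [ZMOD m] := (Int.modEq_of_dvd h4).symm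
  exact (((a1.mul a3).mul_left _).add (((a1.mul a4).add (a2.mul a3)).mul_left _)).add
    ((a2.mul a4).mul_left _)

lemma qf_cg {m : ℕ} {x y : VV} (h : cg m x y) (s t : ℤ) : qf x s t ≡ qf y s t [ZMOD m] := by
  have h1 := dd_cg h
  have h2 := ee_cg h
  have h3 := mm_cg h
  unfold qf
  exact ((h1.mul_right _).add (((h3.mul_left 2).mul_right s).mul_right t)).add (h2.mul_right _)

lemma perP_dd {m : ℕ} {d : ℤ} (hd : d ∣ m) : PerP m (fun x => d ∣ dd x) := perP_dvd hd fun _ _ h => dd_cg h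
lemma perP_ee {m : ℕ} {d : ℤ} (hd : d ∣ m) : PerP m (fun x => d ∣ ee x) := perP_dvd hd fun _ _ h => ee_cg h
lemma perP_mm {m : ℕ} {d : ℤ} (hd : d ∣ m) : PerP m (fun x => d ∣ mm x ^ 2 + aa) :=
  perP_dvd hd fun _ _ h => ((mm_cg h).pow 2).add_right _
lemma perP_qf {m : ℕ} {d : ℤ} (hd : d ∣ m) (s t : ℤ) : PerP m (fun x => d ∣ qf x s t) :=
  perP_dvd hd fun _ _ h => qf_cg h s t

/-- `Md x ^ 2 + aa` as an integer -/
lemma cast_Md (x : VV) : (((mm x).natAbs ^ 2 + aa : ℕ) : ℤ) = mm x ^ 2 + aa := by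
  push_cast
  rw [sq_abs]

lemma perP_Md {m d : ℕ} (hd : d ∣ m) : PerP m (fun x => d ∣ (mm x).natAbs ^ 2 + aa) := by
  refine (perP_mm (Int.natCast_dvd_natCast.2 hd)).congr fun x => ?_
  rw [← cast_Md, Int.natCast_dvd_natCast]

/-- `tame` is periodic modulo `W₀` -/
lemma perP_tame (p : Prm) : PerP (W0 p) (fun x => tame p ((mm x).natAbs ^ 2 + aa)) := by
  unfold tame
  refine PerP.all fun l => ?_
  by_cases h1 : l.Prime
  · by_cases h2 : l ≤ p.E
    · refine PerP.imp (PerP.const _ _) (PerP.imp (PerP.const _ _) (PerP.not (perP_Md ?_)))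
      unfold W0
      exact pow_dvd_pow_of_dvd ((Nat.Prime.dvd_primorial_iff h1).2 h2) _
    · exact (PerP.const _ True).congr fun x => ⟨fun _ _ h => absurd h h2, fun _ => trivial⟩
  · exact (PerP.const _ True).congr fun x => ⟨fun _ h => absurd h h1, fun _ => trivial⟩

lemma qf_one_zero (x : VV) : qf x 1 0 = dd x := by unfold qf; ring
lemma qf_zero_one (x : VV) : qf x 0 1 = ee x := by unfold qf; ring

lemma mean_qf {l : ℕ} (hl : l.Prime) (h4 : spl l) {s t : ℤ} (h : ¬ ((l : ℤ) ∣ s ∧ (l : ℤ) ∣ t)) :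
    mean l (fun x => if (l : ℤ) ∣ qf x s t then 1 else 0) = 2 / ((l : ℝ) + 1) := by
  have : Fact l.Prime := ⟨hl⟩
  rw [T4.mean_eq hl.pos]
  have h1 := TF1.mn_ind_eq (l := l) h4 h
  rw [← h1]
  rfl

lemma mean_qf_le {l : ℕ} (hl : l.Prime) (h4 : spl l) {s t : ℤ} (h : ¬ ((l : ℤ) ∣ s ∧ (l : ℤ) ∣ t)) :
    mean l (fun x => if (l : ℤ) ∣ qf x s t then 1 else 0) ≤ 2 / (l : ℝ) := by
  rw [mean_qf hl h4 h]
  have hl0 : (0 : ℝ) < l := by exact_mod_cast hl.pos
  exact div_le_div_of_nonneg_left (by norm_num) hl0 (by linarith)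

/-- the local function at a general prime -/
def floc (l : ℕ) (y : ℝ) (s t s' t' : ℤ) (x : VV) : ℝ :=
  (if (l : ℤ) ∣ dd x ∨ (l : ℤ) ∣ ee x then 0 else 1) *
    ((if (l : ℤ) ∣ qf x s t then y else 1) * (if (l : ℤ) ∣ qf x s' t' then y else 1))

lemma floc_per (l : ℕ) (y : ℝ) (s t s' t' : ℤ) : Per l (floc l y s t s' t') := by
  unfold floc
  exact per_mul (((perP_dd (dvd_refl _)).or (perP_ee (dvd_refl _))).ind 0 1)
    (per_mul ((perP_qf (dvd_refl _) s t).ind y 1) ((perP_qf (dvd_refl _) s' t').ind y 1))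

lemma floc_nn {l : ℕ} {y : ℝ} (hy : 0 ≤ y) (s t s' t' : ℤ) (x : VV) : 0 ≤ floc l y s t s' t' x := by
  unfold floc
  split_ifs <;> positivity

lemma floc_le {l : ℕ} {y : ℝ} (hy : 0 ≤ y) (hy1 : y ≤ 1) (s t s' t' : ℤ) (x : VV) : floc l y s t s' t' x ≤ 1 := by
  unfold floc
  split_ifs <;> nlinarith

lemma floc_mean {l : ℕ} (hl : l.Prime) (h4 : spl l) {y : ℝ} (hy : 0 ≤ y) (hy1 : y ≤ 1) {s t s' t' : ℤ}
    (h : ¬ ((l : ℤ) ∣ s ∧ (l : ℤ) ∣ t)) (h' : ¬ ((l : ℤ) ∣ s' ∧ (l : ℤ) ∣ t')) :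
    mean l (fun x => 1 - floc l y s t s' t' x) ≤ 8 / (l : ℝ) := by
  have h1 : ∀ x, 1 - floc l y s t s' t' x ≤
      ((if (l : ℤ) ∣ qf x 1 0 then 1 else 0) + (if (l : ℤ) ∣ qf x 0 1 then 1 else 0)) +
        ((if (l : ℤ) ∣ qf x s t then 1 else 0) + (if (l : ℤ) ∣ qf x s' t' then 1 else 0) : ℝ) := by
    intro x
    rw [qf_one_zero, qf_zero_one]
    unfold floc
    by_cases a1 : (l : ℤ) ∣ dd x <;> by_cases a2 : (l : ℤ) ∣ ee x <;> by_cases a3 : (l : ℤ) ∣ qf x s t <;>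
      by_cases a4 : (l : ℤ) ∣ qf x s' t' <;> simp only [a1, a2, a3, a4, true_or, or_true, or_self, if_true, if_false] <;>
      nlinarith
  have hl1 : ¬ (l : ℤ) ∣ 1 := by
    intro hd
    have : l ∣ 1 := by exact_mod_cast hd
    exact hl.one_lt.ne' (Nat.dvd_one.1 this)
  refine (mean_mono h1).trans ?_
  rw [mean_add, mean_add, mean_add]
  have b1 := mean_qf_le hl h4 (s := 1) (t := 0) (fun hh => hl1 hh.1)
  have b2 := mean_qf_le hl h4 (s := 0) (t := 1) (fun hh => hl1 hh.2)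
  have b3 := mean_qf_le hl h4 h
  have b4 := mean_qf_le hl h4 h'
  have e : (8 : ℝ) / l = 2 / l + 2 / l + (2 / l + 2 / l) := by ring
  rw [e]
  linarith

/-- the structure `Loc` from a function modulo `m` and the local functions `floc` at the other primes -/
lemma mkLoc {P : Finset ℕ} (hP : ∀ l ∈ P, l.Prime ∧ spl l) {m : ℕ} {F : VV → ℝ} (hF : Per m F)
    (hF0 : ∀ x, 0 ≤ F x) (hF1 : ∀ x, F x ≤ 1) {y : ℝ} (hy : 0 ≤ y) (hy1 : y ≤ 1) {s t s' t' : ℤ}
    (h : ∀ l ∈ P, ¬ l ∣ m → ¬ ((l : ℤ) ∣ s ∧ (l : ℤ) ∣ t) ∧ ¬ ((l : ℤ) ∣ s' ∧ (l : ℤ) ∣ t')) :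
    Loc P 10 m (fun x => F x * ∏ l ∈ P.filter (fun l => ¬ l ∣ m), floc l y s t s' t' x) F
      (fun l => floc l y s t s' t') where
  w_eq := fun _ _ => rfl
  perF := hF
  F_nn := hF0
  F_le := hF1
  perf := fun l _ _ => floc_per l y s t s' t'
  f_nn := fun l _ _ x => floc_nn hy s t s' t' x
  f_le := fun l _ _ x => floc_le hy hy1 s t s' t' x
  f_mean := fun l hl hlm => by
    have hl0 : (0 : ℝ) < l := by exact_mod_cast (hP l hl).1.pos
    refine (floc_mean (hP l hl).1 (hP l hl).2 hy hy1 (h l hl hlm).1 (h l hl hlm).2).trans ?_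
    exact div_le_div_of_nonneg_right (by norm_num) hl0.le

end HLA

end

end Pool.Agent.Lib.MP391708.TF
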