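import Pool.Agent.Lib.MP_391708_nt.TF.HSp
import Pool.Agent.Lib.MP_391708_nt.TF.HBas
import Pool.Agent.Lib.MP_391708_nt.TF.LocA
import Pool.Agent.Lib.MP_391708_nt.T1.GoodL

/-!
# T1, group H, HS: the product of two local weights and the comparison for a pair of data
-/

set_option autoImplicit false

namespace Pool.Agent.Lib.MP391708.TF.H

variable [Pool.Agent.Lib.MP391708.TF.Aa] [Pool.Agent.Lib.MP391708.TF.Frm]

open Finset Filter Topology
open Pool.Agent.Lib.MP391708.Eqd (V cross pairs)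
open scoped Classical

noncomputable section

/-- a part of the product over the primes not dividing `m` -/
theorem prod_split {P : Finset ℕ} {m n : ℕ} (h : m ∣ n) (f : ℕ → ℝ) :
    ∏ l ∈ P.filter (fun l => ¬ l ∣ m), f l =
      (∏ l ∈ P.filter (fun l => ¬ l ∣ m ∧ l ∣ n), f l) *
        ∏ l ∈ P.filter (fun l => ¬ l ∣ n), f l := by
  rw [← prod_filter_mul_prod_filter_not (P.filter (fun l => ¬ l ∣ m)) (fun l => l ∣ n)]
  rw [filter_filter, filter_filter]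
  congr 1
  refine prod_congr (filter_congr fun l _ => ?_) fun _ _ => rfl
  constructor
  · exact fun h => h.2
  · exact fun h' => ⟨fun h1 => h' (h1.trans h), h'⟩

/-- the product of two local weights -/
theorem loc_mul {P : Finset ℕ} {κ κ' : ℝ} {m m' : ℕ} {w F w' F' : VV → ℝ} {f f' : ℕ → VV → ℝ}
    (h : Loc P κ m w F f) (h' : Loc P κ' m' w' F' f') :
    Loc P (κ + κ') (m * m') (fun x => w x * w' x)
      (fun x => (F x * F' x) * ((∏ l ∈ P.filter (fun l => ¬ l ∣ m ∧ l ∣ m * m'), f l x) *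
        ∏ l ∈ P.filter (fun l => ¬ l ∣ m' ∧ l ∣ m * m'), f' l x))
      (fun l x => f l x * f' l x) := by
  have hnm : ∀ l : ℕ, ¬ l ∣ m * m' → ¬ l ∣ m ∧ ¬ l ∣ m' := fun l hl =>
    ⟨fun h1 => hl (h1.mul_right _), fun h1 => hl (h1.mul_left _)⟩
  have e1 : ∀ x, 0 ≤ ∏ l ∈ P.filter (fun l => ¬ l ∣ m ∧ l ∣ m * m'), f l x := fun x =>
    prod_nonneg fun l hl => h.f_nn l (mem_filter.1 hl).1 (mem_filter.1 hl).2.1 x
  have e2 : ∀ x, 0 ≤ ∏ l ∈ P.filter (fun l => ¬ l ∣ m' ∧ l ∣ m * m'), f' l x := fun x =>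
    prod_nonneg fun l hl => h'.f_nn l (mem_filter.1 hl).1 (mem_filter.1 hl).2.1 x
  have e3 : ∀ x, ∏ l ∈ P.filter (fun l => ¬ l ∣ m ∧ l ∣ m * m'), f l x ≤ 1 := fun x =>
    prod_le_one (fun l hl => h.f_nn l (mem_filter.1 hl).1 (mem_filter.1 hl).2.1 x)
      fun l hl => h.f_le l (mem_filter.1 hl).1 (mem_filter.1 hl).2.1 x
  have e4 : ∀ x, ∏ l ∈ P.filter (fun l => ¬ l ∣ m' ∧ l ∣ m * m'), f' l x ≤ 1 := fun x =>
    prod_le_one (fun l hl => h'.f_nn l (mem_filter.1 hl).1 (mem_filter.1 hl).2.1 x)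
      fun l hl => h'.f_le l (mem_filter.1 hl).1 (mem_filter.1 hl).2.1 x
  constructor
  · intro x hx
    show w x * w' x = _
    rw [h.w_eq x hx, h'.w_eq x hx, prod_split (dvd_mul_right m m'),
      prod_split (dvd_mul_left m' m), prod_mul_distrib]
    ring
  · refine HLA.per_mul (HLA.per_mul (HLA.per_mono (dvd_mul_right m m') h.perF)
      (HLA.per_mono (dvd_mul_left m' m) h'.perF)) (HLA.per_mul ?_ ?_)
    · exact HLA.per_prod fun l hl => HLA.per_mono (mem_filter.1 hl).2.2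
        (h.perf l (mem_filter.1 hl).1 (mem_filter.1 hl).2.1)
    · exact HLA.per_prod fun l hl => HLA.per_mono (mem_filter.1 hl).2.2
        (h'.perf l (mem_filter.1 hl).1 (mem_filter.1 hl).2.1)
  · intro x
    exact mul_nonneg (mul_nonneg (h.F_nn x) (h'.F_nn x)) (mul_nonneg (e1 x) (e2 x))
  · intro x
    exact mul_le_one₀ (mul_le_one₀ (h.F_le x) (h'.F_nn x) (h'.F_le x))
      (mul_nonneg (e1 x) (e2 x)) (mul_le_one₀ (e3 x) (e2 x) (e4 x))
  · intro l hl hlm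
    exact HLA.per_mul (h.perf l hl (hnm l hlm).1) (h'.perf l hl (hnm l hlm).2)
  · intro l hl hlm x
    exact mul_nonneg (h.f_nn l hl (hnm l hlm).1 x) (h'.f_nn l hl (hnm l hlm).2 x)
  · intro l hl hlm x
    exact mul_le_one₀ (h.f_le l hl (hnm l hlm).1 x) (h'.f_nn l hl (hnm l hlm).2 x)
      (h'.f_le l hl (hnm l hlm).2 x)
  · intro l hl hlm
    have a1 := h.f_nn l hl (hnm l hlm).1
    have a2 := h.f_le l hl (hnm l hlm).1
    have b1 := h'.f_nn l hl (hnm l hlm).2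
    have b2 := h'.f_le l hl (hnm l hlm).2
    have h1 : mean l (fun x => 1 - f l x * f' l x) ≤
        mean l (fun x => (1 - f l x) + (1 - f' l x)) :=
      HLA.mean_mono fun x => by nlinarith [a1 x, a2 x, b1 x, b2 x]
    rw [HLA.mean_add] at h1
    have h2 := h.f_mean l hl (hnm l hlm).1
    have h3 := h'.f_mean l hl (hnm l hlm).2
    rw [add_div]
    linarith

/-- the common window -/
theorem gam_inter {N : ℕ} {a b a' b' : ℝ} {x : VV} (hx : x ∈ Gam N 1 3) :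
    x ∈ Gam N (max a a') (min b b') ↔ x ∈ Gam N a b ∧ x ∈ Gam N a' b' := by
  unfold Gam at hx ⊢
  simp only [mem_filter] at hx ⊢
  have hM : (0 : ℝ) < (mm x : ℝ) := by
    have h1 := hx.2.1
    have h2 : (0 : ℤ) < mm x := lt_of_le_of_lt (Int.natCast_nonneg N) h1
    exact_mod_cast h2
  rw [max_mul_of_nonneg _ _ hM.le, min_mul_of_nonneg _ _ hM.le, max_lt_iff, le_min_iff]
  tauto

/-- monotonicity of the window -/
theorem gam_mono {N : ℕ} {a b a' b' : ℝ} (h : a' ≤ a) (h' : b ≤ b') {x : VV}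
    (hx : x ∈ Gam N a b) : x ∈ Gam N a' b' := by
  unfold Gam at hx ⊢
  simp only [mem_filter] at hx ⊢
  have hM : (0 : ℝ) < (mm x : ℝ) := by
    have h1 := hx.2.1
    have h2 : (0 : ℤ) < mm x := lt_of_le_of_lt (Int.natCast_nonneg N) h1
    exact_mod_cast h2
  refine ⟨hx.1, hx.2.1, hx.2.2.1, lt_of_le_of_lt ?_ hx.2.2.2.1, hx.2.2.2.2.trans ?_⟩
  · exact mul_le_mul_of_nonneg_right h hM.le
  · exact mul_le_mul_of_nonneg_right h' hM.le

/-- an empty window -/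
theorem gam_empty {N : ℕ} {a b : ℝ} (h : b ≤ a) : Gam N a b = ∅ := by
  rw [Finset.eq_empty_iff_forall_notMem]
  intro x hx
  unfold Gam at hx
  simp only [mem_filter] at hx
  have hM : (0 : ℝ) < (mm x : ℝ) := by
    have h1 := hx.2.1
    have h2 : (0 : ℤ) < mm x := lt_of_le_of_lt (Int.natCast_nonneg N) h1
    exact_mod_cast h2
  have h1 := hx.2.2.2.1
  have h2 := hx.2.2.2.2
  have h3 := mul_le_mul_of_nonneg_right h hM.le
  linarith

/-- the modulus of a pair -/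
theorem mod_pair {p : Prm} {N : ℕ} (hb : Bas p N) {m m' : ℕ}
    (h : (m : ℝ) ≤ zz p N ^ (100 * (p.K + 1)) * Y2 p N * Y4 p N)
    (h' : (m' : ℝ) ≤ zz p N ^ (100 * (p.K + 1)) * Y2 p N * Y4 p N) :
    ((m * m' : ℕ) : ℝ) ≤ ML p N := by
  have hz := hb.z1
  have e1 : zz p N ^ (100 * (p.K + 1)) * Y2 p N * Y4 p N =
      zz p N ^ (100 * (p.K + 1) + p.r * p.k + 10 * p.r ^ 2 * p.k) := by
    unfold Y2 Y4
    rw [pow_add, pow_add]
  rw [e1] at h h'
  push_cast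
  calc (m : ℝ) * m' ≤ zz p N ^ (100 * (p.K + 1) + p.r * p.k + 10 * p.r ^ 2 * p.k) *
        zz p N ^ (100 * (p.K + 1) + p.r * p.k + 10 * p.r ^ 2 * p.k) :=
        mul_le_mul h h' (Nat.cast_nonneg _) (by positivity)
    _ = zz p N ^ ((100 * (p.K + 1) + p.r * p.k + 10 * p.r ^ 2 * p.k) +
        (100 * (p.K + 1) + p.r * p.k + 10 * p.r ^ 2 * p.k)) := (pow_add _ _ _).symm
    _ ≤ ML p N := by
        unfold ML
        refine hb.zpow_le ?_
        have h1 : p.r * p.k ≤ (p.r + 1) ^ 2 * (p.k + 1) := by nlinarith [Nat.zero_le (p.r * p.k), Nat.zero_le p.r, Nat.zero_le p.k, Nat.zero_le (p.r ^ 2 * p.k)]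
        have h2 : p.r ^ 2 * p.k ≤ (p.r + 1) ^ 2 * (p.k + 1) := by nlinarith [Nat.zero_le (p.r * p.k), Nat.zero_le p.r, Nat.zero_le p.k, Nat.zero_le (p.r ^ 2 * p.k)]
        have h3 : 1 ≤ (p.r + 1) ^ 2 * (p.k + 1) := Nat.mul_pos (by positivity) (by positivity)
        have h4 : 1 ≤ p.K + 1 := by omega
        set A := (p.r + 1) ^ 2 * (p.k + 1) with hA
        have h5 : A ≤ (p.K + 1) * A := Nat.le_mul_of_pos_left _ h4
        have h6 : p.K + 1 ≤ (p.K + 1) * A := Nat.le_mul_of_pos_right _ h3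
        have e2 : 1000 * (p.K + 1) * (p.r + 1) ^ 2 * (p.k + 1) = 1000 * ((p.K + 1) * A) := by
          rw [hA]; ring
        rw [e2, mul_assoc 10 (p.r ^ 2) p.k]
        omega

/-- **pair comparison** -/
theorem pair_cmp (h3 : SpecH3) (hC : SpecCMP) :
    ∃ c : ℝ, 0 < c ∧ ∀ y ε : ℝ, 0 < y → y ≤ 1 → 0 < ε → Good (fun p => ∀ᶠ N : ℕ in atTop,
      ∀ (a a' : Dt) (t t' : ℤ × ℕ) (H H' : ℕ) (s₁ t₁ s₂ t₂ : ℤ),
      okT p N a t → okT p N a' t' → Rgh p N H → Rgh p N H' →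
      (H : ℝ) ≤ ML p N → (H' : ℝ) ≤ ML p N →
      (∀ l : ℕ, l.Prime → l ∣ H * H' → l ≠ du a ∧ l ≠ dv a ∧ l ≠ du a' ∧ l ≠ dv a') →
      Nat.Coprime H H' → prim H s₁ t₁ → prim H' s₂ t₂ →
      ∑ x ∈ Gam N (max (aL a t) (aL a' t')) (min (bL a t) (bL a' t')),
          (lw p N y ev0 a t x * lw p N y ev0 a' t' x) *
            ((if (H : ℤ) ∣ qf x s₁ t₁ then 1 else 0) * (if (H' : ℤ) ∣ qf x s₂ t₂ then 1 else 0)) ≤
        (1 + ε) * (dn H * dn H') *
          ∑ x ∈ Gam N (max (aL a t) (aL a' t')) (min (bL a t) (bL a' t')),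
            lw p N y ev0 a t x * lw p N y ev0 a' t' x + (N : ℝ) ^ (1 - c)) := by
  obtain ⟨c, hc, hC⟩ := hC
  refine ⟨c, hc, fun y ε hy hy1 hε => ?_⟩
  refine (((h3 y hy hy1).and (hC 20 ε hε)).and good_bas).mono ?_
  rintro p ⟨⟨k1, k2⟩, k3⟩
  filter_upwards [k1, k2, k3, eventually_ge_atTop 1] with N g1 g2 hb hN1
  intro a a' t t' H H' s₁ t₁ s₂ t₂ hok hok' hH hH' hHM hHM' hll hHH hp1 hp2
  obtain ⟨m, w, F, f, hm, hmM, hml, hL, hw⟩ := g1 ev0 (Or.inl rfl) a t hok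
  obtain ⟨m', w', F', f', hm', hmM', hml', hL', hw'⟩ := g1 ev0 (Or.inl rfl) a' t' hok'
  by_cases hab : max (aL a t) (aL a' t') < min (bL a t) (bL a' t')
  swap
  · rw [gam_empty (not_lt.1 hab), sum_empty, sum_empty, mul_zero, zero_add]
    positivity
  have ha1 : (1 : ℝ) ≤ aL a t := le_max_left _ _
  have hb2 : bL a t ≤ 3 := min_le_left _ _
  have hα : (1 : ℝ) ≤ max (aL a t) (aL a' t') := ha1.trans (le_max_left _ _)
  have hβ : min (bL a t) (bL a' t') ≤ 3 := (min_le_left _ _).trans hb2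
  have hsub : ∀ x ∈ Gam N (max (aL a t) (aL a' t')) (min (bL a t) (bL a' t')),
      lw p N y ev0 a t x * lw p N y ev0 a' t' x = w x * w' x := by
    intro x hx
    have h1 : x ∈ Gam N 1 3 := gam_mono hα hβ hx
    obtain ⟨h2, h3⟩ := (gam_inter h1).1 hx
    rw [hw x h1 h2, hw' x h1 h3]
  have hcop : ∀ l : ℕ, l.Prime → l ∣ H * H' → ¬ l ∣ m * m' := by
    intro l hl h1 h2
    obtain ⟨u1, u2, u3, u4⟩ := hll l hl h1
    have h3 : zz p N ≤ (l : ℝ) := by
      rcases hl.dvd_mul.1 h1 with h | h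
      · exact (hH.2 l hl h).1
      · exact (hH'.2 l hl h).1
    rcases hl.dvd_mul.1 h2 with h | h
    · rcases hml l hl h with h | h | h
      · linarith
      · exact u1 h
      · exact u2 h
    · rcases hml' l hl h with h | h | h
      · linarith
      · exact u3 h
      · exact u4 h
  have hc1 : Nat.Coprime H (m * m') :=
    Nat.Coprime.symm (Nat.coprime_of_dvd fun l hl h1 h2 => hcop l hl (h2.mul_right _) h1)
  have hc2 : Nat.Coprime H' (m * m') :=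
    Nat.Coprime.symm (Nat.coprime_of_dvd fun l hl h1 h2 => hcop l hl (h2.mul_left _) h1)
  have hLL := loc_mul hL hL'
  have e20 : (10 : ℝ) + 10 = ((20 : ℕ) : ℝ) := by norm_num
  rw [e20] at hLL
  have hN0 : (1 : ℝ) ≤ N := by exact_mod_cast hN1
  have hNc : (N : ℝ) ^ (-c) ≤ 1 := Real.rpow_le_one_of_one_le_of_nonpos hN0 (by linarith)
  have h5 := (g2 N (m * m') _ _ _ (max (aL a t) (aL a' t')) (min (bL a t) (bL a' t')) H H'
    s₁ t₁ s₂ t₂ (by omega) (by omega) (Nat.mul_pos hm hm') (mod_pair hb hmM hmM') hLL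
    (hNc.trans hα) hab (by linarith) hH hH' hHM hHM' hc1 hc2 hHH hp1 hp2).1
  rw [sum_congr rfl hsub]
  have h6 : ∑ x ∈ Gam N (max (aL a t) (aL a' t')) (min (bL a t) (bL a' t')),
      (lw p N y ev0 a t x * lw p N y ev0 a' t' x) *
        ((if (H : ℤ) ∣ qf x s₁ t₁ then (1 : ℝ) else 0) *
          (if (H' : ℤ) ∣ qf x s₂ t₂ then 1 else 0)) =
      ∑ x ∈ Gam N (max (aL a t) (aL a' t')) (min (bL a t) (bL a' t')),
      (w x * w' x) * ((if (H : ℤ) ∣ qf x s₁ t₁ then (1 : ℝ) else 0) *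
          (if (H' : ℤ) ∣ qf x s₂ t₂ then 1 else 0)) :=
    sum_congr rfl fun x hx => by rw [hsub x hx]
  rw [h6]
  exact h5

end

end Pool.Agent.Lib.MP391708.TF.H
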