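import Pool.Agent.Lib.MP_391708_nt.TF.ISpec
import Pool.Agent.Lib.MP_391708_nt.T1.GoodL
import Pool.Agent.Lib.MP_391708_nt.T1.A3An
import Pool.Agent.Lib.MP_391708_nt.TA.A3An

/-!
# Group I, module I8: the number of data and the constant factors are `N^{small}`
-/

set_option autoImplicit false

namespace Pool.Agent.Lib.MP391708.TF.I

variable [Pool.Agent.Lib.MP391708.TF.Aa] [Pool.Agent.Lib.MP391708.TF.Frm]

open Finset Filter Topology
open Pool.Agent.Lib.MP391708.Eqd (V cross pairs)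
open Pool.Agent.Lib.MP391708.T4
open scoped Classical

noncomputable section

attribute [local irreducible] RG S2 DS CS Gam dtbox dbox rbox

namespace I8Mod

omit [Pool.Agent.Lib.MP391708.TF.Frm] in
theorem S0_eq (p : Prm) (N : ℕ) : S0 p N = TA.A3.S0f (aa : ℤ) p.E (zz p N) := by
  unfold S0 TA.A3.S0f
  refine Finset.sum_congr ?_ fun _ _ => rfl
  ext l
  simp only [PP, TA.A3.PPf, spl, mem_filter]

omit [Pool.Agent.Lib.MP391708.TF.Frm] in
/-- `exp S0 ≤ C log z` -/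
theorem exp_S0_le (p : Prm) (hζ : 0 < p.ζ) : ∃ C : ℝ, 0 < C ∧ ∀ᶠ N : ℕ in atTop,
    Real.exp (S0 p N) ≤ C * Real.log (zz p N) ∧ 1 < Real.log (zz p N) ∧
      Real.log (zz p N) ≤ C * Real.exp (S0 p N) := by
  have ha : (aa : ℤ) ≠ 0 := by
    have : 0 < aa := Aa.ha
    omega
  obtain ⟨C, hC0, hC⟩ := TA.A3.exp_S0_le ha
    (TA.nsq_of_pos (by have : 0 < aa := Aa.ha; omega)) p.E
  refine ⟨C, hC0, ?_⟩
  filter_upwards [(A3.tendsto_zz hζ).eventually_ge_atTop 9] with N hN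
  rw [S0_eq]
  exact hC _ hN

omit [Pool.Agent.Lib.MP391708.TF.Frm] in
theorem one_div_rp_le_exp (p : Prm) (hζ : 0 < p.ζ) {δ : ℝ} (hδ : 0 < δ) :
    ∀ᶠ N : ℕ in atTop, ∀ D : ℕ, D ≤ 10000 * (N + 1) ^ 2 →
      1 / rp D ≤ Real.exp (δ * S0 p N) := by
  have ha : (aa : ℤ) ≠ 0 := by
    have : 0 < aa := Aa.ha
    omega
  have h := TA.A3.one_div_rp_le_exp ha
    (TA.nsq_of_pos (by have : 0 < aa := Aa.ha; omega)) p.E 10000 hζ hδ
  filter_upwards [h] with N hN D hD
  rw [S0_eq]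
  exact hN D hD

omit [Pool.Agent.Lib.MP391708.TF.Frm] in
theorem rp_pos (D : ℕ) : 0 < rp D := TA.rp_pos (aa : ℤ) D

omit [Pool.Agent.Lib.MP391708.TF.Aa] [Pool.Agent.Lib.MP391708.TF.Frm] in
lemma card_dtbox (B : ℕ) : (dtbox B).card ≤ 2 * B ^ 4 := by
  unfold dtbox
  rw [card_product, card_product, card_product, card_range, Int.card_Ioo]
  have h1 : ((B : ℤ) - -(B : ℤ) - 1).toNat ≤ 2 * B := by omega
  calc B * (B * (((B : ℤ) - -(B : ℤ) - 1).toNat * B)) ≤ B * (B * ((2 * B) * B)) := by gcongr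
    _ = 2 * B ^ 4 := by ring

/-- the exponent of all sizes -/
def nn (p : Prm) : ℕ := p.r * p.k + 10 * p.r ^ 2 * p.k + 4 * p.K

omit [Pool.Agent.Lib.MP391708.TF.Frm] in
lemma card_DS (p : Prm) (N : ℕ) (hz : 1 ≤ zz p N) :
    ((DS p N).card : ℝ) ≤ 2 * (1001 * zz p N ^ nn p) ^ 4 := by
  set Z := zz p N ^ nn p with hZ
  have hZ1 : 1 ≤ Z := one_le_pow₀ hz
  set B := ⌊1000 * Z⌋₊ + 1 with hB
  have hBle : (B : ℝ) ≤ 1001 * Z := by
    have := Nat.floor_le (show (0 : ℝ) ≤ 1000 * Z by positivity)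
    rw [hB]
    push_cast
    linarith
  have hlt : ∀ a : ℕ, (a : ℝ) ≤ 1000 * Z → a < B := by
    intro a ha
    have := Nat.le_floor ha
    omega
  have hpow : ∀ m : ℕ, m ≤ nn p → zz p N ^ m ≤ Z := fun m hm => pow_le_pow_right₀ hz hm
  have hsub : DS p N ⊆ dtbox B := by
    intro t ht
    unfold DS at ht
    rw [mem_filter] at ht
    obtain ⟨-, -, -, -, -, -, -, -, -, -, hXG, -, -, -, -, -, -, -, -, hK, -, -, hD, -, hG⟩ := ht
    have hG' : (tG t : ℝ) ≤ 10 * Z := by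
      refine hG.trans (le_of_eq ?_)
      rw [Y2, Y4, hZ, nn, ← pow_add, ← pow_add]
    have hXG' : (tX t : ℝ) ≤ 100 * tG t := by exact_mod_cast hXG
    unfold dtbox
    rw [mem_product, mem_product, mem_product, mem_range, mem_range, mem_range, mem_Ioo]
    refine ⟨hlt _ ?_, hlt _ ?_, ?_, hlt _ ?_⟩
    · show (tG t : ℝ) ≤ 1000 * Z
      linarith
    · show (tK t : ℝ) ≤ 1000 * Z
      have := hK.trans (hpow (4 * p.K) (by unfold nn; omega))
      linarith
    · have h1 : |(tD t : ℝ)| ≤ Z := by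
        refine hD.trans ?_
        rw [Y2, ← pow_add]
        exact hpow _ (by unfold nn; omega)
      have h2 : (((tD t).natAbs : ℕ) : ℝ) ≤ 1000 * Z := by
        have h3 : (((tD t).natAbs : ℕ) : ℝ) = |(tD t : ℝ)| := by
          rw [Nat.cast_natAbs]; push_cast; rfl
        rw [h3]; linarith
      have h4 := hlt _ h2
      show -(B : ℤ) < tD t ∧ tD t < (B : ℤ)
      omega
    · show (tX t : ℝ) ≤ 1000 * Z
      linarith
  have h1 : ((DS p N).card : ℝ) ≤ 2 * (B : ℝ) ^ 4 := by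
    have := (card_le_card hsub).trans (card_dtbox B)
    exact_mod_cast this
  refine h1.trans ?_
  gcongr

omit [Pool.Agent.Lib.MP391708.TF.Frm] in
lemma natAbs_le {p : Prm} {N : ℕ} {t : Dt} (ht : t ∈ DS p N) :
    (tD t).natAbs ≤ 10000 * (N + 1) ^ 2 := by
  unfold DS at ht
  rw [mem_filter] at ht
  obtain ⟨hbox, -⟩ := ht
  unfold dtbox at hbox
  rw [mem_product, mem_product, mem_product, mem_Ioo] at hbox
  obtain ⟨-, -, ⟨h1, h2⟩, -⟩ := hbox
  have h1' : -((10000 * (N + 1) ^ 2 : ℕ) : ℤ) < tD t := h1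
  have h2' : tD t < ((10000 * (N + 1) ^ 2 : ℕ) : ℤ) := h2
  generalize 10000 * (N + 1) ^ 2 = B at h1' h2' ⊢
  omega

end I8Mod

omit [Pool.Agent.Lib.MP391708.TF.Frm] in
open I8Mod in
theorem specI8 : SpecI8 := by
  intro c₀ hc₀ c hc
  have hg := (Good.zeta_pos).and (Good.zeta_le
    (fun _ K r k => c₀ / (64 * ((r * k + 10 * r ^ 2 * k + 4 * K : ℕ) + 1 : ℝ)))
    (fun _ K r k => by positivity))
  refine hg.mono fun p hp => ?_
  obtain ⟨hζ, hζ2⟩ := hp
  rw [le_div_iff₀ (by positivity)] at hζ2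
  obtain ⟨C, hC0, hC⟩ := I8Mod.exp_S0_le p hζ
  have hz := (A3.tendsto_zz hζ).eventually_ge_atTop 1
  have hN1 : ∀ᶠ N : ℕ in atTop, 2 * (1001 : ℝ) ^ 4 ≤ (N : ℝ) ^ (c₀ / 16) :=
    ((tendsto_rpow_atTop (by positivity)).comp tendsto_natCast_atTop_atTop).eventually_ge_atTop _
  have hlog : ∀ᶠ N : ℕ in atTop, (C * (p.ζ * Real.log N)) ^ 4 ≤ (N : ℝ) ^ (c₀ / 8) := by
    have h1 : Tendsto (fun x : ℝ => Real.log x / x ^ (c₀ / 32)) atTop (𝓝 0) :=
      (isLittleO_log_rpow_atTop (by positivity)).tendsto_div_nhds_zero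
    have h2 : Tendsto (fun N : ℕ => Real.log (N : ℝ) / (N : ℝ) ^ (c₀ / 32)) atTop (𝓝 0) :=
      h1.comp tendsto_natCast_atTop_atTop
    have h3 : ∀ᶠ N : ℕ in atTop, Real.log (N : ℝ) / (N : ℝ) ^ (c₀ / 32) < 1 / (C * p.ζ) :=
      h2.eventually_lt_const (by positivity)
    filter_upwards [h3, eventually_ge_atTop 1] with N hN hN1
    have hNpos : (0 : ℝ) < N := by exact_mod_cast hN1
    rw [div_lt_iff₀ (by positivity), one_div, inv_mul_eq_div, lt_div_iff₀ (by positivity)] at hN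
    have hl0 : 0 ≤ Real.log (N : ℝ) := Real.log_nonneg (by exact_mod_cast hN1)
    calc (C * (p.ζ * Real.log N)) ^ 4 ≤ ((N : ℝ) ^ (c₀ / 32)) ^ 4 := by
          refine pow_le_pow_left₀ (by positivity) ?_ 4
          have : C * (p.ζ * Real.log N) = Real.log N * (C * p.ζ) := by ring
          rw [this]
          exact hN.le
      _ = (N : ℝ) ^ (c₀ / 8) := by
          rw [← Real.rpow_natCast, ← Real.rpow_mul hNpos.le]
          congr 1
          push_cast
          ring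
  filter_upwards [hC, hz, hN1, hlog, I8Mod.one_div_rp_le_exp p hζ one_pos, eventually_ge_atTop 1]
    with N hCN hzN h1N hlN hrp hN1
  have hNpos : (0 : ℝ) < N := by exact_mod_cast hN1
  have hN1r : (1 : ℝ) ≤ N := by exact_mod_cast hN1
  constructor
  · refine (card_DS p N hzN).trans ?_
    have h2 : (zz p N ^ nn p) ^ 4 ≤ (N : ℝ) ^ (c₀ / 16) := by
      rw [zz, ← pow_mul, ← Real.rpow_natCast, ← Real.rpow_mul hNpos.le]
      refine Real.rpow_le_rpow_of_exponent_le hN1r ?_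
      have h3 : ((nn p * 4 : ℕ) : ℝ) = 4 * (((p.r * p.k + 10 * p.r ^ 2 * p.k + 4 * p.K : ℕ) : ℝ)) := by
        rw [nn]; push_cast; ring
      rw [h3]
      have h4 : 0 ≤ p.ζ * ((p.r * p.k + 10 * p.r ^ 2 * p.k + 4 * p.K : ℕ) : ℝ) := by positivity
      nlinarith [hζ2]
    calc 2 * (1001 * zz p N ^ nn p) ^ 4 = (2 * (1001 : ℝ) ^ 4) * (zz p N ^ nn p) ^ 4 := by ring
      _ ≤ (N : ℝ) ^ (c₀ / 16) * (N : ℝ) ^ (c₀ / 16) :=
          mul_le_mul h1N h2 (by positivity) (by positivity)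
      _ = (N : ℝ) ^ (c₀ / 8) := by
          rw [← Real.rpow_add hNpos]
          congr 1
          ring
  · intro t ht
    have hD : (tD t).natAbs ≤ 10000 * (N + 1) ^ 2 := natAbs_le ht
    have hS0 : 0 ≤ S0 p N := by
      unfold S0
      exact Finset.sum_nonneg fun l _ => by positivity
    have htau : c.tau ≤ 3 := by
      obtain ⟨-, -, -, -, h1, -, h2, -, h3, -⟩ := hc
      unfold Wts.tau
      linarith
    have hlz : Real.log (zz p N) = p.ζ * Real.log N := A3.log_zz p hN1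
    calc AA p N c t = Real.exp (c.tau * S0 p N) * (1 / rp (tD t).natAbs) := by
          rw [AA]; ring
      _ ≤ Real.exp (3 * S0 p N) * Real.exp (1 * S0 p N) := by
          refine mul_le_mul (Real.exp_le_exp.mpr (by nlinarith)) (hrp _ hD) ?_ (Real.exp_pos _).le
          exact one_div_nonneg.mpr (I8Mod.rp_pos _).le
      _ = Real.exp (S0 p N) ^ 4 := by
          rw [← Real.exp_add, ← Real.exp_nat_mul]
          congr 1
          push_cast
          ring
      _ ≤ (C * (p.ζ * Real.log N)) ^ 4 := by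
          refine pow_le_pow_left₀ (Real.exp_pos _).le ?_ 4
          rw [← hlz]
          exact hCN.1
      _ ≤ _ := hlN

end

end Pool.Agent.Lib.MP391708.TF.I
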