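import Pool.Agent.Lib.MP_391708_nt.TF.ISpecB
import Pool.Agent.Lib.MP_391708_nt.TF.ISm
import Pool.Agent.Lib.MP_391708_nt.T1.GoodL

/-!
# Group I: from the generic pairs of relations to the sum over the base measure (I9A)
-/

set_option autoImplicit false
set_option linter.constructorNameAsVariable false
set_option linter.unusedSectionVars false

namespace Pool.Agent.Lib.MP391708.TF.I

variable [Pool.Agent.Lib.MP391708.TF.Aa]

open Finset Filter Topology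
open Pool.Agent.Lib.MP391708.Eqd (V cross pairs)
open scoped Classical

lemma goodAll {k : ℕ} {φ : Fin k → Prm → Prop} (h : ∀ i, Good (φ i)) :
    Good (fun p => ∀ i, φ i p) := by
  induction k with
  | zero => exact T4.Good.of_all fun p i => i.elim0
  | succ k ih =>
    refine T4.Good.mono (T4.Good.and (h 0) (ih (φ := fun i => φ i.succ) fun i => h i.succ)) ?_
    rintro p ⟨h0, h1⟩ i
    exact Fin.cases h0 h1 i

/-! ## The pieces -/

lemma pcs_cover {N M : ℕ} (hN : 4 ≤ N) (h1 : N ≤ 2 * M) (h2 : M ≤ 8 * N) :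
    ∃ N₁ ∈ pcs N, N₁ < M ∧ M ≤ 2 * N₁ := by
  unfold pcs
  simp only [mem_insert, mem_singleton, exists_eq_or_imp, exists_eq_left]
  omega

lemma pcs_range {N M N₁ : ℕ} (hN : 4 ≤ N) (h : N₁ ∈ pcs N) (h1 : N₁ < M) (h2 : M ≤ 2 * N₁) :
    N ≤ 2 * M ∧ M ≤ 8 * N := by
  unfold pcs at h
  simp only [mem_insert, mem_singleton] at h
  omega

lemma card_pcs (N : ℕ) : (pcs N).card ≤ 5 := by
  unfold pcs
  exact card_le_five

/-! ## Nonnegativity -/

variable {p : Prm} {N : ℕ} {c : Wts}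

lemma AA_nonneg (t : Dt) : 0 ≤ AA p N c t := by
  unfold AA
  have : 0 < rp (tD t).natAbs := TA.rp_pos (aa : ℤ) _
  positivity

lemma dn_nonneg (n : ℕ) : 0 ≤ dn n := by unfold dn; positivity

/-- facts on a relation of `RG` -/
lemma RG_facts {r : Rl} (hr : r ∈ RG p N) :
    rho p N r ∣ rM r ^ 2 + aa ∧ 0 < rho p N r ∧ N ≤ 2 * rM r ∧ rM r ≤ 8 * N := by
  unfold RG at hr
  rw [mem_filter] at hr
  obtain ⟨-, ⟨hG, hP, hQ, -, -, hM, -⟩, -, b1, b2, -⟩ := hr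
  have h1 : rho p N r ∣ rP r := Nat.div_dvd_of_dvd (sm_dvd hP.ne')
  refine ⟨?_, Nat.pos_of_dvd_of_pos h1 hP, b1, b2⟩
  rw [← hM]
  exact h1.trans ⟨rG r * rQ r, by ring⟩

section form

variable [Frm]

lemma ph_nonneg (hc : c.ok) (t : Dt) (l : ℕ) (x : VV) : 0 ≤ ph c t l x := by
  obtain ⟨h1, h2, h3, -, h4, -, h5, -, h6, -⟩ := hc
  unfold ph
  split_ifs <;> positivity

lemma PH_nonneg (hc : c.ok) (t : Dt) (x : VV) : 0 ≤ PH p N c t x :=
  prod_nonneg fun l _ => ph_nonneg hc t l x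

lemma ww_nonneg (hc : c.ok) (t : Dt) (x : VV) : 0 ≤ ww p N c t x := by
  unfold ww
  split_ifs
  · exact PH_nonneg hc t x
  · exact le_rfl

lemma hh_nonneg (hc : c.ok) (t : Dt) (x : VV) : 0 ≤ hh p N c t x := by
  unfold hh
  have h1 := AA_nonneg (p := p) (N := N) (c := c) t
  have h2 := dn_nonneg (XR p N t)
  have h3 := ww_nonneg (p := p) (N := N) hc t x
  split_ifs <;> positivity

/-! ## Step A -/

/-- the indicator of the rough condition -/
noncomputable def ind (p : Prm) (N : ℕ) (t : Dt) (x : VV) : ℝ :=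
  if ((XR p N t : ℕ) : ℤ) ∣ qf x (tK t * tD t) (-1) then 1 else 0

lemma ind_nonneg (t : Dt) (x : VV) : 0 ≤ ind p N t x := by
  unfold ind; split_ifs <;> norm_num

/-- the window of a pair of data -/
noncomputable def Gw (N : ℕ) (s : ℕ × Dt × Dt) : Finset VV :=
  Gam s.1 (max (wl N s.2.1) (wl N s.2.2)) (min (wu s.2.1) (wu s.2.2))

/-- the term -/
noncomputable def tm (p : Prm) (N : ℕ) (c : Wts) (s : ℕ × Dt × Dt) (x : VV) : ℝ :=
  if gp p N (tG s.2.1) (tX s.2.1) (tG s.2.2) (tX s.2.2) then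
    AA p N c s.2.1 * AA p N c s.2.2 * (ww p N c s.2.1 x * ww p N c s.2.2 x *
      (ind p N s.2.1 x * ind p N s.2.2 x)) else 0

lemma tm_nonneg (hc : c.ok) (s : ℕ × Dt × Dt) (x : VV) : 0 ≤ tm p N c s x := by
  unfold tm
  have h1 := AA_nonneg (p := p) (N := N) (c := c) s.2.1
  have h1' := AA_nonneg (p := p) (N := N) (c := c) s.2.2
  have h3 := ww_nonneg (p := p) (N := N) hc s.2.1 x
  have h3' := ww_nonneg (p := p) (N := N) hc s.2.2 x
  have h4 := ind_nonneg (p := p) (N := N) s.2.1 x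
  have h4' := ind_nonneg (p := p) (N := N) s.2.2 x
  split_ifs <;> positivity

attribute [local irreducible] RG Gam DS

/-- the conclusion of I4 for a relation over `x` -/
def FA (p : Prm) (N : ℕ) (r : Rl) (x : VV) : Prop :=
  dat p N r ∈ DS p N ∧ rel x (dat p N r) = r ∧ CC p N (dat p N r) x ∧
      QQ p N (dat p N r) x ∧ win N (dat p N r) x ∧
      ((XR p N (dat p N r) : ℕ) : ℤ) ∣ qf x (sm p N (rP r) * rD r) (-1) ∧
      ∀ c : Wts, UW p N c r = AA p N c (dat p N r) * PH p N c (dat p N r) x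

lemma tm_eq {n : ℕ} {r r' : Rl} {x : VV} (h : FA p N r x) (h' : FA p N r' x)
    (hg : gp p N (rG r) (rX r) (rG r') (rX r')) :
    UW p N c r * UW p N c r' = tm p N c (n, dat p N r, dat p N r') x := by
  obtain ⟨-, -, a3, -, -, a6, a7⟩ := h
  obtain ⟨-, -, b3, -, -, b6, b7⟩ := h'
  have hg' : gp p N (tG (dat p N r)) (tX (dat p N r)) (tG (dat p N r'))
      (tX (dat p N r')) := hg
  have i1 : ind p N (dat p N r) x = 1 := if_pos a6
  have i2 : ind p N (dat p N r') x = 1 := if_pos b6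
  have w1 : ww p N c (dat p N r) x = PH p N c (dat p N r) x := if_pos a3
  have w2 : ww p N c (dat p N r') x = PH p N c (dat p N r') x := if_pos b3
  simp only [tm]
  rw [if_pos hg', i1, i2, w1, w2, a7 c, b7 c]
  ring

lemma mem_Gw {n : ℕ} {r r' : Rl} {x : VV} (h : FA p N r x) (h' : FA p N r' x)
    (x1 : cross x.1 x.2 = -1) (q2 : (n : ℤ) < mm x) (q3 : mm x ≤ 2 * n) :
    x ∈ Gw N (n, dat p N r, dat p N r') := by
  obtain ⟨-, -, -, -, a5, -⟩ := h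
  obtain ⟨-, -, -, -, b5, -⟩ := h'
  unfold Gw
  rw [mem_Gam]
  simp only
  obtain ⟨a5, a5'⟩ := a5
  obtain ⟨b5, b5'⟩ := b5
  refine ⟨x1, q2, q3, ?_, ?_⟩
  · rcases max_choice (wl N (dat p N r)) (wl N (dat p N r')) with h | h <;> rw [h] <;>
      assumption
  · rcases min_choice (wu (dat p N r)) (wu (dat p N r')) with h | h <;> rw [h] <;>
      assumption

end form

attribute [local irreducible] RG Gam DS

theorem stepA {k : ℕ} {L : Fin k → Frm} (hL : Cls L) (hc : c.ok) (hN : 4 ≤ N)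
    (a4 : ∀ i : Fin k, ∀ r ∈ RG p N, ∀ x : VV, cross x.1 x.2 = -1 → @mm _ (L i) x = rM r →
      @dd _ (L i) x = rho p N r → @FA _ (L i) p N r x) :
    ∑ t ∈ GP p N, UW p N c t.1 * UW p N c t.2 ≤
      ∑ i : Fin k, ∑ s ∈ pcs N ×ˢ (DS p N ×ˢ DS p N), ∑ x ∈ @Gw _ (L i) N s,
        @tm _ (L i) p N c s x := by
  -- the choices
  have hx : ∀ M d : ℕ, ∃ y : Option (Fin k × VV), d ∣ M ^ 2 + aa → 0 < d →
      ∃ (i : Fin k) (x : VV), y = some (i, x) ∧ cross x.1 x.2 = -1 ∧ @mm _ (L i) x = M ∧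
        @dd _ (L i) x = d := by
    intro M d
    by_cases h : d ∣ M ^ 2 + aa ∧ 0 < d
    · obtain ⟨i, x, h1, h2, h3⟩ := exists_x hL h.2 h.1
      exact ⟨some (i, x), fun _ _ => ⟨i, x, rfl, h1, h2, h3⟩⟩
    · exact ⟨none, fun h' h'' => absurd ⟨h', h''⟩ h⟩
  choose X hX using hx
  have hpc : ∀ M : ℕ, ∃ N₁ : ℕ, N ≤ 2 * M → M ≤ 8 * N → N₁ ∈ pcs N ∧ N₁ < M ∧ M ≤ 2 * N₁ := by
    intro M
    by_cases h : N ≤ 2 * M ∧ M ≤ 8 * N
    · obtain ⟨N₁, h1, h2⟩ := pcs_cover hN h.1 h.2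
      exact ⟨N₁, fun _ _ => ⟨h1, h2⟩⟩
    · exact ⟨0, fun h1 h2 => absurd ⟨h1, h2⟩ h⟩
  choose pc hpc using hpc
  set Φ : Rl × Rl → (ℕ × Dt × Dt) × Option (Fin k × VV) := fun t =>
    ((pc (rM t.1), dat p N t.1, dat p N t.2), X (rM t.1) (rho p N t.1)) with hΦ
  -- the properties of the pairs
  have key : ∀ t ∈ GP p N, ∃ (i : Fin k) (x : VV), X (rM t.1) (rho p N t.1) = some (i, x) ∧
      cross x.1 x.2 = -1 ∧ @mm _ (L i) x = rM t.1 ∧ @FA _ (L i) p N t.1 x ∧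
      @FA _ (L i) p N t.2 x ∧ gp p N (rG t.1) (rX t.1) (rG t.2) (rX t.2) ∧
      pc (rM t.1) ∈ pcs N ∧ pc (rM t.1) < rM t.1 ∧ rM t.1 ≤ 2 * pc (rM t.1) := by
    intro t ht
    unfold GP at ht
    rw [mem_filter, mem_product] at ht
    obtain ⟨⟨hr, hr'⟩, e1, e2, hg⟩ := ht
    obtain ⟨f1, f0, f2, f3⟩ := RG_facts hr
    obtain ⟨i, x, x0, x1, x2, x3⟩ := hX (rM t.1) (rho p N t.1) f1 f0
    refine ⟨i, x, x0, x1, x2, a4 i _ hr x x1 x2 x3, a4 i _ hr' x x1 ?_ ?_, hg, hpc _ f2 f3⟩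
    · rw [x2, e1]
    · rw [x3, e2]
  set G : (ℕ × Dt × Dt) × Option (Fin k × VV) → ℝ := fun y =>
    match y.2 with
    | none => 0
    | some z => @tm _ (L z.1) p N c y.1 z.2 with hG
  have hval : ∀ t ∈ GP p N, UW p N c t.1 * UW p N c t.2 = G (Φ t) := by
    intro t ht
    obtain ⟨i, x, x0, x1, x2, y1, y2, hg, -⟩ := key t ht
    simp only [hG, hΦ, x0]
    exact @tm_eq _ p N c (L i) (pc (rM t.1)) t.1 t.2 x y1 y2 hg
  have hinj : Set.InjOn Φ (GP p N : Set (Rl × Rl)) := by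
    intro t ht u hu htu
    obtain ⟨i, x, x0, x1, x2, y1, y2, -⟩ := key t ht
    obtain ⟨j, y, z0, z1, z2, w1, w2, -⟩ := key u hu
    simp only [hΦ, Prod.mk.injEq] at htu
    obtain ⟨⟨-, e1, e2⟩, e3⟩ := htu
    rw [x0, z0] at e3
    simp only [Option.some.injEq, Prod.mk.injEq] at e3
    obtain ⟨e3, e4⟩ := e3
    subst e3
    subst e4
    refine Prod.ext ?_ ?_
    · rw [← y1.2.1, ← w1.2.1, e1]
    · rw [← y2.2.1, ← w2.2.1, e2]
  set T : Finset ((ℕ × Dt × Dt) × Option (Fin k × VV)) :=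
    ((Finset.univ : Finset (Fin k)).sigma (fun i => (pcs N ×ˢ (DS p N ×ˢ DS p N)).sigma
      (fun s => @Gw _ (L i) N s))).image (fun y => (y.2.1, some (y.1, y.2.2))) with hT
  have hmem : ∀ t ∈ GP p N, Φ t ∈ T := by
    intro t ht
    obtain ⟨i, x, x0, x1, x2, y1, y2, -, q1, q2, q3⟩ := key t ht
    rw [hT, mem_image]
    refine ⟨⟨i, ⟨(pc (rM t.1), dat p N t.1, dat p N t.2), x⟩⟩, ?_, ?_⟩
    · rw [mem_sigma, mem_sigma]
      refine ⟨mem_univ _, mem_product.2 ⟨q1, mem_product.2 ⟨y1.1, y2.1⟩⟩, ?_⟩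
      refine @mem_Gw _ p N (L i) (pc (rM t.1)) t.1 t.2 x y1 y2 x1 ?_ ?_
      · rw [x2]; exact_mod_cast q2
      · rw [x2]; exact_mod_cast q3
    · simp only [hΦ, x0]
  calc ∑ t ∈ GP p N, UW p N c t.1 * UW p N c t.2
      = ∑ t ∈ GP p N, G (Φ t) := sum_congr rfl hval
    _ = ∑ y ∈ (GP p N).image Φ, G y := by rw [sum_image hinj]
    _ ≤ ∑ y ∈ T, G y := by
        refine sum_le_sum_of_subset_of_nonneg ?_ fun y _ _ => ?_
        · intro y hy
          obtain ⟨t, ht, rfl⟩ := mem_image.1 hy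
          exact hmem t ht
        · obtain ⟨y1, y2⟩ := y
          rcases y2 with _ | z
          · exact le_rfl
          · exact @tm_nonneg _ p N c (L z.1) hc _ _
    _ = ∑ y ∈ (Finset.univ : Finset (Fin k)).sigma (fun i => (pcs N ×ˢ (DS p N ×ˢ DS p N)).sigma
          (fun s => @Gw _ (L i) N s)), @tm _ (L y.1) p N c y.2.1 y.2.2 := by
        rw [hT, sum_image]
        rintro ⟨i, ⟨s, x⟩⟩ _ ⟨j, ⟨s', x'⟩⟩ _ h
        simp only [Prod.mk.injEq, Option.some.injEq] at h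
        obtain ⟨rfl, rfl, rfl⟩ := h
        rfl
    _ = _ := by
        rw [sum_sigma]
        refine sum_congr rfl fun i _ => ?_
        rw [sum_sigma]

section form

variable [Frm]

/-! ## Steps B and C -/

/-- in the window of a pair both terms are `hh` -/
lemma Gw_le (hc : c.ok) (s : ℕ × Dt × Dt) (h1 : tD s.2.1 ≠ 0) (h2 : 0 < tK s.2.1) :
    AA p N c s.2.1 * AA p N c s.2.2 * (dn (XR p N s.2.1) * dn (XR p N s.2.2)) *
      ∑ x ∈ Gw N s, ww p N c s.2.1 x * ww p N c s.2.2 x ≤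
    ∑ x ∈ Gam s.1 0 20, hh p N c s.2.1 x * hh p N c s.2.2 x := by
  rw [mul_sum]
  have hsub : Gw N s ⊆ (Gam s.1 0 20).filter (fun x => win N s.2.1 x ∧ win N s.2.2 x) := by
    intro x hx
    unfold Gw at hx
    rw [mem_Gam] at hx
    obtain ⟨x1, x2, x3, x4, x5⟩ := hx
    have hM : (0 : ℝ) < (mm x : ℝ) := by
      have : (0 : ℤ) < mm x := lt_of_le_of_lt (Int.natCast_nonneg _) x2
      exact_mod_cast this
    have hwu : wu s.2.1 ≤ 10 := by
      unfold wu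
      have h3 : (1 : ℝ) ≤ |(tD s.2.1 : ℝ)| := by
        have : (1 : ℤ) ≤ |tD s.2.1| := Int.one_le_abs h1
        exact_mod_cast this
      have h4 : (1 : ℝ) ≤ tK s.2.1 := by exact_mod_cast h2
      rw [div_le_iff₀ (by positivity)]
      nlinarith [one_le_mul_of_one_le_of_one_le h3 h4]
    rw [mem_filter, mem_Gam]
    have y1 := mul_le_mul_of_nonneg_right (le_max_left (wl N s.2.1) (wl N s.2.2)) hM.le
    have y2 := mul_le_mul_of_nonneg_right (le_max_right (wl N s.2.1) (wl N s.2.2)) hM.le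
    have y3 := mul_le_mul_of_nonneg_right (min_le_left (wu s.2.1) (wu s.2.2)) hM.le
    have y4 := mul_le_mul_of_nonneg_right (min_le_right (wu s.2.1) (wu s.2.2)) hM.le
    have y5 := mul_le_mul_of_nonneg_right hwu hM.le
    refine ⟨⟨x1, x2, x3, ?_, by linarith⟩, ⟨by linarith, by linarith⟩, by linarith, by linarith⟩
    rw [zero_mul]
    exact_mod_cast dd_pos x1
  refine (sum_le_sum_of_subset_of_nonneg hsub fun x _ _ => ?_).trans ?_
  · have h1 := AA_nonneg (p := p) (N := N) (c := c) s.2.1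
    have h1' := AA_nonneg (p := p) (N := N) (c := c) s.2.2
    have h2 := dn_nonneg (XR p N s.2.1)
    have h2' := dn_nonneg (XR p N s.2.2)
    have h3 := ww_nonneg (p := p) (N := N) hc s.2.1 x
    have h3' := ww_nonneg (p := p) (N := N) hc s.2.2 x
    positivity
  · refine (sum_le_sum (g := fun x => hh p N c s.2.1 x * hh p N c s.2.2 x) fun x hx => ?_).trans
      (sum_le_sum_of_subset_of_nonneg (filter_subset _ _) fun x _ _ =>
        mul_nonneg (hh_nonneg hc _ _) (hh_nonneg hc _ _))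
    obtain ⟨-, w1, w2⟩ := mem_filter.1 hx
    unfold hh
    rw [if_pos w1, if_pos w2]
    apply le_of_eq
    ring

theorem stepBC (hc : c.ok) {c₀ : ℝ}
    (hDS : ∀ t ∈ DS p N, tD t ≠ 0 ∧ 0 < tK t)
    (a6 : ∀ N₁ ∈ pcs N, ∀ t ∈ DS p N, ∀ t' ∈ DS p N, gp p N (tG t) (tX t) (tG t') (tX t') →
      ∑ x ∈ Gam N₁ (max (wl N t) (wl N t')) (min (wu t) (wu t')), ww p N c t x * ww p N c t' x *
          ((if ((XR p N t : ℕ) : ℤ) ∣ qf x (tK t * tD t) (-1) then 1 else 0) *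
            (if ((XR p N t' : ℕ) : ℤ) ∣ qf x (tK t' * tD t') (-1) then 1 else 0)) ≤
        2 * (dn (XR p N t) * dn (XR p N t')) *
          ∑ x ∈ Gam N₁ (max (wl N t) (wl N t')) (min (wu t) (wu t')),
            ww p N c t x * ww p N c t' x + (N : ℝ) ^ (1 - c₀))
    {B : ℝ} (hB : 0 ≤ B) (a8 : ((DS p N).card : ℝ) ≤ B) (a8' : ∀ t ∈ DS p N, AA p N c t ≤ B) :
    ∑ s ∈ pcs N ×ˢ (DS p N ×ˢ DS p N), ∑ x ∈ Gw N s, tm p N c s x ≤
      2 * ∑ N₁ ∈ pcs N, ∑ x ∈ Gam N₁ 0 20, (∑ t ∈ DS p N, hh p N c t x) ^ 2 +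
        5 * B ^ 4 * (N : ℝ) ^ (1 - c₀) := by
  have hN0 : 0 ≤ (N : ℝ) ^ (1 - c₀) := by positivity
  have h1 : ∀ s ∈ pcs N ×ˢ (DS p N ×ˢ DS p N), ∑ x ∈ Gw N s, tm p N c s x ≤
      2 * ∑ x ∈ Gam s.1 0 20, hh p N c s.2.1 x * hh p N c s.2.2 x +
        B ^ 2 * (N : ℝ) ^ (1 - c₀) := by
    intro s hs
    rw [mem_product, mem_product] at hs
    obtain ⟨hs1, hs2, hs3⟩ := hs
    have hA1 := AA_nonneg (p := p) (N := N) (c := c) s.2.1
    have hA2 := AA_nonneg (p := p) (N := N) (c := c) s.2.2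
    have hpos : 0 ≤ ∑ x ∈ Gam s.1 0 20, hh p N c s.2.1 x * hh p N c s.2.2 x :=
      sum_nonneg fun x _ => mul_nonneg (hh_nonneg hc _ _) (hh_nonneg hc _ _)
    by_cases hg : gp p N (tG s.2.1) (tX s.2.1) (tG s.2.2) (tX s.2.2)
    · have h2 : ∑ x ∈ Gw N s, tm p N c s x = AA p N c s.2.1 * AA p N c s.2.2 *
          ∑ x ∈ Gw N s, ww p N c s.2.1 x * ww p N c s.2.2 x *
            (ind p N s.2.1 x * ind p N s.2.2 x) := by
        rw [mul_sum]
        refine sum_congr rfl fun x _ => ?_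
        unfold tm
        rw [if_pos hg]
      have h3 := a6 s.1 hs1 s.2.1 hs2 s.2.2 hs3 hg
      have h4 := Gw_le (p := p) (N := N) hc s (hDS _ hs2).1 (hDS _ hs2).2
      rw [h2]
      calc AA p N c s.2.1 * AA p N c s.2.2 * ∑ x ∈ Gw N s, ww p N c s.2.1 x * ww p N c s.2.2 x *
            (ind p N s.2.1 x * ind p N s.2.2 x)
          ≤ AA p N c s.2.1 * AA p N c s.2.2 * (2 * (dn (XR p N s.2.1) * dn (XR p N s.2.2)) *
            (∑ x ∈ Gw N s, ww p N c s.2.1 x * ww p N c s.2.2 x) + (N : ℝ) ^ (1 - c₀)) :=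
            mul_le_mul_of_nonneg_left h3 (mul_nonneg hA1 hA2)
        _ = 2 * (AA p N c s.2.1 * AA p N c s.2.2 * (dn (XR p N s.2.1) * dn (XR p N s.2.2)) *
            ∑ x ∈ Gw N s, ww p N c s.2.1 x * ww p N c s.2.2 x) +
            AA p N c s.2.1 * AA p N c s.2.2 * (N : ℝ) ^ (1 - c₀) := by ring
        _ ≤ _ := by
            refine add_le_add (mul_le_mul_of_nonneg_left h4 (by norm_num)) ?_
            refine mul_le_mul_of_nonneg_right ?_ hN0
            rw [pow_two]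
            exact mul_le_mul (a8' _ hs2) (a8' _ hs3) hA2 hB
    · have h2 : ∑ x ∈ Gw N s, tm p N c s x = 0 := by
        refine sum_eq_zero fun x _ => ?_
        unfold tm
        rw [if_neg hg]
      rw [h2]
      positivity
  refine (sum_le_sum h1).trans ?_
  rw [sum_add_distrib, ← mul_sum, sum_const, nsmul_eq_mul]
  refine add_le_add (mul_le_mul_of_nonneg_left (le_of_eq ?_) (by norm_num)) ?_
  · rw [sum_product]
    refine sum_congr rfl fun N₁ _ => ?_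
    dsimp only
    rw [sum_comm]
    refine sum_congr rfl fun x _ => ?_
    rw [sum_product, pow_two, sum_mul_sum]
  · rw [card_product, card_product]
    push_cast
    have h5 : ((pcs N).card : ℝ) ≤ 5 := by exact_mod_cast card_pcs N
    calc ((pcs N).card : ℝ) * (((DS p N).card : ℝ) * ((DS p N).card : ℝ)) *
          (B ^ 2 * (N : ℝ) ^ (1 - c₀))
        ≤ 5 * (B * B) * (B ^ 2 * (N : ℝ) ^ (1 - c₀)) := by gcongr
      _ = _ := by ring

end form

theorem specI9A : SpecI9A := by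
  intro k L hL hI4 hI6 hI8 c hc
  choose c₀ hc₀ h6 using hI6
  -- a common exponent
  obtain ⟨c₁, hc₁, hc₁'⟩ : ∃ c₁ : ℝ, 0 < c₁ ∧ ∀ i, c₁ ≤ c₀ i := by
    rcases isEmpty_or_nonempty (Fin k) with he | he
    · exact ⟨1, one_pos, fun i => (IsEmpty.false i).elim⟩
    · obtain ⟨i₀, hi₀⟩ := Finite.exists_min c₀
      exact ⟨c₀ i₀, hc₀ i₀, hi₀⟩
  have g4 : Good (fun p => ∀ i : Fin k, ∀ᶠ N : ℕ in atTop, ∀ r ∈ RG p N, ∀ x : VV,
      cross x.1 x.2 = -1 → @mm _ (L i) x = rM r → @dd _ (L i) x = rho p N r →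
        @FA _ (L i) p N r x) := goodAll fun i => hI4 i
  have g6 := goodAll fun i => h6 i c hc
  refine T4.Good.mono (T4.Good.and (T4.Good.and g4 g6) (hI8 (c₁ / (2 : ℝ)) (by positivity) c hc))
    fun p hp => ?_
  obtain ⟨⟨h4, h6⟩, h8⟩ := hp
  have herr : ∀ᶠ N : ℕ in atTop, (5 * k : ℝ) ≤ (N : ℝ) ^ (c₁ / 2) :=
    ((tendsto_rpow_atTop (show (0 : ℝ) < c₁ / 2 by positivity)).comp
      tendsto_natCast_atTop_atTop).eventually_ge_atTop _
  filter_upwards [Filter.eventually_all.2 h4, Filter.eventually_all.2 h6, h8, herr,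
    eventually_ge_atTop 4] with N a4 a6 a8 aerr hN4
  have hN1 : (1 : ℝ) ≤ N := by exact_mod_cast (by omega : 1 ≤ N)
  have hNr : (0 : ℝ) < N := by linarith
  have hDS : ∀ t ∈ DS p N, tD t ≠ 0 ∧ 0 < tK t := by
    intro t ht
    unfold DS at ht
    rw [mem_filter] at ht
    exact ⟨ht.2.2.2.1, ht.2.2.1⟩
  refine (stepA hL hc hN4 a4).trans ?_
  have h1 : ((N : ℝ) ^ (c₁ / 2 / 8)) ^ 4 = (N : ℝ) ^ (c₁ / 4) := by
    rw [← Real.rpow_natCast, ← Real.rpow_mul hNr.le]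
    congr 1
    push_cast
    ring
  have hBC : ∀ i : Fin k, ∑ s ∈ pcs N ×ˢ (DS p N ×ˢ DS p N), ∑ x ∈ @Gw _ (L i) N s,
        @tm _ (L i) p N c s x ≤
      2 * ∑ N₁ ∈ pcs N, ∑ x ∈ @Gam _ (L i) N₁ 0 20, (∑ t ∈ DS p N, @hh _ (L i) p N c t x) ^ 2 +
        5 * (N : ℝ) ^ (c₁ / 4) * (N : ℝ) ^ (1 - c₁) := by
    intro i
    have h2 := @stepBC _ p N c (L i) hc (c₀ i) hDS (a6 i) ((N : ℝ) ^ (c₁ / 2 / 8)) (by positivity)
      a8.1 a8.2
    refine h2.trans (add_le_add le_rfl ?_)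
    rw [h1]
    refine mul_le_mul_of_nonneg_left ?_ (by positivity)
    exact Real.rpow_le_rpow_of_exponent_le hN1 (by linarith [hc₁' i])
  refine (sum_le_sum fun i _ => hBC i).trans ?_
  rw [sum_add_distrib, ← mul_sum, sum_const, card_univ, Fintype.card_fin, nsmul_eq_mul]
  refine add_le_add le_rfl ?_
  have h2 : (N : ℝ) ^ (c₁ / 2) * (N : ℝ) ^ (1 - c₁) * (N : ℝ) ^ (c₁ / 2) = N := by
    rw [← Real.rpow_add hNr, ← Real.rpow_add hNr]
    rw [show c₁ / 2 + (1 - c₁) + c₁ / 2 = 1 by ring, Real.rpow_one]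
  calc (k : ℝ) * (5 * (N : ℝ) ^ (c₁ / 4) * (N : ℝ) ^ (1 - c₁))
      = 5 * k * (N : ℝ) ^ (c₁ / 4) * (N : ℝ) ^ (1 - c₁) := by ring
    _ ≤ (N : ℝ) ^ (c₁ / 2) * (N : ℝ) ^ (c₁ / 2) * (N : ℝ) ^ (1 - c₁) := by
        have h3 : (N : ℝ) ^ (c₁ / 4) ≤ (N : ℝ) ^ (c₁ / 2) :=
          Real.rpow_le_rpow_of_exponent_le hN1 (by linarith)
        gcongr
    _ = (N : ℝ) ^ (c₁ / 2) * (N : ℝ) ^ (1 - c₁) * (N : ℝ) ^ (c₁ / 2) := by ring
    _ = N := h2

end Pool.Agent.Lib.MP391708.TF.I
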