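import Pool.Agent.Lib.MP_391708_nt.TF.ISpec

/-!
# Group I: two pieces of the assembly I9
-/

set_option autoImplicit false

namespace Pool.Agent.Lib.MP391708.TF.I

variable [Pool.Agent.Lib.MP391708.TF.Aa] [Pool.Agent.Lib.MP391708.TF.Frm]

open Finset Filter Topology
open Pool.Agent.Lib.MP391708.Eqd (V cross pairs)
open scoped Classical

noncomputable section

/-- `dd x` is PP-free and `M² + a` is tame -/
def gx (p : Prm) (N : ℕ) (x : VV) : Prop :=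
  (∀ l ∈ PP p N, ¬ (l : ℤ) ∣ dd x) ∧ tame p ((mm x).toNat ^ 2 + aa)

/-- `∏_{l ∈ PP, l ∣ M² + a} (1 + C/l)` -/
def PI (p : Prm) (N : ℕ) (C : ℝ) (M : ℕ) : ℝ :=
  ∏ l ∈ (PP p N).filter (fun l => l ∣ M ^ 2 + aa), (1 + C / (l : ℝ))

/-- the term of the data `t` in the sum for fixed `x` -/
def hh (p : Prm) (N : ℕ) (c : Wts) (t : Dt) (x : VV) : ℝ :=
  if win N t x then AA p N c t * dn (XR p N t) * ww p N c t x else 0

/-- **I9D**: the sum over the data for fixed `x`.  If `hh t x ≠ 0` then `CC`, `PH ≠ 0`, so `QQ` (if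
`l ∣ κ G`, the second part of `QQ` is trivial) and I5 applies; `t ↦ ((κ, G), (D, X))` goes into
`CS` and `S2 (M, G, P, Q)`; the sum over `(D, X)` is PHU (`exp (τ S0) kp = 1 / W₀² ≤ 1`), the sum
over `(κ, G)` is I7 and I2.  `C₁` is the constant of PHU. -/
def SpecI9D : Prop :=
  SpecPHU → SpecI2 → SpecI5 → SpecI7 → ∀ c : Wts, c.ok → ∃ C₁ : ℝ, 0 < C₁ ∧
    Good (fun p => ∃ C : ℝ, 0 < C ∧ ∀ᶠ N : ℕ in atTop, ∀ x : VV, cross x.1 x.2 = -1 →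
      (N : ℤ) ≤ 2 * mm x → mm x ≤ 8 * N →
      ∑ t ∈ DS p N, hh p N c t x ≤ if gx p N x then C * PI p N C₁ (mm x).toNat else 0)

/-- **I9E**: the sum over `x`: at most `4 C₂` such `x` over each `M ≤ 8 N` (`Eqd.card_fib_norm`,
`dd x ∣ (M² + a) / sm (M² + a)`), then I3. -/
def SpecI9E : Prop :=
  SpecAUT → SpecI2 → SpecI3 → ∀ C₁ : ℝ, 0 < C₁ → Good (fun p => ∃ C : ℝ, 0 < C ∧ ∀ᶠ N : ℕ in atTop,
    ∀ N₁ ∈ pcs N, ∑ x ∈ Gam N₁ 0 20,
      (if gx p N x then PI p N C₁ (mm x).toNat ^ 2 else 0) ≤ C * N)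

/-- **I9ABC**: the rest: from relations to data, comparison, exchange of the sums; over the forms
`L i` (for a relation `r` there are `i` and `x` with `mm x = rM r`, `dd x = rho r`) -/
def SpecI9A : Prop :=
  ∀ (k : ℕ) (L : Fin k → Frm), Cls L → (∀ i, @SpecI4 _ (L i)) → (∀ i, @SpecI6 _ (L i)) → SpecI8 →
  ∀ c : Wts, c.ok → Good (fun p => ∀ᶠ N : ℕ in atTop,
    ∑ t ∈ GP p N, UW p N c t.1 * UW p N c t.2 ≤
      2 * ∑ i : Fin k, ∑ N₁ ∈ pcs N, ∑ x ∈ @Gam _ (L i) N₁ 0 20,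
        (∑ t ∈ DS p N, @hh _ (L i) p N c t x) ^ 2 + N)

/-- **I9** (assembly over the forms) -/
def SpecI9 : Prop :=
  SpecPHU → SpecI2 → SpecI3 → SpecI8 → (∀ F : Frm, @SpecAUT _ F) → (∀ F : Frm, @SpecI4 _ F) →
  (∀ F : Frm, @SpecI5 _ F) → (∀ F : Frm, @SpecI6 _ F) → (∀ F : Frm, @SpecI7 _ F) → SpecCLS → SpecIG

end

end Pool.Agent.Lib.MP391708.TF.I
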